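import Pool.Agent.CUB2.StmtsF

/-!
# CUB2, module CHN: the inductive step
-/

set_option autoImplicit false

open CategoryTheory AlgebraicGeometry Limits Polynomial TopologicalSpace

namespace CUB

open Pool.Agent.Lib_helper55.Beil Pool.Agent.Lib_helper66.OneP

universe v

namespace CHN

open Classical in
/-- The pairs which are not processed. -/
noncomputable def bad {k : Type} [Field k] {X₀ : Var k} (𝒱 : Finset X₀.X.Opens)
    (S : ∀ V : X₀.X.Opens, Finset Γ(X₀.X, V)) {Y : Scheme.{0}} (f : Y ⟶ X₀.X) :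
    Finset (Σ V : X₀.X.Opens, Γ(X₀.X, V)) :=
  (𝒱.sigma S).filter (fun p => (∃ y : Y, f y ∈ p.1) ∧ ¬ Processed f p.1 p.2)

lemma mem_bad {k : Type} [Field k] {X₀ : Var k} (𝒱 : Finset X₀.X.Opens)
    (S : ∀ V : X₀.X.Opens, Finset Γ(X₀.X, V)) {Y : Scheme.{0}} (f : Y ⟶ X₀.X)
    (p : Σ V : X₀.X.Opens, Γ(X₀.X, V)) :
    p ∈ bad 𝒱 S f ↔ (p.1 ∈ 𝒱 ∧ p.2 ∈ S p.1) ∧ (∃ y : Y, f y ∈ p.1) ∧
      ¬ Processed f p.1 p.2 := by
  classical
  unfold bad
  rw [Finset.mem_filter, Finset.mem_sigma]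

lemma bad_comp (hPPE : S_PPE) {k : Type} [Field k] {X₀ : Var k} (𝒱 : Finset X₀.X.Opens)
    (S : ∀ V : X₀.X.Opens, Finset Γ(X₀.X, V)) {Z Y : Scheme.{0}} (q : Z ⟶ Y) (f : Y ⟶ X₀.X) :
    bad 𝒱 S (q ≫ f) ⊆ bad 𝒱 S f := by
  intro p hp
  rw [mem_bad] at hp ⊢
  obtain ⟨h1, ⟨z, hz⟩, h2⟩ := hp
  refine ⟨h1, ⟨q z, ?_⟩, fun h => h2 (hPPE _ _ _ q f p.1 p.2 h)⟩
  rw [Scheme.Hom.comp_apply] at hz
  exact hz

/-- The dimension of the complement of a nonempty open subvariety of an integral variety. -/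
lemma dimLE_compl (hDST : S_DST) {k : Type} [Field k] {Z X U : Var k} (a : ClosedIn Z X)
    (j : OpenIn U X) (h : Complementary a j) (hX : IsIntegral X.X)
    (hne : ∃ x : X.X, x ∈ Set.range j.g) (n : ℕ) (hd : X.DimLE (n + 1)) : Z.DimLE n := by
  intro z
  have h1 : X.dim (a.g z) = Z.dim z := dim_map a.g a.comm z
  rw [← h1]
  have h2 : genericPoint X.X ≠ a.g z := by
    intro h3
    obtain ⟨x, hx⟩ := hne
    have h4 : genericPoint X.X ∈ Set.range j.g :=
      (genericPoint_specializes x).mem_open j.g.isOpenEmbedding.isOpen_range hx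
    have h5 : a.g z ∈ Set.range a.g := ⟨z, rfl⟩
    rw [show Set.range a.g = (Set.range j.g)ᶜ from h, ← h3] at h5
    exact h5 h4
  have h3 := hDST.1 k X _ _ (genericPoint_specializes (a.g z)) h2
  obtain ⟨m, hm⟩ := hDST.2.1 k X (genericPoint X.X)
  obtain ⟨r, hr⟩ := hDST.2.1 k X (a.g z)
  have h4 := hd (genericPoint X.X)
  rw [hm] at h3 h4
  rw [hr] at h3 ⊢
  have h5 : r < m := by exact_mod_cast h3
  have h6 : m ≤ n + 1 := by exact_mod_cast h4
  have h7 : r ≤ n := by omega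
  exact_mod_cast h7

end CHN

open CHN in
theorem t_CHN : M_CHN.{v} := by
  intro hDST hGST hPPE hSEP hQAF hQEM hOPEN hMOD hDESC hREDI k E _ _ _ _ T hT d hgood haff hP
    hpush i₀ X hX
  refine hREDI k E T hT i₀ X (fun Z => hgood i₀ Z) ?_
  intro X₀ hX₀ a₀
  have hdX₀ : X₀.DimLE (i₀ + (d + 1)) := by
    intro x
    have h1 : X.dim (a₀.g x) = X₀.dim x := dim_map a₀.g a₀.comm x
    rw [← h1]
    exact hX _
  -- the finite covering
  obtain ⟨𝒱, h𝒱, hcov⟩ : ∃ 𝒱 : Finset X₀.X.Opens, (∀ V ∈ 𝒱, IsAffineOpen V) ∧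
      ∀ x : X₀.X, ∃ V ∈ 𝒱, x ∈ V := by
    have h1 : ∀ x : X₀.X, ∃ V : X₀.X.Opens, IsAffineOpen V ∧ x ∈ V := by
      intro x
      obtain ⟨W, hW, hxW, -⟩ := exists_isAffineOpen_mem_and_subset (X := X₀.X) (U := ⊤)
        (x := x) trivial
      exact ⟨W, hW, hxW⟩
    choose V hV1 hV2 using h1
    obtain ⟨t, ht⟩ := isCompact_univ.elim_finite_subcover (fun x : X₀.X => ((V x : X₀.X.Opens) : Set X₀.X))
      (fun x => (V x).isOpen) (fun x _ => Set.mem_iUnion.mpr ⟨x, hV2 x⟩)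
    classical
    refine ⟨t.image V, ?_, ?_⟩
    · intro W hW
      obtain ⟨x, -, rfl⟩ := Finset.mem_image.mp hW
      exact hV1 x
    · intro x
      obtain ⟨y, hy1, hy2⟩ := Set.mem_iUnion₂.mp (ht (Set.mem_univ x))
      exact ⟨V y, Finset.mem_image.mpr ⟨y, hy1, rfl⟩, hy2⟩
  obtain ⟨S, hS⟩ : ∃ S : ∀ V : X₀.X.Opens, Finset Γ(X₀.X, V), ∀ V : X₀.X.Opens, IsAffineOpen V →
      Subring.closure (Set.range ((Scheme.ΓSpecIso (CommRingCat.of k)).inv ≫
        X₀.f.appLE ⊤ V le_top).hom ∪ (S V : Set Γ(X₀.X, V))) = ⊤ := by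
    have h1 : ∀ V : X₀.X.Opens, ∃ s : Finset Γ(X₀.X, V), IsAffineOpen V →
        Subring.closure (Set.range ((Scheme.ΓSpecIso (CommRingCat.of k)).inv ≫
          X₀.f.appLE ⊤ V le_top).hom ∪ (s : Set Γ(X₀.X, V))) = ⊤ := by
      intro V
      by_cases hV : IsAffineOpen V
      · obtain ⟨s, hs⟩ := hSEP.2 k X₀ V hV
        exact ⟨s, fun _ => hs⟩
      · exact ⟨∅, fun h => absurd h hV⟩
    choose S hS using h1
    exact ⟨S, hS⟩
  -- all pairs are processed
  have base : ∀ (i : ℕ) (Y : Var k) (_ : IsIntegral Y.X) (f : Y.X ⟶ X₀.X)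
      (_ : IsAffineHom f), bad 𝒱 S f = ∅ → (T i).InjC Y := by
    intro i Y hY f hf hb
    have hqa : Y.X.IsQuasiAffine := by
      refine hQAF k X₀ Y f hf hY (𝒱 : Set X₀.X.Opens) S ?_ ?_ ?_
      · intro x
        obtain ⟨V, hV1, hV2⟩ := hcov x
        exact ⟨V, hV1, hV2⟩
      · intro V hV
        exact ⟨h𝒱 V hV, hS V (h𝒱 V hV)⟩
      · intro V hV hne h hh
        by_contra hcon
        have h1 : (⟨V, h⟩ : Σ V : X₀.X.Opens, Γ(X₀.X, V)) ∈ bad 𝒱 S f :=
          (mem_bad _ _ _ _).mpr ⟨⟨hV, hh⟩, hne, hcon⟩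
        rw [hb] at h1
        exact absurd h1 (Finset.notMem_empty _)
    obtain ⟨A, i1, i2, i3, ⟨j⟩⟩ := hQEM k Y hqa
    refine hOPEN k E i (T i) Y (aff k A) j (hgood i) (haff i (aff k A) ?_)
    change IsAffine (Spec (CommRingCat.of A))
    infer_instance
  -- Claim B
  have claimB : ∀ (m i : ℕ) (Y : Var k) (_ : IsIntegral Y.X) (f : Y.X ⟶ X₀.X)
      (_ : IsAffineHom f), f ≫ X₀.f = Y.f → Y.DimLE (i + (d + 1)) → (bad 𝒱 S f).card ≤ m →
      (T i).InjC Y := by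
    intro m
    induction m with
    | zero =>
      intro i Y hY f hf hfc _ hcard
      exact base i Y hY f hf (Finset.card_eq_zero.mp (Nat.le_zero.mp hcard))
    | succ m ih =>
      intro i Y hY f hf hfc hYd hcard
      by_cases hb : bad 𝒱 S f = ∅
      · exact base i Y hY f hf hb
      · obtain ⟨⟨V, h⟩, hVh⟩ := Finset.nonempty_iff_ne_empty.mpr hb
        obtain ⟨⟨hV1, hV2⟩, hne, hnp⟩ := (mem_bad _ _ _ _).mp hVh
        obtain ⟨X₁, P, Y', hX₁, hY', M, B, σ, j, g, hσ, hcompl, hg, hMj, hgaff, hproc, hdim⟩ :=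
          hGST k X₀ Y hY f hf V h hfc hne
        obtain ⟨hd1, hd2⟩ := hdim _ hYd
        -- the variety `Y'`
        have hgc : g ≫ X₀.f = Y'.f := by
          rw [hg, Category.assoc, Category.assoc, Category.assoc, hfc, M.f.comm, B.p.comm, j.comm]
        have hd2' : Y'.DimLE ((i + 1) + (d + 1)) := by
          have h1 : i + (d + 1) + 1 = (i + 1) + (d + 1) := by omega
          rw [← h1]
          exact hd2
        have hlt : (bad 𝒱 S g).card < (bad 𝒱 S f).card := by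
          apply Finset.card_lt_card
          rw [Finset.ssubset_iff_of_subset]
          · refine ⟨⟨V, h⟩, hVh, ?_⟩
            intro h1
            exact ((mem_bad _ _ _ _).mp h1).2.2 hproc
          · rw [hg, show j.g ≫ B.p.g ≫ M.f.g ≫ f = (j.g ≫ B.p.g ≫ M.f.g) ≫ f by
              simp only [Category.assoc]]
            exact bad_comp hPPE 𝒱 S _ f
        have hY'inj : (T (i + 1)).InjC Y' := ih (i + 1) Y' hY' g hgaff hgc hd2' (by omega)
        have hX₁inj' : (T (i + 1)).InjC X₁ := by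
          apply hP
          have h1 : i + (d + 1) = (i + 1) + d := by omega
          rw [← h1]
          exact hd1
        have hX₁inj : (T i).InjC X₁ := hDESC k E T hT i P X₁ Y' B σ j hσ hcompl hX₁inj' hY'inj
        have hne' : ∃ x : Y.X, x ∈ Set.range M.j.g := by
          obtain ⟨y, hy⟩ := hne
          refine ⟨y, ?_⟩
          rw [hMj]
          exact hy
        have hZ : (T i).InjC M.Z :=
          hP i M.Z (dimLE_compl hDST M.a M.j M.h hY hne' (i + d) hYd)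
        exact hMOD k E T hT i X₁ Y M (hgood i) hX₁inj hZ
          (hpush i X₁ Y M hX₁ hY hYd hne')
  exact claimB _ i₀ X₀ hX₀ (𝟙 X₀.X) inferInstance (Category.id_comp _) hdX₀ le_rfl

end CUB
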