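import Pool.Agent.CUB2.StmtsF

/-!
# CUB2, module IND: the induction on the dimension
-/

set_option autoImplicit false

open CategoryTheory AlgebraicGeometry Limits Polynomial TopologicalSpace

namespace CUB

open Pool.Agent.Lib_helper55.Beil Pool.Agent.Lib_helper66.OneP

universe v

namespace IND

variable {k : Type} [Field k]

/-- The generic point of a modification has an image of the same dimension. -/
lemma dim_generic (X' X : Var k) (M : Modif X' X) [IsIntegral X'.X]
    (h : ∃ x : X.X, x ∈ Set.range M.j.g) :
    X.dim (M.f.g (genericPoint X'.X)) = X'.dim (genericPoint X'.X) := by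
  obtain ⟨x, u, -⟩ := h
  have hopen : IsOpen (Set.range M.j'.g) := M.j'.g.isOpenEmbedding.isOpen_range
  have hne : (Set.univ ∩ Set.range M.j'.g).Nonempty :=
    ⟨_, trivial, ⟨M.fU.symm.cl.g u, rfl⟩⟩
  have hgen : genericPoint X'.X ∈ Set.range M.j'.g :=
    ((genericPoint_spec X'.X).mem_open_set_iff hopen).2 hne
  obtain ⟨η, hη⟩ := hgen
  have hw : M.f.g (M.j'.g η) = M.j.g (M.fU.e.hom η) := by
    have h1 : (M.j'.g ≫ M.f.g) η = (M.fU.e.hom ≫ M.j.g) η := by rw [M.hU.w]
    exact h1
  rw [← hη, hw]
  rw [dim_map M.j.g M.j.comm, dim_map M.fU.e.hom M.fU.comm, dim_map M.j'.g M.j'.comm]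

end IND

theorem t_IND : M_IND.{v} := by
  intro hDST hFDM hP0 hPUSHG hPUSHR hCHN k E _ _ _ _ T hT hSS haff
  have key : ∀ d : ℕ, ∀ (i : ℕ) (X : Var k), X.DimLE (i + d) → (T i).InjC X := by
    intro d
    induction d with
    | zero =>
      intro i X hX
      exact hP0 k E T hT i (hSS i) (haff i) X hX
    | succ d ih =>
      refine hCHN k E T hT d hSS haff ih ?_
      intro i X' X M hX' hX hdim hne c hc
      rcases Nat.eq_zero_or_pos d with rfl | hd
      · refine hPUSHG k E i X' X M.f ?_ c hc
        intro x hx
        have hgen := IND.dim_generic X' X M hne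
        have hle : X'.dim (genericPoint X'.X) ≤ ((i + 1 : ℕ) : Cardinal) := by
          rw [← hgen]
          exact hdim _
        have hxe : x = genericPoint X'.X := by
          by_contra hxne
          have hlt := hDST.1 k X' (genericPoint X'.X) x (genericPoint_specializes x)
            (fun e => hxne e.symm)
          rw [hx] at hlt
          exact absurd (lt_of_lt_of_le hlt hle) (by simp)
        rw [hxe, hgen, ← hxe, hx]
      · refine hPUSHR k E T hT i X' X M.f ?_ c hc
        intro V hV
        refine ih i V ?_
        intro x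
        refine (hV x).trans ?_
        exact_mod_cast (by omega : i + 1 ≤ i + d)
  intro i X
  obtain ⟨n, hn⟩ := hFDM k X
  refine key n i X ?_
  intro x
  refine (hn x).trans ?_
  exact_mod_cast (by omega : n ≤ i + n)

end CUB
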