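import Pool.Agent.CUB2.StmtsG

/-!
# CUB2, module AFY: the complement of the graph is affine over the base
-/

set_option autoImplicit false

open CategoryTheory AlgebraicGeometry Limits Polynomial TopologicalSpace

namespace CUB

open Pool.Agent.Lib_helper55.Beil Pool.Agent.Lib_helper66.OneP

universe v

namespace GAFY

theorem fin_basic (S : Scheme.{0}) [IsAffine S] [IsLocallyNoetherian S] (W : S.Opens) :
    ∃ s : Finset Γ(S, ⊤), ∀ y : S, y ∈ W ↔ ∃ b ∈ s, y ∈ S.basicOpen b := by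
  classical
  have hN : IsNoetherian S := { }
  have hc : IsCompact (W : Set S) := NoetherianSpace.isCompact _
  have h1 : ∀ x : W, ∃ b : Γ(S, ⊤), x.1 ∈ S.basicOpen b ∧ S.basicOpen b ≤ W := by
    intro x
    obtain ⟨_, ⟨_, ⟨b, rfl⟩, rfl⟩, hx, hle⟩ := (isBasis_basicOpen S).exists_subset_of_mem_open x.2 W.isOpen
    exact ⟨b, hx, hle⟩
  choose b hb hb' using h1
  obtain ⟨t, ht⟩ := hc.elim_finite_subcover (fun x : W => (S.basicOpen (b x) : Set S))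
    (fun x => (S.basicOpen (b x)).isOpen) (fun x hx => Set.mem_iUnion.2 ⟨⟨x, hx⟩, hb ⟨x, hx⟩⟩)
  refine ⟨t.image b, fun y => ⟨fun hy => ?_, ?_⟩⟩
  · obtain ⟨x, hx, hy'⟩ := Set.mem_iUnion₂.1 (ht hy)
    exact ⟨b x, Finset.mem_image_of_mem _ hx, hy'⟩
  · rintro ⟨c, hc, hy⟩
    obtain ⟨x, -, rfl⟩ := Finset.mem_image.1 hc
    exact hb' x hy

end GAFY

open GAFY in
theorem t_AFY : M_AFY := by
  intro hDIAG k _ H X X₁ Y e σ j hσ1 hσ2 hj
  obtain ⟨T, hT, hTa⟩ := hDIAG k H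
  have hje : IsOpenImmersion j.g := j.isOpen
  have hee : IsClosedImmersion e.g := e.closed
  -- the morphisms
  obtain ⟨π₁, hπ₁⟩ : ∃ π₁ : (X₁.prod H.P).X ⟶ X₁.X, π₁ = pullback.fst X₁.f H.P.f := ⟨_, rfl⟩
  obtain ⟨π₂, hπ₂⟩ : ∃ π₂ : (X₁.prod H.P).X ⟶ H.P.X, π₂ = pullback.snd X₁.f H.P.f := ⟨_, rfl⟩
  obtain ⟨a₁, ha₁⟩ : ∃ a₁ : (X.prod H.P).X ⟶ X.X, a₁ = pullback.fst X.f H.P.f := ⟨_, rfl⟩
  obtain ⟨a₂, ha₂⟩ : ∃ a₂ : (X.prod H.P).X ⟶ H.P.X, a₂ = pullback.snd X.f H.P.f := ⟨_, rfl⟩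
  obtain ⟨q₁, hq₁⟩ : ∃ q₁ : (H.P.prod H.P).X ⟶ H.P.X, q₁ = pullback.fst H.P.f H.P.f := ⟨_, rfl⟩
  obtain ⟨q₂, hq₂⟩ : ∃ q₂ : (H.P.prod H.P).X ⟶ H.P.X, q₂ = pullback.snd H.P.f H.P.f := ⟨_, rfl⟩
  obtain ⟨Δ, hΔ⟩ : ∃ Δ : H.P.X ⟶ (H.P.prod H.P).X, Δ = pullback.diagonal H.P.f := ⟨_, rfl⟩
  have hΔ1 : Δ ≫ q₁ = 𝟙 _ := by
    rw [hΔ, hq₁]
    exact pullback.diagonal_fst H.P.f
  have hΔ2 : Δ ≫ q₂ = 𝟙 _ := by
    rw [hΔ, hq₂]
    exact pullback.diagonal_snd H.P.f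
  have hPP : ∀ {Z : Scheme.{0}} {u v : Z ⟶ (H.P.prod H.P).X}, u ≫ q₁ = v ≫ q₁ → u ≫ q₂ = v ≫ q₂ → u = v := by
    intro Z u v h1 h2
    rw [hq₁] at h1
    rw [hq₂] at h2
    exact pullback.hom_ext h1 h2
  have hX₁P : ∀ {Z : Scheme.{0}} {u v : Z ⟶ (X₁.prod H.P).X}, u ≫ π₁ = v ≫ π₁ → u ≫ π₂ = v ≫ π₂ → u = v := by
    intro Z u v h1 h2
    rw [hπ₁] at h1
    rw [hπ₂] at h2
    exact pullback.hom_ext h1 h2
  have hπc : π₁ ≫ X₁.f = π₂ ≫ H.P.f := by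
    rw [hπ₁, hπ₂]
    exact pullback.condition
  have hac : a₁ ≫ X.f = a₂ ≫ H.P.f := by
    rw [ha₁, ha₂]
    exact pullback.condition
  have hqc : q₁ ≫ H.P.f = q₂ ≫ H.P.f := by
    rw [hq₁, hq₂]
    exact pullback.condition
  have hec : e.g ≫ a₁ ≫ X.f = X₁.f := by
    rw [ha₁]
    exact e.comm
  rw [← hπ₁, ← ha₁, ← ha₂]
  rw [← hπ₁] at hσ1
  rw [← hπ₂, ← ha₂] at hσ2
  -- the morphism to `P × P`
  obtain ⟨χ, hχ1, hχ2⟩ : ∃ χ : (X₁.prod H.P).X ⟶ (H.P.prod H.P).X, χ ≫ q₁ = π₁ ≫ e.g ≫ a₂ ∧ χ ≫ q₂ = π₂ := by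
    have h1 : (π₁ ≫ e.g ≫ a₂) ≫ H.P.f = π₂ ≫ H.P.f := by
      rw [Category.assoc, Category.assoc, ← hac, hec, hπc]
    refine ⟨pullback.lift (π₁ ≫ e.g ≫ a₂) π₂ h1, ?_, ?_⟩
    · rw [hq₁]
      exact pullback.lift_fst _ _ _
    · rw [hq₂]
      exact pullback.lift_snd _ _ _
  -- the graph is the preimage of the diagonal
  have hgraph : ∀ z : (X₁.prod H.P).X, χ z ∈ Set.range Δ ↔ z ∈ Set.range σ.g := by
    intro z
    constructor
    · rintro ⟨p, hp⟩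
      obtain ⟨w, hw1, hw2⟩ := Scheme.Pullback.exists_preimage_pullback (f := χ) (g := Δ) z p hp.symm
      have h1 : (pullback.fst χ Δ ≫ π₁) ≫ σ.g = pullback.fst χ Δ := by
        apply hX₁P
        · rw [Category.assoc, hσ1, Category.comp_id]
        · have h2 : pullback.fst χ Δ ≫ χ ≫ q₁ = pullback.fst χ Δ ≫ χ ≫ q₂ := by
            rw [← Category.assoc, ← Category.assoc, pullback.condition, Category.assoc, Category.assoc, hΔ1, hΔ2]
          rw [Category.assoc, hσ2, Category.assoc, ← hχ1, h2, hχ2]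
      refine ⟨(pullback.fst χ Δ ≫ π₁) w, ?_⟩
      rw [← Scheme.Hom.comp_apply, h1, hw1]
    · rintro ⟨x, rfl⟩
      have h1 : σ.g ≫ χ = (e.g ≫ a₂) ≫ Δ := by
        apply hPP
        · rw [Category.assoc, hχ1, Category.assoc, hΔ1, Category.comp_id, ← Category.assoc, hσ1, Category.id_comp]
        · rw [Category.assoc, hχ2, Category.assoc, hΔ2, Category.comp_id, hσ2]
      refine ⟨(e.g ≫ a₂) x, ?_⟩
      rw [← Scheme.Hom.comp_apply, ← h1, Scheme.Hom.comp_apply]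
  have hTm : ∀ z : (X₁.prod H.P).X, χ z ∈ T ↔ z ∈ Set.range j.g := by
    intro z
    have h1 : χ z ∈ T ↔ χ z ∈ (T : Set (H.P.prod H.P).X) := Iff.rfl
    have hT' : (T : Set (H.P.prod H.P).X) = (Set.range Δ)ᶜ := by
      rw [hΔ]
      exact hT
    rw [h1, hT', Set.mem_compl_iff, hgraph]
    have h2 : Set.range σ.g = (Set.range j.g)ᶜ := hj
    rw [h2, Set.mem_compl_iff, not_not]
  -- the closed immersion of `X₁ × P` in `X × (P × P)`
  obtain ⟨fT, hfT⟩ : ∃ fT : (H.P.prod H.P).X ⟶ Spec (CommRingCat.of k), fT = (H.P.prod H.P).f := ⟨_, rfl⟩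
  have hfT1 : fT = q₁ ≫ H.P.f := by
    rw [hfT, hq₁]
    rfl
  obtain ⟨c, hc1, hc2⟩ : ∃ c : (X₁.prod H.P).X ⟶ pullback X.f fT,
      c ≫ pullback.fst X.f fT = π₁ ≫ e.g ≫ a₁ ∧ c ≫ pullback.snd X.f fT = χ := by
    have h1 : (π₁ ≫ e.g ≫ a₁) ≫ X.f = χ ≫ fT := by
      rw [hfT1, ← Category.assoc χ, hχ1, Category.assoc, Category.assoc, Category.assoc, Category.assoc, hac]
    exact ⟨pullback.lift _ _ h1, pullback.lift_fst _ _ _, pullback.lift_snd _ _ _⟩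
  have hc : IsClosedImmersion c := by
    obtain ⟨b₁, hb₁⟩ : ∃ b₁ : ((X.prod H.P).prod H.P).X ⟶ (X.prod H.P).X,
      b₁ = pullback.fst (X.prod H.P).f H.P.f := ⟨_, rfl⟩
    obtain ⟨b₂, hb₂⟩ : ∃ b₂ : ((X.prod H.P).prod H.P).X ⟶ H.P.X,
      b₂ = pullback.snd (X.prod H.P).f H.P.f := ⟨_, rfl⟩
    have hXP : ∀ {Z : Scheme.{0}} {u v : Z ⟶ (X.prod H.P).X}, u ≫ a₁ = v ≫ a₁ → u ≫ a₂ = v ≫ a₂ → u = v := by
      intro Z u v h1 h2
      rw [ha₁] at h1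
      rw [ha₂] at h2
      exact pullback.hom_ext h1 h2
    have hXPP : ∀ {Z : Scheme.{0}} {u v : Z ⟶ ((X.prod H.P).prod H.P).X}, u ≫ b₁ = v ≫ b₁ →
        u ≫ b₂ = v ≫ b₂ → u = v := by
      intro Z u v h1 h2
      rw [hb₁] at h1
      rw [hb₂] at h2
      exact pullback.hom_ext h1 h2
    have hXPf : (X.prod H.P).f = a₁ ≫ X.f := by
      rw [ha₁]
      rfl
    have hcond : pullback.fst X.f fT ≫ X.f = pullback.snd X.f fT ≫ q₁ ≫ H.P.f := by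
      rw [pullback.condition, hfT1]
    obtain ⟨s₀, hs₁, hs₂⟩ : ∃ s₀ : pullback X.f fT ⟶ (X.prod H.P).X,
        s₀ ≫ a₁ = pullback.fst X.f fT ∧ s₀ ≫ a₂ = pullback.snd X.f fT ≫ q₁ := by
      have h1 : pullback.fst X.f fT ≫ X.f = (pullback.snd X.f fT ≫ q₁) ≫ H.P.f := by
        rw [Category.assoc, hcond]
      refine ⟨pullback.lift _ _ h1, ?_, ?_⟩
      · rw [ha₁]
        exact pullback.lift_fst _ _ _
      · rw [ha₂]
        exact pullback.lift_snd _ _ _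
    obtain ⟨s, hs3, hs4⟩ : ∃ s : pullback X.f fT ⟶ ((X.prod H.P).prod H.P).X,
        s ≫ b₁ = s₀ ∧ s ≫ b₂ = pullback.snd X.f fT ≫ q₂ := by
      have h1 : s₀ ≫ (X.prod H.P).f = (pullback.snd X.f fT ≫ q₂) ≫ H.P.f := by
        rw [hXPf, ← Category.assoc, hs₁, hcond, Category.assoc, hqc]
      refine ⟨pullback.lift _ _ h1, ?_, ?_⟩
      · rw [hb₁]
        exact pullback.lift_fst _ _ _
      · rw [hb₂]
        exact pullback.lift_snd _ _ _
    have hb : IsPullback b₂ b₁ H.P.f (X.prod H.P).f := by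
      rw [hb₁, hb₂]
      exact (IsPullback.of_hasPullback (X.prod H.P).f H.P.f).flip
    have hπ : IsPullback π₂ π₁ H.P.f X₁.f := by
      rw [hπ₁, hπ₂]
      exact (IsPullback.of_hasPullback X₁.f H.P.f).flip
    have hcs1 : (c ≫ s) ≫ b₁ = π₁ ≫ e.g := by
      rw [Category.assoc, hs3]
      apply hXP
      · rw [Category.assoc, hs₁, hc1, Category.assoc]
      · rw [Category.assoc, hs₂, ← Category.assoc, hc2, hχ1, Category.assoc]
    have hcs2 : (c ≫ s) ≫ b₂ = π₂ := by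
      rw [Category.assoc, hs4, ← Category.assoc, hc2, hχ2]
    have hpb : IsPullback (c ≫ s) π₁ b₁ e.g := by
      refine IsPullback.of_right (h₁₂ := b₂) (v₁₃ := H.P.f) (h₂₂ := (X.prod H.P).f) ?_ hcs1 hb
      rw [hcs2, e.comm]
      exact hπ
    have h1 : IsClosedImmersion (c ≫ s) := MorphismProperty.of_isPullback (P := @IsClosedImmersion) hpb.flip hee
    have h2 : IsSeparated s := by
      have h3 : s ≫ ((X.prod H.P).prod H.P).f = pullback.fst X.f fT ≫ X.f := by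
        have h4 : ((X.prod H.P).prod H.P).f = b₁ ≫ (X.prod H.P).f := by
          rw [hb₁]
          rfl
        rw [h4, ← Category.assoc, hs3, hXPf, ← Category.assoc, hs₁]
      have h5 : IsSeparated fT := by
        rw [hfT]
        infer_instance
      have h6 : IsSeparated (s ≫ ((X.prod H.P).prod H.P).f) := by
        rw [h3]
        infer_instance
      exact IsSeparated.of_comp s ((X.prod H.P).prod H.P).f
    exact IsClosedImmersion.of_comp c s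
  -- the open subset `X × T`
  obtain ⟨ι, hι⟩ : ∃ ι : pullback X.f (T.ι ≫ fT) ⟶ pullback X.f fT,
      ι = pullback.map X.f (T.ι ≫ fT) X.f fT (𝟙 _) T.ι (𝟙 _) (by simp) (by simp) := ⟨_, rfl⟩
  have hι1 : ι ≫ pullback.fst X.f fT = pullback.fst X.f (T.ι ≫ fT) := by
    rw [hι]
    exact (pullback.lift_fst _ _ _).trans (Category.comp_id _)
  have hι2 : ι ≫ pullback.snd X.f fT = pullback.snd X.f (T.ι ≫ fT) ≫ T.ι := by
    rw [hι]
    exact pullback.lift_snd _ _ _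
  have hιo : IsOpenImmersion ι := by
    rw [hι]
    infer_instance
  have hιr : ∀ w, w ∈ ι.opensRange ↔ pullback.snd X.f fT w ∈ T := by
    intro w
    have h1 : w ∈ ι.opensRange ↔ w ∈ Set.range ι := Iff.rfl
    rw [h1, hι, Scheme.Pullback.range_map]
    simp
  obtain ⟨τ, hτ⟩ : ∃ τ : Y.X ⟶ T.toScheme, τ ≫ T.ι = j.g ≫ χ := by
    have h1 : Set.range (j.g ≫ χ) ⊆ Set.range T.ι := by
      rintro _ ⟨y, rfl⟩
      rw [Scheme.Opens.range_ι, Scheme.Hom.comp_apply]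
      exact (hTm _).2 ⟨y, rfl⟩
    exact ⟨IsOpenImmersion.lift T.ι (j.g ≫ χ) h1, IsOpenImmersion.lift_fac _ _ _⟩
  obtain ⟨μ, hμ1, hμ2⟩ : ∃ μ : Y.X ⟶ pullback X.f (T.ι ≫ fT),
      μ ≫ pullback.fst X.f (T.ι ≫ fT) = j.g ≫ π₁ ≫ e.g ≫ a₁ ∧ μ ≫ pullback.snd X.f (T.ι ≫ fT) = τ := by
    have h1 : (j.g ≫ π₁ ≫ e.g ≫ a₁) ≫ X.f = τ ≫ T.ι ≫ fT := by
      rw [← Category.assoc τ, hτ, ← hc1, ← hc2]
      simp only [Category.assoc]
      rw [pullback.condition]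
    exact ⟨pullback.lift _ _ h1, pullback.lift_fst _ _ _, pullback.lift_snd _ _ _⟩
  have hsq : IsPullback μ j.g ι c := by
    refine IsOpenImmersion.isPullback μ j.g ι c ?_ ?_
    · apply pullback.hom_ext
      · rw [Category.assoc, hc1, Category.assoc, hι1, hμ1]
      · rw [Category.assoc, hc2, Category.assoc, hι2, ← Category.assoc, hμ2, hτ]
    · apply TopologicalSpace.Opens.ext
      ext z
      have h1 : z ∈ c ⁻¹ᵁ ι.opensRange ↔ c z ∈ ι.opensRange := Iff.rfl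
      have h2 : z ∈ j.g.opensRange ↔ z ∈ Set.range j.g := Iff.rfl
      refine h1.trans (Iff.trans ?_ h2.symm)
      rw [hιr, ← Scheme.Hom.comp_apply, hc2, hTm]
  have hμc : IsClosedImmersion μ := MorphismProperty.of_isPullback (P := @IsClosedImmersion) hsq.flip hc
  have hTaff : IsAffine T.toScheme := hTa
  refine ⟨?_, ?_⟩
  · rw [← hμ1]
    have h0 : IsAffineHom (T.ι ≫ fT) := inferInstance
    have h1 : IsAffineHom (pullback.fst X.f (T.ι ≫ fT)) := MorphismProperty.pullback_fst _ _ h0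
    have h2 : IsAffineHom μ := inferInstance
    exact MorphismProperty.comp_mem (W := @IsAffineHom) _ _ h2 h1
  · intro W
    have hN : IsLocallyNoetherian T.toScheme := by
      have : IsLocallyNoetherian (H.P.prod H.P).X := inferInstance
      infer_instance
    obtain ⟨s, hs⟩ := fin_basic T.toScheme ((T.ι ≫ q₁) ⁻¹ᵁ W)
    classical
    refine ⟨s.image τ.appTop.hom, fun y => ?_⟩
    have h1 : j.g ≫ π₁ ≫ e.g ≫ a₂ = τ ≫ T.ι ≫ q₁ := by
      rw [← Category.assoc τ, hτ, Category.assoc, hχ1]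
    rw [h1, Scheme.Hom.comp_apply]
    have h2 : (T.ι ≫ q₁) (τ y) ∈ W ↔ τ y ∈ (T.ι ≫ q₁) ⁻¹ᵁ W := Iff.rfl
    rw [h2, hs]
    constructor
    · rintro ⟨b, hb, hy⟩
      refine ⟨τ.appTop.hom b, Finset.mem_image_of_mem _ hb, ?_⟩
      have h3 : Y.X.basicOpen (τ.appTop.hom b) = τ ⁻¹ᵁ T.toScheme.basicOpen b :=
        (Scheme.preimage_basicOpen_top τ b).symm
      rw [h3]
      exact hy
    · rintro ⟨b, hb, hy⟩
      obtain ⟨c, hc, rfl⟩ := Finset.mem_image.1 hb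
      refine ⟨c, hc, ?_⟩
      have h3 : Y.X.basicOpen (τ.appTop.hom c) = τ ⁻¹ᵁ T.toScheme.basicOpen c :=
        (Scheme.preimage_basicOpen_top τ c).symm
      rw [h3] at hy
      exact hy

end CUB
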