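import Pool.Agent.CUB2.StmtsG

/-!
# CUB2, module FDM: varieties have finite dimension
-/

set_option autoImplicit false

open CategoryTheory AlgebraicGeometry Limits Polynomial TopologicalSpace

namespace CUB

open Pool.Agent.Lib_helper55.Beil Pool.Agent.Lib_helper66.OneP

namespace FDM

/-- The dimension of a point is finite. -/
theorem exists_dim {k : Type} [Field k] (X : Var k) (x : X.X) : ∃ n : ℕ, X.dim x = n := by
  obtain ⟨U, hU, hx, -⟩ := exists_isAffineOpen_mem_and_subset (U := ⊤) (x := x) trivial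
  have hA : IsAffine (openVar X U).X := hU
  obtain ⟨A, i1, i2, i3, ⟨s⟩⟩ := exists_aff (openVar X U)
  let y : (openVar X U).X := ⟨x, hx⟩
  have hy : (openVarIn X U).g y = x := rfl
  have h1 := dim_map (openVarIn X U).g (openVarIn X U).comm y
  rw [hy] at h1
  have h2 := dim_map s.symm.e.hom s.symm.comm y
  obtain ⟨n, hn⟩ := exists_rdim (k := k) (ofPt (k := k) (s.symm.e.hom y))
  refine ⟨n, ?_⟩
  rw [h1, ← h2, ← hn, ← dim_toPt]
  rfl

/-- The dimension is bounded on irreducible closed subsets. -/
theorem bounded {k : Type} [Field k] (X : Var k) (C : Set X.X) (h1 : IsIrreducible C)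
    (h2 : IsClosed C) : ∃ n : ℕ, ∀ x ∈ C, X.dim x ≤ n := by
  obtain ⟨η, hη⟩ := QuasiSober.sober h1 h2
  obtain ⟨n, hn⟩ := exists_dim X η
  refine ⟨n, fun x hx => ?_⟩
  rw [← hn]
  apply dim_le_of_specializes
  rw [specializes_iff_mem_closure, hη.def]
  exact hx

end FDM

/-- FDM. -/
theorem t_FDM : S_FDM := by
  intro k _ X
  have h1 : ∀ C : Set X.X, C ∈ irreducibleComponents X.X → ∃ n : ℕ, ∀ x ∈ C, X.dim x ≤ n :=
    fun C hC => FDM.bounded X C hC.1 (isClosed_of_mem_irreducibleComponents C hC)
  choose! f hf using h1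
  have h2 : (irreducibleComponents X.X).Finite :=
    TopologicalSpace.NoetherianSpace.finite_irreducibleComponents
  obtain ⟨N, hN⟩ := (h2.image f).bddAbove
  refine ⟨N, fun x => ?_⟩
  have h3 : irreducibleComponent x ∈ irreducibleComponents X.X :=
    irreducibleComponent_mem_irreducibleComponents x
  refine (hf _ h3 x mem_irreducibleComponent).trans ?_
  exact_mod_cast hN ⟨_, h3, rfl⟩

end CUB
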