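import Pool.Agent.CUB2.StmtsG

/-!
# CUB2, module GRA: the closure of the graph of a function
-/

set_option autoImplicit false

open CategoryTheory AlgebraicGeometry Limits Polynomial TopologicalSpace

namespace CUB

open Pool.Agent.Lib_helper55.Beil Pool.Agent.Lib_helper66.OneP

namespace GRA

variable {k : Type} [Field k]

/-- A closed subvariety with the reduced structure is reduced. -/
lemma isReduced_closedVar (X : Var k) (C : Closeds X.X) : IsReduced (closedVar X C).X := by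
  change IsReduced (Scheme.IdealSheafData.vanishingIdeal C).subscheme
  have h : ∀ U, IsReduced ((Scheme.IdealSheafData.vanishingIdeal C).subschemeCover.openCover.X U) := by
    intro U
    change IsReduced (Spec (.of (Γ(X.X, U.1) ⧸ (Scheme.IdealSheafData.vanishingIdeal C).ideal U)))
    have : _root_.IsReduced (Γ(X.X, U.1) ⧸ (Scheme.IdealSheafData.vanishingIdeal C).ideal U) := by
      rw [← Ideal.isRadical_iff_quotient_reduced]
      exact PrimeSpectrum.isRadical_vanishingIdeal _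
    have : _root_.IsReduced (CommRingCat.of
        (Γ(X.X, U.1) ⧸ (Scheme.IdealSheafData.vanishingIdeal C).ideal U)) := this
    infer_instance
  exact IsReduced.of_openCover _ (Scheme.IdealSheafData.vanishingIdeal C).subschemeCover.openCover

/-- For an open immersion, functions on an open subset of the image. -/
lemma isIso_appLE {A B : Scheme.{0}} (f : A ⟶ B) [IsOpenImmersion f] (U : B.Opens)
    (hU : U ≤ f.opensRange) (e : ⊤ ≤ f ⁻¹ᵁ U) : IsIso (f.appLE U ⊤ e) := by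
  have h1 : IsIso (f.app U) := f.isIso_app U hU
  have h2 : IsIso (homOfLE e) := ⟨homOfLE le_top, Subsingleton.elim _ _, Subsingleton.elim _ _⟩
  have h3 : IsIso (A.presheaf.map (homOfLE e).op) := inferInstance
  rw [Scheme.Hom.appLE]
  infer_instance

/-- The complement of an open subset, as a closed subset. -/
def co {X : Scheme.{0}} (V : X.Opens) : Closeds X := ⟨(V : Set X)ᶜ, V.2.isClosed_compl⟩

/-- The points of the image of a section over an open subset. -/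
lemma mem_range {S B : Scheme.{0}} (p : B ⟶ S) [IsSeparated p] (V : S.Opens)
    (f : V.toScheme ⟶ B) (hf : f ≫ p = V.ι) (y : B) (hy : p y ∈ V)
    (hy2 : y ∈ closure (Set.range f)) : y ∈ Set.range f := by
  have hr : Set.range f ⊆ Set.range (p ⁻¹ᵁ V).ι := by
    rintro _ ⟨x, rfl⟩
    rw [Scheme.Opens.range_ι]
    change p (f x) ∈ V
    rw [← Scheme.Hom.comp_apply, hf]
    exact x.2
  let b : V.toScheme ⟶ (p ⁻¹ᵁ V).toScheme := IsOpenImmersion.lift (p ⁻¹ᵁ V).ι f hr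
  have hb : b ≫ (p ⁻¹ᵁ V).ι = f := IsOpenImmersion.lift_fac _ _ _
  have hb2 : b ≫ (p ∣_ V) = 𝟙 _ := by
    rw [← cancel_mono V.ι, Category.assoc, morphismRestrict_ι, ← Category.assoc, hb, hf,
      Category.id_comp]
  have hbc : IsClosedImmersion b := by
    have h1 : IsClosedImmersion (b ≫ (p ∣_ V)) := by
      rw [hb2]
      infer_instance
    exact IsClosedImmersion.of_comp b (p ∣_ V)
  have h4 : (⟨y, hy⟩ : (p ⁻¹ᵁ V).toScheme) ∈ (p ⁻¹ᵁ V).ι ⁻¹' closure (Set.range f) := hy2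
  rw [(p ⁻¹ᵁ V).ι.isOpenEmbedding.isOpenMap.preimage_closure_eq_closure_preimage
    (p ⁻¹ᵁ V).ι.continuous] at h4
  have h5 : (p ⁻¹ᵁ V).ι ⁻¹' Set.range f = Set.range b := by
    ext v
    constructor
    · rintro ⟨w, hw⟩
      refine ⟨w, (p ⁻¹ᵁ V).ι.isOpenEmbedding.injective ?_⟩
      rw [← hw, ← Scheme.Hom.comp_apply, hb]
    · rintro ⟨w, rfl⟩
      exact ⟨w, by rw [← Scheme.Hom.comp_apply, hb]⟩
  rw [h5, b.isClosedEmbedding.isClosed_range.closure_eq] at h4
  obtain ⟨w, hw⟩ := h4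
  refine ⟨w, ?_⟩
  rw [← hb, Scheme.Hom.comp_apply, hw]
  rfl

/-- The canonical morphism to the spectrum. -/
lemma toSpec_comm {X : Scheme.{0}} {R : CommRingCat.{0}} (f : X ⟶ Spec R) (V : X.Opens) :
    V.toSpecΓ ≫ Spec.map ((Scheme.ΓSpecIso R).inv ≫ f.appLE ⊤ V le_top) = V.ι ≫ f := by
  have e : V ≤ f ⁻¹ᵁ ⊤ := le_top
  change V.toSpecΓ ≫ Spec.map ((Scheme.ΓSpecIso R).inv ≫ f.appLE ⊤ V e) = V.ι ≫ f
  rw [Spec.map_comp, Scheme.Opens.toSpecΓ_SpecMap_appLE_assoc, Scheme.Opens.toSpecΓ_top,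
    Category.assoc, toSpecΓ_SpecMap_ΓSpecIso_inv, Category.comp_id, Scheme.Hom.resLE_comp_ι]

/-- Functions under the canonical morphism to the spectrum. -/
lemma toSpec_app {X : Scheme.{0}} {R : CommRingCat.{0}} (V : X.Opens) (ρ : R ⟶ Γ(X, V)) (r : R) :
    (V.toSpecΓ ≫ Spec.map ρ).appTop ((Scheme.ΓSpecIso R).inv r) = V.topIso.inv (ρ r) := by
  have h1 : (Scheme.ΓSpecIso R).inv ≫ (V.toSpecΓ ≫ Spec.map ρ).appTop = ρ ≫ V.topIso.inv := by
    rw [Scheme.Hom.comp_appTop, ← Category.assoc, ← Scheme.ΓSpecIso_inv_naturality,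
      Scheme.Opens.toSpecΓ_appTop, Category.assoc, Iso.inv_hom_id_assoc]
  have h2 := congrArg (fun F => F.hom r) h1
  exact h2

/-- Extension of a function. -/
lemma coord {T A P S : Scheme.{0}} (h : T ⟶ S) [IsOpenImmersion h] (ψ : S ⟶ P) (j : A ⟶ P)
    [IsOpenImmersion j] (α : T ⟶ A) (hψ : h ≫ ψ = α ≫ j) (W : S.Opens) (hW : W ≤ h.opensRange)
    (e : ⊤ ≤ h ⁻¹ᵁ W) (a : Γ(A, ⊤)) (b : Γ(S, W)) (hab : h.appLE W ⊤ e b = α.appTop a) :
    ∃ (g : Γ(S, ψ ⁻¹ᵁ j.opensRange)) (hO : W ≤ ψ ⁻¹ᵁ j.opensRange),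
      S.presheaf.map (homOfLE hO).op g = b := by
  have e1 : ⊤ ≤ j ⁻¹ᵁ j.opensRange := fun x _ => ⟨x, rfl⟩
  have i1 : IsIso (j.appLE j.opensRange ⊤ e1) := isIso_appLE j _ le_rfl e1
  have i2 : IsIso (h.appLE W ⊤ e) := isIso_appLE h W hW e
  obtain ⟨t, ht⟩ := (ConcreteCategory.bijective_of_isIso (j.appLE j.opensRange ⊤ e1)).2 a
  have hO : W ≤ ψ ⁻¹ᵁ j.opensRange := by
    intro w hw
    obtain ⟨v, hv⟩ := hW hw
    refine ⟨α v, ?_⟩
    rw [← Scheme.Hom.comp_apply, ← hψ, Scheme.Hom.comp_apply, hv]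
  refine ⟨ψ.app j.opensRange t, hO, ?_⟩
  apply (ConcreteCategory.bijective_of_isIso (h.appLE W ⊤ e)).1
  rw [hab, ← ht]
  have e2 : ⊤ ≤ (h ≫ ψ) ⁻¹ᵁ j.opensRange := fun x hx => hO (e hx)
  have e3 : ⊤ ≤ (α ≫ j) ⁻¹ᵁ j.opensRange := fun x _ => ⟨α x, by rw [Scheme.Hom.comp_apply]⟩
  have h1 : ψ.app j.opensRange ≫ S.presheaf.map (homOfLE hO).op ≫ h.appLE W ⊤ e =
      (h ≫ ψ).appLE j.opensRange ⊤ e2 := by
    rw [Scheme.Hom.map_appLE, Scheme.Hom.comp_appLE]
  have h2 : j.appLE j.opensRange ⊤ e1 ≫ α.appTop = (α ≫ j).appLE j.opensRange ⊤ e3 := by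
    have e4 : (⊤ : T.Opens) ≤ α ⁻¹ᵁ ⊤ := le_top
    have h3 : α.appTop = α.appLE ⊤ ⊤ e4 := α.app_eq_appLE
    rw [h3, Scheme.Hom.appLE_comp_appLE]
  have h4 : (h ≫ ψ).appLE j.opensRange ⊤ e2 = (α ≫ j).appLE j.opensRange ⊤ e3 := by
    congr 1
  rw [h4, ← h2] at h1
  exact congrArg (fun F => F.hom t) h1

end GRA

open GRA in
theorem t_GRA : S_GRA := by
  intro k _ H X hX V φ hV
  -- the open subset
  have hVne : Nonempty V.toScheme := by
    obtain ⟨x, hx⟩ := hV
    exact ⟨⟨x, hx⟩⟩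
  have hVint : IsIntegral V.toScheme := isIntegral_of_isOpenImmersion V.ι
  have hPprop : IsProper H.P.f := H.proper
  let p : (X.prod H.P).X ⟶ X.X := pullback.fst X.f H.P.f
  let q : (X.prod H.P).X ⟶ H.P.X := pullback.snd X.f H.P.f
  have hp : IsProper p := inferInstanceAs (IsProper (pullback.fst X.f H.P.f))
  -- the morphism to the affine line
  let c : k →+* Γ(X.X, V) := ((Scheme.ΓSpecIso (CommRingCat.of k)).inv ≫ X.f.appLE ⊤ V le_top).hom
  let ρ : k[X] →+* Γ(X.X, V) := Polynomial.eval₂RingHom c φ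
  let α : V.toScheme ⟶ (aff k k[X]).X := V.toSpecΓ ≫ Spec.map (CommRingCat.ofHom ρ)
  have hα : α ≫ (aff k k[X]).f = V.ι ≫ X.f := by
    rw [← toSpec_comm X.f V]
    change (V.toSpecΓ ≫ Spec.map (CommRingCat.ofHom ρ)) ≫
      Spec.map (CommRingCat.ofHom (algebraMap k k[X])) = _
    rw [Category.assoc, ← Spec.map_comp]
    congr 2
    ext x
    change ρ (algebraMap k k[X] x) = c x
    rw [Polynomial.algebraMap_eq]
    change Polynomial.eval₂ c φ (C x) = c x
    rw [Polynomial.eval₂_C]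
  let f : V.toScheme ⟶ (X.prod H.P).X := pullback.lift V.ι (α ≫ H.j₀.g) (by
    rw [Category.assoc, H.j₀.comm]
    exact hα.symm)
  have hf1 : f ≫ p = V.ι := pullback.lift_fst _ _ _
  have hf2 : f ≫ q = α ≫ H.j₀.g := pullback.lift_snd _ _ _
  have himm : IsImmersion f := by
    have : IsImmersion (f ≫ p) := by
      rw [hf1]
      infer_instance
    exact IsImmersion.of_comp f p
  have hqc : QuasiCompact f := by
    have : QuasiCompact (f ≫ p) := by
      rw [hf1]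
      infer_instance
    exact QuasiCompact.of_comp f p
  -- the closure of the graph
  let X₁ : Var k :=
    { X := f.image
      f := f.imageι ≫ (X.prod H.P).f
      sep := inferInstance
      lft := inferInstance
      qc := inferInstance }
  have hX₁ : IsIntegral X₁.X := isIntegral_image f
  let e : ClosedIn X₁ (X.prod H.P) := ⟨f.imageι, rfl, inferInstance⟩
  let h : V.toScheme ⟶ X₁.X := f.toImage
  have hh : IsOpenImmersion h := inferInstanceAs (IsOpenImmersion f.toImage)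
  have hhe : h ≫ e.g = f := f.toImage_imageι
  let m : PrMor X₁ X :=
    { g := e.g ≫ p
      comm := by
        rw [Category.assoc]
        exact e.comm
      proper := inferInstance }
  have hm : h ≫ m.g = V.ι := by
    change h ≫ e.g ≫ p = V.ι
    rw [← Category.assoc, hhe, hf1]
  -- the range
  have hrange : m.g ⁻¹ᵁ V ≤ h.opensRange := by
    intro w hw
    have h1 : e.g w ∈ closure (Set.range f) := by
      have h2 : Set.range f.imageι = (f.ker.support : Set (X.prod H.P).X) :=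
        Scheme.IdealSheafData.range_subschemeι _
      have h3 : e.g w ∈ Set.range f.imageι := ⟨w, rfl⟩
      rw [h2, Scheme.Hom.support_ker] at h3
      exact h3
    have hw' : p (e.g w) ∈ V := hw
    obtain ⟨v, hv⟩ := mem_range p V f hf1 (e.g w) hw' h1
    refine ⟨v, ?_⟩
    apply closedIn_injective e
    rw [← Scheme.Hom.comp_apply, hhe, hv]
  have hrange2 : ∀ v, m.g (h v) ∈ V := by
    intro v
    rw [← Scheme.Hom.comp_apply, hm]
    exact v.2
  -- the isomorphism over `V`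
  let s : V.toScheme ⟶ (m.g ⁻¹ᵁ V).toScheme := IsOpenImmersion.lift (m.g ⁻¹ᵁ V).ι h (by
    rintro _ ⟨x, rfl⟩
    rw [Scheme.Opens.range_ι]
    exact hrange2 x)
  have hs : s ≫ (m.g ⁻¹ᵁ V).ι = h := IsOpenImmersion.lift_fac _ _ _
  have hs2 : s ≫ (m.g ∣_ V) = 𝟙 _ := by
    rw [← cancel_mono V.ι, Category.assoc, morphismRestrict_ι, ← Category.assoc, hs, hm,
      Category.id_comp]
  have hso : IsOpenImmersion s := by
    have h1 : IsOpenImmersion (s ≫ (m.g ⁻¹ᵁ V).ι) := by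
      rw [hs]
      exact hh
    exact IsOpenImmersion.of_comp s (m.g ⁻¹ᵁ V).ι
  have hsr : s.opensRange = ⊤ := by
    ext w
    simp only [Scheme.Hom.coe_opensRange, Set.mem_range, Opens.coe_top, Set.mem_univ, iff_true]
    obtain ⟨v, hv⟩ := hrange w.2
    refine ⟨v, (m.g ⁻¹ᵁ V).ι.isOpenEmbedding.injective ?_⟩
    rw [← Scheme.Hom.comp_apply, hs]
    exact hv
  have hsi : IsIso s := isIso_of_isOpenImmersion_of_opensRange_eq_top s hsr
  have hmi : IsIso (m.g ∣_ V) := by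
    have h1 : IsIso (s ≫ (m.g ∣_ V)) := by
      rw [hs2]
      infer_instance
    exact IsIso.of_isIso_comp_left s (m.g ∣_ V)
  -- the closed subvarieties
  have hred : IsReduced (closedVar X₁ (co (m.g ⁻¹ᵁ V))).X := isReduced_closedVar _ _
  have hmem : ∀ w, ((closedVarIn X₁ (co (m.g ⁻¹ᵁ V))).g ≫ m.g) w ∈ co V := by
    intro w
    have h1 : (closedVarIn X₁ (co (m.g ⁻¹ᵁ V))).g w ∈
        Set.range (closedVarIn X₁ (co (m.g ⁻¹ᵁ V))).g := ⟨w, rfl⟩
    rw [range_closedVarIn] at h1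
    rw [Scheme.Hom.comp_apply]
    exact h1
  let z : (closedVar X₁ (co (m.g ⁻¹ᵁ V))).X ⟶ (closedVar X (co V)).X :=
    liftC ((closedVarIn X₁ (co (m.g ⁻¹ᵁ V))).g ≫ m.g) (co V) hmem
  have hz : z ≫ (closedVarIn X (co V)).g = (closedVarIn X₁ (co (m.g ⁻¹ᵁ V))).g ≫ m.g :=
    liftC_comp _ _ _
  have hzp : IsProper z := by
    have h1 : IsProper (z ≫ (closedVarIn X (co V)).g) := by
      rw [hz]
      infer_instance
    exact IsProper.of_comp z (closedVarIn X (co V)).g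
  let M : Modif X₁ X :=
    { f := m
      Z := closedVar X (co V)
      U := openVar X V
      Z' := closedVar X₁ (co (m.g ⁻¹ᵁ V))
      U' := openVar X₁ (m.g ⁻¹ᵁ V)
      a := closedVarIn X (co V)
      j := openVarIn X V
      h := by
        change Set.range (closedVarIn X (co V)).g = (Set.range (openVarIn X V).g)ᶜ
        rw [range_closedVarIn, range_openVarIn]
        rfl
      a' := closedVarIn X₁ (co (m.g ⁻¹ᵁ V))
      j' := openVarIn X₁ (m.g ⁻¹ᵁ V)
      h' := by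
        change Set.range (closedVarIn X₁ (co (m.g ⁻¹ᵁ V))).g =
          (Set.range (openVarIn X₁ (m.g ⁻¹ᵁ V)).g)ᶜ
        rw [range_closedVarIn, range_openVarIn]
        rfl
      fZ :=
        { g := z
          comm := by
            rw [← (closedVarIn X (co V)).comm, ← Category.assoc, hz, Category.assoc, m.comm]
            exact (closedVarIn X₁ (co (m.g ⁻¹ᵁ V))).comm
          proper := hzp }
      fU :=
        { e := @asIso _ _ (m.g ⁻¹ᵁ V).toScheme V.toScheme (m.g ∣_ V) hmi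
          comm := by
            change (m.g ∣_ V) ≫ V.ι ≫ X.f = (m.g ⁻¹ᵁ V).ι ≫ X₁.f
            rw [morphismRestrict_ι_assoc, m.comm] }
      hZ := hz.symm
      hU := (isPullback_morphismRestrict m.g V).flip }
  -- the coordinate
  have hψ : h ≫ e.g ≫ q = α ≫ H.j₀.g := by
    rw [← Category.assoc, hhe, hf2]
  have e1 : ⊤ ≤ h ⁻¹ᵁ (m.g ⁻¹ᵁ V) := fun v _ => hrange2 v
  have hab : h.appLE (m.g ⁻¹ᵁ V) ⊤ e1 (m.g.app V φ) =
      α.appTop ((Scheme.ΓSpecIso (CommRingCat.of k[X])).inv (Polynomial.X : k[X])) := by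
    have h1 : m.g.app V ≫ h.appLE (m.g ⁻¹ᵁ V) ⊤ e1 = V.topIso.inv := by
      have e2 : ⊤ ≤ (h ≫ m.g) ⁻¹ᵁ V := fun v _ => hrange2 v
      have e3 : ⊤ ≤ V.ι ⁻¹ᵁ V := fun v _ => v.2
      have h3 : m.g.app V ≫ h.appLE (m.g ⁻¹ᵁ V) ⊤ e1 = (h ≫ m.g).appLE V ⊤ e2 := by
        rw [Scheme.Hom.comp_appLE]
      have h4 : (h ≫ m.g).appLE V ⊤ e2 = V.ι.appLE V ⊤ e3 := by
        congr 1
      rw [h3, h4, Scheme.Opens.ι_appLE, Scheme.Opens.topIso_inv]
      rfl
    have h2 := toSpec_app V (CommRingCat.ofHom ρ) (Polynomial.X : k[X])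
    have h5 : ρ (Polynomial.X : k[X]) = φ := Polynomial.eval₂_X _ _
    have h6 : (CommRingCat.ofHom ρ) (Polynomial.X : k[X]) = φ := h5
    rw [h6] at h2
    have h7 : h.appLE (m.g ⁻¹ᵁ V) ⊤ e1 (m.g.app V φ) = V.topIso.inv φ :=
      congrArg (fun F => F.hom φ) h1
    exact h7.trans h2.symm
  obtain ⟨g, hO, hg⟩ := coord h (e.g ≫ q) H.j₀.g α hψ (m.g ⁻¹ᵁ V) hrange e1 _ _ hab
  refine ⟨X₁, hX₁, M, e, rfl, ?_, g, hO, hg⟩
  change Set.range (openVarIn X V).g = V
  rw [range_openVarIn]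

end CUB
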