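import Pool.Agent.CUB2.StmtsG

/-!
# CUB2, module GST: the step
-/

set_option autoImplicit false

open CategoryTheory AlgebraicGeometry Limits Polynomial TopologicalSpace

namespace CUB

open Pool.Agent.Lib_helper55.Beil Pool.Agent.Lib_helper66.OneP

namespace GST

variable {k : Type} [Field k]

/-- The dimension does not increase under a modification of an integral variety. -/
theorem dimLE_modif {X₁ X : Var k} [IsIntegral X₁.X] (M : Modif X₁ X) (u : M.U.X) (n : ℕ)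
    (h : X.DimLE n) : X₁.DimLE n := by
  have h1 : genericPoint X₁.X ∈ Set.range M.j'.g := by
    have hop : IsOpen (Set.range M.j'.g) := M.j'.g.isOpenEmbedding.isOpen_range
    exact ((genericPoint_spec X₁.X).mem_open_set_iff hop).2
      ⟨_, Set.mem_univ _, M.fU.e.inv u, rfl⟩
  obtain ⟨w, hw⟩ := h1
  intro x
  refine (dim_le_of_specializes X₁ (genericPoint_specializes x)).trans ?_
  rw [← hw, dim_map M.j'.g M.j'.comm, ← dim_map (X := M.U) M.fU.e.hom M.fU.comm w,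
    ← dim_map M.j.g M.j.comm]
  exact h _

/-- The pull-back of an extension of a function is an extension of the pull-back. -/
theorem extend {Y X₁ X : Scheme.{0}} (q : Y ⟶ X₁) (m : X₁ ⟶ X) {X₀ : Scheme.{0}} (f : X ⟶ X₀)
    (V : X₀.Opens) (h : Γ(X₀, V)) (O₁ : X₁.Opens) (g₁ : Γ(X₁, O₁)) (hO₁ : m ⁻¹ᵁ (f ⁻¹ᵁ V) ≤ O₁)
    (hg₁ : X₁.presheaf.map (homOfLE hO₁).op g₁ = m.app (f ⁻¹ᵁ V) (f.app V h))
    (hO : (q ≫ m ≫ f) ⁻¹ᵁ V ≤ q ⁻¹ᵁ O₁) :
    Y.presheaf.map (homOfLE hO).op (q.app O₁ g₁) = (q ≫ m ≫ f).app V h := by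
  have h1 : q.app (m ⁻¹ᵁ (f ⁻¹ᵁ V)) (X₁.presheaf.map (homOfLE hO₁).op g₁) =
      Y.presheaf.map (homOfLE hO).op (q.app O₁ g₁) := by
    have := q.naturality (homOfLE hO₁).op
    have h2 := congrArg (fun φ => φ.hom g₁) this
    exact h2
  rw [← h1, hg₁]
  rw [Scheme.Hom.comp_app, Scheme.Hom.comp_app]
  rfl

end GST

theorem t_GST : M_GST := by
  intro hPLI hPRO hSEC hAFY hGRA hLPT k _ X₀ X hX f hf V h hfX hne
  obtain ⟨H⟩ := hPLI k
  obtain ⟨x₀, hx₀⟩ := hne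
  obtain ⟨X₁, hX₁, M, e, he, hr, g₁, hO₁, hg₁⟩ :=
    hGRA k H X hX (f ⁻¹ᵁ V) (f.app V h) ⟨x₀, hx₀⟩
  let p₁ : (X.prod H.P).X ⟶ X.X := pullback.fst X.f H.P.f
  let p₂ : (X.prod H.P).X ⟶ H.P.X := pullback.snd X.f H.P.f
  have hp₂ : p₂ ≫ H.P.f = (X.prod H.P).f := pullback.condition.symm
  have he' : e.g ≫ p₁ = M.f.g := he
  have hψ : (e.g ≫ p₂) ≫ H.P.f = X₁.f := by
    rw [Category.assoc, hp₂]
    exact e.comm
  obtain ⟨σ, hσ1, hσ2⟩ := hSEC k X₁ H.P (e.g ≫ pullback.snd X.f H.P.f) hψ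
  obtain ⟨B, hB⟩ := hPRO.1 k H X₁
  have hP : IsIntegral (X₁.prod H.P).X := hPRO.2.2 k H X₁ hX₁
  -- the open complement of the section
  have hcl : IsClosed (Set.range σ.g) := σ.g.isClosedEmbedding.isClosed_range
  let O : (X₁.prod H.P).X.Opens := ⟨(Set.range σ.g)ᶜ, hcl.isOpen_compl⟩
  let Y : Var k := openVar (X₁.prod H.P) O
  let j : OpenIn Y (X₁.prod H.P) := openVarIn (X₁.prod H.P) O
  have hcomp : Complementary σ j := by
    unfold Complementary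
    rw [range_openVarIn]
    exact (compl_compl _).symm
  obtain ⟨haff, hfun⟩ := hAFY k H X X₁ Y e σ j hσ1 hσ2 hcomp
  -- `Y` is integral
  have hσB : σ.g ≫ B.p.g = 𝟙 X₁.X := by rw [hB, hσ1]
  have hYne : Nonempty Y.X := by
    let x₁ : X₁.X := genericPoint X₁.X
    obtain ⟨y, hy1, -, hy2, -⟩ := hLPT.2.2.2 k (X₁.prod H.P) X₁ B x₁
    have hsec : ∀ z : X₁.X, B.p.g (σ.g z) = z := by
      intro z
      have := congrArg (fun φ : X₁.X ⟶ X₁.X => φ z) hσB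
      simpa using this
    have hinf : B.p.g (B.s.g x₁) = x₁ := by
      have := congrArg (fun φ : X₁.X ⟶ X₁.X => φ x₁) B.hs
      simpa using this
    have hne2 : B.s.g x₁ ≠ y := by
      intro h1
      have h2 : B.s.g x₁ ∈ (Set.range B.j.g)ᶜ := by
        rw [← B.hc]
        exact ⟨x₁, rfl⟩
      exact h2 (h1 ▸ hy2)
    have hy3 : ∃ y : (X₁.prod H.P).X, y ∉ Set.range σ.g := by
      by_contra hcon
      push Not at hcon
      obtain ⟨z, hz⟩ := hcon y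
      obtain ⟨z', hz'⟩ := hcon (B.s.g x₁)
      have h1 : z = x₁ := by rw [← hsec z, hz, hy1]
      have h2 : z' = x₁ := by rw [← hsec z', hz', hinf]
      apply hne2
      rw [← hz', ← hz, h1, h2]
    obtain ⟨w, hw⟩ := hy3
    have hy4 : w ∈ Set.range j.g := by
      rw [range_openVarIn]
      exact hw
    obtain ⟨z, -⟩ := hy4
    exact ⟨z⟩
  have hY : IsIntegral Y.X := isIntegral_of_isOpenImmersion j.g
  have hMU : ∃ u : M.U.X, True := by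
    have : x₀ ∈ Set.range M.j.g := by
      rw [hr]
      exact hx₀
    obtain ⟨u, -⟩ := this
    exact ⟨u, trivial⟩
  obtain ⟨u, -⟩ := hMU
  refine ⟨X₁, X₁.prod H.P, Y, hX₁, hY, M, B, σ, j, j.g ≫ B.p.g ≫ M.f.g ≫ f, hσB, hcomp, rfl, hr,
    ?_, ?_, ?_⟩
  · -- affine
    let q₁ : (X₁.prod H.P).X ⟶ X₁.X := pullback.fst X₁.f H.P.f
    have hB' : B.p.g = q₁ := hB
    have haff' : IsAffineHom (j.g ≫ q₁ ≫ e.g ≫ p₁) := haff
    have h1 : j.g ≫ B.p.g ≫ M.f.g ≫ f = (j.g ≫ q₁ ≫ e.g ≫ p₁) ≫ f := by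
      rw [hB', he']
      simp only [Category.assoc]
    rw [h1]
    infer_instance
  · -- processed
    obtain ⟨s, hs⟩ := hfun H.j₀.g.opensRange
    have hO : ((j.g ≫ B.p.g) ≫ M.f.g ≫ f) ⁻¹ᵁ V ≤
        (j.g ≫ B.p.g) ⁻¹ᵁ ((e.g ≫ pullback.snd X.f H.P.f) ⁻¹ᵁ H.j₀.g.opensRange) := by
      intro y hy
      exact hO₁ hy
    have h1 : j.g ≫ B.p.g ≫ M.f.g ≫ f = (j.g ≫ B.p.g) ≫ M.f.g ≫ f := (Category.assoc _ _ _).symm
    rw [h1]
    refine ⟨s, (j.g ≫ B.p.g) ⁻¹ᵁ ((e.g ≫ pullback.snd X.f H.P.f) ⁻¹ᵁ H.j₀.g.opensRange),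
      (j.g ≫ B.p.g).app _ g₁, hO, ?_, ?_⟩
    · intro y
      rw [← hs y, hB]
      rfl
    · exact GST.extend (j.g ≫ B.p.g) M.f.g f V h _ g₁ hO₁ hg₁ hO
  · intro n hn
    have h1 := GST.dimLE_modif M u n hn
    refine ⟨h1, fun y => ?_⟩
    have h2 := (hLPT.2.2.1 k (X₁.prod H.P) X₁ B (j.g y)).2
    rw [dim_map j.g j.comm] at h2
    refine h2.trans ?_
    have h3 := h1 (B.p.g (j.g y))
    push_cast
    gcongr

end CUB
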