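import Pool.Agent.CUB2.StmtsG

/-!
# PLI: the projective line exists
-/

set_option autoImplicit false

open CategoryTheory AlgebraicGeometry Limits Polynomial TopologicalSpace

namespace CUB.PLI

open Pool.Agent.Lib_helper55.Beil HomogeneousLocalization

noncomputable section

variable (k : Type) [Field k]

attribute [local instance] MvPolynomial.gradedAlgebra

/-- the polynomial ring in two variables -/
abbrev A2 : Type := MvPolynomial (Fin 2) k

/-- its grading -/
abbrev gr : ℕ → Submodule k (A2 k) := MvPolynomial.homogeneousSubmodule (Fin 2) k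

lemma hX (i : Fin 2) : (MvPolynomial.X i : A2 k) ∈ gr k 1 := by
  rw [MvPolynomial.mem_homogeneousSubmodule]
  exact MvPolynomial.isHomogeneous_X k i

/-- constants in degree zero -/
def c0 : k →+* gr k 0 where
  toFun c := ⟨MvPolynomial.C c, by
    rw [MvPolynomial.mem_homogeneousSubmodule]
    exact MvPolynomial.isHomogeneous_C _ c⟩
  map_one' := by ext1; simp
  map_mul' a b := by ext1; simp
  map_zero' := by ext1; simp
  map_add' a b := by ext1; simp

lemma c0_bij : Function.Bijective (c0 k) := by
  constructor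
  · intro a b h
    have := congrArg Subtype.val h
    exact MvPolynomial.C_injective _ _ this
  · rintro ⟨p, hp⟩
    rw [MvPolynomial.mem_homogeneousSubmodule, ← MvPolynomial.totalDegree_zero_iff_isHomogeneous,
      MvPolynomial.totalDegree_eq_zero_iff_eq_C] at hp
    exact ⟨MvPolynomial.coeff 0 p, Subtype.ext hp.symm⟩

/-- dehomogenisation -/
def dh (i : Fin 2) : A2 k →+* k[X] :=
  MvPolynomial.eval₂Hom Polynomial.C (fun l => if l = i then 1 else Polynomial.X)

lemma dh_X_self (i : Fin 2) : dh k i (MvPolynomial.X i) = 1 := by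
  simp [dh]

/-- the homomorphism from the chart to the polynomial ring -/
def ps (i : Fin 2) : Away (gr k) (MvPolynomial.X i : A2 k) →+* k[X] :=
  (Localization.awayLift (dh k i) (MvPolynomial.X i) (by rw [dh_X_self]; exact isUnit_one)).comp
    (algebraMap (Away (gr k) (MvPolynomial.X i : A2 k)) (Localization.Away (MvPolynomial.X i : A2 k)))

/-- the coordinate -/
def co (i j : Fin 2) : Away (gr k) (MvPolynomial.X i : A2 k) :=
  Away.mk (gr k) (hX k i) 1 (MvPolynomial.X j) (by simpa using hX k j)

/-- the homomorphism from the polynomial ring to the chart -/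
def al (i j : Fin 2) : k[X] →+* Away (gr k) (MvPolynomial.X i : A2 k) :=
  Polynomial.eval₂RingHom ((fromZeroRingHom (gr k) _).comp (c0 k)) (co k i j)

lemma ps_mk (i : Fin 2) (n : ℕ) (a : A2 k) (ha : a ∈ gr k (n • 1)) :
    ps k i (Away.mk (gr k) (hX k i) n a ha) = dh k i a := by
  have h := Localization.awayLift_mk (dh k i) (MvPolynomial.X i) a 1 (by
    rw [dh_X_self, one_mul]) n
  exact h.trans (by rw [one_pow, mul_one])

lemma ps_const (i : Fin 2) (c : k) : ps k i (fromZeroRingHom (gr k) _ (c0 k c)) = C c := by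
  have : fromZeroRingHom (gr k) (Submonoid.powers (MvPolynomial.X i : A2 k)) (c0 k c) =
      Away.mk (gr k) (hX k i) 0 (MvPolynomial.C c) (by
        rw [zero_smul]; exact (c0 k c).2) := by
    ext
    simp [fromZeroRingHom, c0, val_mk]
  rw [this, ps_mk]
  simp [dh]

lemma ps_co (i j : Fin 2) (hij : j ≠ i) : ps k i (co k i j) = X := by
  rw [co, ps_mk]
  simp [dh, hij]

lemma ps_al (i j : Fin 2) (hij : j ≠ i) (p : k[X]) : ps k i (al k i j p) = p := by
  have : (ps k i).comp (al k i j) = RingHom.id _ := by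
    ext c
    · simp only [al, RingHom.comp_apply, coe_eval₂RingHom, eval₂_C, RingHom.id_apply]
      exact congrArg (fun q : k[X] => q.coeff _) (ps_const k i c)
    · simp only [al, RingHom.comp_apply, coe_eval₂RingHom, eval₂_X, RingHom.id_apply]
      rw [ps_co k i j hij]
  exact DFunLike.congr_fun this p

lemma eval_homog {S : Type} [CommRing S] (f : k →+* S) (g : Fin 2 → S) (r : S) {n : ℕ} {a : A2 k}
    (ha : a ∈ gr k n) :
    MvPolynomial.eval₂ f (fun l => g l * r) a = MvPolynomial.eval₂ f g a * r ^ n := by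
  rw [MvPolynomial.mem_homogeneousSubmodule] at ha
  rw [MvPolynomial.eval₂_eq', MvPolynomial.eval₂_eq', Finset.sum_mul]
  refine Finset.sum_congr rfl fun d hd => ?_
  have h1 : ∑ l, d l = n := by
    by_contra hne
    have := ha.coeff_eq_zero (d := d) (by
      rwa [Finsupp.degree_eq_sum])
    exact (MvPolynomial.mem_support_iff.1 hd) this
  simp only [mul_pow]
  rw [Finset.prod_mul_distrib, Finset.prod_pow_eq_pow_sum, h1]
  ring

lemma fin2_cases {i j : Fin 2} (hij : j ≠ i) (l : Fin 2) : l = i ∨ l = j := by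
  omega

lemma al_ps (i j : Fin 2) (hij : j ≠ i) (z : Away (gr k) (MvPolynomial.X i : A2 k)) :
    al k i j (ps k i z) = z := by
  obtain ⟨n, a, ha, rfl⟩ := Away.mk_surjective (gr k) (hX k i) z
  rw [ps_mk]
  apply val_injective
  let L := Localization.Away (MvPolynomial.X i : A2 k)
  let r : L := Localization.mk 1 ⟨MvPolynomial.X i ^ 1, 1, rfl⟩
  have hr : algebraMap (A2 k) L (MvPolynomial.X i) * r = 1 := by
    rw [← Localization.mk_one_eq_algebraMap, Localization.mk_mul]
    simp only [mul_one, one_mul, pow_one]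
    exact Localization.mk_self ⟨MvPolynomial.X i, _⟩
  have h4 : ∀ (n : ℕ) (a : A2 k) (ha : a ∈ gr k (n • 1)),
      (Away.mk (gr k) (hX k i) n a ha).val = algebraMap (A2 k) L a * r ^ n := by
    intro n a ha
    rw [Away.val_mk, ← Localization.mk_one_eq_algebraMap, Localization.mk_pow, Localization.mk_mul]
    simp
  have hΦ : ((algebraMap (Away (gr k) (MvPolynomial.X i : A2 k)) L).comp (al k i j)).comp (dh k i) =
      MvPolynomial.eval₂Hom ((algebraMap (A2 k) L).comp MvPolynomial.C)
        (fun l => algebraMap (A2 k) L (MvPolynomial.X l) * r) := by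
    apply MvPolynomial.ringHom_ext
    · intro c
      simp [dh, al, fromZeroRingHom, c0]
      rfl
    · intro l
      rcases fin2_cases hij l with rfl | rfl
      · simp only [RingHom.comp_apply, dh_X_self, map_one, MvPolynomial.eval₂Hom_X', hr]
      · simp only [dh, al, hij, co, RingHom.comp_apply, MvPolynomial.eval₂Hom_X', if_false,
          coe_eval₂RingHom, eval₂_X]
        exact (h4 _ _ _).trans (by rw [pow_one])
  have h2 := DFunLike.congr_fun hΦ a
  have h3 : MvPolynomial.eval₂ ((algebraMap (A2 k) L).comp MvPolynomial.C)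
      (fun l => algebraMap (A2 k) L (MvPolynomial.X l)) a = algebraMap (A2 k) L a := by
    have := MvPolynomial.eval₂_comp_left (algebraMap (A2 k) L) MvPolynomial.C MvPolynomial.X a
    rw [MvPolynomial.eval₂_eta] at this
    exact this.symm
  rw [MvPolynomial.coe_eval₂Hom, eval_homog k _ (fun l => algebraMap (A2 k) L (MvPolynomial.X l)) r
    (by simpa using ha), h3] at h2
  rw [h4, ← h2]
  rfl

/-- the chart -/
def ch (i j : Fin 2) (hij : j ≠ i) : Away (gr k) (MvPolynomial.X i : A2 k) ≃+* k[X] :=
  RingEquiv.ofRingHom (ps k i) (al k i j) (RingHom.ext (ps_al k i j hij))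
    (RingHom.ext (al_ps k i j hij))

/-- the projective line -/
abbrev PP : Scheme.{0} := Proj (gr k)

/-- its structure morphism -/
def st : PP k ⟶ Spec (CommRingCat.of k) :=
  Proj.toSpecZero (gr k) ≫ Spec.map (CommRingCat.ofHom (c0 k))

instance : IsScalarTower k (gr k 0) (A2 k) :=
  ⟨fun c x y => smul_mul_assoc c x.1 y⟩

instance : Algebra.FiniteType (gr k 0) (A2 k) :=
  Algebra.FiniteType.of_restrictScalars_finiteType k (gr k 0) (A2 k)

instance : IsIso (CommRingCat.ofHom (c0 k)) := by
  have : IsIso (RingEquiv.ofBijective (c0 k) (c0_bij k)).toCommRingCatIso.hom := inferInstance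
  exact this

instance : IsProper (st k) := by
  unfold st
  infer_instance

/-- the open immersion of the chart -/
def jj (i : Fin 2) : Spec (CommRingCat.of k[X]) ⟶ PP k :=
  Spec.map (CommRingCat.ofHom (ps k i)) ≫ Proj.awayι (gr k) (MvPolynomial.X i) (hX k i) one_pos

lemma iso_ps (i j : Fin 2) (hij : j ≠ i) : IsIso (CommRingCat.ofHom (ps k i)) := by
  have : IsIso (ch k i j hij).toCommRingCatIso.hom := inferInstance
  exact this

lemma open_jj (i j : Fin 2) (hij : j ≠ i) : IsOpenImmersion (jj k i) := by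
  have := iso_ps k i j hij
  unfold jj
  infer_instance

lemma jj_st (i : Fin 2) : jj k i ≫ st k = Spec.map (CommRingCat.ofHom (algebraMap k k[X])) := by
  unfold jj st
  rw [Category.assoc, Proj.awayι_toSpecZero_assoc, ← Spec.map_comp, ← Spec.map_comp]
  congr 1
  ext c
  exact congrArg (fun q : k[X] => q.coeff _) (ps_const k i c)

lemma range_jj (i j : Fin 2) (hij : j ≠ i) :
    Set.range (jj k i) = (Proj.basicOpen (gr k) (MvPolynomial.X i) : Set (PP k)) := by
  have := iso_ps k i j hij
  have := open_jj k i j hij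
  rw [← Proj.opensRange_awayι (gr k) (MvPolynomial.X i) (hX k i) one_pos]
  have h : (jj k i).opensRange =
    (Proj.awayι (gr k) (MvPolynomial.X i) (hX k i) one_pos).opensRange :=
    Scheme.Hom.opensRange_comp_of_isIso _ _
  rw [← h]
  rfl

lemma cover : Set.range (jj k 0) ∪ Set.range (jj k 1) = Set.univ := by
  have h1 : Algebra.adjoin (gr k 0) (Set.range (MvPolynomial.X : Fin 2 → A2 k)) = ⊤ := by
    rw [eq_top_iff]
    rintro p -
    induction p using MvPolynomial.induction_on with
    | C c => exact Subalgebra.algebraMap_mem _ (c0 k c)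
    | add p q hp hq => exact Subalgebra.add_mem _ hp hq
    | mul_X p i hp => exact Subalgebra.mul_mem _ hp (Algebra.subset_adjoin ⟨i, rfl⟩)
  have h := Proj.iSup_basicOpen_eq_top' (gr k) (MvPolynomial.X : Fin 2 → A2 k)
    (fun i => ⟨1, hX k i⟩) h1
  rw [range_jj k 0 1 (by decide), range_jj k 1 0 (by decide), Set.eq_univ_iff_forall]
  intro x
  have hx : x ∈ (⊤ : (PP k).Opens) := trivial
  rw [← h, TopologicalSpace.Opens.mem_iSup] at hx
  obtain ⟨i, hi⟩ := hx
  fin_cases i
  · exact Or.inl hi
  · exact Or.inr hi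

/-- the coordinate is the generator -/
lemma al_X (i j : Fin 2) : al k i j X = co k i j := by
  simp [al]

lemma al_C (i j : Fin 2) (c : k) : al k i j (C c) = fromZeroRingHom (gr k) _ (c0 k c) := by
  simp [al]

/-- restriction to the intersection -/
abbrev rl : Away (gr k) (MvPolynomial.X 0 : A2 k) →+*
    Away (gr k) (MvPolynomial.X 0 * MvPolynomial.X 1 : A2 k) :=
  awayMap (gr k) (hX k 1) rfl

/-- restriction to the intersection -/
abbrev rr : Away (gr k) (MvPolynomial.X 1 : A2 k) →+*
    Away (gr k) (MvPolynomial.X 0 * MvPolynomial.X 1 : A2 k) :=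
  awayMap (gr k) (hX k 0) (mul_comm _ _)

lemma rl_rr : rl k (co k 0 1) * rr k (co k 1 0) = 1 := by
  apply val_injective
  rw [val_mul, co, co, awayMap_mk, awayMap_mk, Away.val_mk, Away.val_mk, Localization.mk_mul,
    val_one, ← Localization.mk_one, Localization.mk_eq_mk_iff, Localization.r_iff_exists]
  refine ⟨1, ?_⟩
  simp
  ring

/-- the ring of the intersection -/
lemma exists_iso : ∃ b : LaurentPolynomial k ≃+* Away (gr k) (MvPolynomial.X 0 * MvPolynomial.X 1 : A2 k),
    ∀ p : k[X], b (Polynomial.toLaurent p) = rl k (al k 0 1 p) := by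
  let := (rl k).toAlgebra
  have hloc := Away.isLocalization_mul (x := (MvPolynomial.X 0 * MvPolynomial.X 1 : A2 k))
    (hX k 0) (hX k 1) rfl one_ne_zero
  have he : Away.isLocalizationElem (hX k 0) (hX k 1) = co k 0 1 := by
    apply val_injective
    rw [co, Away.val_mk, Away.val_mk, pow_one]
  rw [he] at hloc
  let h : k[X] ≃+* Away (gr k) (MvPolynomial.X 0 : A2 k) := (ch k 0 1 (by decide)).symm
  have hh : ∀ p, h p = al k 0 1 p := fun p => rfl
  have H : (Submonoid.powers (X : k[X])).map h.toMonoidHom = Submonoid.powers (co k 0 1) := by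
    rw [Submonoid.map_powers]
    congr 1
    exact (hh X).trans (al_X k 0 1)
  refine ⟨IsLocalization.ringEquivOfRingEquiv (LaurentPolynomial k)
    (Away (gr k) (MvPolynomial.X 0 * MvPolynomial.X 1 : A2 k)) h H, fun p => ?_⟩
  exact IsLocalization.ringEquivOfRingEquiv_eq (S := LaurentPolynomial k) H p

lemma iso_right (b : LaurentPolynomial k ≃+* Away (gr k) (MvPolynomial.X 0 * MvPolynomial.X 1 : A2 k))
    (hb : ∀ p : k[X], b (Polynomial.toLaurent p) = rl k (al k 0 1 p)) (p : k[X]) :
    b (LaurentPolynomial.invert (Polynomial.toLaurent p)) = rr k (al k 1 0 p) := by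
  have h1 : b (LaurentPolynomial.T 1) = rl k (co k 0 1) := by
    rw [← Polynomial.toLaurent_X, hb, al_X]
  have h2 : b (LaurentPolynomial.T (-1)) = rr k (co k 1 0) := by
    have h3 : b (LaurentPolynomial.T (-1)) * rl k (co k 0 1) = 1 := by
      rw [← h1, ← map_mul, ← LaurentPolynomial.T_add]
      simp
    calc b (LaurentPolynomial.T (-1)) = b (LaurentPolynomial.T (-1)) *
        (rl k (co k 0 1) * rr k (co k 1 0)) := by rw [rl_rr, mul_one]
      _ = rr k (co k 1 0) := by rw [← mul_assoc, h3, one_mul]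
  have h4 : ((b : LaurentPolynomial k →+* _).comp ((LaurentPolynomial.invert (R := k) :
      LaurentPolynomial k →+* LaurentPolynomial k).comp (Polynomial.toLaurent (R := k)))) =
      (rr k).comp (al k 1 0) := by
    ext c
    · have h5 := hb (C c)
      rw [al_C, awayMap_fromZeroRingHom] at h5
      simp only [RingHom.comp_apply, al_C, awayMap_fromZeroRingHom]
      rw [← h5]
      simp
    · simp only [RingHom.comp_apply, al_X]
      rw [← h2]
      simp
  exact DFunLike.congr_fun h4 p

lemma proj_pull : IsPullback (Spec.map (CommRingCat.ofHom (rl k))) (Spec.map (CommRingCat.ofHom (rr k)))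
    (Proj.awayι (gr k) (MvPolynomial.X 0) (hX k 0) one_pos)
    (Proj.awayι (gr k) (MvPolynomial.X 1) (hX k 1) one_pos) := by
  refine IsPullback.of_iso_pullback ⟨?_⟩
    (Proj.pullbackAwayιIso (gr k) (hX k 0) one_pos (hX k 1) one_pos rfl).symm ?_ ?_
  · rw [Proj.SpecMap_awayMap_awayι, Proj.SpecMap_awayMap_awayι]
  · exact Proj.pullbackAwayιIso_inv_fst (gr k) (hX k 0) one_pos (hX k 1) one_pos rfl
  · exact Proj.pullbackAwayιIso_inv_snd (gr k) (hX k 0) one_pos (hX k 1) one_pos rfl

lemma glue_jj : IsPullback (Spec.map (CommRingCat.ofHom (gm₀ (k := k))))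
    (Spec.map (CommRingCat.ofHom (gm₁ (k := k)))) (jj k 0) (jj k 1) := by
  obtain ⟨b, hb⟩ := exists_iso k
  have hb' := iso_right k b hb
  let e₁ : Spec (CommRingCat.of (Away (gr k) (MvPolynomial.X 0 * MvPolynomial.X 1 : A2 k))) ≅
      Spec (CommRingCat.of (LaurentPolynomial k)) := Scheme.Spec.mapIso b.toCommRingCatIso.op
  let e₂ : Spec (CommRingCat.of (Away (gr k) (MvPolynomial.X 0 : A2 k))) ≅
      Spec (CommRingCat.of k[X]) := Scheme.Spec.mapIso (ch k 0 1 (by decide)).symm.toCommRingCatIso.op
  let e₃ : Spec (CommRingCat.of (Away (gr k) (MvPolynomial.X 1 : A2 k))) ≅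
      Spec (CommRingCat.of k[X]) := Scheme.Spec.mapIso (ch k 1 0 (by decide)).symm.toCommRingCatIso.op
  have h₁ : e₁.hom = Spec.map (CommRingCat.ofHom (b : LaurentPolynomial k →+* _)) := rfl
  have h₂ : e₂.hom = Spec.map (CommRingCat.ofHom (al k 0 1)) := rfl
  have h₃ : e₃.hom = Spec.map (CommRingCat.ofHom (al k 1 0)) := rfl
  refine (proj_pull k).of_iso e₁ e₂ e₃ (Iso.refl _) ?_ ?_ ?_ ?_
  · rw [h₁, h₂, ← Spec.map_comp, ← Spec.map_comp, ← CommRingCat.ofHom_comp,
      ← CommRingCat.ofHom_comp]
    congr 2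
    exact RingHom.ext fun p => (hb p).symm
  · rw [h₁, h₃, ← Spec.map_comp, ← Spec.map_comp, ← CommRingCat.ofHom_comp,
      ← CommRingCat.ofHom_comp]
    congr 2
    exact RingHom.ext fun p => (hb' p).symm
  · rw [h₂, jj, Iso.refl_hom, Category.comp_id, ← Category.assoc, ← Spec.map_comp,
      ← CommRingCat.ofHom_comp]
    have : (al k 0 1).comp (ps k 0) = RingHom.id _ := RingHom.ext (al_ps k 0 1 (by decide))
    rw [this, CommRingCat.ofHom_id, Spec.map_id, Category.id_comp]
  · rw [h₃, jj, Iso.refl_hom, Category.comp_id, ← Category.assoc, ← Spec.map_comp,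
      ← CommRingCat.ofHom_comp]
    have : (al k 1 0).comp (ps k 1) = RingHom.id _ := RingHom.ext (al_ps k 1 0 (by decide))
    rw [this, CommRingCat.ofHom_id, Spec.map_id, Category.id_comp]

/-- the projective line as a variety -/
def PV : Var k where
  X := PP k
  f := st k
  sep := inferInstance
  lft := inferInstance
  qc := inferInstance

end

end CUB.PLI

namespace CUB

open PLI

theorem t_PLI : S_PLI := by
  intro k _
  exact ⟨{
    P := PV k
    proper := (inferInstance : IsProper (PLI.st k))
    j₀ := ⟨jj k 0, jj_st k 0, open_jj k 0 1 (by decide)⟩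
    j₁ := ⟨jj k 1, jj_st k 1, open_jj k 1 0 (by decide)⟩
    cover := cover k
    glue := glue_jj k }⟩

end CUB
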