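import Pool.Agent.CUB2.StmtsG

/-!
# CUB2, module PLP: the point at infinity of the projective line

The projective line `P` is integral, and the complement of the first chart is the point `s = 0` of
the second chart.
-/

set_option autoImplicit false

open CategoryTheory AlgebraicGeometry Limits Polynomial TopologicalSpace

namespace CUB.PLP

open Pool.Agent.Lib_helper55.Beil Pool.Agent.Lib_helper66.OneP

/-- The stalks of `X` at the points of a reduced open subscheme are reduced. -/
lemma red_stalk {Y X : Scheme.{0}} (f : Y ⟶ X) (hf : IsOpenImmersion f) (hY : IsReduced Y)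
    (y : Y) : _root_.IsReduced (X.presheaf.stalk (f y)) :=
  isReduced_of_injective (f.stalkMap y).hom
    (ConcreteCategory.bijective_of_isIso (f.stalkMap y)).injective

/-- The image of an irreducible space is irreducible. -/
lemma irr_range {Y X : Scheme.{0}} (f : Y ⟶ X) (hY : IrreducibleSpace Y) :
    IsIrreducible (Set.range f) := by
  rw [← Set.image_univ]
  exact (IrreducibleSpace.isIrreducible_univ Y).image _ f.continuous.continuousOn

/-- A scheme with two integral charts that meet is integral. -/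
lemma integral_two {Y₀ Y₁ X : Scheme.{0}} (f₀ : Y₀ ⟶ X) (f₁ : Y₁ ⟶ X)
    (h₀ : IsOpenImmersion f₀) (h₁ : IsOpenImmersion f₁) (i₀ : IsIntegral Y₀) (i₁ : IsIntegral Y₁)
    (hc : Set.range f₀ ∪ Set.range f₁ = Set.univ) (hm : (Set.range f₀ ∩ Set.range f₁).Nonempty) :
    IsIntegral X := by
  have hr : IsReduced X := by
    have : ∀ x : X, _root_.IsReduced (X.presheaf.stalk x) := by
      intro x
      have hx : x ∈ Set.range f₀ ∪ Set.range f₁ := by rw [hc]; trivial
      rcases hx with ⟨y, rfl⟩ | ⟨y, rfl⟩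
      · exact red_stalk f₀ h₀ inferInstance y
      · exact red_stalk f₁ h₁ inferInstance y
    exact isReduced_of_isReduced_stalk X
  have a₀ := irr_range f₀ inferInstance
  have a₁ := irr_range f₁ inferInstance
  have o₀ : IsOpen (Set.range f₀) := f₀.isOpenEmbedding.isOpen_range
  have o₁ : IsOpen (Set.range f₁) := f₁.isOpenEmbedding.isOpen_range
  have hd : closure (Set.range f₀) = Set.univ := by
    rw [← dense_iff_closure_eq, dense_iff_inter_open]
    intro U hU hne
    obtain ⟨x, hx⟩ := hne
    have hx' : x ∈ Set.range f₀ ∪ Set.range f₁ := by rw [hc]; trivial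
    rcases hx' with hx' | hx'
    · exact ⟨x, hx, hx'⟩
    · obtain ⟨z, hz0, hz1⟩ := hm
      obtain ⟨w, -, hw⟩ := a₁.2 U (Set.range f₀) hU o₀ ⟨x, hx', hx⟩ ⟨z, hz1, hz0⟩
      exact ⟨w, hw⟩
  have hi : IrreducibleSpace X := by
    have := a₀.closure
    rw [hd] at this
    exact { isPreirreducible_univ := this.2, toNonempty := ⟨this.1.some⟩ }
  exact isIntegral_of_irreducibleSpace_of_isReduced X

/-- Points of a cartesian square. -/
lemma exists_pt {P X Y Z : Scheme.{0}} {f : P ⟶ X} {g : P ⟶ Y} {h : X ⟶ Z} {i : Y ⟶ Z}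
    (sq : IsPullback f g h i) (a : X) (b : Y) (hab : h a = i b) :
    ∃ z : P, f z = a ∧ g z = b := by
  obtain ⟨z, hz0, hz1⟩ := Scheme.Pullback.exists_preimage_pullback a b hab
  refine ⟨sq.isoPullback.inv z, ?_, ?_⟩
  · rw [← hz0, ← sq.isoPullback_inv_fst]
    rfl
  · rw [← hz1, ← sq.isoPullback_inv_snd]
    rfl

variable {k : Type} [Field k]

/-- The second gluing morphism has the nonvanishing locus of `s` as its image. -/
lemma mem_range_gm₁ (y : PrimeSpectrum k[X]) (hy : (X : k[X]) ∉ y.asIdeal) :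
    ∃ z : PrimeSpectrum (LaurentPolynomial k), PrimeSpectrum.comap gm₁ z = y := by
  have h : y ∈ Set.range (PrimeSpectrum.comap (algebraMap k[X] (LaurentPolynomial k))) := by
    rw [PrimeSpectrum.localization_away_comap_range (LaurentPolynomial k) (X : k[X])]
    exact hy
  obtain ⟨z, rfl⟩ := h
  refine ⟨PrimeSpectrum.comap
    (LaurentPolynomial.invert (R := k) : LaurentPolynomial k →+* LaurentPolynomial k) z, ?_⟩
  ext p
  simp only [PrimeSpectrum.comap_asIdeal, Ideal.mem_comap, gm₁, gm₀, RingHom.comp_apply]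
  have e : ∀ q : LaurentPolynomial k,
      (LaurentPolynomial.invert (R := k) : LaurentPolynomial k →+* LaurentPolynomial k)
        ((LaurentPolynomial.invert (R := k) : LaurentPolynomial k →+* LaurentPolynomial k) q) = q :=
    fun q => LaurentPolynomial.involutive_invert q
  rw [e]
  rfl

/-- `s` is invertible on the image of the second gluing morphism. -/
lemma not_mem_gm₁ (z : PrimeSpectrum (LaurentPolynomial k)) :
    (X : k[X]) ∉ (PrimeSpectrum.comap gm₁ z).asIdeal := by
  intro h
  rw [PrimeSpectrum.comap_asIdeal, Ideal.mem_comap] at h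
  have e : gm₁ (X : k[X]) = LaurentPolynomial.T (R := k) (-1) := by
    change LaurentPolynomial.invert (R := k) (Polynomial.toLaurent X) = _
    rw [Polynomial.toLaurent_X, LaurentPolynomial.invert_T]
  rw [e] at h
  exact z.isPrime.ne_top (Ideal.eq_top_of_isUnit_mem _ h (LaurentPolynomial.isUnit_T (-1)))

/-- The point `s = 0`. -/
lemma eq_origin (y : PrimeSpectrum k[X]) (hy : (X : k[X]) ∈ y.asIdeal)
    (o : PrimeSpectrum k) :
    y = PrimeSpectrum.comap (Polynomial.aeval (R := k) (0 : k) : k[X] →+* k) o := by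
  ext p
  rw [PrimeSpectrum.comap_asIdeal, Ideal.mem_comap]
  have ho : o.asIdeal = ⊥ := Ideal.eq_bot_of_prime _
  rw [ho, Ideal.mem_bot]
  have e : (Polynomial.aeval (R := k) (0 : k) : k[X] →+* k) p = p.coeff 0 := by
    change Polynomial.aeval (0 : k) p = p.coeff 0
    rw [Polynomial.coe_aeval_eq_eval, Polynomial.coeff_zero_eq_eval_zero]
  rw [e]
  constructor
  · intro hp
    by_contra hne
    have h1 : (C (p.coeff 0) : k[X]) ∈ y.asIdeal := by
      have h2 : X * p.divX + C (p.coeff 0) = p := Polynomial.X_mul_divX_add p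
      have h3 : (C (p.coeff 0) : k[X]) = p - X * p.divX := by
        rw [← sub_eq_zero]
        linear_combination h2
      rw [h3]
      exact y.asIdeal.sub_mem hp (y.asIdeal.mul_mem_right _ hy)
    exact y.isPrime.ne_top (Ideal.eq_top_of_isUnit_mem _ h1 (Polynomial.isUnit_C.2 (isUnit_iff_ne_zero.2 hne)))
  · intro hp
    have h2 : X ∣ p := Polynomial.X_dvd_iff.2 hp
    exact y.asIdeal.mem_of_dvd h2 hy

lemma X_mem_origin (o : PrimeSpectrum k) : (X : k[X]) ∈
    (PrimeSpectrum.comap (Polynomial.aeval (R := k) (0 : k) : k[X] →+* k) o).asIdeal := by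
  rw [PrimeSpectrum.comap_asIdeal, Ideal.mem_comap]
  have e : (Polynomial.aeval (R := k) (0 : k) : k[X] →+* k) X = 0 := by
    change Polynomial.aeval (0 : k) X = 0
    rw [Polynomial.aeval_X]
  rw [e]
  exact o.asIdeal.zero_mem

/-- The origin of the second chart. -/
noncomputable def org (H : PLine k) : (aff k k).X ⟶ H.P.X :=
  spm (Polynomial.aeval (R := k) (0 : k)) ≫ H.j₁.g

lemma org_comm (H : PLine k) : org H ≫ H.P.f = (aff k k).f := by
  rw [org, Category.assoc, H.j₁.comm, spm_comm]

lemma org_closed (H : PLine k) : IsClosedImmersion (org H) := by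
  have h1 : IsIso (aff k k).f := by
    change IsIso (Spec.map (CommRingCat.ofHom (algebraMap k k)))
    have : CommRingCat.ofHom (algebraMap k k) = 𝟙 (CommRingCat.of k) := rfl
    rw [this, Spec.map_id]
    infer_instance
  have h2 : IsClosedImmersion (org H ≫ H.P.f) := by
    rw [org_comm]
    infer_instance
  have h3 : IsSeparated H.P.f := H.P.sep
  exact IsClosedImmersion.of_comp (org H) H.P.f

lemma org_range (H : PLine k) : Set.range (org H) = (Set.range H.j₀.g)ᶜ := by
  ext x
  constructor
  · rintro ⟨o, rfl⟩ ⟨a, ha⟩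
    have hw : H.j₀.g a = H.j₁.g (spm (Polynomial.aeval (R := k) (0 : k)) o) := by
      rw [ha]
      rfl
    obtain ⟨z, -, hz⟩ := exists_pt H.glue a (spm (Polynomial.aeval (R := k) (0 : k)) o) hw
    apply not_mem_gm₁ z
    have hz2 : (PrimeSpectrum.comap gm₁ z) =
        PrimeSpectrum.comap (Polynomial.aeval (R := k) (0 : k) : k[X] →+* k) o := hz
    rw [hz2]
    exact X_mem_origin o
  · intro hx
    have hx' : x ∈ Set.range H.j₀.g ∪ Set.range H.j₁.g := by rw [H.cover]; trivial
    rcases hx' with hx' | ⟨y, rfl⟩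
    · exact absurd hx' hx
    · by_cases hy : (X : k[X]) ∈ y.asIdeal
      · refine ⟨(⊥ : PrimeSpectrum k), ?_⟩
        have h1 := eq_origin y hy ⊥
        have h2 : y = spm (Polynomial.aeval (R := k) (0 : k)) (⊥ : PrimeSpectrum k) := h1
        rw [h2]
        rfl
      · exfalso
        obtain ⟨z, hz⟩ := mem_range_gm₁ y hy
        apply hx
        refine ⟨Spec.map (CommRingCat.ofHom gm₀) z, ?_⟩
        have h1 : Spec.map (CommRingCat.ofHom gm₁) z = y := hz
        have h2 : (Spec.map (CommRingCat.ofHom gm₀) ≫ H.j₀.g) z =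
            (Spec.map (CommRingCat.ofHom gm₁) ≫ H.j₁.g) z := by
          rw [H.glue.w]
        rw [← h1]
        exact h2

/-- The two charts meet. -/
lemma meet (H : PLine k) : (Set.range H.j₀.g ∩ Set.range H.j₁.g).Nonempty := by
  obtain ⟨z⟩ : Nonempty (PrimeSpectrum (LaurentPolynomial k)) := inferInstance
  refine ⟨H.j₀.g (Spec.map (CommRingCat.ofHom gm₀) z), ⟨_, rfl⟩,
    ⟨Spec.map (CommRingCat.ofHom gm₁) z, ?_⟩⟩
  have h2 : (Spec.map (CommRingCat.ofHom gm₀) ≫ H.j₀.g) z =
      (Spec.map (CommRingCat.ofHom gm₁) ≫ H.j₁.g) z := by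
    rw [H.glue.w]
  exact h2.symm

end CUB.PLP

namespace CUB

theorem t_PLP : S_PLP := by
  intro k _ H
  refine ⟨?_, ⟨⟨PLP.org H, PLP.org_comm H, PLP.org_closed H⟩, PLP.org_range H⟩⟩
  have i : IsIntegral (aff k k[X]).X :=
    inferInstanceAs (IsIntegral (Spec (CommRingCat.of k[X])))
  exact PLP.integral_two H.j₀.g H.j₁.g H.j₀.isOpen H.j₁.isOpen i i H.cover (PLP.meet H)

end CUB
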