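import Pool.Agent.CUB2.StmtsG

/-!
# CUB2, modules PPE: `Processed` is stable under composition
-/

set_option autoImplicit false

open CategoryTheory AlgebraicGeometry Limits Polynomial TopologicalSpace

namespace CUB

open Pool.Agent.Lib_helper55.Beil Pool.Agent.Lib_helper66.OneP

universe v

theorem t_PPE : S_PPE := by
  classical
  intro Z Y X₀ g f V h ⟨s, O, a, hO, hs, ha⟩
  refine ⟨s.image g.appTop.hom, g ⁻¹ᵁ O, g.app O a, ?_, ?_, ?_⟩
  · rw [Scheme.Hom.comp_preimage]
    exact Scheme.Hom.preimage_mono g hO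
  · intro z
    have h1 : z ∈ g ⁻¹ᵁ O ↔ g z ∈ O := Iff.rfl
    rw [h1, hs]
    constructor
    · rintro ⟨b, hb, hzb⟩
      refine ⟨g.appTop.hom b, Finset.mem_image_of_mem _ hb, ?_⟩
      have h2 : Z.basicOpen (g.appTop.hom b) = g ⁻¹ᵁ Y.basicOpen b := (Scheme.preimage_basicOpen_top g b).symm
      rw [h2]
      exact hzb
    · rintro ⟨b, hb, hzb⟩
      obtain ⟨c, hc, rfl⟩ := Finset.mem_image.1 hb
      refine ⟨c, hc, ?_⟩
      have h2 : Z.basicOpen (g.appTop.hom c) = g ⁻¹ᵁ Y.basicOpen c := (Scheme.preimage_basicOpen_top g c).symm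
      rw [h2] at hzb
      exact hzb
  · have h1 := g.naturality (homOfLE hO).op
    have h2 := ConcreteCategory.congr_hom h1 a
    rw [ConcreteCategory.comp_apply, ConcreteCategory.comp_apply, ha] at h2
    rw [Scheme.Hom.comp_app]
    exact h2.symm

end CUB
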