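import Pool.Agent.CUB2.StmtsG

/-!
# CUB2: module PRO
-/

set_option autoImplicit false

open CategoryTheory AlgebraicGeometry Limits Polynomial TopologicalSpace

namespace CUB

open Pool.Agent.Lib_helper55.Beil Pool.Agent.Lib_helper66.OneP

namespace PRO

/-! ### The affine line is geometrically integral -/

section line

variable (k : Type) [Field k]

/-- The structure morphism of the affine line. -/
noncomputable abbrev lineMap : Spec (CommRingCat.of k[X]) ⟶ Spec (CommRingCat.of k) :=
  Spec.map (CommRingCat.ofHom (algebraMap k k[X]))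

/-- The comparison with the affine space of Mathlib. -/
noncomputable def lineIso : Spec (CommRingCat.of k[X]) ≅ 𝔸(PUnit.{1}; Spec (CommRingCat.of k)) :=
  Scheme.Spec.mapIso
    ((MvPolynomial.uniqueAlgEquiv k PUnit.{1}).toRingEquiv.toCommRingCatIso).op ≪≫
    (AffineSpace.SpecIso PUnit.{1} (CommRingCat.of k)).symm

lemma lineIso_comp :
    (lineIso k).hom ≫ (𝔸(PUnit.{1}; Spec (CommRingCat.of k)) ↘ Spec (CommRingCat.of k)) =
      lineMap k := by
  rw [lineIso, Iso.trans_hom, Category.assoc, Iso.symm_hom, AffineSpace.SpecIso_inv_over]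
  change Spec.map _ ≫ Spec.map _ = Spec.map _
  rw [← Spec.map_comp]
  congr 1
  ext x
  simp

lemma lineSq : IsPullback (lineIso k).hom (lineMap k)
    (𝔸(PUnit.{1}; Spec (CommRingCat.of k)) ↘ Spec (CommRingCat.of k)) (𝟙 _) :=
  IsPullback.of_horiz_isIso ⟨by rw [lineIso_comp, Category.comp_id]⟩

instance geomIntegral_line : GeometricallyIntegral (lineMap k) :=
  MorphismProperty.of_isPullback (P := @GeometricallyIntegral) (lineSq k) inferInstance

instance flat_line : Flat (lineMap k) := by
  rw [HasRingHomProperty.Spec_iff (P := @Flat)]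
  change (algebraMap k k[X]).Flat
  rw [RingHom.flat_algebraMap_iff]
  infer_instance

instance lfp_line : LocallyOfFinitePresentation (lineMap k) :=
  MorphismProperty.of_isPullback (P := @LocallyOfFinitePresentation) (lineSq k) inferInstance

end line

variable {k : Type} [Field k]

/-- A product with the affine line is integral. -/
lemma line_integral {Y X : Var k} (L : Line Y X) [IsIntegral X.X] : IsIntegral Y.X := by
  have h1 : GeometricallyIntegral L.q :=
    MorphismProperty.of_isPullback L.prod.flip (geomIntegral_line k)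
  have h2 : Flat L.q := MorphismProperty.of_isPullback L.prod.flip (flat_line k)
  have h3 : LocallyOfFinitePresentation L.q :=
    MorphismProperty.of_isPullback L.prod.flip (lfp_line k)
  exact GeometricallyIntegral.isIntegral_of_isLocallyNoetherian L.q

/-! ### Products -/

/-- The first projection. -/
noncomputable def pfst (X P : Var k) : (X.prod P).X ⟶ X.X := pullback.fst X.f P.f

/-- The second projection. -/
noncomputable def psnd (X P : Var k) : (X.prod P).X ⟶ P.X := pullback.snd X.f P.f

lemma pfst_comp (X P : Var k) : pfst X P ≫ X.f = (X.prod P).f := rfl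

lemma psnd_comp (X P : Var k) : psnd X P ≫ P.f = (X.prod P).f := pullback.condition.symm

lemma prod_isPullback (X P : Var k) : IsPullback (pfst X P) (psnd X P) X.f P.f :=
  IsPullback.of_hasPullback _ _

lemma range_of_isPullback {A B C D : Scheme.{0}} {f : A ⟶ B} {g : A ⟶ C} {h : B ⟶ D} {i : C ⟶ D}
    (H : IsPullback f g h i) : Set.range f = h ⁻¹' (Set.range i) := by
  have h1 : Set.range (pullback.fst h i) = h ⁻¹' (Set.range i) := Scheme.Pullback.range_fst _ _
  rw [← h1, ← H.isoPullback_hom_fst]
  ext z
  constructor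
  · rintro ⟨a, rfl⟩
    exact ⟨H.isoPullback.hom a, rfl⟩
  · rintro ⟨b, rfl⟩
    refine ⟨H.isoPullback.inv b, ?_⟩
    change (H.isoPullback.inv ≫ H.isoPullback.hom ≫ pullback.fst h i) b = _
    rw [Iso.inv_hom_id_assoc]

section prod

variable (X : Var k) {U P : Var k} (j : OpenIn U P)

/-- The product of `X` with an open subvariety. -/
noncomputable def pmap : (X.prod U).X ⟶ (X.prod P).X :=
  (prod_isPullback X P).lift (pfst X U) (psnd X U ≫ j.g)
    (by rw [Category.assoc, j.comm, psnd_comp, pfst_comp])

lemma pmap_fst : pmap X j ≫ pfst X P = pfst X U :=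
  (prod_isPullback X P).lift_fst _ _ _

lemma pmap_snd : pmap X j ≫ psnd X P = psnd X U ≫ j.g :=
  (prod_isPullback X P).lift_snd _ _ _

lemma pmap_isPullback : IsPullback (psnd X U) (pmap X j) j.g (psnd X P) := by
  have h2 : IsPullback (psnd X U) (pmap X j ≫ pfst X P) (j.g ≫ P.f) X.f := by
    rw [pmap_fst, j.comm]
    exact (prod_isPullback X U).flip
  exact IsPullback.of_bot h2 (pmap_snd X j).symm (prod_isPullback X P).flip

/-- The product of `X` with an open subvariety, as an open subvariety. -/
noncomputable def prodOpen : OpenIn (X.prod U) (X.prod P) where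
  g := pmap X j
  comm := by rw [← pfst_comp, ← Category.assoc, pmap_fst, pfst_comp]
  isOpen := MorphismProperty.of_isPullback (P := @IsOpenImmersion) (pmap_isPullback X j) j.isOpen

lemma range_prodOpen : Set.range (prodOpen X j).g = psnd X P ⁻¹' (Set.range j.g) :=
  range_of_isPullback (pmap_isPullback X j).flip

end prod

/-- The structure morphism of `X`, with target `Spec k`. -/
noncomputable def str (X : Var k) : X.X ⟶ (aff k k).X := X.f

lemma aff_f : (aff k k).f = 𝟙 (Spec (CommRingCat.of k)) := Spec.map_id _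

lemma str_comp (X : Var k) : str X ≫ (aff k k).f = X.f := by
  rw [aff_f]
  exact Category.comp_id X.f

section sect

variable (X : Var k) {P : Var k} (s : ClosedIn (aff k k) P)

/-- The section at infinity. -/
noncomputable def sect : X.X ⟶ (X.prod P).X :=
  (prod_isPullback X P).lift (𝟙 _) (str X ≫ s.g) (by
    rw [Category.id_comp, Category.assoc, s.comm, str_comp])

lemma sect_fst : sect X s ≫ pfst X P = 𝟙 _ := (prod_isPullback X P).lift_fst _ _ _

lemma sect_snd : sect X s ≫ psnd X P = str X ≫ s.g := (prod_isPullback X P).lift_snd _ _ _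

lemma sect_isPullback : IsPullback (str X) (sect X s) s.g (psnd X P) := by
  have h2 : IsPullback (str X) (sect X s ≫ pfst X P) (s.g ≫ P.f) X.f := by
    rw [sect_fst, s.comm]
    have h3 : IsIso (aff k k).f := by
      rw [aff_f]
      exact inferInstanceAs (IsIso (𝟙 (Spec (CommRingCat.of k))))
    exact IsPullback.of_vert_isIso ⟨by rw [Category.id_comp, str_comp]⟩
  exact IsPullback.of_bot h2 (sect_snd X s).symm (prod_isPullback X P).flip

/-- The section at infinity, as a closed subvariety. -/
noncomputable def sectIn : ClosedIn X (X.prod P) where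
  g := sect X s
  comm := by rw [← pfst_comp, ← Category.assoc, sect_fst, Category.id_comp]
  closed := MorphismProperty.of_isPullback (P := @IsClosedImmersion) (sect_isPullback X s) s.closed

lemma range_sectIn : Set.range (sectIn X s).g = psnd X P ⁻¹' (Set.range s.g) :=
  range_of_isPullback (sect_isPullback X s).flip

end sect

/-! ### The bundle -/

/-- The product of `X` with the affine line. -/
noncomputable def lineProd (X : Var k) : Line (X.prod (aff k k[X])) X where
  q := pfst _ _
  t := psnd _ _
  comm := rfl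
  prod := prod_isPullback _ _

lemma exists_pbun (H : PLine k) (hH : ∃ s : ClosedIn (aff k k) H.P, Complementary s H.j₀)
    (X : Var k) : ∃ B : PBun (X.prod H.P) X, B.p.g = pullback.fst X.f H.P.f := by
  obtain ⟨s, hs⟩ := hH
  have hP := H.proper
  have hp : IsProper (pfst X H.P) :=
    MorphismProperty.of_isPullback (P := @IsProper) (prod_isPullback X H.P).flip hP
  refine ⟨{
    p := ⟨pfst X H.P, rfl, hp⟩
    U := X.prod (aff k k[X])
    j := prodOpen X H.j₀
    L := lineProd X
    hL := pmap_fst X H.j₀
    s := sectIn X s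
    hs := sect_fst X s
    hc := ?_ }, rfl⟩
  unfold Complementary at hs ⊢
  rw [range_prodOpen, range_sectIn, hs, Set.preimage_compl]

/-! ### Integrality -/

lemma irreducible_of_two {Z : Type*} [TopologicalSpace Z] {A B : Set Z} (hA : IsOpen A)
    (hAi : IsIrreducible A) (hBi : IsIrreducible B) (hAB : (A ∩ B).Nonempty)
    (hU : A ∪ B = Set.univ) : IrreducibleSpace Z := by
  have key : ∀ u : Set Z, IsOpen u → u.Nonempty → (A ∩ u).Nonempty := by
    rintro u hu ⟨z, hz⟩
    have hz2 : z ∈ A ∪ B := by rw [hU]; trivial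
    rcases hz2 with h | h
    · exact ⟨z, h, hz⟩
    · obtain ⟨y, hy⟩ := hBi.2 A u hA hu (by rwa [Set.inter_comm]) ⟨z, h, hz⟩
      exact ⟨y, hy.2.1, hy.2.2⟩
  have : PreirreducibleSpace Z := ⟨by
    intro u v hu hv h1 h2
    rw [Set.univ_inter] at h1 h2 ⊢
    obtain ⟨y, hy⟩ := hAi.2 u v hu hv (key u hu h1) (key v hv h2)
    exact ⟨y, hy.2⟩⟩
  obtain ⟨y, hy⟩ := hAB
  exact ⟨⟨y⟩⟩

lemma integral_of_two {U₀ U₁ Z : Scheme.{0}} (j₀ : U₀ ⟶ Z) (j₁ : U₁ ⟶ Z) [IsOpenImmersion j₀]
    [IsOpenImmersion j₁] [IsIntegral U₀] [IsIntegral U₁]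
    (hAB : (Set.range j₀ ∩ Set.range j₁).Nonempty)
    (hU : Set.range j₀ ∪ Set.range j₁ = Set.univ) : IsIntegral Z := by
  have h1 : ∀ {U : Scheme.{0}} (j : U ⟶ Z) [IsOpenImmersion j] [IsIntegral U],
      IsIrreducible (Set.range j) := by
    intro U j _ _
    rw [← Set.image_univ]
    exact (IrreducibleSpace.isIrreducible_univ U).image _ j.continuous.continuousOn
  have h2 : IrreducibleSpace Z := irreducible_of_two j₀.isOpenEmbedding.isOpen_range
    (h1 j₀) (h1 j₁) hAB hU
  have h3 : ∀ {U : Scheme.{0}} (j : U ⟶ Z) [IsOpenImmersion j] [IsIntegral U] (u : U),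
      _root_.IsReduced (Z.presheaf.stalk (j u)) := by
    intro U j _ _ u
    exact isReduced_of_injective (j.stalkMap u).hom
      (ConcreteCategory.bijective_of_isIso (j.stalkMap u)).1
  have h4 : ∀ z : Z, _root_.IsReduced (Z.presheaf.stalk z) := by
    intro z
    have hz : z ∈ Set.range j₀ ∪ Set.range j₁ := by rw [hU]; trivial
    rcases hz with ⟨u, rfl⟩ | ⟨u, rfl⟩
    · exact h3 j₀ u
    · exact h3 j₁ u
  have h5 : IsReduced Z := isReduced_of_isReduced_stalk Z
  exact isIntegral_of_irreducibleSpace_of_isReduced Z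

lemma overlap (H : PLine k) : (Set.range H.j₀.g ∩ Set.range H.j₁.g).Nonempty := by
  have hne : Nonempty (Spec (CommRingCat.of (LaurentPolynomial k))) := by
    have : Nontrivial (LaurentPolynomial k) := inferInstance
    exact (inferInstance : Nonempty (PrimeSpectrum (LaurentPolynomial k)))
  obtain ⟨z⟩ := hne
  refine ⟨H.j₀.g (Spec.map (CommRingCat.ofHom gm₀) z), ⟨_, rfl⟩,
    ⟨Spec.map (CommRingCat.ofHom gm₁) z, ?_⟩⟩
  have h := H.glue.w
  exact (congrArg (fun g : Spec (CommRingCat.of (LaurentPolynomial k)) ⟶ H.P.X => g z) h).symm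

lemma prod_integral (H : PLine k) (X : Var k) [IsIntegral X.X] : IsIntegral (X.prod H.P).X := by
  have h0 : IsIntegral (X.prod (aff k k[X])).X := line_integral (lineProd X)
  have i0 := (prodOpen X H.j₀).isOpen
  have i1 := (prodOpen X H.j₁).isOpen
  apply integral_of_two (prodOpen X H.j₀).g (prodOpen X H.j₁).g
  · obtain ⟨y, hy0, hy1⟩ := overlap H
    have x : X.X := genericPoint X.X
    have hsub : Subsingleton (Spec (CommRingCat.of k)) :=
      inferInstanceAs (Subsingleton (PrimeSpectrum k))
    obtain ⟨z, hz'⟩ : ∃ z : (X.prod H.P).X, psnd X H.P z = y := by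
      obtain ⟨z, -, hz⟩ := Scheme.Pullback.exists_preimage_pullback (f := X.f) (g := H.P.f) x y
        (Subsingleton.elim _ _)
      exact ⟨z, hz⟩
    refine ⟨z, ?_, ?_⟩
    · rw [range_prodOpen, Set.mem_preimage, hz']
      exact hy0
    · rw [range_prodOpen, Set.mem_preimage, hz']
      exact hy1
  · rw [range_prodOpen, range_prodOpen, ← Set.preimage_union, H.cover, Set.preimage_univ]

end PRO

theorem t_PRO : M_PRO := by
  intro hP
  refine ⟨?_, ?_, ?_⟩
  · intro k _ H X
    exact PRO.exists_pbun H (hP k H).2 X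
  · intro k _ Y X L hX
    exact PRO.line_integral L
  · intro k _ H X hX
    exact PRO.prod_integral H X

end CUB
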