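import Pool.Agent.CUB2.StmtsG

/-!
# CUB2, module QAF: the criterion for quasi-affine varieties
-/

set_option autoImplicit false

open CategoryTheory AlgebraicGeometry Limits Polynomial TopologicalSpace

namespace CUB

open Pool.Agent.Lib_helper55.Beil Pool.Agent.Lib_helper66.OneP

universe v

theorem t_QAF : M_QAF := by
  classical
  intro hSEP k _ X₀ Y f _ _ 𝒱 S hcov hV hP
  refine Scheme.IsQuasiAffine.of_forall_exists_mem_basicOpen Y.X fun y => ?_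
  obtain ⟨V, hV𝒱, hyV⟩ := hcov (f y)
  obtain ⟨hVa, hVg⟩ := hV V hV𝒱
  have hPV := hP V hV𝒱 ⟨y, hyV⟩
  have h1 : ∀ h : S V, ∃ b : Γ(Y.X, ⊤), y ∈ Y.X.basicOpen b ∧ ∀ y' ∈ Y.X.basicOpen b,
      ∃ (O : Y.X.Opens) (g : Γ(Y.X, O)) (hO : f ⁻¹ᵁ V ≤ O), y' ∈ O ∧
      Y.X.presheaf.map (homOfLE hO).op g = f.app V h.1 := by
    intro h
    obtain ⟨s, O, g, hO, hs, hg⟩ := hPV h.1 h.2
    have hyO : y ∈ O := hO hyV
    obtain ⟨b, hb, hyb⟩ := (hs y).1 hyO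
    exact ⟨b, hyb, fun y' hy' => ⟨O, g, hO, (hs y').2 ⟨b, hb, hy'⟩, hg⟩⟩
  choose b hb hb' using h1
  obtain ⟨c, hc⟩ : ∃ c, c = ∏ h : S V, b h := ⟨_, rfl⟩
  have hmem : ∀ y' : Y.X, y' ∈ Y.X.basicOpen c ↔ ∀ h, y' ∈ Y.X.basicOpen (b h) := by
    intro y'
    simp only [Scheme.mem_basicOpen_top]
    rw [hc, map_prod, IsUnit.prod_univ_iff]
  have hle : Y.X.basicOpen c ≤ f ⁻¹ᵁ V := by
    intro y' hy'
    have h2 := (hmem y').1 hy'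
    exact hSEP.1 k X₀ V Y.X f inferInstance (S V : Set Γ(X₀.X, V)) y' hVa ⟨y, hyV⟩ hVg
      fun h hh => hb' ⟨h, hh⟩ y' (h2 ⟨h, hh⟩)
  refine ⟨c, ?_, (hmem y).2 fun h => hb h⟩
  have h3 := (hVa.preimage f).basicOpen (Y.X.presheaf.map (homOfLE (le_top : f ⁻¹ᵁ V ≤ ⊤)).op c)
  rw [Scheme.basicOpen_res, inf_eq_right.2 hle] at h3
  exact h3

end CUB
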