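import Pool.Agent.CUB2.StmtsG

/-!
# CUB2, block G: QEM, a quasi-affine variety is an open subvariety of an affine variety
-/

set_option autoImplicit false

open CategoryTheory AlgebraicGeometry Limits Polynomial TopologicalSpace

namespace CUB

open Pool.Agent.Lib_helper55.Beil Pool.Agent.Lib_helper66.OneP

namespace QEM

/-- A subalgebra which contains `b` and enough numerators has the same localisation at `b`. -/
theorem away_of_adjoin {k R L : Type} [CommRing k] [CommRing R] [CommRing L] [Algebra k R]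
    [Algebra R L] [Algebra k L] [IsScalarTower k R L] (b : R) [IsLocalization.Away b L]
    (A : Subalgebra k R) (hb : b ∈ A) (G : Set L) (hG : Algebra.adjoin k G = ⊤)
    (h : ∀ g ∈ G, ∃ n : ℕ, ∃ a ∈ A, g * algebraMap R L b ^ n = algebraMap R L a) :
    IsLocalization.Away (⟨b, hb⟩ : A) L := by
  have hval : ∀ a : A, algebraMap A L a = algebraMap R L (a : R) := fun a => rfl
  have hpow : ∀ n : ℕ, algebraMap A L ((⟨b, hb⟩ : A) ^ n) = algebraMap R L b ^ n := by
    intro n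
    rw [hval, SubmonoidClass.coe_pow, map_pow]
  have Q : ∀ z : L, ∃ n : ℕ, ∃ a ∈ A, z * algebraMap R L b ^ n = algebraMap R L a := by
    intro z
    have hz : z ∈ Algebra.adjoin k G := by rw [hG]; trivial
    induction hz using Algebra.adjoin_induction with
    | mem x hx => exact h x hx
    | algebraMap c =>
      exact ⟨0, algebraMap k R c, A.algebraMap_mem c, by
        rw [pow_zero, mul_one, ← IsScalarTower.algebraMap_apply]⟩
    | add x y _ _ hx hy =>
      obtain ⟨n, a, ha, e⟩ := hx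
      obtain ⟨m, c, hc, e'⟩ := hy
      refine ⟨n + m, a * b ^ m + c * b ^ n,
        A.add_mem (A.mul_mem ha (A.pow_mem hb _)) (A.mul_mem hc (A.pow_mem hb _)), ?_⟩
      rw [map_add, map_mul, map_mul, map_pow, map_pow, ← e, ← e']
      ring
    | mul x y _ _ hx hy =>
      obtain ⟨n, a, ha, e⟩ := hx
      obtain ⟨m, c, hc, e'⟩ := hy
      refine ⟨n + m, a * c, A.mul_mem ha hc, ?_⟩
      rw [map_mul, ← e, ← e']
      ring
  constructor; constructor
  · rintro ⟨_, n, rfl⟩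
    rw [hpow]
    exact (IsLocalization.Away.algebraMap_isUnit (S := L) b).pow n
  · intro z
    obtain ⟨n, a, ha, e⟩ := Q z
    exact ⟨(⟨a, ha⟩, ⟨_, n, rfl⟩), by rw [hpow]; exact e⟩
  · intro x y e
    rw [hval, hval] at e
    obtain ⟨⟨_, n, rfl⟩, e⟩ := IsLocalization.exists_of_eq (M := Submonoid.powers b) e
    refine ⟨⟨_, n, rfl⟩, Subtype.ext ?_⟩
    exact e

end QEM

theorem t_QEM : S_QEM := by
  intro k _ Y hY
  let φ : CommRingCat.of k ⟶ Γ(Y.X, ⊤) := (Scheme.ΓSpecIso (.of k)).inv ≫ Y.f.appTop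
  let algT : Algebra k Γ(Y.X, ⊤) := φ.hom.toAlgebra
  -- a finite covering by affine basic open subsets
  obtain ⟨B, hB, hcov⟩ : ∃ B : Finset Γ(Y.X, ⊤), (∀ b ∈ B, IsAffineOpen (Y.X.basicOpen b)) ∧
      ∀ y : Y.X, ∃ b ∈ B, y ∈ Y.X.basicOpen b := by
    have h0 : ∀ y : Y.X, ∃ r : Γ(Y.X, ⊤), IsAffineOpen (Y.X.basicOpen r) ∧
        y ∈ Y.X.basicOpen r := by
      intro y
      obtain ⟨_, ⟨_, ⟨r, hr, rfl⟩, rfl⟩, hyr, -⟩ :=
        (Scheme.IsQuasiAffine.isBasis_basicOpen Y.X).exists_subset_of_mem_open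
          (Set.mem_univ y) isOpen_univ
      exact ⟨r, hr, hyr⟩
    choose r hr hyr using h0
    obtain ⟨t, ht⟩ := CompactSpace.elim_nhds_subcover (fun y => (Y.X.basicOpen (r y) : Set Y.X))
      (fun y => (Y.X.basicOpen (r y)).isOpen.mem_nhds (hyr y))
    classical
    refine ⟨t.image r, ?_, ?_⟩
    · intro b hb
      obtain ⟨y, _, rfl⟩ := Finset.mem_image.1 hb
      exact hr y
    · intro y
      have hy : y ∈ (⊤ : Set Y.X) := trivial
      rw [← ht] at hy
      obtain ⟨z, hz, hy⟩ := Set.mem_iUnion₂.1 hy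
      exact ⟨r z, Finset.mem_image_of_mem _ hz, hy⟩
  -- numerators of generators
  have key : ∀ b : Γ(Y.X, ⊤), IsAffineOpen (Y.X.basicOpen b) →
      ∃ T : Finset Γ(Y.X, ⊤), ∀ (A : Subalgebra k Γ(Y.X, ⊤)) (hb : b ∈ A),
        (T : Set Γ(Y.X, ⊤)) ⊆ A →
        IsLocalization.Away (⟨b, hb⟩ : A) Γ(Y.X, Y.X.basicOpen b) := by
    intro b hb
    have hloc : IsLocalization.Away b Γ(Y.X, Y.X.basicOpen b) :=
      isLocalization_basicOpen_of_qcqs isCompact_univ isQuasiSeparated_univ b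
    let ψ : k →+* Γ(Y.X, Y.X.basicOpen b) :=
      (algebraMap Γ(Y.X, ⊤) Γ(Y.X, Y.X.basicOpen b)).comp φ.hom
    let algL : Algebra k Γ(Y.X, Y.X.basicOpen b) := ψ.toAlgebra
    have tower : IsScalarTower k Γ(Y.X, ⊤) Γ(Y.X, Y.X.basicOpen b) :=
      IsScalarTower.of_algebraMap_eq fun _ => rfl
    have hft : ψ.FiniteType := by
      have h1 : (Y.f.appLE ⊤ (Y.X.basicOpen b) le_top).hom.FiniteType :=
        Y.f.finiteType_appLE (isAffineOpen_top _) hb le_top
      have h2 : (Scheme.ΓSpecIso (CommRingCat.of k)).inv.hom.FiniteType :=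
        RingHom.FiniteType.of_surjective _
          (ConcreteCategory.bijective_of_isIso (Scheme.ΓSpecIso (CommRingCat.of k)).inv).2
      have h3 : ψ = ((Scheme.ΓSpecIso (CommRingCat.of k)).inv ≫
          Y.f.appLE ⊤ (Y.X.basicOpen b) le_top).hom := by
        have h4 : Y.f.appLE ⊤ (Y.X.basicOpen b) le_top =
            Y.f.appTop ≫ Y.X.presheaf.map (homOfLE le_top).op := rfl
        rw [h4]
        rfl
      rw [h3]
      exact h1.comp h2
    obtain ⟨G, hG⟩ := (show Algebra.FiniteType k Γ(Y.X, Y.X.basicOpen b) from hft).out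
    choose z hz using fun g : Γ(Y.X, Y.X.basicOpen b) =>
      IsLocalization.surj (Submonoid.powers b) g
    classical
    refine ⟨G.image fun g => (z g).1, fun A hb T => ?_⟩
    refine QEM.away_of_adjoin b A hb G hG fun g hg => ?_
    obtain ⟨n, hn⟩ := (z g).2.2
    refine ⟨n, (z g).1, T (Finset.mem_coe.2 (Finset.mem_image_of_mem _ hg)), ?_⟩
    rw [← hz g, ← map_pow]
    congr 2
  choose! T hT using key
  classical
  let A : Subalgebra k Γ(Y.X, ⊤) := Algebra.adjoin k ((B ∪ B.biUnion T : Finset Γ(Y.X, ⊤)) : Set _)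
  have hBA : ∀ b ∈ B, b ∈ A := fun b hb =>
    Algebra.subset_adjoin (Finset.mem_coe.2 (Finset.mem_union_left _ hb))
  have hTA : ∀ b ∈ B, (T b : Set Γ(Y.X, ⊤)) ⊆ A := fun b hb t ht =>
    Algebra.subset_adjoin (Finset.mem_coe.2 (Finset.mem_union_right _
      (Finset.mem_biUnion.2 ⟨b, hb, ht⟩)))
  have hA : Algebra.FiniteType k A :=
    A.fg_iff_finiteType.1 ⟨B ∪ B.biUnion T, rfl⟩
  let i : CommRingCat.of A ⟶ Γ(Y.X, ⊤) := CommRingCat.ofHom (algebraMap A Γ(Y.X, ⊤))
  have hopen : IsOpenImmersion (Y.X.toSpecΓ ≫ Spec.map i) := by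
    refine IsZariskiLocalAtTarget.of_forall_source_exists_preimage _ fun y ↦ ?_
    obtain ⟨b, hb, hy⟩ := hcov y
    have hpre : (Y.X.toSpecΓ ≫ Spec.map i) ⁻¹ᵁ
        PrimeSpectrum.basicOpen (⟨b, hBA b hb⟩ : A) = Y.X.basicOpen b := by
      rw [← Y.X.toSpecΓ_preimage_basicOpen b]
      rfl
    refine ⟨PrimeSpectrum.basicOpen (⟨b, hBA b hb⟩ : A), hpre.ge hy, ?_⟩
    suffices IsOpenImmersion ((Y.X.basicOpen b).ι ≫ Y.X.toSpecΓ ≫ Spec.map i) by
      convert! this
    rw [← Scheme.Opens.toSpecΓ_SpecMap_presheaf_map_top_assoc, ← Spec.map_comp]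
    have := hT b (hB b hb) A (hBA b hb) (hTA b hb)
    exact MorphismProperty.comp_mem _ (hB b hb).isoSpec.hom _ inferInstance
      (.of_isLocalization (⟨b, hBA b hb⟩ : A))
  have h1 : (Y.X.toSpecΓ ≫ Spec.map i) ≫ Spec.map (CommRingCat.ofHom (algebraMap k A)) = Y.f := by
    have h2 : CommRingCat.ofHom (algebraMap k A) ≫ i = φ := rfl
    rw [Category.assoc, ← Spec.map_comp, h2, Spec.map_comp, ← Category.assoc]
    have h3 : Y.X.toSpecΓ ≫ Spec.map Y.f.appTop =
        Y.f ≫ (Spec (CommRingCat.of k)).toSpecΓ := (Scheme.toSpecΓ_naturality Y.f).symm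
    rw [h3, Category.assoc, ← AlgebraicGeometry.SpecMap_ΓSpecIso_hom, ← Spec.map_comp]
    rw [Iso.inv_hom_id, Spec.map_id, Category.comp_id]
  exact ⟨A, inferInstance, inferInstance, hA, ⟨⟨Y.X.toSpecΓ ≫ Spec.map i, h1, hopen⟩⟩⟩

end CUB
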