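import Pool.Agent.CUB2.StmtsG

/-!
# CUB2: the graph of a morphism is a closed immersion
-/

set_option autoImplicit false

open CategoryTheory AlgebraicGeometry Limits Polynomial TopologicalSpace

namespace CUB

open Pool.Agent.Lib_helper55.Beil Pool.Agent.Lib_helper66.OneP

theorem t_SEC : S_SEC := by
  intro k _ X P ψ hψ
  have hw : 𝟙 X.X ≫ X.f = ψ ≫ P.f := by rw [Category.id_comp, hψ]
  have h1 : pullback.lift (𝟙 X.X) ψ hw ≫ pullback.fst X.f P.f = 𝟙 X.X :=
    pullback.lift_fst _ _ _
  have hcl : IsClosedImmersion (pullback.lift (𝟙 X.X) ψ hw) := by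
    have hc : IsClosedImmersion (pullback.lift (𝟙 X.X) ψ hw ≫ pullback.fst X.f P.f) := by
      rw [h1]; infer_instance
    exact IsClosedImmersion.of_comp _ (pullback.fst X.f P.f)
  refine ⟨{ g := pullback.lift (𝟙 X.X) ψ hw, comm := ?_, closed := hcl }, h1,
    pullback.lift_snd _ _ _⟩
  change pullback.lift (𝟙 X.X) ψ hw ≫ pullback.fst X.f P.f ≫ X.f = X.f
  rw [← Category.assoc, h1, Category.id_comp]

end CUB
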