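import Pool.Agent.CUB2.StmtsG

/-!
# CUB2, module SEP: the separation criterion
-/

set_option autoImplicit false

open CategoryTheory AlgebraicGeometry Limits Polynomial TopologicalSpace

namespace CUB

open Pool.Agent.Lib_helper55.Beil Pool.Agent.Lib_helper66.OneP

universe v

namespace GSEP

/-- the map from the local ring to the function field -/
noncomputable abbrev sp (Y : Scheme.{0}) [IsIntegral Y] (y : Y) :
    Y.presheaf.stalk y ⟶ Y.presheaf.stalk (genericPoint Y) :=
  Y.presheaf.stalkSpecializes ((genericPoint_spec Y).specializes trivial)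

theorem sp_inj (Y : Scheme.{0}) [IsIntegral Y] (y : Y) : Function.Injective (sp Y y).hom :=
  IsFractionRing.injective (Y.presheaf.stalk y) Y.functionField

theorem sp_dom (Y : Scheme.{0}) [IsIntegral Y] (y : Y) : IsDominant (Spec.map (sp Y y)) := by
  refine ⟨?_⟩
  apply (PrimeSpectrum.denseRange_comap_iff_ker_le_nilRadical (sp Y y).hom).2
  rw [(RingHom.injective_iff_ker_eq_bot _).1 (sp_inj Y y)]
  exact bot_le

/-- a ring homomorphism with values in the image of an injective homomorphism factors -/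
theorem factor {A B C : CommRingCat.{0}} (φ : A ⟶ C) (ι : B ⟶ C) (hι : Function.Injective ι.hom)
    (h : ∀ a : A, ∃ b : B, ι.hom b = φ.hom a) : ∃ ψ : A ⟶ B, ψ ≫ ι = φ := by
  choose g hg using h
  refine ⟨CommRingCat.ofHom
    { toFun := g
      map_one' := hι (by rw [hg, map_one, map_one])
      map_mul' := fun a b => hι (by rw [hg, map_mul, map_mul, hg, hg])
      map_zero' := hι (by rw [hg, map_zero, map_zero])
      map_add' := fun a b => hι (by rw [hg, map_add, map_add, hg, hg]) }, ?_⟩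
  ext a
  exact hg a

end GSEP

open GSEP in
theorem t_SEP : S_SEP := by
  refine ⟨?_, ?_⟩
  · intro k _ X₀ V Y f _ S y hV hz hcl hS
    obtain ⟨z, hz⟩ := hz
    have hη : f (genericPoint Y) ∈ V := by
      have h1 : genericPoint Y ∈ f ⁻¹ᵁ V :=
        ((genericPoint_spec Y).mem_open_set_iff (f ⁻¹ᵁ V).isOpen).mpr ⟨z, trivial, hz⟩
      exact h1
    -- the homomorphism to the function field
    obtain ⟨φ, hφ⟩ : ∃ φ : Γ(X₀.X, V) ⟶ Y.presheaf.stalk (genericPoint Y),
        φ = f.app V ≫ Y.presheaf.germ (f ⁻¹ᵁ V) (genericPoint Y) hη := ⟨_, rfl⟩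
    have key : ∀ (h : Γ(X₀.X, V)) (O : Y.Opens) (g : Γ(Y, O)) (hO : f ⁻¹ᵁ V ≤ O), y ∈ O →
        Y.presheaf.map (homOfLE hO).op g = f.app V h → ∃ b, (sp Y y).hom b = φ.hom h := by
      intro h O g hO hy hg
      refine ⟨Y.presheaf.germ O y hy g, ?_⟩
      have h1 : (sp Y y) (Y.presheaf.germ O y hy g) = Y.presheaf.germ O (genericPoint Y) (hO hη) g := by
        rw [← ConcreteCategory.comp_apply, TopCat.Presheaf.germ_stalkSpecializes]
      have h2 : φ h = Y.presheaf.germ (f ⁻¹ᵁ V) (genericPoint Y) hη (f.app V h) := by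
        rw [hφ, ConcreteCategory.comp_apply]
      refine h1.trans (Eq.trans ?_ h2.symm)
      rw [← hg, TopCat.Presheaf.germ_res_apply]
    have hrange : ∀ h : Γ(X₀.X, V), ∃ b, (sp Y y).hom b = φ.hom h := by
      intro h
      have hle : Subring.closure (Set.range ((Scheme.ΓSpecIso (CommRingCat.of k)).inv ≫
          X₀.f.appLE ⊤ V le_top).hom ∪ S) ≤ (sp Y y).hom.range.comap φ.hom := by
        rw [Subring.closure_le]
        rintro a (⟨c, rfl⟩ | ha)
        · refine key _ (f ⁻¹ᵁ ⊤) (f.app ⊤ (X₀.f.app ⊤ ((Scheme.ΓSpecIso (CommRingCat.of k)).inv c)))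
            (Scheme.Hom.preimage_mono f le_top) trivial ?_
          have h1 := f.naturality (homOfLE (le_top : V ≤ ⊤)).op
          have h2 := ConcreteCategory.congr_hom h1 (X₀.f.app ⊤ ((Scheme.ΓSpecIso (CommRingCat.of k)).inv c))
          rw [ConcreteCategory.comp_apply, ConcreteCategory.comp_apply] at h2
          refine h2.symm.trans ?_
          rw [Scheme.Hom.appLE]
          rfl
        · obtain ⟨O, g, hO, hy, hg⟩ := hS a ha
          exact key a O g hO hy hg
      have h1 : h ∈ (sp Y y).hom.range.comap φ.hom := hle (by rw [hcl]; trivial)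
      exact h1
    obtain ⟨ψ, hψ⟩ := factor φ (sp Y y) (sp_inj Y y) hrange
    have := sp_dom Y y
    have : IsReduced (Spec (Y.presheaf.stalk y)) := inferInstance
    have e1 : Spec.map (sp Y y) ≫ Y.fromSpecStalk y ≫ f = Spec.map φ ≫ hV.fromSpec := by
      rw [Scheme.SpecMap_stalkSpecializes_fromSpecStalk_assoc, ← Scheme.SpecMap_stalkMap_fromSpecStalk,
        ← hV.fromSpecStalk_eq_fromSpecStalk hη, IsAffineOpen.fromSpecStalk, ← Spec.map_comp_assoc,
        Scheme.Hom.germ_stalkMap, hφ]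
    have e2 : Spec.map (sp Y y) ≫ Spec.map ψ ≫ hV.fromSpec = Spec.map φ ≫ hV.fromSpec := by
      rw [← Spec.map_comp_assoc, hψ]
    have hX : X₀.X.IsSeparated := by
      refine ⟨?_⟩
      rw [← terminal.comp_from X₀.f]
      infer_instance
    have e3 : Y.fromSpecStalk y ≫ f = Spec.map ψ ≫ hV.fromSpec :=
      ext_of_isDominant (Spec.map (sp Y y)) (e1.trans e2.symm)
    have e4 : (Y.fromSpecStalk y ≫ f) (IsLocalRing.closedPoint (Y.presheaf.stalk y)) = f y := by
      rw [Scheme.Hom.comp_apply, Scheme.fromSpecStalk_closedPoint]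
    rw [← e4, e3, Scheme.Hom.comp_apply]
    have h5 := hV.range_fromSpec
    have h6 : hV.fromSpec (Spec.map ψ (IsLocalRing.closedPoint (Y.presheaf.stalk y))) ∈ Set.range hV.fromSpec :=
      ⟨_, rfl⟩
    rw [h5] at h6
    exact h6
  · intro k _ X₀ V hV
    have h1 : (X₀.f.appLE ⊤ V le_top).hom.FiniteType :=
      LocallyOfFiniteType.finiteType_appLE X₀.f (isAffineOpen_top _) hV le_top
    have h2 : ((Scheme.ΓSpecIso (CommRingCat.of k)).inv ≫ X₀.f.appLE ⊤ V le_top).hom.FiniteType := by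
      rw [CommRingCat.hom_comp]
      refine h1.comp (RingHom.FiniteType.of_surjective _ ?_)
      exact ((Scheme.ΓSpecIso (CommRingCat.of k)).symm.commRingCatIsoToRingEquiv).surjective
    obtain ⟨c, hc⟩ : ∃ c : k →+* Γ(X₀.X, V), c = ((Scheme.ΓSpecIso (CommRingCat.of k)).inv ≫
      X₀.f.appLE ⊤ V le_top).hom := ⟨_, rfl⟩
    rw [← hc] at h2 ⊢
    algebraize [c]
    obtain ⟨S, hS⟩ := h2.out
    refine ⟨S, ?_⟩
    have h3 := Algebra.adjoin_eq_ring_closure (R := k) (S : Set Γ(X₀.X, V))
    rw [hS] at h3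
    exact h3.symm

end CUB
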