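import Pool.Agent.CUB2.StmtsH

/-!
# CUB2, module DESC

Descent of the injectivity of the cycle class map from the complement of a section of a
`P^1`-bundle.
-/

set_option autoImplicit false

open CategoryTheory AlgebraicGeometry Limits Polynomial TopologicalSpace

namespace CUB

open Pool.Agent.Lib_helper55.Beil Pool.Agent.Lib_helper66.OneP

universe v

namespace DESC

variable {k E : Type} [Field k] [Field E] {T : ∀ i : ℕ, Homology.{v} k E i}

/-- The push-forward along a section followed by the push-forward to the base is the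
identity. -/
lemma push_section (hT : Full T) (i n : ℕ) {P X : Var k} (p : PrMor P X) (s : ClosedIn X P)
    (hs : s.g ≫ p.g = 𝟙 X.X) (z : (T i).H n X) :
    hT.G i n p ((T i).P n s z) = z := by
  have h1 : hT.G i n (clPr s) z = (T i).P n s z :=
    hT.pfClosed i n s (clPr s) rfl z
  have h2 : hT.G i n p (hT.G i n (clPr s) z) = hT.G i n (clPr (idIn X)) z :=
    hT.pfFunctorial i n (clPr s) p (clPr (idIn X)) hs z
  have h3 : hT.G i n (clPr (idIn X)) z = (T i).P n (idIn X) z :=
    hT.pfClosed i n (idIn X) (clPr (idIn X)) rfl z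
  have h4 : (T i).P n (idIn X) z = z := hT.toExtra.push_id i n X (idIn X) rfl z
  rw [← h1, h2, h3, h4]

end DESC

theorem t_DESC : M_DESC.{v} := by
  intro hPCY hPULLP hL4 k E _ _ _ _ T hT i P X Y B σ j hσ hc hX hY
  rw [injC_iff] at hX hY ⊢
  intro α hα
  obtain ⟨d, hd⟩ := hPCY.2.1 k E i P X B α
  have h1 : clz (T (i + 1)) P d = 0 := hPULLP k E T hT i P X B α d hd hα
  have h2 : clz (T (i + 1)) Y (resCyc j d) = 0 := by
    have h3 := res_cls (T (i + 1)) j d
    exact h3.symm.trans ((congrArg _ h1).trans (map_zero ((T (i + 1)).res (2 * (i + 1)) j)))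
  obtain ⟨ρ, hρ, h4⟩ := exists_ratZero j _ (hY _ h2)
  obtain ⟨δ, hδ⟩ := exists_pushCyc σ j hc (d - ρ) (by rw [map_sub, h4, sub_self])
  have h5 : clz (T (i + 1)) P ρ = 0 := (T (i + 1)).cl_rat P ρ hρ
  have h6 : (T (i + 1)).push (2 * (i + 1)) σ (clz (T (i + 1)) X δ) = 0 := by
    have h7 := push_cls (T (i + 1)) σ δ
    rw [hδ, cls_sub] at h7
    exact h7.trans ((congrArg₂ _ h1 h5).trans (sub_self _))
  have h8 : clz (T (i + 1)) X δ = 0 := by
    have h9 := DESC.push_section hT (i + 1) (2 * (i + 1)) B.p σ hσ (clz (T (i + 1)) X δ)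
    have h10 : (T (i + 1)).P (2 * (i + 1)) σ (clz (T (i + 1)) X δ) = 0 := h6
    rw [h10] at h9
    rw [← h9]
    exact map_zero (hT.pf (i + 1) (2 * (i + 1)) B.p)
  have h11 : pushCyc σ δ ∈ ratZero E (i + 1) P := pushCyc_ratZero σ δ (hX δ h8)
  rw [hδ] at h11
  have h12 : d ∈ ratZero E (i + 1) P := by
    have := add_mem h11 hρ
    rwa [sub_add_cancel] at this
  have h13 : resCyc B.j d ∈ ratZero E (i + 1) B.U := resCyc_ratZero B.j d h12
  exact hL4 k E i B.U X B.L α (resCyc B.j d) (hPCY.2.2.1 k E i P X B α d hd) h13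

end CUB
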