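import Pool.Agent.CUB2.StmtsH

/-!
# CUB2: module DST
-/

set_option autoImplicit false

open CategoryTheory AlgebraicGeometry Limits Polynomial TopologicalSpace

namespace CUB

open Pool.Agent.Lib_helper55.Beil Pool.Agent.Lib_helper66.OneP

namespace DST

variable {k : Type} [Field k]

/-- A point has an affine neighbourhood, given as a chart. -/
lemma exists_chart (X : Var k) (x : X.X) :
    ∃ (A : Type) (_ : CommRing A) (_ : Algebra k A) (_ : Algebra.FiniteType k A)
      (j : OpenIn (aff k A) X), x ∈ Set.range j.g := by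
  obtain ⟨W, hW, hxW, -⟩ := exists_isAffineOpen_mem_and_subset (X := X.X) (U := ⊤) (x := x)
    trivial
  have : IsAffine (openVar X W).X := hW
  obtain ⟨A, i1, i2, i3, ⟨s⟩⟩ := exists_aff (openVar X W)
  refine ⟨A, i1, i2, i3, ⟨s.e.hom ≫ (openVarIn X W).g, ?_, ?_⟩, ?_⟩
  · rw [Category.assoc, (openVarIn X W).comm, s.comm]
  · infer_instance
  · have h1 : x ∈ Set.range (openVarIn X W).g := by
      rw [range_openVarIn]
      exact hxW
    obtain ⟨y, hy⟩ := h1
    refine ⟨s.e.inv y, ?_⟩
    have h2 : s.e.hom (s.e.inv y) = y := s.surj y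
    have h3 : (s.e.hom ≫ (openVarIn X W).g) (s.e.inv y) =
        (openVarIn X W).g (s.e.hom (s.e.inv y)) := rfl
    rw [h3, h2, hy]

lemma dim_lt (X : Var k) (x y : X.X) (h : x ⤳ y) (hne : x ≠ y) : X.dim y < X.dim x := by
  obtain ⟨A, i1, i2, i3, j, ⟨y', rfl⟩⟩ := exists_chart X y
  have hx : x ∈ Set.range j.g := h.mem_open j.g.isOpenEmbedding.isOpen_range ⟨y', rfl⟩
  obtain ⟨x', rfl⟩ := hx
  rw [dim_map j.g j.comm, dim_map j.g j.comm]
  have h1 : x' ⤳ y' := j.g.isOpenEmbedding.isInducing.specializes_iff.mp h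
  have h2 : ofPt x' ≤ ofPt y' := (PrimeSpectrum.le_iff_specializes _ _).mpr h1
  have h3 : ofPt x' ≠ ofPt y' := by
    intro h4
    apply hne
    have h5 : x' = y' := h4
    rw [h5]
  have h4 := rdim_lt (k := k) (lt_of_le_of_ne h2 h3)
  have h5 := dim_toPt (k := k) (ofPt x')
  have h6 := dim_toPt (k := k) (ofPt y')
  rw [toPt_ofPt] at h5 h6
  rw [h5, h6]
  exact h4

end DST

theorem t_DST : S_DST := by
  refine ⟨?_, ?_, ?_, ?_⟩
  · intro k _ X x y h hne
    exact DST.dim_lt X x y h hne
  · intro k _ X x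
    obtain ⟨A, i1, i2, i3, j, ⟨x', rfl⟩⟩ := DST.exists_chart X x
    rw [dim_map j.g j.comm]
    have h5 := dim_toPt (k := k) (ofPt x')
    rw [toPt_ofPt] at h5
    rw [h5]
    exact exists_rdim (k := k) (ofPt x')
  · intro k _ n X hX x hX2 hx
    obtain ⟨A, i1, i2, i3, j, ⟨x', rfl⟩⟩ := DST.exists_chart X x
    have hne : Nonempty (aff k A).X := ⟨x'⟩
    have hint : IsIntegral (aff k A).X := isIntegral_of_isOpenImmersion j.g
    have hdom : IsDomain A := by
      have h1 : IsIntegral (Spec (CommRingCat.of A)) := hint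
      exact (affine_isIntegral_iff (CommRingCat.of A)).mp h1
    rw [coheight_eq_of_isOpenImmersion j.g]
    apply coheight_eq_one (k := k) (n := n)
    · rw [← dim_generic_aff, ← dim_map j.g j.comm, genericPoint_eq_of_isOpenImmersion j.g, hX2]
    · have h5 := dim_toPt (k := k) (ofPt x')
      rw [toPt_ofPt] at h5
      rw [← h5, ← dim_map j.g j.comm, hx]
  · intro k _ n X hX x hX2 hx
    by_contra hne
    have h1 := DST.dim_lt X (genericPoint X.X) x (genericPoint_specializes x) (fun h => hne h.symm)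
    rw [hx] at h1
    exact absurd (h1.trans_le (hX2 _)) (lt_irrefl _)

end CUB
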