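import Pool.Agent.CUB2.StmtsH

/-!
# CUB2, module OPEN: injectivity of the cycle class map for open subvarieties
-/

set_option autoImplicit false

open CategoryTheory AlgebraicGeometry Limits Polynomial TopologicalSpace

namespace CUB

open Pool.Agent.Lib_helper55.Beil Pool.Agent.Lib_helper66.OneP

universe v

namespace OPEN

variable {k E : Type} [Field k] [Field E] {i : ℕ}

/-- Semisimplicity and surjectivity: the generalised eigenspace is spanned by cycle classes. -/
lemma good (T : Homology.{v} k E i) (X : Var k) (hs : T.Surj X) (hss : T.Semisimple X) :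
    T.gen X ≤ T.alg X := by
  intro m hm
  obtain ⟨n, hn⟩ := (mem_maxGen_iff _ _).mp hm
  have key : ∀ n : ℕ, ((T.frob (2 * i) X - 1) ^ n) m = 0 → T.frob (2 * i) X m = m := by
    intro n
    induction n with
    | zero =>
      intro h
      have h0 : m = 0 := h
      rw [h0, map_zero]
    | succ n ih =>
      intro h
      cases n with
      | zero =>
        rw [zero_add, pow_one, LinearMap.sub_apply, Module.End.one_apply] at h
        exact sub_eq_zero.mp h
      | succ n =>
        apply ih
        set m' := ((T.frob (2 * i) X - 1) ^ n) m with hm'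
        have h1 : ((T.frob (2 * i) X - 1) ^ (n + 1)) m = T.frob (2 * i) X m' - m' := by
          rw [pow_succ', Module.End.mul_apply, ← hm', LinearMap.sub_apply, Module.End.one_apply]
        have h2 : ((T.frob (2 * i) X - 1) ^ (n + 1 + 1)) m =
            T.frob (2 * i) X (T.frob (2 * i) X m' - m') - (T.frob (2 * i) X m' - m') := by
          rw [pow_succ', Module.End.mul_apply, h1, LinearMap.sub_apply, Module.End.one_apply]
        rw [h2] at h
        have h3 : T.frob (2 * i) X m' = m' := hss m' (sub_eq_zero.mp h)
        rw [h1, h3, sub_self]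
  obtain ⟨a, ha⟩ := hs m (key n hn)
  rw [← ha]
  exact T.clMap_mem_alg X a

end OPEN

theorem t_OPEN : S_OPEN.{v} := by
  intro k E _ _ i T U X j hgood hX
  exact injC_open T (fun Z => OPEN.good T Z (hgood Z).1 (hgood Z).2) j hX

end CUB
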