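import Pool.Agent.CUB2.StmtsH
import Pool.Agent.CUB2.H_OPEN

/-!
# CUB2, module MOD: modifications
-/

set_option autoImplicit false

open CategoryTheory AlgebraicGeometry Limits Polynomial TopologicalSpace

namespace CUB

open Pool.Agent.Lib_helper55.Beil Pool.Agent.Lib_helper66.OneP

universe v

namespace MOD

variable {k E : Type} [Field k] [Field E] {i : ℕ}

lemma frob_cls (T : Homology.{v} k E i) (X : Var k) (c : Pts i X →₀ E) :
    T.frob (2 * i) X (clz T X c) = clz T X c := by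
  induction c using Finsupp.induction_linear with
  | zero =>
    have : clz T X 0 = 0 := map_zero _
    rw [this, map_zero]
  | add f g hf hg =>
    have : clz T X (f + g) = clz T X f + clz T X g := map_add _ _ _
    rw [this, map_add, hf, hg]
  | single p e =>
    have h1 : clz T X (Finsupp.single p e) = e • T.cl X p :=
      Finsupp.linearCombination_single _ _ _
    rw [h1, map_smul, T.frob_cl]

variable {X' X : Var k} (M : Modif X' X)

/-- the degree is one over the open part -/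
lemma deg_one (u : M.U'.X) : M.f.deg (M.j'.g u) = 1 := by
  unfold PrMor.deg
  have h3 := Scheme.residueFieldMap_comp M.j'.g M.f.g u
  have i1 : IsPreimmersion (M.j'.g ≫ M.f.g) := by
    rw [M.hU.w]
    infer_instance
  have b1 := residueFieldMap_bijective (M.j'.g ≫ M.f.g) u
  have b2 := residueFieldMap_bijective M.j'.g u
  let : Algebra (X.X.residueField (M.f.g (M.j'.g u))) (X'.X.residueField (M.j'.g u)) :=
    (M.f.g.residueFieldMap (M.j'.g u)).hom.toAlgebra
  have h1 : Function.Bijective (algebraMap (X.X.residueField (M.f.g (M.j'.g u)))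
      (X'.X.residueField (M.j'.g u))) := by
    have h4 : Function.Bijective
        ((M.j'.g.residueFieldMap u).hom ∘ (M.f.g.residueFieldMap (M.j'.g u)).hom) := by
      have h5 := congrArg CommRingCat.Hom.hom h3
      rw [h5] at b1
      exact b1
    exact (Function.Bijective.of_comp_iff' b2 _).mp h4
  exact (LinearEquiv.finrank_eq (AlgEquiv.ofBijective (Algebra.ofId _ _) h1).toLinearEquiv).symm.trans
    (Module.finrank_self _)

/-- the points over the open part -/
lemma pt_unique (x : X'.X) (u : M.U.X) (h : M.f.g x = M.j.g u) :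
    ∃ u' : M.U'.X, M.j'.g u' = x ∧ M.fU.e.hom u' = u := by
  by_cases hx : x ∈ Set.range M.j'.g
  · obtain ⟨u', rfl⟩ := hx
    refine ⟨u', rfl, ?_⟩
    have h1 : M.j.g (M.fU.e.hom u') = M.j.g u := by
      rw [← h, ← Scheme.Hom.comp_apply, ← Scheme.Hom.comp_apply, M.hU.w]
    exact M.j.g.isOpenEmbedding.injective h1
  · exfalso
    have h1 : x ∈ Set.range M.a'.g := by
      rw [show Set.range M.a'.g = (Set.range M.j'.g)ᶜ from M.h']
      exact hx
    obtain ⟨z, rfl⟩ := h1
    have h2 : M.f.g (M.a'.g z) ∈ Set.range M.a.g := by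
      rw [← Scheme.Hom.comp_apply, M.hZ, Scheme.Hom.comp_apply]
      exact ⟨_, rfl⟩
    rw [show Set.range M.a.g = (Set.range M.j.g)ᶜ from M.h] at h2
    exact h2 ⟨u, h.symm⟩

lemma res_pfc (hPFC : S_PFC.{v}) (α : Pts i X →₀ E) (α' : Pts i X' →₀ E)
    (hα' : resCyc M.j' α' = Finsupp.mapDomain (M.fU.pts i).symm (resCyc M.j α)) :
    resCyc M.j (pfc E i M.f α') = resCyc M.j α := by
  classical
  obtain ⟨-, -, -, -, -, p6⟩ := hPFC
  ext u
  obtain ⟨u', hu'⟩ : ∃ u', u' = (M.fU.pts i).symm u := ⟨_, rfl⟩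
  have e1 : M.fU.pts i u' = u := by rw [hu', Equiv.apply_symm_apply]
  have e2 : M.fU.e.hom u'.1 = u.1 := congrArg Subtype.val e1
  have e3 : M.f.g (ptsMapO i M.j' u').1 = (ptsMapO i M.j u).1 := by
    change M.f.g (M.j'.g u'.1) = M.j.g u.1
    rw [← e2, ← Scheme.Hom.comp_apply, M.hU.w, Scheme.Hom.comp_apply]
  have e4 : α' (ptsMapO i M.j' u') = resCyc M.j α u := by
    have h1 := DFunLike.congr_fun hα' u'
    rw [resCyc_apply, hu', Finsupp.mapDomain_apply (M.fU.pts i).symm.injective] at h1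
    rw [hu']
    exact h1
  rw [resCyc_apply, p6, ← e4, Finsupp.sum, Finset.sum_eq_single (ptsMapO i M.j' u')]
  · rw [if_pos e3]
    have h2 : M.f.deg (ptsMapO i M.j' u').1 = 1 := deg_one M u'.1
    rw [h2, Nat.cast_one, mul_one]
  · intro x _ hx
    rw [if_neg, mul_zero]
    intro h
    apply hx
    obtain ⟨w, hw1, hw2⟩ := pt_unique M x.1 u.1 h
    have h3 : w = u'.1 := by
      have h4 : M.fU.e.hom w = M.fU.e.hom u'.1 := by rw [hw2, e2]
      exact M.fU.e.hom.homeomorph.injective h4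
    apply Subtype.ext
    rw [← hw1, h3]
    rfl
  · intro hx
    rw [Finsupp.notMem_support_iff.mp hx, zero_mul]

end MOD

open MOD in
theorem t_MOD : M_MOD.{v} := by
  intro hPFC k E _ _ T hT i X' X M hgood hX' hZ hpf
  have hres := fun α α' h => res_pfc (E := E) (i := i) M hPFC α α' h
  obtain ⟨-, p2, p3, p4, -, -⟩ := hPFC
  rw [injC_iff] at hX' hZ ⊢
  intro α hα
  change clz (T i) X α = 0 at hα
  obtain ⟨α', hα'⟩ := exists_resCyc M.j'
    (Finsupp.mapDomain (M.fU.pts i).symm (resCyc M.j α))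
  have hkey := hres α α' hα'
  obtain ⟨β, hβ⟩ := exists_pushCyc M.a M.j M.h (α - pfc E i M.f α') (by
    rw [map_sub, hkey, sub_self])
  -- push-forwards along closed immersions
  have hcl : ∀ (n : ℕ) {Z Y : Var k} (a : ClosedIn Z Y) (m : (T i).H n Z),
      hT.G i n (clPr a) m = (T i).push n a m := fun n _ _ a m => hT.pfClosed i n a (clPr a) rfl m
  have hcyc : ∀ {Z Y : Var k} (a : ClosedIn Z Y) (c : Pts i Z →₀ E),
      pfc E i (clPr a) c = pushCyc a c := fun a c => p3 k E i _ _ a (clPr a) rfl c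
  -- the class of the strict transform
  have h1 : clz (T i) X (pfc E i M.f α') = hT.G i (2 * i) M.f (clz (T i) X' α') :=
    p4 k E T hT i X' X M.f α'
  have h2 : (T i).res (2 * i) M.j (hT.G i (2 * i) M.f (clz (T i) X' α')) = 0 := by
    rw [← h1]
    have h3 := res_cls (T i) M.j (pfc E i M.f α')
    rw [hkey, ← res_cls (T i) M.j α] at h3
    rw [h3]
    change (T i).res (2 * i) M.j (clz (T i) X α) = 0
    rw [hα, map_zero]
  have h3 : (T i).res (2 * i) M.j' (clz (T i) X' α') = 0 := by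
    have h4 := hT.pfRestriction i (2 * i) M.f M.fU.pr M.j' M.j M.hU (clz (T i) X' α')
    have h5 : hT.G i (2 * i) M.fU.pr ((T i).res (2 * i) M.j' (clz (T i) X' α')) = 0 :=
      h4.symm.trans h2
    have h6 := hcl (2 * i) M.fU.cl ((T i).res (2 * i) M.j' (clz (T i) X' α'))
    have h7 : (T i).push (2 * i) M.fU.cl ((T i).res (2 * i) M.j' (clz (T i) X' α')) = 0 :=
      h6.symm.trans h5
    exact (push_viso_bijective (T i) (2 * i) M.fU).injective (h7.trans (map_zero _).symm)
  obtain ⟨δ₀, hδ₀⟩ := ((T i).exact_X (2 * i) M.a' M.j' M.h' _).mp h3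
  obtain ⟨H, hH⟩ : ∃ H : PrMor M.Z' X, H.g = M.fZ.g ≫ M.a.g := ⟨M.fZ.trans (clPr M.a), rfl⟩
  have hH1 : ∀ (n : ℕ) (m : (T i).H n M.Z'),
      (T i).push n M.a (hT.G i n M.fZ m) = hT.G i n H m := by
    intro n m
    rw [← hcl]
    exact hT.pfFunctorial i n M.fZ (clPr M.a) H hH.symm m
  have hH2 : ∀ (n : ℕ) (m : (T i).H n M.Z'),
      hT.G i n M.f ((T i).push n M.a' m) = hT.G i n H m := by
    intro n m
    rw [← hcl]
    exact hT.pfFunctorial i n (clPr M.a') M.f H (M.hZ.trans hH.symm) m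
  have h4 : (T i).push (2 * i) M.a (hT.G i (2 * i) M.fZ δ₀ + clz (T i) M.Z β) = 0 := by
    rw [map_add, hH1, ← hH2, hδ₀, ← h1]
    have h5 := push_cls (T i) M.a β
    rw [hβ] at h5
    rw [h5, cls_sub]
    change clz (T i) X (pfc E i M.f α') + (clz (T i) X α - clz (T i) X (pfc E i M.f α')) = 0
    rw [hα]
    abel
  obtain ⟨u, hu⟩ := (hT.bdExact i (2 * i) M.a M.j M.h _).mp h4
  obtain ⟨u', hu'⟩ := (push_viso_bijective (T i) (2 * i + 1) M.fU).surjective u
  have h5 : hT.G i (2 * i + 1) M.fU.pr u' = u := (hcl (2 * i + 1) M.fU.cl u').trans hu'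
  have h6 := hT.pfBoundary i (2 * i) M.a' M.j' M.h' M.a M.j M.h M.fZ M.fU.pr M.f M.hZ M.hU.w u'
  rw [h5, hu] at h6
  obtain ⟨δ, hδ⟩ : ∃ δ, δ = δ₀ - hT.B i (2 * i) M.a' M.j' M.h' u' := ⟨_, rfl⟩
  have h7 : (T i).push (2 * i) M.a' δ = clz (T i) X' α' := by
    have h8 : (T i).push (2 * i) M.a' (hT.B i (2 * i) M.a' M.j' M.h' u') = 0 :=
      (hT.bdExact i (2 * i) M.a' M.j' M.h' _).mpr ⟨u', rfl⟩
    rw [hδ, map_sub, h8, sub_zero]
    exact hδ₀
  have h8 : hT.G i (2 * i) M.fZ δ = -clz (T i) M.Z β := by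
    have h9 : hT.G i (2 * i) M.fZ δ = hT.G i (2 * i) M.fZ δ₀ -
        hT.G i (2 * i) M.fZ (hT.B i (2 * i) M.a' M.j' M.h' u') := by
      rw [hδ]
      exact map_sub (hT.pf i (2 * i) M.fZ) _ _
    rw [h9, h6]
    abel
  -- the component for the eigenvalue one
  obtain ⟨δ₁, hδ₁, h9⟩ := maxGen_lift ((T i).frob (2 * i) M.Z')
    (((T i).frob (2 * i) X').prodMap ((T i).frob (2 * i) M.Z))
    (((T i).push (2 * i) M.a').prod (hT.pf i (2 * i) M.fZ)) (by
      intro m
      apply Prod.ext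
      · exact (T i).push_frob (2 * i) M.a' m
      · exact hT.pfFrobenius i (2 * i) M.fZ m) (m := δ) (by
      rw [mem_maxGen_iff]
      refine ⟨1, ?_⟩
      rw [pow_one, LinearMap.sub_apply, Module.End.one_apply, sub_eq_zero]
      apply Prod.ext
      · change (T i).frob (2 * i) X' ((T i).push (2 * i) M.a' δ) = (T i).push (2 * i) M.a' δ
        rw [h7, frob_cls]
      · change (T i).frob (2 * i) M.Z (hT.G i (2 * i) M.fZ δ) = hT.G i (2 * i) M.fZ δ
        rw [h8, map_neg, frob_cls])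
  have h10 : (T i).push (2 * i) M.a' δ₁ = clz (T i) X' α' :=
    (congrArg Prod.fst h9).trans h7
  have h11 : hT.G i (2 * i) M.fZ δ₁ = -clz (T i) M.Z β :=
    (congrArg Prod.snd h9).trans h8
  obtain ⟨ε, hε⟩ := exists_cls (T i) M.Z' δ₁
    (OPEN.good (T i) M.Z' (hgood M.Z').1 (hgood M.Z').2 hδ₁)
  have h12 : α' - pushCyc M.a' ε ∈ ratZero E i X' := by
    apply hX'
    rw [cls_sub, ← push_cls, hε, h10]
    exact sub_self _
  have h13 : β + pfc E i M.fZ ε ∈ ratZero E i M.Z := by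
    apply hZ
    rw [cls_add]
    have h14 := p4 k E T hT i M.Z' M.Z M.fZ ε
    change clz (T i) M.Z β + clz (T i) M.Z (pfc E i M.fZ ε) = 0
    rw [h14]
    have h15 : clz (T i) M.Z' ε = δ₁ := hε
    rw [h15, h11, add_neg_cancel]
  have h14 : pfc E i M.f (pushCyc M.a' ε) = pushCyc M.a (pfc E i M.fZ ε) := by
    rw [← hcyc, ← hcyc, p2 k E i _ _ _ (clPr M.a') M.f H (M.hZ.trans hH.symm),
      p2 k E i _ _ _ M.fZ (clPr M.a) H hH.symm]
  have h15 : α = pfc E i M.f (α' - pushCyc M.a' ε) + pushCyc M.a (β + pfc E i M.fZ ε) := by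
    rw [map_sub, h14]
    have h16 : pushCyc M.a (β + pfc E i M.fZ ε) =
        pushCyc M.a β + pushCyc M.a (pfc E i M.fZ ε) := Finsupp.mapDomain_add
    rw [h16, hβ]
    abel
  rw [h15]
  exact add_mem (hpf _ h12) (pushCyc_ratZero M.a _ h13)

end CUB
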