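import Pool.Agent.CUB2.StmtsH

/-!
# CUB2, module P0: injectivity of the cycle class map in dimension at most `i`
-/

set_option autoImplicit false

open CategoryTheory AlgebraicGeometry Limits Polynomial TopologicalSpace

namespace CUB

open Pool.Agent.Lib_helper55.Beil Pool.Agent.Lib_helper66.OneP

universe v

namespace P0

variable {k E : Type} [Field k] [Field E]

/-- There is nothing rationally equivalent to zero in dimension `i` on a variety of dimension at
most `i`. -/
lemma ratZero_eq_bot (i : ℕ) (U : Var k) (h : U.DimLE i) : ratZero E i U = ⊥ := by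
  unfold ratZero
  rw [Submodule.span_eq_bot]
  rintro c ⟨W, hW, a, φ, hd, -, -⟩
  exfalso
  have h1 : U.dim (a.g (genericPoint W.X)) = W.dim (genericPoint W.X) := dim_map a.g a.comm _
  have h2 := h (a.g (genericPoint W.X))
  rw [h1, hd] at h2
  have h3 : i + 1 ≤ i := by exact_mod_cast h2
  omega

lemma integral (hDST : S_DST) (T : ∀ i : ℕ, Homology.{v} k E i) (i : ℕ)
    (haff : ∀ X : Var k, IsAffine X.X → (T i).InjC X) (V : Var k) (hV : IsIntegral V.X)
    (hdim : V.DimLE i) : (T i).InjC V := by
  rw [injC_iff]
  intro c hc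
  obtain ⟨U, hU, hxU, -⟩ := exists_isAffineOpen_mem_and_subset
    (x := genericPoint V.X) (U := ⊤) trivial
  have hUaff : IsAffine (openVar V U).X := hU
  have hUdim : (openVar V U).DimLE i := by
    intro u
    have h1 : V.dim ((openVarIn V U).g u) = (openVar V U).dim u :=
      dim_map (openVarIn V U).g (openVarIn V U).comm u
    rw [← h1]
    exact hdim _
  have h2 : clz (T i) (openVar V U) (resCyc (openVarIn V U) c) = 0 := by
    have h3 := res_cls (T i) (openVarIn V U) c
    rw [hc, map_zero] at h3
    exact h3.symm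
  have h4 : resCyc (openVarIn V U) c ∈ ratZero E i (openVar V U) :=
    (injC_iff (T i) _).mp (haff _ hUaff) _ h2
  rw [ratZero_eq_bot i _ hUdim, Submodule.mem_bot] at h4
  have h5 : c = 0 := by
    ext x
    have hx : x.1 = genericPoint V.X := hDST.2.2.2 k i V hV x.1 hdim x.2
    have h6 : x.1 ∈ Set.range (openVarIn V U).g := by
      rw [range_openVarIn, hx]
      exact hxU
    obtain ⟨u, rfl⟩ := mem_range_ptsMapO (openVarIn V U) x h6
    rw [← resCyc_apply, h4]
    rfl
  rw [h5]
  exact Submodule.zero_mem _

end P0

theorem t_P0 : M_P0.{v} := by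
  intro hDST hREDI k E _ _ T hT i hSS haff X hX
  apply hREDI k E T hT i X hSS
  intro V hV a
  apply P0.integral hDST T i haff V hV
  intro x
  have h1 : X.dim (a.g x) = V.dim x := dim_map a.g a.comm x
  rw [← h1]
  exact hX _

end CUB
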