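import Pool.Agent.CUB2.StmtsH

/-!
# CUB2, module PCY: pull-back of cycles
-/

set_option autoImplicit false

open CategoryTheory AlgebraicGeometry Limits Polynomial TopologicalSpace

namespace CUB

open Pool.Agent.Lib_helper55.Beil Pool.Agent.Lib_helper66.OneP

universe v

namespace PCY

variable {k : Type} [Field k] {E : Type} [Field E]

/-- over every point there is exactly one point of the next dimension -/
def HQ {Y X : Var k} (q : Y.X ⟶ X.X) : Prop :=
  ∀ x : X.X, ∃ y : Y.X, q y = x ∧ Y.dim y = X.dim x + 1 ∧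
    ∀ y' : Y.X, q y' = x → Y.dim y' = X.dim x + 1 → y' = y

lemma exists_up {Y X : Var k} {q : Y.X ⟶ X.X} (hq : HQ q) (i : ℕ) (x : Pts i X) :
    ∃ y : Pts (i + 1) Y, q y.1 = x.1 ∧ ∀ y' : Pts (i + 1) Y, q y'.1 = x.1 → y' = y := by
  obtain ⟨y, h1, h2, h3⟩ := hq x.1
  have hx : X.dim x.1 = i := x.2
  refine ⟨⟨y, ?_⟩, h1, ?_⟩
  · rw [h2, hx]
    push_cast
    rfl
  · intro y' hy'
    apply Subtype.ext
    apply h3 y'.1 hy'
    have h4 : Y.dim y'.1 = ((i + 1 : ℕ) : Cardinal) := y'.2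
    rw [h4, hx]
    push_cast
    rfl

/-- the point of dimension `i + 1` over `x` -/
noncomputable def up {Y X : Var k} {q : Y.X ⟶ X.X} (hq : HQ q) (i : ℕ) (x : Pts i X) :
    Pts (i + 1) Y := (exists_up hq i x).choose

lemma up_q {Y X : Var k} {q : Y.X ⟶ X.X} (hq : HQ q) (i : ℕ) (x : Pts i X) :
    q (up hq i x).1 = x.1 := (exists_up hq i x).choose_spec.1

lemma up_unique {Y X : Var k} {q : Y.X ⟶ X.X} (hq : HQ q) (i : ℕ) (x : Pts i X)
    (y : Pts (i + 1) Y) (h : q y.1 = x.1) : y = up hq i x :=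
  (exists_up hq i x).choose_spec.2 y h

lemma up_inj {Y X : Var k} {q : Y.X ⟶ X.X} (hq : HQ q) (i : ℕ) :
    Function.Injective (up hq i : Pts i X → Pts (i + 1) Y) := by
  intro x x' h
  apply Subtype.ext
  rw [← up_q hq i x, ← up_q hq i x', h]

lemma isPullC_up {Y X : Var k} {q : Y.X ⟶ X.X} (hq : HQ q) (i : ℕ) (c : Pts i X →₀ E) :
    IsPullC q c (Finsupp.mapDomain (up hq i) c) := by
  intro y
  refine ⟨fun h => ?_, fun h => ?_⟩
  · have h1 : y = up hq i ⟨q y.1, h⟩ := up_unique hq i ⟨q y.1, h⟩ y rfl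
    conv_lhs => rw [h1]
    exact Finsupp.mapDomain_apply (up_inj hq i) c _
  · apply Finsupp.mapDomain_of_notMem_range
    rintro ⟨x, hx⟩
    apply h
    rw [← hx, up_q hq i x]
    exact x.2

lemma unique {Y X : Var k} {i : ℕ} {q : Y.X ⟶ X.X} {c : Pts i X →₀ E} {d d' : Pts (i + 1) Y →₀ E}
    (h : IsPullC q c d) (h' : IsPullC q c d') : d = d' := by
  ext y
  by_cases hy : X.dim (q y.1) = i
  · rw [(h y).1 hy, (h' y).1 hy]
  · rw [(h y).2 hy, (h' y).2 hy]

lemma hqLine (hL : S_LPT) {Y X : Var k} (L : Line Y X) : HQ L.q := by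
  intro x
  obtain ⟨y, h1, h2, -, h3⟩ := hL.2.1 k Y X L x
  exact ⟨y, h1, h2, h3⟩

lemma hqBun (hL : S_LPT) {P X : Var k} (B : PBun P X) : HQ B.p.g := by
  intro x
  obtain ⟨y, h1, h2, -, h3⟩ := hL.2.2.2 k P X B x
  exact ⟨y, h1, h2, h3⟩

end PCY

theorem t_PCY : M_PCY.{v} := by
  intro hP hL
  refine ⟨?_, ?_, ?_, ?_, ?_, ?_⟩
  · intro k E _ _ i Y X L c
    exact ⟨_, PCY.isPullC_up (PCY.hqLine hL L) i c⟩
  · intro k E _ _ i P X B c
    exact ⟨_, PCY.isPullC_up (PCY.hqBun hL B) i c⟩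
  · intro k E _ _ i P X B c d h y
    have hq : ∀ u : B.U.X, B.L.q u = B.p.g (B.j.g u) := by
      intro u
      rw [← B.hL]
      rfl
    have h1 := h (ptsMapO (i + 1) B.j y)
    have h2 : (ptsMapO (i + 1) B.j y).1 = B.j.g y.1 := rfl
    rw [resCyc_apply]
    refine ⟨fun h3 => ?_, fun h3 => ?_⟩
    · have h4 : X.dim (B.p.g (B.j.g y.1)) = i := by rw [← hq]; exact h3
      rw [h1.1 h4]
      congr 1
      apply Subtype.ext
      exact (hq y.1).symm
    · apply h1.2
      rw [h2, ← hq]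
      exact h3
  · intro k E _ _ i P X B c d h
    apply hP.2.2.2.2.1 k E (i + 1) P X B.p d
    intro x hx h1
    apply hx
    apply (h x).2
    rw [h1]
    intro h2
    have h3 : i + 1 = i := by exact_mod_cast h2
    omega
  · intro k E _ _ i Y X q c c' d d' h h'
    refine ⟨?_, ?_⟩
    · rintro rfl
      exact PCY.unique h h'
    · intro y
      refine ⟨fun h1 => ?_, fun h1 => ?_⟩
      · rw [Finsupp.add_apply, Finsupp.add_apply, (h y).1 h1, (h' y).1 h1]
      · rw [Finsupp.add_apply, (h y).2 h1, (h' y).2 h1, add_zero]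
  · intro k E _ _ T hT i Y X L c d h
    have hq := PCY.hqLine hL L
    have h1 : d = Finsupp.mapDomain (PCY.up hq i) c := PCY.unique h (PCY.isPullC_up hq i c)
    rw [h1]
    show Finsupp.linearCombination E ((T (i + 1)).cl Y) (Finsupp.mapDomain (PCY.up hq i) c) =
      hT.line i (2 * i) L (Finsupp.linearCombination E ((T i).cl X) c)
    rw [Finsupp.linearCombination_mapDomain, Finsupp.linearCombination_apply,
      Finsupp.linearCombination_apply, map_finsuppSum]
    refine Finsupp.sum_congr fun x _ => ?_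
    rw [map_smul]
    congr 1
    exact (hT.lineClass i L x (PCY.up hq i x) (PCY.up_q hq i x)).symm

end CUB
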