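import Pool.Agent.CUB2.StmtsH

/-!
# CUB2, module PFC: push-forward of cycles
-/

set_option autoImplicit false

open CategoryTheory AlgebraicGeometry Limits Polynomial TopologicalSpace

namespace CUB

open Pool.Agent.Lib_helper55.Beil Pool.Agent.Lib_helper66.OneP

universe v

namespace PFC

theorem dim_le {k : Type} [Field k] {X Y : Var k} (g : X.X ⟶ Y.X) (comm : g ≫ Y.f = X.f)
    (x : X.X) : Y.dim (g x) ≤ X.dim x := by
  let : Algebra k (Y.X.residueField (g x)) := (Y.toResidue (g x)).toAlgebra
  let : Algebra k (X.X.residueField x) := (X.toResidue x).toAlgebra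
  let e : Y.X.residueField (g x) →ₐ[k] X.X.residueField x :=
    { (g.residueFieldMap x).hom with
      commutes' := fun r => by
        have := toResidue_map g comm x
        exact congrArg (fun (φ : k →+* _) => φ r) this }
  exact trdeg_le_of_injective e (g.residueFieldMap x).hom.injective

theorem deg_comp {k : Type} [Field k] {X Y Z : Var k} (f : PrMor X Y) (g : PrMor Y Z)
    (h : PrMor X Z) (hc : f.g ≫ g.g = h.g) (x : X.X) :
    h.deg x = g.deg (f.g x) * f.deg x := by
  obtain ⟨hg, h1, h2⟩ := h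
  simp only at hc
  subst hc
  unfold PrMor.deg
  have h3 := Scheme.residueFieldMap_comp f.g g.g x
  let : Algebra (Z.X.residueField (g.g (f.g x))) (Y.X.residueField (f.g x)) :=
    (g.g.residueFieldMap (f.g x)).hom.toAlgebra
  let : Algebra (Y.X.residueField (f.g x)) (X.X.residueField x) :=
    (f.g.residueFieldMap x).hom.toAlgebra
  let : Algebra (Z.X.residueField (g.g (f.g x))) (X.X.residueField x) :=
    ((f.g ≫ g.g).residueFieldMap x).hom.toAlgebra
  have : IsScalarTower (Z.X.residueField (g.g (f.g x))) (Y.X.residueField (f.g x))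
      (X.X.residueField x) := by
    refine IsScalarTower.of_algebraMap_eq' ?_
    have h4 := congrArg CommRingCat.Hom.hom h3
    exact h4
  exact (Module.finrank_mul_finrank (Z.X.residueField (g.g (f.g x)))
    (Y.X.residueField (f.g x)) (X.X.residueField x)).symm

theorem deg_closed {k : Type} [Field k] {Z X : Var k} (a : ClosedIn Z X) (f : PrMor Z X)
    (h : f.g = a.g) (z : Z.X) : f.deg z = 1 := by
  unfold PrMor.deg
  have : IsPreimmersion f.g := by
    rw [h]
    infer_instance
  let : Algebra (X.X.residueField (f.g z)) (Z.X.residueField z) :=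
    (f.g.residueFieldMap z).hom.toAlgebra
  have h1 : Function.Bijective (algebraMap (X.X.residueField (f.g z)) (Z.X.residueField z)) :=
    residueFieldMap_bijective f.g z
  exact (LinearEquiv.finrank_eq (AlgEquiv.ofBijective (Algebra.ofId _ _) h1).toLinearEquiv).symm.trans
    (Module.finrank_self _)

section

variable {k E : Type} [Field k] [Field E] {i : ℕ}

theorem pfc_single {X Y : Var k} (f : PrMor X Y) (x : Pts i X) (e : E) :
    pfc E i f (Finsupp.single x e) = e • pfPt E i f x := by
  unfold pfc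
  rw [Finsupp.linearCombination_single]

theorem pfPt_pos {X Y : Var k} (f : PrMor X Y) (x : Pts i X) (h : Y.dim (f.g x.1) = i) :
    pfPt E i f x = Finsupp.single ⟨f.g x.1, h⟩ (f.deg x.1 : E) := by
  unfold pfPt
  rw [dif_pos h]

theorem pfPt_neg {X Y : Var k} (f : PrMor X Y) (x : Pts i X) (h : Y.dim (f.g x.1) ≠ i) :
    pfPt E i f x = 0 := by
  unfold pfPt
  rw [dif_neg h]

theorem pfPt_comp {X Y Z : Var k} (f : PrMor X Y) (g : PrMor Y Z) (h : PrMor X Z)
    (hc : f.g ≫ g.g = h.g) (x : Pts i X) :
    pfc E i g (pfPt E i f x) = pfPt E i h x := by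
  have hd := deg_comp f g h hc x.1
  have hx : g.g (f.g x.1) = h.g x.1 := by
    rw [← hc]
    rfl
  by_cases h1 : Y.dim (f.g x.1) = i
  · rw [pfPt_pos f x h1, pfc_single]
    by_cases h2 : Z.dim (g.g (f.g x.1)) = i
    · have h3 : Z.dim (h.g x.1) = i := by rw [← hx]; exact h2
      rw [pfPt_pos h x h3, pfPt_pos g ⟨f.g x.1, h1⟩ h2, Finsupp.smul_single, smul_eq_mul, hd]
      have h4 : (⟨g.g (f.g x.1), h2⟩ : Pts i Z) = ⟨h.g x.1, h3⟩ := Subtype.ext hx
      rw [h4, Nat.cast_mul, mul_comm]
    · have h3 : Z.dim (h.g x.1) ≠ i := by rw [← hx]; exact h2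
      rw [pfPt_neg h x h3, pfPt_neg g ⟨f.g x.1, h1⟩ h2, smul_zero]
  · rw [pfPt_neg f x h1, map_zero]
    have h3 : Z.dim (h.g x.1) ≠ i := by
      intro h4
      apply h1
      refine le_antisymm ((dim_le f.g f.comm x.1).trans x.2.le) ?_
      have h5 : Z.dim (g.g (f.g x.1)) ≤ Y.dim (f.g x.1) := dim_le g.g g.comm _
      have h6 : Z.dim (g.g (f.g x.1)) = Z.dim (h.g x.1) := congrArg Z.dim hx
      exact (h4.symm.trans h6.symm).le.trans h5
    rw [pfPt_neg h x h3]

theorem pfc_eq_sum {X Y : Var k} (f : PrMor X Y) (c : Pts i X →₀ E) :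
    pfc E i f c = c.sum fun x e => e • pfPt E i f x := by
  unfold pfc
  rw [Finsupp.linearCombination_apply]

end

end PFC

open PFC in
theorem t_PFC : S_PFC.{v} := by
  refine ⟨?_, ?_, ?_, ?_, ?_, ?_⟩
  · intro k _ X Y g comm x
    exact dim_le g comm x
  · intro k E _ _ i X Y Z f g h hc c
    have h1 : (pfc E i g).comp (pfc E i f) = pfc E i h := by
      refine Finsupp.lhom_ext fun x e => ?_
      rw [LinearMap.comp_apply, pfc_single, pfc_single, map_smul, pfPt_comp f g h hc x]
    exact LinearMap.congr_fun h1 c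
  · intro k E _ _ i Z X a f hf c
    rw [pfc_eq_sum]
    unfold pushCyc
    rw [Finsupp.mapDomain]
    refine Finsupp.sum_congr fun x _ => ?_
    have h1 : X.dim (f.g x.1) = i := by
      rw [hf]
      exact (ptsMap i a x).2
    rw [pfPt_pos f x h1, deg_closed a f hf, Nat.cast_one, Finsupp.smul_single, smul_eq_mul,
      mul_one]
    have h2 : (⟨f.g x.1, h1⟩ : Pts i X) = ptsMap i a x :=
      Subtype.ext (congrArg (fun (g : Z.X ⟶ X.X) => g x.1) hf)
    rw [h2]
  · intro k E _ _ T hT i X Y f c
    have h1 : (Finsupp.linearCombination E ((T i).cl Y)).comp (pfc E i f) =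
        (hT.pf i (2 * i) f).comp (Finsupp.linearCombination E ((T i).cl X)) := by
      refine Finsupp.lhom_ext fun x e => ?_
      rw [LinearMap.comp_apply, LinearMap.comp_apply, pfc_single, map_smul,
        Finsupp.linearCombination_single, map_smul]
      congr 1
      obtain ⟨h2, h3⟩ := hT.pfClasses i f x
      by_cases h4 : Y.dim (f.g x.1) = i
      · rw [pfPt_pos f x h4, Finsupp.linearCombination_single]
        exact (h2 h4).symm
      · rw [pfPt_neg f x h4, map_zero]
        exact (h3 h4).symm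
    exact LinearMap.congr_fun h1 c
  · intro k E _ _ i X Y f c hc
    rw [pfc_eq_sum]
    refine Finset.sum_eq_zero fun x hx => ?_
    show c x • pfPt E i f x = 0
    rw [pfPt_neg f x (hc x (Finsupp.mem_support_iff.mp hx)), smul_zero]
  · intro k E _ _ i X Y f c y
    classical
    rw [pfc_eq_sum, Finsupp.sum_apply]
    refine Finsupp.sum_congr fun x _ => ?_
    rw [Finsupp.smul_apply, smul_eq_mul]
    congr 1
    by_cases h1 : f.g x.1 = y.1
    · have h2 : Y.dim (f.g x.1) = i := by rw [h1]; exact y.2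
      have h3 : (⟨f.g x.1, h2⟩ : Pts i Y) = y := Subtype.ext h1
      rw [pfPt_pos f x h2, if_pos h1, h3, Finsupp.single_eq_same]
    · rw [if_neg h1]
      by_cases h2 : Y.dim (f.g x.1) = i
      · have h3 : (⟨f.g x.1, h2⟩ : Pts i Y) ≠ y := fun h => h1 (congrArg Subtype.val h)
        rw [pfPt_pos f x h2]
        exact Finsupp.single_eq_of_ne h3.symm
      · rw [pfPt_neg f x h2, Finsupp.zero_apply]

end CUB
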