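import Pool.Agent.CUB2.StmtsH

/-!
# CUB2, module PULLP

The pull-back to a `P^1`-bundle of a homologically trivial cycle is homologically trivial.
-/

set_option autoImplicit false

open CategoryTheory AlgebraicGeometry Limits Polynomial TopologicalSpace

namespace CUB

open Pool.Agent.Lib_helper55.Beil Pool.Agent.Lib_helper66.OneP

universe v

namespace PULLP

variable {k E : Type} [Field k] [Field E] {T : ∀ i : ℕ, Homology.{v} k E i}

/-- The push-forward along the section followed by the push-forward to the base is the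
identity. -/
lemma push_section (hT : Full T) (i n : ℕ) {P X : Var k} (B : PBun P X) (z : (T i).H n X) :
    hT.G i n B.p ((T i).P n B.s z) = z := by
  have h1 : hT.G i n (clPr B.s) z = (T i).P n B.s z :=
    hT.pfClosed i n B.s (clPr B.s) rfl z
  have h2 : hT.G i n B.p (hT.G i n (clPr B.s) z) = hT.G i n (clPr (idIn X)) z :=
    hT.pfFunctorial i n (clPr B.s) B.p (clPr (idIn X)) B.hs z
  have h3 : hT.G i n (clPr (idIn X)) z = (T i).P n (idIn X) z :=
    hT.pfClosed i n (idIn X) (clPr (idIn X)) rfl z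
  have h4 : (T i).P n (idIn X) z = z := hT.toExtra.push_id i n X (idIn X) rfl z
  rw [← h1, h2, h3, h4]

end PULLP

theorem t_PULLP : M_PULLP.{v} := by
  intro hPFC hPCY k E _ _ T hT i P X B c d hd hc
  have hres : (T (i + 1)).res (2 * (i + 1)) B.j (clz (T (i + 1)) P d) = 0 := by
    rw [res_cls]
    have h1 : IsPullC B.L.q c (resCyc B.j d) := hPCY.2.2.1 k E i P X B c d hd
    have h2 : clz (T (i + 1)) B.U (resCyc B.j d) = hT.L i (2 * i) B.L (clz (T i) X c) :=
      hPCY.2.2.2.2.2 k E T hT.toExtra i B.U X B.L c _ h1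
    rw [hc] at h2
    exact h2.trans (map_zero (hT.line i (2 * i) B.L))
  obtain ⟨z, hz⟩ := ((T (i + 1)).exact_X (2 * (i + 1)) B.s B.j B.hc _).mp hres
  have hz' : (T (i + 1)).P (2 * (i + 1)) B.s z = clz (T (i + 1)) P d := hz
  have h3 : hT.G (i + 1) (2 * (i + 1)) B.p (clz (T (i + 1)) P d) = 0 := by
    rw [← hPFC.2.2.2.1 k E T hT (i + 1) P X B.p d, hPCY.2.2.2.1 k E i P X B c d hd]
    exact map_zero _
  have h4 : z = 0 := by
    rw [← PULLP.push_section hT (i + 1) (2 * (i + 1)) B z, hz', h3]
  rw [← hz', h4]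
  exact map_zero ((T (i + 1)).push (2 * (i + 1)) B.s)

end CUB
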