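import Pool.Agent.CUB2.StmtsH

/-!
# CUB2, module PUSHR: push-forward preserves rational equivalence
-/

set_option autoImplicit false

open CategoryTheory AlgebraicGeometry Limits Polynomial TopologicalSpace

namespace CUB

open Pool.Agent.Lib_helper55.Beil Pool.Agent.Lib_helper66.OneP

universe v

namespace PUSHR

variable {k : Type} [Field k] {E : Type} [Field E] {i : ℕ}

theorem isDiv_push {W X : Var k} (a : ClosedIn W X) [IsIntegral W.X] (φ : W.X.functionField)
    (d : Pts i W →₀ E) (hd : IsDiv (idIn W) φ d) : IsDiv a φ (pushCyc a d) := by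
  constructor
  · intro w h
    have hw : W.dim w = i := by
      have := a.closed
      rw [← dim_map a.g a.comm]
      exact h
    have h5 : Finsupp.mapDomain (ptsMap i a) d (ptsMap i a (Subtype.mk w hw : Pts i W)) =
        d (Subtype.mk w hw : Pts i W) :=
      Finsupp.mapDomain_apply (ptsMap_injective i a) _ _
    refine h5.trans ?_
    exact hd.1 w hw
  · intro x hx
    have hx2 : x ∉ Set.range (ptsMap i a) := by
      rintro ⟨z, rfl⟩
      exact hx ⟨z.1, rfl⟩
    exact Finsupp.mapDomain_of_notMem_range _ _ hx2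

theorem isDiv_eq {W X : Var k} (a : ClosedIn W X) [IsIntegral W.X] (φ : W.X.functionField)
    (hφ : φ ≠ 0) (hdim : W.dim (genericPoint W.X) = (i + 1 : ℕ)) (c : Pts i X →₀ E)
    (hc : IsDiv a φ c) : ∃ d ∈ ratZero E i W, pushCyc a d = c := by
  obtain ⟨d, hd⟩ := exists_div (E := E) (i := i) (idIn W) φ hφ
  exact ⟨d, Submodule.subset_span ⟨W, inferInstance, idIn W, φ, hdim, hφ, hd⟩,
    isDiv_unique a φ _ _ (isDiv_push a φ d hd) hc⟩

/-- the closure of the image of `W` in `Y` -/
noncomputable def cl {W Y : Var k} (f : W.X ⟶ Y.X) : Closeds Y.X :=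
  Closeds.closure (Set.range f)

theorem mem_cl {W Y : Var k} (f : W.X ⟶ Y.X) (w : W.X) : f w ∈ cl f :=
  subset_closure ⟨w, rfl⟩

theorem cl_spec {W Y : Var k} [IsIntegral W.X] (f : W.X ⟶ Y.X) (y : Y.X) (hy : y ∈ cl f) :
    f (genericPoint W.X) ⤳ y := by
  rw [specializes_iff_mem_closure]
  have h1 : closure (Set.range f) ⊆ closure {f (genericPoint W.X)} := by
    apply closure_minimal _ isClosed_closure
    rintro _ ⟨w, rfl⟩
    rw [← specializes_iff_mem_closure]
    exact (genericPoint_specializes w).map f.continuous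
  exact h1 hy

end PUSHR

theorem t_PUSHR : M_PUSHR.{v} := by
  rintro ⟨P1, P2, P3, P4, -, -⟩ k E _ _ T hT i X Y f hinj c hc
  induction hc using Submodule.span_induction with
  | mem c hc =>
    obtain ⟨W, hW, a, φ, h1, h2, h3⟩ := hc
    obtain ⟨d, hd, rfl⟩ := PUSHR.isDiv_eq a φ h2 h1 c h3
    have hcomm : (a.g ≫ f.g) ≫ Y.f = W.f := by rw [Category.assoc, f.comm, a.comm]
    have hlift := liftC_comp (a.g ≫ f.g) (PUSHR.cl (a.g ≫ f.g)) (PUSHR.mem_cl (a.g ≫ f.g))
    have hb := (closedVarIn Y (PUSHR.cl (a.g ≫ f.g))).closed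
    have hprop : IsProper (liftC (a.g ≫ f.g) (PUSHR.cl (a.g ≫ f.g))
        (PUSHR.mem_cl (a.g ≫ f.g))) := by
      have h4 : IsProper (liftC (a.g ≫ f.g) (PUSHR.cl (a.g ≫ f.g))
          (PUSHR.mem_cl (a.g ≫ f.g)) ≫
            (Scheme.IdealSheafData.vanishingIdeal (PUSHR.cl (a.g ≫ f.g))).subschemeι) := by
        rw [hlift]
        infer_instance
      exact IsProper.of_comp _
        (Scheme.IdealSheafData.vanishingIdeal (PUSHR.cl (a.g ≫ f.g))).subschemeι
    let h : PrMor W (closedVar Y (PUSHR.cl (a.g ≫ f.g))) :=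
      { g := liftC (a.g ≫ f.g) (PUSHR.cl (a.g ≫ f.g)) (PUSHR.mem_cl (a.g ≫ f.g))
        comm := by
          change liftC (a.g ≫ f.g) _ _ ≫ Scheme.IdealSheafData.subschemeι _ ≫ Y.f = W.f
          rw [← Category.assoc, hlift, hcomm]
        proper := hprop }
    have hV : (closedVar Y (PUSHR.cl (a.g ≫ f.g))).DimLE (i + 1) := by
      intro y
      have h5 : (closedVarIn Y (PUSHR.cl (a.g ≫ f.g))).g y ∈ PUSHR.cl (a.g ≫ f.g) := by
        have h6 : (closedVarIn Y (PUSHR.cl (a.g ≫ f.g))).g y ∈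
            Set.range (closedVarIn Y (PUSHR.cl (a.g ≫ f.g))).g := ⟨y, rfl⟩
        rw [range_closedVarIn] at h6
        exact h6
      have h7 := dim_le_of_specializes Y (PUSHR.cl_spec (a.g ≫ f.g) _ h5)
      have h8 := P1 k W Y (a.g ≫ f.g) hcomm (genericPoint W.X)
      rw [← dim_map (closedVarIn Y (PUSHR.cl (a.g ≫ f.g))).g
        (closedVarIn Y (PUSHR.cl (a.g ≫ f.g))).comm]
      refine (h7.trans h8).trans ?_
      rw [h1]
    have hcls : clz (T i) W d = 0 := (T i).cl_rat W d hd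
    have h9 : clz (T i) _ (pfc E i h d) = 0 := by
      rw [P4 k E T hT i _ _ h d, hcls]
      exact map_zero (hT.pf i (2 * i) h)
    have h10 : pfc E i h d ∈ ratZero E i _ := hinj _ hV _ h9
    have h11 := pushCyc_ratZero (closedVarIn Y (PUSHR.cl (a.g ≫ f.g))) _ h10
    have e1 : pfc E i (clPr a) d = pushCyc a d := P3 k E i _ _ a (clPr a) rfl d
    have e2 : pfc E i f (pushCyc a d) = pfc E i ((clPr a).trans f) d := by
      rw [← e1]
      exact P2 k E i _ _ _ (clPr a) f ((clPr a).trans f) rfl d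
    have e3 := P3 k E i _ _ (closedVarIn Y (PUSHR.cl (a.g ≫ f.g)))
      (clPr (closedVarIn Y (PUSHR.cl (a.g ≫ f.g)))) rfl (pfc E i h d)
    have e4 := P2 k E i _ _ _ h (clPr (closedVarIn Y (PUSHR.cl (a.g ≫ f.g))))
      ((clPr a).trans f) hlift d
    rw [e2, ← e4, e3]
    exact h11
  | zero =>
    rw [map_zero]
    exact zero_mem _
  | add x y _ _ hx hy =>
    rw [map_add]
    exact add_mem hx hy
  | smul r x _ hx =>
    rw [map_smul]
    exact Submodule.smul_mem _ _ hx

end CUB
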