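import Pool.Agent.CUB2.StmtsH

/-!
# CUB2: module REDI
-/

set_option autoImplicit false

open CategoryTheory AlgebraicGeometry Limits Polynomial TopologicalSpace

namespace CUB

open Pool.Agent.Lib_helper55.Beil Pool.Agent.Lib_helper66.OneP

namespace REDI

variable {k : Type} [Field k]

lemma isReduced_closedVar (X : Var k) (C : Closeds X.X) : IsReduced (closedVar X C).X := by
  change IsReduced (Scheme.IdealSheafData.vanishingIdeal C).subscheme
  set I := Scheme.IdealSheafData.vanishingIdeal C with hI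
  have h : ∀ U, IsReduced (I.subschemeCover.openCover.X U) := by
    intro U
    change IsReduced (Spec (.of (Γ(X.X, U.1) ⧸ I.ideal U)))
    have : _root_.IsReduced (Γ(X.X, U.1) ⧸ I.ideal U) := by
      rw [← Ideal.isRadical_iff_quotient_reduced]
      rw [hI, Scheme.IdealSheafData.vanishingIdeal_ideal]
      exact PrimeSpectrum.isRadical_vanishingIdeal _
    have : _root_.IsReduced (CommRingCat.of (Γ(X.X, U.1) ⧸ I.ideal U)) := this
    infer_instance
  exact IsReduced.of_openCover _ I.subschemeCover.openCover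

lemma isIntegral_closedVar (X : Var k) (C : Closeds X.X) (hC : IsIrreducible (C : Set X.X)) :
    IsIntegral (closedVar X C).X := by
  have h1 := isReduced_closedVar X C
  have h2 := (closedVarIn X C).closed
  have h3 : IrreducibleSpace (closedVar X C).X := by
    have e : Topology.IsEmbedding (closedVarIn X C).g := (closedVarIn X C).g.isEmbedding
    have hr : ∀ y ∈ (C : Set X.X), ∃ z : (closedVar X C).X, (closedVarIn X C).g z = y := by
      intro y hy
      rw [← range_closedVarIn] at hy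
      exact hy
    have hm : ∀ z : (closedVar X C).X, (closedVarIn X C).g z ∈ (C : Set X.X) := by
      intro z
      rw [← range_closedVarIn]
      exact ⟨z, rfl⟩
    obtain ⟨y₀, hy₀⟩ := hC.1
    obtain ⟨z₀, -⟩ := hr y₀ hy₀
    have : Nonempty (closedVar X C).X := ⟨z₀⟩
    refine { toNonempty := this, isPreirreducible_univ := ?_ }
    rintro u v hu hv ⟨a, -, hau⟩ ⟨b, -, hbv⟩
    obtain ⟨u', hu', rfl⟩ := e.isInducing.isOpen_iff.mp hu
    obtain ⟨v', hv', rfl⟩ := e.isInducing.isOpen_iff.mp hv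
    obtain ⟨y, hyC, hyu, hyv⟩ := hC.2 u' v' hu' hv' ⟨_, hm a, hau⟩ ⟨_, hm b, hbv⟩
    obtain ⟨z, rfl⟩ := hr y hyC
    exact ⟨z, trivial, hyu, hyv⟩
  exact isIntegral_of_irreducibleSpace_of_isReduced _

lemma injC_of_top {E : Type} [Field E] {i : ℕ} (T : Homology k E i) (X : Var k)
    (h : T.InjC (closedVar X ⊤)) : T.InjC X := by
  intro c hc
  refine T.injC_glue (closedVarIn X ⊤) (openVarIn X ⊥) ?_
    (T.empty _ _ (isEmpty_openVar_bot X)) h c (fun p _ => ?_) hc
  · rw [Complementary, range_closedVarIn, range_openVarIn]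
    simp
  · rw [range_closedVarIn]
    exact Set.mem_univ _

lemma restrict_surjective {V W : Var k} (f : ClosedIn W V) (O : V.X.Opens)
    (hs : ∀ y : V.X, y ∈ O → y ∈ Set.range f.g) : Surjective (f.g ∣_ O) := by
  refine ⟨fun y => ?_⟩
  have h1 : O.ι y ∈ O := by
    have h2 : O.ι y ∈ Set.range O.ι := ⟨y, rfl⟩
    rwa [Scheme.Opens.range_ι] at h2
  obtain ⟨w, h8⟩ := hs _ h1
  have h9 : w ∈ (f.g ⁻¹ᵁ O) := by
    change f.g w ∈ O
    rw [h8]
    exact h1
  have h10 : w ∈ Set.range (f.g ⁻¹ᵁ O).ι := by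
    rw [Scheme.Opens.range_ι]
    exact h9
  obtain ⟨x, hx⟩ := h10
  refine ⟨x, ?_⟩
  apply O.ι.isOpenEmbedding.injective
  have h11 : O.ι ((f.g ∣_ O) x) = f.g ((f.g ⁻¹ᵁ O).ι x) := by
    rw [← Scheme.Hom.comp_apply, morphismRestrict_ι, Scheme.Hom.comp_apply]
  rw [h11, hx, h8]

lemma restrict_isIso {V W : Var k} (hV : IsReduced V.X) (f : ClosedIn W V) (O : V.X.Opens)
    (hs : ∀ y : V.X, y ∈ O → y ∈ Set.range f.g) : IsIso (f.g ∣_ O) := by
  have h1 := restrict_surjective f O hs
  have h2 : IsReduced O.toScheme := isReduced_of_isOpenImmersion O.ι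
  have h3 : IsClosedImmersion (f.g ∣_ O) := inferInstance
  exact isIso_of_isClosedImmersion_of_surjective (f.g ∣_ O)

/-- A closed immersion which is surjective outside a closed subvariety. -/
noncomputable def modifAux {V W Z : Var k} (hV : IsReduced V.X) (f : ClosedIn W V)
    (a : ClosedIn Z V) (O : V.X.Opens) (hO : Set.range a.g = (O : Set V.X)ᶜ)
    (hs : ∀ y : V.X, y ∈ O → y ∈ Set.range f.g)
    (fZ : PrMor (closedVar W (f.g ⁻¹ᵁ O).compl) Z)
    (hZ : (closedVarIn W (f.g ⁻¹ᵁ O).compl).g ≫ f.g = fZ.g ≫ a.g) : Modif W V where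
  f := clPr f
  Z := Z
  U := openVar V O
  Z' := closedVar W (f.g ⁻¹ᵁ O).compl
  U' := openVar W (f.g ⁻¹ᵁ O)
  a := a
  j := openVarIn V O
  h := by
    rw [Complementary, range_openVarIn]
    exact hO
  a' := closedVarIn W (f.g ⁻¹ᵁ O).compl
  j' := openVarIn W (f.g ⁻¹ᵁ O)
  h' := complementary_open _ _
  fZ := fZ
  fU :=
    { e := @asIso _ _ _ _ (f.g ∣_ O) (restrict_isIso hV f O hs)
      comm := by
        change (f.g ∣_ O) ≫ O.ι ≫ V.f = (f.g ⁻¹ᵁ O).ι ≫ W.f
        rw [← f.comm, morphismRestrict_ι_assoc] }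
  hZ := hZ
  hU := (isPullback_morphismRestrict f.g O).flip

/-- Closed subsets `C₁`, `C₂` with union `C` define a modification. -/
lemma exists_modif (X : Var k) (C C₁ C₂ : Closeds X.X) (h₁ : C₁ ≤ C) (h₂ : C₂ ≤ C)
    (h : C ≤ C₁ ⊔ C₂) : ∃ M : Modif (closedVar X C₁) (closedVar X C),
      M.f = clPr (closedVarMap X h₁) ∧ M.Z = closedVar X C₂ := by
  have hfac : (closedVarMap X h₁).g ≫ (closedVarIn X C).g = (closedVarIn X C₁).g := closedVarMap_comp X h₁
  have haac : (closedVarMap X h₂).g ≫ (closedVarIn X C).g = (closedVarIn X C₂).g := closedVarMap_comp X h₂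
  obtain ⟨O, hO⟩ : ∃ O : (closedVar X C).X.Opens, Set.range (closedVarMap X h₂).g = (O : Set (closedVar X C).X)ᶜ :=
    ⟨⟨(Set.range (closedVarMap X h₂).g)ᶜ,
      ((closedVarMap X h₂).g.isClosedEmbedding.isClosed_range).isOpen_compl⟩, (compl_compl _).symm⟩
  have hs : ∀ y : (closedVar X C).X, y ∈ O → y ∈ Set.range (closedVarMap X h₁).g := by
    intro y hy
    have h3 : (closedVarIn X C).g y ∈ (C : Set X.X) := by
      rw [← range_closedVarIn]
      exact ⟨_, rfl⟩
    have h4 : (closedVarIn X C).g y ∈ (C₁ : Set X.X) := by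
      rcases h h3 with h5 | h5
      · exact h5
      · exfalso
        have h6 : (closedVarIn X C).g y ∈ (C₂ : Set X.X) := h5
        rw [← range_closedVarIn] at h6
        obtain ⟨w, hw⟩ := h6
        rw [← haac] at hw
        have h7 : (closedVarIn X C).g ((closedVarMap X h₂).g w) = (closedVarIn X C).g y := hw
        have h8 := closedIn_injective (closedVarIn X C) h7
        have h9 : y ∈ (O : Set (closedVar X C).X)ᶜ := by
          rw [← hO]
          exact ⟨w, h8⟩
        exact h9 hy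
    rw [← range_closedVarIn] at h4
    obtain ⟨w, hw⟩ := h4
    rw [← hfac] at hw
    have h7 : (closedVarIn X C).g ((closedVarMap X h₁).g w) = (closedVarIn X C).g y := hw
    exact ⟨w, closedIn_injective (closedVarIn X C) h7⟩
  have hZred := isReduced_closedVar (closedVar X C₁) ((closedVarMap X h₁).g ⁻¹ᵁ O).compl
  have hmem : ∀ w, ((closedVarIn (closedVar X C₁) ((closedVarMap X h₁).g ⁻¹ᵁ O).compl).trans
      (closedVarIn X C₁)).g w ∈ C₂ := by
    intro w
    have h1 : (closedVarIn (closedVar X C₁) ((closedVarMap X h₁).g ⁻¹ᵁ O).compl).g w ∈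
        (((closedVarMap X h₁).g ⁻¹ᵁ O).compl : Set (closedVar X C₁).X) := by
      rw [← range_closedVarIn]
      exact ⟨w, rfl⟩
    obtain ⟨y, hy⟩ : (closedVarMap X h₁).g ((closedVarIn (closedVar X C₁) ((closedVarMap X h₁).g ⁻¹ᵁ O).compl).g w) ∈
        Set.range (closedVarMap X h₂).g := by
      rw [hO]
      exact h1
    have h3 : ((closedVarIn (closedVar X C₁) ((closedVarMap X h₁).g ⁻¹ᵁ O).compl).trans (closedVarIn X C₁)).g w =
        (closedVarIn X C₂).g y := by
      change (closedVarIn X C₁).g ((closedVarIn (closedVar X C₁) ((closedVarMap X h₁).g ⁻¹ᵁ O).compl).g w) = _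
      rw [← hfac, ← haac]
      change (closedVarIn X C).g ((closedVarMap X h₁).g
        ((closedVarIn (closedVar X C₁) ((closedVarMap X h₁).g ⁻¹ᵁ O).compl).g w)) =
        (closedVarIn X C).g ((closedVarMap X h₂).g y)
      rw [hy]
    rw [h3]
    have h4 : (closedVarIn X C₂).g y ∈ (C₂ : Set X.X) := by
      rw [← range_closedVarIn]
      exact ⟨y, rfl⟩
    exact h4
  have hmono : Mono (closedVarIn X C).g := inferInstance
  refine ⟨modifAux (isReduced_closedVar X C) (closedVarMap X h₁) (closedVarMap X h₂) O hO hs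
    (clPr (factorC ((closedVarIn (closedVar X C₁) ((closedVarMap X h₁).g ⁻¹ᵁ O).compl).trans
      (closedVarIn X C₁)) C₂ hmem)) ?_, rfl, rfl⟩
  rw [← cancel_mono (closedVarIn X C).g, Category.assoc, Category.assoc, hfac, haac]
  exact (factorC_comp _ C₂ hmem).symm

end REDI

open REDI

universe v

theorem t_REDI : M_REDI.{v} := by
  intro hP hM k E _ _ T hT i X hZ hV
  apply injC_of_top
  generalize (⊤ : Closeds X.X) = C
  induction C using WellFoundedLT.induction with
  | ind C ih =>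
  by_cases hirr : IsPreirreducible (C : Set X.X)
  · by_cases hne : (C : Set X.X).Nonempty
    · exact hV _ (isIntegral_closedVar X C ⟨hne, hirr⟩) (closedVarIn X C)
    · intro c _
      have h1 : IsEmpty (Pts i (closedVar X C)) := by
        refine ⟨fun p => hne ⟨(closedVarIn X C).g p.1, ?_⟩⟩
        rw [← range_closedVarIn]
        exact ⟨_, rfl⟩
      have h2 : c = 0 := Finsupp.ext fun p => (h1.false p).elim
      rw [h2]
      exact Submodule.zero_mem _
  · rw [isPreirreducible_iff_isClosed_union_isClosed] at hirr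
    push Not at hirr
    obtain ⟨z₁, z₂, hz₁, hz₂, hsub, hn₁, hn₂⟩ := hirr
    let C₁ : Closeds X.X := C ⊓ ⟨z₁, hz₁⟩
    let C₂ : Closeds X.X := C ⊓ ⟨z₂, hz₂⟩
    have h₁ : C₁ ≤ C := inf_le_left
    have h₂ : C₂ ≤ C := inf_le_left
    have hlt₁ : C₁ < C := lt_of_le_of_ne h₁ fun h => hn₁ (by
      intro x hx
      have h3 : x ∈ C₁ := by
        rw [h]
        exact hx
      exact h3.2)
    have hlt₂ : C₂ < C := lt_of_le_of_ne h₂ fun h => hn₂ (by
      intro x hx
      have h3 : x ∈ C₂ := by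
        rw [h]
        exact hx
      exact h3.2)
    have hun : C ≤ C₁ ⊔ C₂ := by
      intro x hx
      rcases hsub hx with h3 | h3
      · exact Or.inl ⟨hx, h3⟩
      · exact Or.inr ⟨hx, h3⟩
    obtain ⟨M, hMf, hMZ⟩ := exists_modif X C C₁ C₂ h₁ h₂ hun
    refine hM k E T hT i _ _ M hZ (ih C₁ hlt₁) ?_ ?_
    · rw [hMZ]
      exact ih C₂ hlt₂
    · intro c hc
      rw [hMf, hP.2.2.1 k E i _ _ (closedVarMap X h₁) (clPr (closedVarMap X h₁)) rfl c]
      exact ratZero_map _ c hc

end CUB
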