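import Pool.Agent.CUB2.StmtsK

/-!
# CUB2: module CHA
-/

set_option autoImplicit false

open CategoryTheory AlgebraicGeometry Limits Polynomial TopologicalSpace

namespace CUB

open Pool.Agent.Lib_helper55.Beil Pool.Agent.Lib_helper66.OneP

namespace CHA

variable {k : Type} [Field k]

/-- A point has small affine neighbourhoods, given as charts. -/
lemma exists_chart (X : Var k) (x : X.X) (O : X.X.Opens) (hx : x ∈ O) :
    ∃ (A : Type) (_ : CommRing A) (_ : Algebra k A) (_ : Algebra.FiniteType k A)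
      (j : OpenIn (aff k A) X), x ∈ Set.range j.g ∧ Set.range j.g ⊆ O := by
  obtain ⟨W, hW, hxW, hWO⟩ := exists_isAffineOpen_mem_and_subset (X := X.X) (U := O) (x := x) hx
  have : IsAffine (openVar X W).X := hW
  obtain ⟨A, i1, i2, i3, ⟨s⟩⟩ := exists_aff (openVar X W)
  have key : ∀ y : (aff k A).X, (s.e.hom ≫ (openVarIn X W).g) y =
      (openVarIn X W).g (s.e.hom y) := fun _ => rfl
  refine ⟨A, i1, i2, i3, ⟨s.e.hom ≫ (openVarIn X W).g, ?_, ?_⟩, ?_, ?_⟩
  · rw [Category.assoc, (openVarIn X W).comm, s.comm]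
  · infer_instance
  · have h1 : x ∈ Set.range (openVarIn X W).g := by
      rw [range_openVarIn]
      exact hxW
    obtain ⟨y, hy⟩ := h1
    refine ⟨s.e.inv y, ?_⟩
    have h2 : s.e.hom (s.e.inv y) = y := s.surj y
    exact (key _).trans ((congrArg _ h2).trans hy)
  · rintro _ ⟨y, rfl⟩
    have h1 : (openVarIn X W).g (s.e.hom y) ∈ Set.range (openVarIn X W).g := ⟨_, rfl⟩
    rw [range_openVarIn] at h1
    exact hWO h1

variable {A : Type} [CommRing A] [Algebra k A] [Algebra.FiniteType k A]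

lemma isDomain_of_chart (X : Var k) (hX : IsIntegral X.X) (j : OpenIn (aff k A) X)
    (x : (aff k A).X) : IsDomain A := by
  have hne : Nonempty (aff k A).X := ⟨x⟩
  have hint : IsIntegral (aff k A).X := isIntegral_of_isOpenImmersion j.g
  have h1 : IsIntegral (Spec (CommRingCat.of A)) := hint
  exact (affine_isIntegral_iff (CommRingCat.of A)).mp h1

lemma rc_apply (E : Type) [Field E] (n : ℕ) (X : Var k) (j : OpenIn (aff k A) X)
    (c : Pts n X →₀ E) (p : RP k A n) (P : Pts n X) (hP : j.g (toPt p.1) = P.1) :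
    rc E n j c p = c P := by
  unfold rc
  rw [← cyE_apply ((cyE E n).symm (resCyc j c)) p, LinearEquiv.apply_symm_apply, resCyc_apply]
  congr 1
  exact Subtype.ext hP

lemma notMem (X W : Var k) (hW : IsIntegral W.X) (a : ClosedIn W X) (j : OpenIn (aff k A) X)
    (h : a.g (genericPoint W.X) ∉ Set.range j.g) (w : W.X) : a.g w ∉ Set.range j.g := by
  intro hw
  apply h
  have h1 : a.g (genericPoint W.X) ⤳ a.g w := (genericPoint_specializes w).map a.g.continuous
  exact h1.mem_open j.g.isOpenEmbedding.isOpen_range hw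

lemma exists_h (X W : Var k) (hW : IsIntegral W.X) (a : ClosedIn W X) (j : OpenIn (aff k A) X)
    (p : PrimeSpectrum A) (hp : a.g (genericPoint W.X) = j.g (toPt p)) :
    ∃ h : (aff k (A ⧸ p.asIdeal)).X ⟶ W.X, IsOpenImmersion h ∧
      h ≫ a.g = (cq p.asIdeal).g ≫ j.g ∧ ∀ w : W.X, a.g w ∈ Set.range j.g → w ∈ Set.range h := by
  let b : pullback a.g j.g ⟶ (aff k A).X := pullback.snd a.g j.g
  let h0 : pullback a.g j.g ⟶ W.X := pullback.fst a.g j.g
  have hb : IsClosedImmersion b := inferInstanceAs (IsClosedImmersion (pullback.snd a.g j.g))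
  have hh0 : IsOpenImmersion h0 := inferInstanceAs (IsOpenImmersion (pullback.fst a.g j.g))
  have hcond : h0 ≫ a.g = b ≫ j.g := pullback.condition
  have hr : ∀ w, a.g w ∈ Set.range j.g → w ∈ Set.range h0 := by
    intro w hw
    have h4 := Scheme.Pullback.range_fst a.g j.g
    rw [show Set.range h0 = Set.range (pullback.fst a.g j.g) from rfl, h4]
    exact hw
  obtain ⟨z, hz⟩ := hr (genericPoint W.X) ⟨toPt p, hp.symm⟩
  have hne : Nonempty ↥(pullback a.g j.g) := ⟨z⟩
  have hint : IsIntegral (pullback a.g j.g) := isIntegral_of_isOpenImmersion h0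
  obtain ⟨I, e, he⟩ := (IsClosedImmersion.Spec_iff (R := CommRingCat.of A) (f := b)).mp hb
  have hne' : Nonempty (Spec (CommRingCat.of (A ⧸ I))) := ⟨e.hom z⟩
  have hint' : AlgebraicGeometry.IsIntegral (Spec (CommRingCat.of (A ⧸ I))) :=
    isIntegral_of_isOpenImmersion e.inv
  have hdom : IsDomain (A ⧸ I) := (affine_isIntegral_iff (CommRingCat.of (A ⧸ I))).mp hint'
  have hI : I.IsPrime := (Ideal.Quotient.isDomain_iff_prime I).mp hdom
  have hgen : z = genericPoint ↥(pullback a.g j.g) := by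
    apply h0.isOpenEmbedding.injective
    rw [hz, genericPoint_eq_of_isOpenImmersion h0]
  have hbz : b z = toPt (k := k) p := by
    apply j.g.isOpenEmbedding.injective
    rw [← hp, ← hz]
    exact (congrArg (fun f : pullback a.g j.g ⟶ X.X => f z) hcond).symm
  have hez : e.hom z = (show (Spec (CommRingCat.of (A ⧸ I))) from
      (⟨⊥, Ideal.isPrime_bot⟩ : PrimeSpectrum (A ⧸ I))) := by
    rw [hgen, genericPoint_eq_of_isOpenImmersion e.hom]
    exact genericPoint_eq_bot_of_affine (CommRingCat.of (A ⧸ I))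
  have hpI : p.asIdeal = I := by
    have h1 : b z = Spec.map (CommRingCat.ofHom (Ideal.Quotient.mk I)) (e.hom z) :=
      congrArg (fun f : pullback a.g j.g ⟶ (aff k A).X => f z) he
    rw [hez, hbz] at h1
    have h2 : p = PrimeSpectrum.comap (Ideal.Quotient.mk I)
      (⟨⊥, Ideal.isPrime_bot⟩ : PrimeSpectrum (A ⧸ I)) := h1
    rw [h2]
    change Ideal.comap (Ideal.Quotient.mk I) ⊥ = I
    exact Ideal.mk_ker
  subst hpI
  let ei : (aff k (A ⧸ p.asIdeal)).X ⟶ pullback a.g j.g := e.inv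
  have hei : IsOpenImmersion ei := inferInstanceAs (IsOpenImmersion e.inv)
  have hei2 : ei ≫ b = (cq (k := k) p.asIdeal).g := (Iso.inv_comp_eq e).mpr he
  have hei3 : ∀ y, ei (e.hom y) = y := by
    intro y
    have h1 : (e.hom ≫ e.inv) y = y := by
      rw [e.hom_inv_id]
      rfl
    exact h1
  refine ⟨ei ≫ h0, inferInstance, ?_, ?_⟩
  · rw [Category.assoc, hcond, ← Category.assoc, hei2]
  · intro w hw
    obtain ⟨y, hy⟩ := hr w hw
    refine ⟨e.hom y, ?_⟩
    have h1 : (ei ≫ h0) (e.hom y) = h0 (ei (e.hom y)) := rfl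
    rw [h1, hei3]
    exact hy

end CHA

theorem t_CHA : S_CHA := by
  refine ⟨?_, ?_, ?_, ?_, ?_, ?_⟩
  · intro k _ X x O hx
    exact CHA.exists_chart X x O hx
  · intro k A _ _ _ _ X hX j x
    exact CHA.isDomain_of_chart X hX j x
  · intro k E _ _ n X c c' h
    ext P
    obtain ⟨A, i1, i2, i3, j, ⟨x, hx⟩, -⟩ := CHA.exists_chart X P.1 ⊤ trivial
    have hd : rdim k (ofPt x) = n := by
      have h5 := dim_toPt (k := k) (ofPt x)
      rw [toPt_ofPt] at h5
      rw [← h5, ← dim_map j.g j.comm, hx]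
      exact P.2
    have h1 := CHA.rc_apply E n X j c ⟨ofPt x, hd⟩ P hx
    have h2 := CHA.rc_apply E n X j c' ⟨ofPt x, hd⟩ P hx
    rw [← h1, ← h2, h A j]
  · intro k A _ _ _ _ X W hW a j h w
    exact CHA.notMem X W hW a j h w
  · intro k A _ _ _ _ X W hW a j p hp
    exact CHA.exists_h X W hW a j p hp
  · intro k A E _ _ _ _ _ n X j c p P hP
    exact CHA.rc_apply E n X j c p P hP

end CUB
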