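import Pool.Agent.CUB2.StmtsK

/-!
# CUB2: divisors in charts
-/

set_option autoImplicit false

open CategoryTheory AlgebraicGeometry Limits Polynomial TopologicalSpace

namespace CUB

open Pool.Agent.Lib_helper55.Beil Pool.Agent.Lib_helper66.OneP

namespace DVC

/-- The sum of the divisors of two rational functions is the divisor of the product. -/
lemma isDiv_mul {k : Type} [Field k] {E : Type} [Field E] {i : ℕ} {W X : Var k}
    (a : ClosedIn W X) [IsIntegral W.X] (φ ψ : W.X.functionField) (hφ : φ ≠ 0) (hψ : ψ ≠ 0)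
    (c d : Pts i X →₀ E) (hc : IsDiv a φ c) (hd : IsDiv a ψ d) : IsDiv a (φ * ψ) (c + d) := by
  refine ⟨?_, ?_⟩
  · intro w hw
    refine (Finsupp.add_apply _ _ _).trans ((congrArg₂ (· + ·) (hc.1 w hw) (hd.1 w hw)).trans ?_)
    rw [Scheme.ord_mul hφ hψ]
    push_cast
    rfl
  · intro x hx
    exact (Finsupp.add_apply _ _ _).trans
      ((congrArg₂ (· + ·) (hc.2 x hx) (hd.2 x hx)).trans (add_zero _))

end DVC

theorem t_DVC : M_DVC := by
  intro _ hCHA _
  refine ⟨?_, ?_⟩
  · intro k A E _ _ _ _ _ n X W hW a φ c j hd hP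
    have h1 : resCyc j c = 0 := by
      ext u
      rw [resCyc_apply]
      apply hd.2
      rintro ⟨w, hw⟩
      exact hCHA.2.2.2.1 k A X W hW a j hP w ⟨u.1, hw.symm⟩
    unfold rc
    rw [h1, map_zero]
  · intro k A E _ _ _ _ _ n X W hW a φ c j p h hh hφ hd hcomm hr
    have hres : IsDiv (cq (k := k) p.1.asIdeal) (funMap h φ) (resCyc j c) :=
      isDiv_res a j (cq (k := k) p.1.asIdeal) h hcomm hr φ c hd
    have hψ : funMap h φ ≠ 0 := by
      intro h0
      exact hφ ((map_eq_zero_iff _ (funMap h).hom.injective).mp h0)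
    refine ⟨?_, ?_⟩
    · obtain ⟨α, β, hα, hβ, hαβ⟩ := exists_fnA (k := k) (D := A ⧸ p.1.asIdeal) (funMap h φ) hψ
      obtain ⟨α, rfl⟩ := Ideal.Quotient.mk_surjective α
      obtain ⟨β, rfl⟩ := Ideal.Quotient.mk_surjective β
      exact ⟨α, β, fun h => hα (Ideal.Quotient.eq_zero_iff_mem.mpr h),
        fun h => hβ (Ideal.Quotient.eq_zero_iff_mem.mpr h), hαβ⟩
    · intro x y hx hy hxy dx dy hdx hdy
      have hy' : Ideal.Quotient.mk p.1.asIdeal y ≠ 0 :=
        fun h => hy (Ideal.Quotient.eq_zero_iff_mem.mp h)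
      have h1 := (isDiv_iff p.1 p.2 x hx dx).mpr hdx
      have h2 := (isDiv_iff p.1 p.2 y hy dy).mpr hdy
      have h3 := DVC.isDiv_mul (cq (k := k) p.1.asIdeal) _ _ hψ (fnA_ne_zero (k := k) hy')
        _ _ hres h2
      rw [hxy] at h3
      have h4 : resCyc j c + cyE E n dy = cyE E n dx :=
        isDiv_unique (cq (k := k) p.1.asIdeal) _ _ _ h3 h1
      unfold rc
      rw [eq_sub_of_add_eq h4, ← map_sub, LinearEquiv.symm_apply_apply]

end CUB
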