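import Pool.Agent.CUB2.StmtsK

/-!
# CUB2: module FOV
-/

set_option autoImplicit false

open CategoryTheory AlgebraicGeometry Limits Polynomial TopologicalSpace

namespace CUB

open Pool.Agent.Lib_helper55.Beil Pool.Agent.Lib_helper66.OneP

universe v

namespace FOV

variable {k : Type} [Field k]

/-- A Noetherian quasi-sober space without proper specialisations is finite. -/
lemma finite_of_noeth {T : Type*} [TopologicalSpace T] [NoetherianSpace T] [QuasiSober T]
    (h : ∀ x y : T, x ⤳ y → x = y) : Finite T := by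
  have h1 : (irreducibleComponents T).Finite := NoetherianSpace.finite_irreducibleComponents
  have hinj : Function.Injective (irreducibleComponent : T → Set T) := by
    intro x y hxy
    have hir : IsIrreducible (irreducibleComponent x) := isIrreducible_irreducibleComponent
    have hcl : IsClosed (irreducibleComponent x) := isClosed_irreducibleComponent
    obtain ⟨z, hz⟩ := QuasiSober.sober hir hcl
    have hz' : closure {z} = irreducibleComponent x := hz
    have hx : z ⤳ x := by
      rw [specializes_iff_mem_closure, hz']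
      exact mem_irreducibleComponent
    have hy : z ⤳ y := by
      rw [specializes_iff_mem_closure, hz', hxy]
      exact mem_irreducibleComponent
    rw [← h z x hx, ← h z y hy]
  have h2 : Finite (irreducibleComponents T) := h1
  exact Finite.of_injective (fun x : T => (⟨irreducibleComponent x,
    irreducibleComponent_mem_irreducibleComponents x⟩ : irreducibleComponents T))
    (fun x y hxy => hinj (congrArg Subtype.val hxy))

/-- A fibre without proper specialisations is finite. -/
lemma finite_fibre (W V : Var k) (g : W.X ⟶ V.X) (v : V.X)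
    (h : ∀ x y : W.X, g x = v → g y = v → x ⤳ y → x = y) : (g ⁻¹' {v}).Finite := by
  have hN : NoetherianSpace (g.fiber v) :=
    (g.fiberι v).isEmbedding.isInducing.noetherianSpace
  have hfin : Finite (g.fiber v) := by
    apply finite_of_noeth
    intro x y hxy
    apply (g.fiberι v).isEmbedding.injective
    have hx : g (g.fiberι v x) = v := ((g.fiberHomeo v) x).2
    have hy : g (g.fiberι v y) = v := ((g.fiberHomeo v) y).2
    exact h _ _ hx hy (hxy.map (g.fiberι v).continuous)
  have h2 : Finite (g ⁻¹' {v} : Set W.X) := Finite.of_equiv _ (g.fiberHomeo v).toEquiv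
  exact h2

/-- A restriction of a finite restriction is finite. -/
lemma isFinite_restrict {X Y : Scheme.{0}} (f : X ⟶ Y) {U U' : Y.Opens} (h : U ≤ U')
    (hf : IsFinite (f ∣_ U')) : IsFinite (f ∣_ U) := by
  have h1 : IsPullback (f ⁻¹ᵁ U).ι (f ∣_ U) f U.ι :=
    (isPullback_morphismRestrict f U).flip
  have h2 : IsPullback (f ⁻¹ᵁ U').ι (f ∣_ U') f U'.ι :=
    (isPullback_morphismRestrict f U').flip
  have hle : f ⁻¹ᵁ U ≤ f ⁻¹ᵁ U' := fun x hx => h hx
  have hc : X.homOfLE hle ≫ (f ∣_ U') = (f ∣_ U) ≫ Y.homOfLE h := by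
    rw [← cancel_mono U'.ι, Category.assoc, Category.assoc, Scheme.homOfLE_ι, ← h2.w,
      ← Category.assoc, Scheme.homOfLE_ι, h1.w]
  have h3 : IsPullback (X.homOfLE hle) (f ∣_ U) (f ∣_ U') (Y.homOfLE h) := by
    refine IsPullback.of_right ?_ hc h2
    rw [Scheme.homOfLE_ι, Scheme.homOfLE_ι]
    exact h1
  exact MorphismProperty.of_isPullback h3 hf

/-- Morphisms of affine varieties come from homomorphisms. -/
lemma exists_spm {A B : Type} [CommRing A] [CommRing B] [Algebra k A] [Algebra k B]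
    [Algebra.FiniteType k A] [Algebra.FiniteType k B] (l : (aff k B).X ⟶ (aff k A).X)
    (hl : l ≫ (aff k A).f = (aff k B).f) : ∃ φ : A →ₐ[k] B, spm φ = l := by
  let ψ : CommRingCat.of A ⟶ CommRingCat.of B := Spec.preimage l
  have hψ : Spec.map ψ = l := Spec.map_preimage l
  have h1 : Spec.map ψ ≫ Spec.map (CommRingCat.ofHom (algebraMap k A)) =
      Spec.map (CommRingCat.ofHom (algebraMap k B)) := by
    rw [hψ]
    exact hl
  rw [← Spec.map_comp] at h1
  have h2 := Spec.map_injective h1
  have h3 : ψ.hom.comp (algebraMap k A) = algebraMap k B := by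
    have h4 := congrArg CommRingCat.Hom.hom h2
    exact h4
  refine ⟨{ ψ.hom with commutes' := fun r => congrArg (fun F => F r) h3 }, ?_⟩
  rw [← hψ]
  rfl

/-- Charts for a morphism which is finite over an affine open subset. -/
lemma charts (W V : Var k) (hW : IsIntegral W.X) (hV : IsIntegral V.X) (f : PrMor W V)
    (hgen : f.g (genericPoint W.X) = genericPoint V.X) {B : Type} [CommRing B] [Algebra k B]
    [Algebra.FiniteType k B] (j : OpenIn (aff k B) V)
    (hne : genericPoint V.X ∈ Set.range j.g) (hfin : IsFinite (f.g ∣_ j.g.opensRange)) :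
    ∃ (B₁ : Type) (_ : CommRing B₁) (_ : Algebra k B₁) (_ : Algebra.FiniteType k B₁)
    (φ : B →ₐ[k] B₁) (j₁ : OpenIn (aff k B₁) W),
    j₁.g ≫ f.g = spm φ ≫ j.g ∧ φ.toRingHom.Finite ∧ Function.Injective φ ∧
    ∀ w : W.X, f.g w ∈ Set.range j.g → w ∈ Set.range j₁.g := by
  have hB : IsAffine (aff k B).X := inferInstanceAs (IsAffine (Spec (CommRingCat.of B)))
  have hU : IsAffine (j.g.opensRange).toScheme := isAffineOpen_opensRange j.g
  have hah : IsAffineHom (f.g ∣_ j.g.opensRange) := hfin.toIsAffineHom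
  have haff' : IsAffine (f.g ⁻¹ᵁ j.g.opensRange).toScheme :=
    isAffine_of_isAffineHom (f.g ∣_ j.g.opensRange)
  have haff : IsAffine (openVar W (f.g ⁻¹ᵁ j.g.opensRange)).X := haff'
  obtain ⟨B₁, i1, i2, i3, ⟨s⟩⟩ := exists_aff (openVar W (f.g ⁻¹ᵁ j.g.opensRange))
  let o := openVarIn W (f.g ⁻¹ᵁ j.g.opensRange)
  let j₁ : OpenIn (aff k B₁) W := ⟨s.e.hom ≫ o.g, by rw [Category.assoc, o.comm, s.comm],
    inferInstance⟩
  have hr : Set.range j₁.g = f.g ⁻¹' Set.range j.g := by
    ext w
    constructor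
    · rintro ⟨y, rfl⟩
      have h1 : o.g (s.e.hom y) ∈ Set.range o.g := ⟨_, rfl⟩
      rw [range_openVarIn] at h1
      exact h1
    · intro hw
      have h1 : w ∈ Set.range o.g := by
        rw [range_openVarIn]
        exact hw
      obtain ⟨y, hy⟩ := h1
      refine ⟨s.e.inv y, ?_⟩
      have h2 : s.e.hom (s.e.inv y) = y := s.surj y
      have h3 : j₁.g (s.e.inv y) = o.g (s.e.hom (s.e.inv y)) := rfl
      rw [h3, h2, hy]
  have hr2 : Set.range (j₁.g ≫ f.g) ⊆ Set.range j.g := by
    rintro _ ⟨y, rfl⟩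
    have h1 : j₁.g y ∈ Set.range j₁.g := ⟨y, rfl⟩
    rw [hr] at h1
    exact h1
  let l : (aff k B₁).X ⟶ (aff k B).X := IsOpenImmersion.lift j.g (j₁.g ≫ f.g) hr2
  have hl : l ≫ j.g = j₁.g ≫ f.g := IsOpenImmersion.lift_fac j.g (j₁.g ≫ f.g) hr2
  have hlk : l ≫ (aff k B).f = (aff k B₁).f := by
    rw [← j.comm, ← Category.assoc, hl, Category.assoc, f.comm, j₁.comm]
  have hlfin : IsFinite l := by
    let e : (aff k B₁).X ≅ (f.g ⁻¹ᵁ j.g.opensRange).toScheme := s.e
    have h0 : j₁.g = e.hom ≫ (f.g ⁻¹ᵁ j.g.opensRange).ι := rfl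
    have h1 : e.hom ≫ (f.g ∣_ j.g.opensRange) = l ≫ j.g.isoOpensRange.hom := by
      rw [← cancel_mono (j.g.opensRange).ι, Category.assoc, Category.assoc,
        Scheme.Hom.isoOpensRange_hom_ι, hl, morphismRestrict_ι, h0, Category.assoc]
    have h2 : l = e.hom ≫ (f.g ∣_ j.g.opensRange) ≫ j.g.isoOpensRange.inv := by
      rw [← Category.assoc, h1, Category.assoc, Iso.hom_inv_id, Category.comp_id]
    rw [h2]
    infer_instance
  obtain ⟨φ, hφ⟩ := exists_spm l hlk
  have hcomm : j₁.g ≫ f.g = spm φ ≫ j.g := by rw [hφ, hl]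
  refine ⟨B₁, i1, i2, i3, φ, j₁, hcomm, ?_, ?_, ?_⟩
  · have h1 : IsFinite (Spec.map (CommRingCat.ofHom φ.toRingHom)) := by
      have h2 : IsFinite (spm φ) := by
        rw [hφ]
        exact hlfin
      exact h2
    exact (IsFinite.SpecMap_iff _).mp h1
  · have hgW : genericPoint W.X ∈ Set.range j₁.g := by
      rw [hr]
      change f.g (genericPoint W.X) ∈ Set.range j.g
      rw [hgen]
      exact hne
    obtain ⟨η₁, hη₁⟩ := hgW
    obtain ⟨η, hη⟩ := hne
    have hn1 : Nonempty (aff k B₁).X := ⟨η₁⟩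
    have hn : Nonempty (aff k B).X := ⟨η⟩
    have hi1 : IsIntegral (aff k B₁).X := isIntegral_of_isOpenImmersion j₁.g
    have hi : IsIntegral (aff k B).X := isIntegral_of_isOpenImmersion j.g
    have hi1' : IsIntegral (Spec (CommRingCat.of B₁)) := hi1
    have hi' : IsIntegral (Spec (CommRingCat.of B)) := hi
    have hd1 : IsDomain B₁ := (affine_isIntegral_iff (CommRingCat.of B₁)).mp hi1'
    have hd : IsDomain B := (affine_isIntegral_iff (CommRingCat.of B)).mp hi'
    have e1 : η₁ = genericPoint (aff k B₁).X := by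
      apply j₁.g.isOpenEmbedding.injective
      rw [hη₁, genericPoint_eq_of_isOpenImmersion j₁.g]
    have e2 : η = genericPoint (aff k B).X := by
      apply j.g.isOpenEmbedding.injective
      rw [hη, genericPoint_eq_of_isOpenImmersion j.g]
    have e3 : spm φ η₁ = η := by
      apply j.g.isOpenEmbedding.injective
      have h1 : (j₁.g ≫ f.g) η₁ = (spm φ ≫ j.g) η₁ :=
        congrArg (fun F : (aff k B₁).X ⟶ V.X => F η₁) hcomm
      have h2 : (j₁.g ≫ f.g) η₁ = f.g (j₁.g η₁) := rfl
      have h3 : (spm φ ≫ j.g) η₁ = j.g (spm φ η₁) := rfl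
      rw [← h3, ← h1, h2, hη₁, hgen, hη]
    have e4 : η₁ = (show (aff k B₁).X from
        (⟨⊥, Ideal.isPrime_bot⟩ : PrimeSpectrum B₁)) := by
      rw [e1]
      exact genericPoint_eq_bot_of_affine (CommRingCat.of B₁)
    have e5 : η = (show (aff k B).X from
        (⟨⊥, Ideal.isPrime_bot⟩ : PrimeSpectrum B)) := by
      rw [e2]
      exact genericPoint_eq_bot_of_affine (CommRingCat.of B)
    rw [e4, e5] at e3
    have e6 : PrimeSpectrum.comap φ.toRingHom (⟨⊥, Ideal.isPrime_bot⟩ : PrimeSpectrum B₁) =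
        (⟨⊥, Ideal.isPrime_bot⟩ : PrimeSpectrum B) := e3
    have e7 : RingHom.ker φ.toRingHom = ⊥ := congrArg PrimeSpectrum.asIdeal e6
    exact (RingHom.injective_iff_ker_eq_bot φ.toRingHom).mpr e7
  · intro w hw
    rw [hr]
    exact hw

end FOV

theorem t_FOV : M_FOV.{v} := by
  intro hPFC hDST hCHA k _ n W V hW hV f v hdW hdV hgen hv
  have hfib : ∀ w : W.X, f.g w = v → W.dim w = n := by
    intro w hw
    have h1 : V.dim (f.g w) ≤ W.dim w := hPFC.1 k W V f.g f.comm w
    rw [hw, hv] at h1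
    have hne : genericPoint W.X ≠ w := by
      intro h2
      rw [← h2, hgen] at hw
      rw [← hw, hdV] at hv
      have h3 : n + 1 = n := Nat.cast_injective (R := Cardinal) hv
      omega
    have h2 := hDST.1 k W (genericPoint W.X) w (genericPoint_specializes w) hne
    rw [hdW] at h2
    obtain ⟨m, hm⟩ := hDST.2.1 k W w
    rw [hm] at h1 h2 ⊢
    have h3 : n ≤ m := by exact_mod_cast h1
    have h4 : m < n + 1 := by exact_mod_cast h2
    have h5 : m = n := by omega
    rw [h5]
  have hfin : (f.g ⁻¹' {v}).Finite := by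
    apply FOV.finite_fibre
    intro x y hx hy hxy
    by_contra hne
    have h1 := hDST.1 k W x y hxy hne
    rw [hfib x hx, hfib y hy] at h1
    exact lt_irrefl _ h1
  obtain ⟨O, hvO, hO⟩ := exists_isFinite_morphismRestrict_of_finite_preimage_singleton f.g v hfin
  obtain ⟨B, i1, i2, i3, j, hvj, hjO⟩ := hCHA.1 k V v O hvO
  have hgV : genericPoint V.X ∈ Set.range j.g :=
    (genericPoint_specializes v).mem_open j.g.isOpenEmbedding.isOpen_range hvj
  have hle : j.g.opensRange ≤ O := fun x hx => hjO hx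
  obtain ⟨B₁, i4, i5, i6, φ, j₁, h1, h2, h3, h4⟩ := FOV.charts W V hW hV f hgen j hgV
    (FOV.isFinite_restrict f.g hle hO)
  exact ⟨B, B₁, i1, i4, i2, i5, i3, i6, φ, j, j₁, h1, h2, h3, hvj, h4⟩

end CUB
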