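import Pool.Agent.CUB2.StmtsK

/-!
# CUB2, module PUSHD: push-forward of the divisor of a rational function
-/

set_option autoImplicit false

open CategoryTheory AlgebraicGeometry Limits Polynomial TopologicalSpace

namespace CUB

open Pool.Agent.Lib_helper55.Beil Pool.Agent.Lib_helper66.OneP

universe v

namespace PUSHD

/-! ## Maps of function fields -/

/-- the map of function fields of a dominant morphism -/
noncomputable def fm {W V : Scheme.{0}} [IsIntegral W] [IsIntegral V] (f : W ⟶ V)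
    (h : f (genericPoint W) = genericPoint V) : V.functionField ⟶ W.functionField :=
  V.presheaf.stalkSpecializes (specializes_of_eq h) ≫ f.stalkMap (genericPoint W)

lemma fm_open {W V : Scheme.{0}} [IsIntegral W] [IsIntegral V] (f : W ⟶ V) [IsOpenImmersion f] :
    fm f (genericPoint_eq_of_isOpenImmersion f) = funMap f := rfl

lemma fm_comp {A B C : Scheme.{0}} [IsIntegral A] [IsIntegral B] [IsIntegral C] (g : A ⟶ B)
    (h : B ⟶ C) (hg : g (genericPoint A) = genericPoint B)
    (hh : h (genericPoint B) = genericPoint C) (hgh : (g ≫ h) (genericPoint A) = genericPoint C) :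
    fm (g ≫ h) hgh = fm h hh ≫ fm g hg := by
  unfold fm
  rw [Scheme.Hom.stalkMap_comp, Category.assoc,
    ← Scheme.Hom.stalkSpecializes_stalkMap_assoc h _ _ (specializes_of_eq hg),
    TopCat.Presheaf.stalkSpecializes_comp_assoc]
  rfl

lemma fm_congr {A B : Scheme.{0}} [IsIntegral A] [IsIntegral B] (g h : A ⟶ B) (e : g = h)
    (hg : g (genericPoint A) = genericPoint B) (hh : h (genericPoint A) = genericPoint B) :
    fm g hg = fm h hh := by
  subst e
  rfl

section Aff0

variable {R S : CommRingCat.{0}} [IsDomain R] [IsDomain S]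

/-- functions as elements of the function field -/
noncomputable def fnR (R : CommRingCat.{0}) [IsDomain R] : R →+* (Spec R).functionField :=
  algebraMap R (Spec R).functionField

lemma fnR_apply (b : R) : fnR R b = fn b := rfl

lemma fm_fn (φ : R ⟶ S) (h : Spec.map φ (genericPoint (Spec S)) = genericPoint (Spec R)) (b : R) :
    fm (Spec.map φ) h (fn b) = fn (φ b) := by
  have h1 := congrArg (fun g => g.hom b) (StructureSheaf.toStalk_stalkSpecializes (R := R)
    (x := Spec.map φ (genericPoint (Spec S))) (y := genericPoint (Spec R)) (specializes_of_eq h))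
  have h2 := stalkMap_toStalk_apply φ (genericPoint (Spec S)) b
  exact (congrArg ((Spec.map φ).stalkMap (genericPoint (Spec S))).hom h1).trans h2

end Aff0

section Aff

variable {k : Type} [Field k] {B D : Type} [CommRing B] [CommRing D] [IsDomain B] [IsDomain D]
  [Algebra k B] [Algebra k D] [Algebra.FiniteType k B] [Algebra.FiniteType k D]

variable (k B) in
/-- functions as elements of the function field -/
noncomputable def fnH : B →+* (aff k B).X.functionField := fnR (CommRingCat.of B)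

lemma fnH_apply (b : B) : fnH k B b = fnA k b := rfl

lemma fm_fnA (φ : B →ₐ[k] D) (h : spm φ (genericPoint (aff k D).X) = genericPoint (aff k B).X)
    (b : B) : fm (spm φ) h (fnA k b) = fnA k (φ b) := by
  exact fm_fn (R := CommRingCat.of B) (S := CommRingCat.of D) (CommRingCat.ofHom φ.toRingHom) h b

end Aff

section Chart

variable {k : Type} [Field k] {B : Type} [CommRing B] [IsDomain B] [Algebra k B]
  [Algebra.FiniteType k B] {V : Var k} [AlgebraicGeometry.IsIntegral V.X]

/-- the functions on a chart as rational functions -/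
noncomputable def be (j : OpenIn (aff k B) V) : B →+* V.X.functionField :=
  (inv (funMap j.g)).hom.comp (fnH k B)

lemma funMap_be (j : OpenIn (aff k B) V) (b : B) : (funMap j.g).hom (be j b) = fnA k b := by
  have h : inv (funMap j.g) ≫ funMap j.g = 𝟙 _ := IsIso.inv_hom_id _
  exact congrArg (fun g => g.hom (fnH k B b)) h

lemma funMap_inj (j : OpenIn (aff k B) V) : Function.Injective (funMap j.g).hom :=
  (funMap j.g).hom.injective

lemma be_inj (j : OpenIn (aff k B) V) : Function.Injective (be j) := by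
  intro a b h
  have h1 := congrArg (funMap j.g).hom h
  rw [funMap_be, funMap_be] at h1
  exact fn_injective (R := CommRingCat.of B) h1

lemma be_frac (j : OpenIn (aff k B) V) (z : V.X.functionField) (hz : z ≠ 0) :
    ∃ x y : B, x ≠ 0 ∧ y ≠ 0 ∧ z * be j y = be j x := by
  have h0 : (funMap j.g).hom z ≠ 0 := (map_ne_zero_iff _ (funMap_inj j)).mpr hz
  obtain ⟨x, y, hx, hy, h⟩ := exists_fnA (k := k) (D := B) ((funMap j.g).hom z) h0
  refine ⟨x, y, hx, hy, funMap_inj j ?_⟩
  rw [map_mul, funMap_be, funMap_be]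
  exact h

end Chart

section Two

variable {k : Type} [Field k] {B D : Type} [CommRing B] [CommRing D] [IsDomain B] [IsDomain D]
  [Algebra k B] [Algebra k D] [Algebra.FiniteType k B] [Algebra.FiniteType k D] {V W : Var k}
  [AlgebraicGeometry.IsIntegral V.X] [AlgebraicGeometry.IsIntegral W.X] (f : W.X ⟶ V.X)
  (hf : f (genericPoint W.X) = genericPoint V.X) (φ : B →ₐ[k] D) (j : OpenIn (aff k B) V)
  (j₁ : OpenIn (aff k D) W) (hc : j₁.g ≫ f = spm φ ≫ j.g)

include hc in
lemma fm_be (b : B) : (fm f hf).hom (be j b) = be j₁ (φ b) := by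
  have hj := genericPoint_eq_of_isOpenImmersion j.g
  have hj₁ := genericPoint_eq_of_isOpenImmersion j₁.g
  have h1 : (j₁.g ≫ f) (genericPoint (aff k D).X) = genericPoint V.X := by
    rw [Scheme.Hom.comp_apply, hj₁, hf]
  have h2 : (spm φ) (genericPoint (aff k D).X) = genericPoint (aff k B).X := by
    apply openIn_injective j
    rw [hj, ← Scheme.Hom.comp_apply, ← hc, h1]
  have h3 : (spm φ ≫ j.g) (genericPoint (aff k D).X) = genericPoint V.X := by
    rw [← hc, h1]
  have e1 := fm_comp j₁.g f hj₁ hf h1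
  have e2 := fm_comp (spm φ) j.g h2 hj h3
  have e3 := fm_congr _ _ hc h1 h3
  apply funMap_inj j₁
  rw [funMap_be]
  have e4 : fm f hf ≫ funMap j₁.g = funMap j.g ≫ fm (spm φ) h2 := by
    rw [← fm_open, ← fm_open, ← e1, e3, e2]
  have e5 := congrArg (fun g => g.hom (be j b)) e4
  refine e5.trans ?_
  refine (congrArg (fm (spm φ) h2).hom (funMap_be j b)).trans ?_
  exact fm_fnA φ h2 b

end Two

section Alg

variable {k : Type} [Field k] {B D F L : Type} [CommRing B] [CommRing D] [IsDomain B] [IsDomain D]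
  [Algebra k B] [Algebra k D] [Algebra.FiniteType k B] [Algebra.FiniteType k D] [Field F] [Field L]
  (β : B →+* F) (β₁ : D →+* L) (ι : F →+* L) (φ : B →ₐ[k] D)

omit [IsDomain B] in
lemma frac_of (hβ : Function.Injective β)
    (h : ∀ z : F, z ≠ 0 → ∃ x y : B, x ≠ 0 ∧ y ≠ 0 ∧ z * β y = β x) :
    @IsFractionRing B _ F _ β.toAlgebra := by
  let : Algebra B F := β.toAlgebra
  have : FaithfulSMul B F := (faithfulSMul_iff_algebraMap_injective B F).mpr hβ
  apply IsFractionRing.of_field
  intro z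
  by_cases hz : z = 0
  · exact ⟨0, 1, by rw [hz, map_zero, zero_div]⟩
  · obtain ⟨x, y, -, hy, h1⟩ := h z hz
    refine ⟨x, y, ?_⟩
    have hy' : algebraMap B F y ≠ 0 := (map_ne_zero_iff _ hβ).mpr hy
    rw [eq_div_iff hy']
    exact h1

omit [Algebra.FiniteType k B] [Algebra.FiniteType k D] in
include β β₁ in
theorem fin_alg (hβ : Function.Injective β) (hβ₁ : Function.Injective β₁)
    (h : ∀ z : F, z ≠ 0 → ∃ x y : B, x ≠ 0 ∧ y ≠ 0 ∧ z * β y = β x)
    (h₁ : ∀ z : L, z ≠ 0 → ∃ x y : D, x ≠ 0 ∧ y ≠ 0 ∧ z * β₁ y = β₁ x)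
    (hc : ∀ b, ι (β b) = β₁ (φ b)) (hfin : φ.toRingHom.Finite) :
    @Module.Finite F L _ _ ι.toAlgebra.toModule := by
  let : Algebra B F := β.toAlgebra
  let : Algebra D L := β₁.toAlgebra
  let : Algebra F L := ι.toAlgebra
  let : Algebra B D := φ.toRingHom.toAlgebra
  let : Algebra B L := (β₁.comp φ.toRingHom).toAlgebra
  have t1 : IsScalarTower B D L := IsScalarTower.of_algebraMap_eq' rfl
  have t2 : IsScalarTower B F L := IsScalarTower.of_algebraMap_eq fun b => (hc b).symm
  have f1 : IsFractionRing B F := frac_of β hβ h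
  have f2 : IsFractionRing D L := frac_of β₁ hβ₁ h₁
  have f3 : Module.Finite B D := hfin
  have hinj : Function.Injective (algebraMap B D) := by
    intro a b hab
    apply hβ
    apply ι.injective
    rw [hc, hc]
    exact congrArg β₁ hab
  have f4 : FaithfulSMul B D := (faithfulSMul_iff_algebraMap_injective B D).mpr hinj
  have f5 : Algebra.IsAlgebraic B D := inferInstance
  exact Module.Finite.of_isLocalizedModule (nonZeroDivisors B) (Rₚ := F)
    (IsScalarTower.toAlgHom B D L).toLinearMap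

theorem npu_alg (hNPU : S_NPU) (hβ : Function.Injective β) (hβ₁ : Function.Injective β₁)
    (h : ∀ z : F, z ≠ 0 → ∃ x y : B, x ≠ 0 ∧ y ≠ 0 ∧ z * β y = β x)
    (h₁ : ∀ z : L, z ≠ 0 → ∃ x y : D, x ≠ 0 ∧ y ≠ 0 ∧ z * β₁ y = β₁ x)
    (hc : ∀ b, ι (β b) = β₁ (φ b)) (hfin : φ.toRingHom.Finite) (n : ℕ)
    (p : RP k B n) (S : Finset (RP k D n)) (htr : Algebra.trdeg k B = (n + 1 : ℕ))
    (hS : ∀ P : RP k D n, P ∈ S ↔ PrimeSpectrum.comap φ.toRingHom P.1 = p.1)
    (x : D) (b c : B) (hx : x ≠ 0) (hb : b ≠ 0) (hc0 : c ≠ 0)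
    (hn : @Algebra.norm F L _ _ ι.toAlgebra (β₁ x) * β c = β b) :
    ∑ P ∈ S, rdeg φ.toRingHom P.1 * len (Ideal.span {x}) P.1 + len (Ideal.span {c}) p.1 =
      len (Ideal.span {b}) p.1 := by
  let : Algebra B F := β.toAlgebra
  let : Algebra D L := β₁.toAlgebra
  let : Algebra F L := ι.toAlgebra
  let : Algebra B D := φ.toRingHom.toAlgebra
  let : Algebra B L := (β₁.comp φ.toRingHom).toAlgebra
  have t0 : IsScalarTower k B D := IsScalarTower.of_algebraMap_eq fun r => (φ.commutes r).symm
  have t1 : IsScalarTower B D L := IsScalarTower.of_algebraMap_eq' rfl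
  have t2 : IsScalarTower B F L := IsScalarTower.of_algebraMap_eq fun b => (hc b).symm
  have f1 : IsFractionRing B F := frac_of β hβ h
  have f2 : IsFractionRing D L := frac_of β₁ hβ₁ h₁
  have f3 : Module.Finite B D := hfin
  have f4 : Module.Finite F L := fin_alg β β₁ ι φ hβ hβ₁ h h₁ hc hfin
  exact hNPU k B D F L n p S htr hS x b c hx hb hc0 hn

end Alg

section Ord

variable {k : Type} [Field k] {B : Type} [CommRing B] [IsDomain B] [Algebra k B]
  [Algebra.FiniteType k B] {V : Var k} [AlgebraicGeometry.IsIntegral V.X]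

lemma trdeg_chart (j : OpenIn (aff k B) V) : Algebra.trdeg k B = V.dim (genericPoint V.X) := by
  rw [← dim_generic_aff, ← dim_map j.g j.comm, genericPoint_eq_of_isOpenImmersion j.g]

lemma ord_chart (j : OpenIn (aff k B) V) {n : ℕ} (htr : Algebra.trdeg k B = (n + 1 : ℕ))
    (p : RP k B n) (z : V.X.functionField) (hz : z ≠ 0) (x y : B) (hx : x ≠ 0) (hy : y ≠ 0)
    (h : z * be j y = be j x) :
    Scheme.ord z (j.g (toPt p.1)) = (len (Ideal.span {x}) p.1 : ℤ) - len (Ideal.span {y}) p.1 := by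
  have h1 : (funMap j.g).hom z * fnA k y = fnA k x := by
    rw [← funMap_be j y, ← funMap_be j x, ← map_mul, h]
  have hz' : (funMap j.g).hom z ≠ 0 := (map_ne_zero_iff _ (funMap_inj j)).mpr hz
  have h2 := Scheme.ord_mul hz' (fnA_ne_zero (k := k) hy) (x := (toPt p.1 : (aff k B).X))
  rw [h1, ord_fnA htr x hx (toPt p.1) p.2, ord_fnA htr y hy (toPt p.1) p.2] at h2
  have h3 := ord_funMap j.g z (toPt p.1)
  have h4 : Scheme.ord ((funMap j.g).hom z) (toPt p.1) = Scheme.ord z (j.g (toPt p.1)) := h3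
  rw [h4] at h2
  have h5 : (len (Ideal.span {x}) p.1 : ℤ) =
    Scheme.ord z (j.g (toPt p.1)) + (len (Ideal.span {y}) p.1 : ℤ) := h2
  rw [h5]
  ring

lemma len_mul (hLENC : S_LENC) {n : ℕ} (htr : Algebra.trdeg k B = (n + 1 : ℕ)) (p : RP k B n)
    (a b : B) (ha : a ≠ 0) (hb : b ≠ 0) : len (Ideal.span {a * b}) p.1 =
      len (Ideal.span {a}) p.1 + len (Ideal.span {b}) p.1 := by
  let q : PrimeSpectrum B := ⟨⊥, Ideal.isPrime_bot⟩
  have hq : rdim k q = (n + 1 : ℕ) := by
    rw [← htr]
    exact (AlgEquiv.quotientBot k B).trdeg_eq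
  have h := (hLENC k B n ⟨q, hq⟩ p).1 a b ha hb
  have e : ∀ I : Ideal B, q.asIdeal ⊔ I = I := fun I => bot_sup_eq I
  rw [e, e, e] at h
  exact h

end Ord

end PUSHD

open PUSHD in
theorem t_PUSHD : M_PUSHD.{v} := by
  intro hPFC hDST hDIM1 hLENC hDVX hCHA hDVC hRDG hNPU hFOV k E _ _ n W V hW hV f φ c hdW hdV hfg
    hφ hdiv
  classical
  rcases isEmpty_or_nonempty (Pts n V) with hemp | ⟨⟨v₀⟩⟩
  · have h0 : pfc E n f c = 0 := by
      ext y
      exact (hemp.false y).elim
    rw [h0]
    exact zero_mem _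
  -- the norm
  let ι : V.X.functionField →+* W.X.functionField := (fm f.g hfg).hom
  let aι : Algebra V.X.functionField W.X.functionField := ι.toAlgebra
  -- the chart at a point
  have key : ∀ y : Pts n V, Module.Finite V.X.functionField W.X.functionField ∧
      ∀ d : Pts n V →₀ E, IsDiv (idIn V) (Algebra.norm V.X.functionField φ) d →
        pfc E n f c y = d y := by
    intro y
    obtain ⟨B, D, iB, iD, aB, aD, fB, fD, ψ, j, j₁, hcomm, hfin, hinj, hv, hpre⟩ :=
      hFOV k n W V hW hV f y.1 hdW hdV hfg y.2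
    obtain ⟨b₀, hb₀⟩ := hv
    have dB : IsDomain B := hCHA.2.1 k B V hV j b₀
    have hgV : genericPoint V.X ∈ Set.range j.g := by
      have h1 : genericPoint V.X ⤳ j.g b₀ := genericPoint_specializes _
      exact h1.mem_open j.g.isOpenEmbedding.isOpen_range ⟨b₀, rfl⟩
    obtain ⟨d₀, hd₀⟩ := hpre (genericPoint W.X) (by rw [hfg]; exact hgV)
    have dD : IsDomain D := hCHA.2.1 k D W hW j₁ d₀
    have hc0 : ∀ b, ι (be j b) = be j₁ (ψ b) := fm_be f.g hfg ψ j j₁ hcomm
    have hF : Module.Finite V.X.functionField W.X.functionField :=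
      fin_alg (be j) (be j₁) ι ψ (be_inj j) (be_inj j₁) (be_frac j) (be_frac j₁) hc0 hfin
    refine ⟨hF, fun d hd => ?_⟩
    have hcomm' : ∀ P : PrimeSpectrum D,
        f.g (j₁.g (toPt P)) = j.g (toPt (PrimeSpectrum.comap ψ.toRingHom P)) := fun P => by
      have h1 := congrArg (fun g : (aff k D).X ⟶ V.X => g (toPt P)) hcomm
      exact h1
    -- the prime of the point
    have hp : rdim k (ofPt b₀) = n := by
      rw [← dim_toPt, toPt_ofPt, ← dim_map j.g j.comm, hb₀]
      exact y.2
    let p : RP k B n := ⟨ofPt b₀, hp⟩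
    have hpy : j.g (toPt p.1) = y.1 := hb₀
    have htrB : Algebra.trdeg k B = (n + 1 : ℕ) := (trdeg_chart j).trans hdV
    have htrD : Algebra.trdeg k D = (n + 1 : ℕ) := (trdeg_chart j₁).trans hdW
    -- the fibre
    have hSfin : {P : RP k D n | PrimeSpectrum.comap ψ.toRingHom P.1 = p.1}.Finite := by
      let aBD : Algebra B D := ψ.toRingHom.toAlgebra
      have : Module.Finite B D := hfin
      have h1 := Algebra.QuasiFinite.finite_comap_preimage_singleton (R := B) (S := D) p.1
      exact Set.Finite.preimage Subtype.val_injective.injOn h1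
    let S : Finset (RP k D n) := hSfin.toFinset
    have hS : ∀ P : RP k D n, P ∈ S ↔ PrimeSpectrum.comap ψ.toRingHom P.1 = p.1 := fun P => by
      rw [Set.Finite.mem_toFinset]
      exact Iff.rfl
    -- fractions
    obtain ⟨x, y', hx, hy', hxy⟩ := be_frac j₁ φ hφ
    have hbx : be j₁ x ≠ 0 := (map_ne_zero_iff _ (be_inj j₁)).mpr hx
    have hby : be j₁ y' ≠ 0 := (map_ne_zero_iff _ (be_inj j₁)).mpr hy'
    have hN : Algebra.norm V.X.functionField φ ≠ 0 := Algebra.norm_ne_zero_iff.mpr hφ
    have hNx : Algebra.norm V.X.functionField (be j₁ x) ≠ 0 := Algebra.norm_ne_zero_iff.mpr hbx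
    have hNy : Algebra.norm V.X.functionField (be j₁ y') ≠ 0 := Algebra.norm_ne_zero_iff.mpr hby
    obtain ⟨b, c', hb, hc', hbc⟩ := be_frac j _ hNx
    obtain ⟨b', c'', hb', hc'', hbc'⟩ := be_frac j _ hNy
    have hNN : Algebra.norm V.X.functionField φ * be j (b' * c') = be j (b * c'') := by
      have h1 : Algebra.norm V.X.functionField φ * Algebra.norm V.X.functionField (be j₁ y') =
          Algebra.norm V.X.functionField (be j₁ x) := by rw [← map_mul, hxy]
      rw [map_mul, map_mul, ← hbc, ← hbc', ← h1]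
      ring
    have e1 := npu_alg (be j) (be j₁) ι ψ hNPU (be_inj j) (be_inj j₁) (be_frac j) (be_frac j₁) hc0
      hfin n p S htrB hS x b c' hx hb hc' hbc
    have e2 := npu_alg (be j) (be j₁) ι ψ hNPU (be_inj j) (be_inj j₁) (be_frac j) (be_frac j₁) hc0
      hfin n p S htrB hS y' b' c'' hy' hb' hc'' hbc'
    have e3 := ord_chart j htrB p _ hN (b * c'') (b' * c') (mul_ne_zero hb hc'')
      (mul_ne_zero hb' hc') hNN
    rw [len_mul hLENC htrB p b c'' hb hc'', len_mul hLENC htrB p b' c' hb' hc'] at e3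
    -- the value of `d`
    have hdy : d y = ((Scheme.ord (Algebra.norm V.X.functionField φ) (j.g (toPt p.1)) : ℤ) : E) := by
      have h1 := hd.1 (j.g (toPt p.1)) (by
        change V.dim (j.g (toPt p.1)) = n
        rw [hpy]
        exact y.2)
      rw [← h1]
      congr 1
      exact Subtype.ext hpy.symm
    -- the points over `y`
    have hwd : ∀ P : RP k D n, W.dim (j₁.g (toPt P.1)) = n := fun P => by
      rw [dim_map j₁.g j₁.comm, dim_toPt]
      exact P.2
    let w : RP k D n → Pts n W := fun P => ⟨j₁.g (toPt P.1), hwd P⟩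
    have hw : Function.Injective w := by
      intro P P' h
      have h1 : j₁.g (toPt P.1) = j₁.g (toPt P'.1) := congrArg Subtype.val h
      exact Subtype.ext (openIn_injective j₁ h1)
    have hcw : ∀ P : RP k D n, c (w P) = (len (Ideal.span {x}) P.1 : E) - len (Ideal.span {y'}) P.1 := by
      intro P
      have h1 := hdiv.1 (j₁.g (toPt P.1)) (hwd P)
      have h2 : c (w P) = ((Scheme.ord φ (j₁.g (toPt P.1)) : ℤ) : E) := h1
      rw [h2, ord_chart j₁ htrD P φ hφ x y' hx hy' hxy]
      push_cast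
      rfl
    let F : Pts n W → E := fun x => c x * (if f.g x.1 = y.1 then (f.deg x.1 : E) else 0)
    have hsum : pfc E n f c y = ∑ P ∈ S, F (w P) := by
      rw [hPFC.2.2.2.2.2 k E n W V f c y]
      have h0 : (c.sum fun x e => e * (if f.g x.1 = y.1 then (f.deg x.1 : E) else 0)) =
          ∑ x ∈ c.support, F x := rfl
      have h9 : ∑ P ∈ S, F (w P) = ∑ x ∈ S.map ⟨w, hw⟩, F x := (Finset.sum_map S ⟨w, hw⟩ F).symm
      rw [h0, h9]
      have h1 : ∑ x ∈ c.support, F x = ∑ x ∈ c.support ∪ S.map ⟨w, hw⟩, F x := by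
        refine Finset.sum_subset Finset.subset_union_left fun x _ hx => ?_
        change c x * _ = 0
        rw [Finsupp.notMem_support_iff.mp hx, zero_mul]
      have h2 : ∑ x ∈ S.map ⟨w, hw⟩, F x = ∑ x ∈ c.support ∪ S.map ⟨w, hw⟩, F x := by
        refine Finset.sum_subset Finset.subset_union_right fun x _ hx => ?_
        change c x * (if f.g x.1 = y.1 then (f.deg x.1 : E) else 0) = 0
        rw [if_neg, mul_zero]
        intro hxy
        apply hx
        obtain ⟨q, hq⟩ := hpre x.1 (by rw [hxy]; exact ⟨b₀, hb₀⟩)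
        have hqn : rdim k (ofPt q) = n := by
          rw [← dim_toPt, toPt_ofPt, ← dim_map j₁.g j₁.comm, hq]
          exact x.2
        rw [Finset.mem_map]
        refine ⟨⟨ofPt q, hqn⟩, ?_, Subtype.ext hq⟩
        rw [hS]
        have h3 := hcomm' (ofPt q)
        rw [toPt_ofPt, hq, hxy, ← hpy] at h3
        exact (openIn_injective j h3).symm
      rw [h1, h2]
    have hFw : ∀ P ∈ S, F (w P) = ((len (Ideal.span {x}) P.1 : E) - len (Ideal.span {y'}) P.1) *
        (rdeg ψ.toRingHom P.1 : E) := by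
      intro P hP
      change c (w P) * (if f.g (j₁.g (toPt P.1)) = y.1 then (f.deg (j₁.g (toPt P.1)) : E) else 0) = _
      rw [hcw, if_pos, hRDG k B D ψ V W f j j₁ hcomm P.1]
      rw [hcomm', (hS P).mp hP, hpy]
    rw [hsum, Finset.sum_congr rfl hFw, hdy, e3]
    have e1' := congrArg (Nat.cast : ℕ → E) e1
    have e2' := congrArg (Nat.cast : ℕ → E) e2
    push_cast at e1' e2' ⊢
    have h3 : ∑ P ∈ S, ((len (Ideal.span {x}) P.1 : E) - len (Ideal.span {y'}) P.1) *
        (rdeg ψ.toRingHom P.1 : E) =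
        ∑ P ∈ S, (rdeg ψ.toRingHom P.1 : E) * len (Ideal.span {x}) P.1 -
          ∑ P ∈ S, (rdeg ψ.toRingHom P.1 : E) * len (Ideal.span {y'}) P.1 := by
      rw [← Finset.sum_sub_distrib]
      refine Finset.sum_congr rfl fun P _ => ?_
      ring
    rw [h3]
    linear_combination e1' - e2'
  have hF := (key v₀).1
  have hN : Algebra.norm V.X.functionField φ ≠ 0 := Algebra.norm_ne_zero_iff.mpr hφ
  obtain ⟨d, hd⟩ := exists_div (E := E) (i := n) (idIn V) (Algebra.norm V.X.functionField φ) hN
  have hpd : pfc E n f c = d := by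
    ext y
    exact (key y).2 d hd
  rw [hpd]
  exact Submodule.subset_span ⟨V, hV, idIn V, _, hdV, hN, hd⟩

end CUB
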