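import Pool.Agent.CUB2.Defs5

/-!
# CUB2, block H: homology (statements)

Module `X` proves `theorem t_X : M_X` (or `t_X : S_X` if there is no `M_X`) in the namespace `CUB`, in the file
`Pool/Agent/CUB2/H_X.lean`, importing this file.  The hypotheses of `M_X` are statements of other modules.
Useful: `(T i).InjC X` (cycle form of injectivity, `Homology.inj_iff`), `ptsMap`, `ratZero_map`, `Homology.push_linComb` (Lib_helper55/Beil/Inj), `clz` (= `OneP.cls`; in the comments `cls` is `clz`),
`pushCyc`, `push_cls`, `res_cls`, `exists_cls` (Lib_helper66/OneP/Full), `resCyc`, `resCyc_ratZero`, `exists_ratZero`, `exists_isDiv` (OneP/Loc), `closedVar`, `openVar`, `dim_map`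
(Beil/Geom), `closedVarMap`, `liftC`, `factorC` (Beil/Geom2), `clMap_mk` (Beil/Surj), the maximal generalised eigenspace tools in Beil/LinAlg and Beil/Surj.
-/

set_option autoImplicit false

open CategoryTheory AlgebraicGeometry Limits Polynomial TopologicalSpace

namespace CUB

open Pool.Agent.Lib_helper55.Beil Pool.Agent.Lib_helper66.OneP

universe v

/-! ## 1. Push-forward of cycles -/

/-- PFC. Push-forward of cycles. `pfPt E i f x` is `deg(x) · f(x)` if `f(x)` has dimension `i`, and `0` otherwise. (1) the residue field of `f(x)` embeds in that of `x` over `k`, so the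
transcendence degree does not increase. (2) functoriality: for a point `x` of dimension `i`, `y = f x`, `z = g y`: `dim z ≤ dim y ≤ i`; if `dim z = i` then `dim y = i` and the degrees are multiplicative (`Module.finrank_mul_finrank`, no finiteness needed for fields); otherwise both sides are zero. Only the underlying morphisms matter.
(3) for a closed immersion the residue fields agree (`residueFieldMap_bijective` in Beil/Geom), the degree is one. (4) by `pfClasses` and linearity. (5) if no point of the support of `c` has an image of dimension `i` then the push-forward is zero. (6) the value of `pfc f c` at `y` is the sum over the points `x` of the support of `c` over `y`. -/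
def S_PFC : Prop :=
  (∀ (k : Type) [Field k] (X Y : Var k) (g : X.X ⟶ Y.X), g ≫ Y.f = X.f →
    ∀ x : X.X, Y.dim (g x) ≤ X.dim x) ∧
  (∀ (k E : Type) [Field k] [Field E] (i : ℕ) (X Y Z : Var k) (f : PrMor X Y) (g : PrMor Y Z)
    (h : PrMor X Z), f.g ≫ g.g = h.g → ∀ c, pfc E i g (pfc E i f c) = pfc E i h c) ∧
  (∀ (k E : Type) [Field k] [Field E] (i : ℕ) (Z X : Var k) (a : ClosedIn Z X) (f : PrMor Z X),
    f.g = a.g → ∀ c, pfc E i f c = pushCyc a c) ∧
  (∀ (k E : Type) [Field k] [Field E] (T : ∀ i : ℕ, Homology.{v} k E i) (hT : Full T) (i : ℕ)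
    (X Y : Var k) (f : PrMor X Y) (c : Pts i X →₀ E),
    clz (T i) Y (pfc E i f c) = hT.G i (2 * i) f (clz (T i) X c)) ∧
  (∀ (k E : Type) [Field k] [Field E] (i : ℕ) (X Y : Var k) (f : PrMor X Y) (c : Pts i X →₀ E),
    (∀ x, c x ≠ 0 → Y.dim (f.g x.1) ≠ i) → pfc E i f c = 0) ∧
  (∀ (k E : Type) [Field k] [Field E] (i : ℕ) (X Y : Var k) (f : PrMor X Y) (c : Pts i X →₀ E)
    (y : Pts i Y), pfc E i f c y =
      c.sum (fun x e => e * (open Classical in if f.g x.1 = y.1 then (f.deg x.1 : E) else 0)))

/-- DST. Dimensions drop strictly under specialisation. Take a chart `Spec A` (`exists_aff`, `openVar`) around `y`; it contains `x`; `dim_toPt`, `PrimeSpectrum.le_iff_specializes` and S_DIM1 (`CUB/A_DIM1.lean`). (3) the coheight is one: `coheight_eq_one` in CUB/BR3 in a chart, or from (1) and the definition. (4) Mathlib's `IsIntegral` schemes: a closed subvariety of an integral variety `X` of dimension `n` with a point of dimension `n` is everything. -/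
def S_DST : Prop :=
  (∀ (k : Type) [Field k] (X : Var k) (x y : X.X), x ⤳ y → x ≠ y → X.dim y < X.dim x) ∧
  (∀ (k : Type) [Field k] (X : Var k) (x : X.X), ∃ n : ℕ, X.dim x = n) ∧
  (∀ (k : Type) [Field k] (n : ℕ) (X : Var k) (_ : IsIntegral X.X) (x : X.X),
    X.dim (genericPoint X.X) = (n + 1 : ℕ) → X.dim x = n → Order.coheight x = 1) ∧
  ∀ (k : Type) [Field k] (n : ℕ) (X : Var k) (_ : IsIntegral X.X) (x : X.X), X.DimLE n →
    X.dim x = n → x = genericPoint X.X

/-! ## 2. Homology -/

/-- MOD. Modifications. `f : X' → X` proper, an isomorphism over `U = X ∖ Z`, `U' = f⁻¹ U`, `Z' = X' ∖ U'`. Let `cls α = 0`, `α` a cycle on `X`. Let `α'` be the cycle on `X'` with `α' (j' u) = α (j (fU u))` for the points of `U'`, and `0` outside `U'` (`exists_cls`-like; `Finsupp.mapDomain`). Then `α = pfc f α' + pushCyc a β` with `β` on `Z` (the degree of `f` at the points of `U'` is one: at these points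
`f` is an isomorphism on stalks; or: the restriction of `pfc f α'` to `U` is computed with (2), (3), (6) of S_PFC). The restriction to `U` of `cls (pfc f α') = G f (cls α')` is `-` the restriction of `P a (cls β)`, zero, so by `pfRestriction` `G fU (R j' (cls α')) = 0`, and `G fU = P fU.cl` is bijective (`push_viso_bijective` in CUB/BR5), so `R j' (cls α') = 0` and `cls α' = P a' δ₀` (`exact_X`).
`P a (G fZ δ₀ + cls β) = G f (P a' δ₀) + P a (cls β) = cls α = 0`, so `G fZ δ₀ + cls β = B u` (`bdExact`); `u = G fU u'`; `B u = G fZ (B' u')` (`pfBoundary`). Let `δ = δ₀ - B' u'`: `G fZ δ + cls β = 0` and `P a' δ = cls α'` (`P a' (B' u') = 0` by `bdExact`). Let `δ₁` be the component of `δ` in the generalised eigenspace of Frobenius for the eigenvalue `1` (finite-dimensional spaces; the projection is natural for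
maps which commute with Frobenius, see `Beil/Surj`, `Beil/LinAlg`); `cls β` and `cls α'` are invariant under Frobenius, so `G fZ δ₁ + cls β = 0`, `P a' δ₁ = cls α'`. By `Semisimple` and `Surj` for `Z'`: `F δ₁ = δ₁` and `δ₁ = cls ε`. Then `cls (α' - pushCyc a' ε) = 0` and `cls (β + pfc fZ ε) = 0`, so both are in `ratZero`, and `α = pfc f (α' - pushCyc a' ε) + pushCyc a (β + pfc fZ ε)`
is in `ratZero` by the last hypothesis and `ratZero_map`. -/
def S_MOD : Prop := ∀ (k E : Type) [Field k] [Field E] (T : ∀ i : ℕ, Homology.{v} k E i)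
  (_ : Full T) (i : ℕ) (X' X : Var k) (M : Modif X' X),
  (∀ Z : Var k, (T i).Surj Z ∧ (T i).Semisimple Z) → (T i).InjC X' → (T i).InjC M.Z →
  (∀ c ∈ ratZero E i X', pfc E i M.f c ∈ ratZero E i X) → (T i).InjC X

def M_MOD : Prop := S_PFC.{v} → S_MOD.{v}

/-- OPEN. Open subvarieties. `Z` = the reduced complement (`closedVar`). `c` a cycle on `U` with class zero; `c = resCyc j c'`; the class of `c'` restricts to zero, so it is `P a δ`; as in S_MOD replace `δ` by its component `δ₁` for the eigenvalue one; `δ₁ = cls ε`; `c' - pushCyc a ε` has class zero, so it is in `ratZero E i X`, and its restriction `c` is in `ratZero E i U`. (Possibly this is already proved in Lib_helper55/Beil or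
Lib_helper66/OneP.) -/
def S_OPEN : Prop := ∀ (k E : Type) [Field k] [Field E] (i : ℕ) (T : Homology.{v} k E i)
  (U X : Var k) (_ : OpenIn U X), (∀ Z : Var k, T.Surj Z ∧ T.Semisimple Z) → T.InjC X →
  T.InjC U

/-- PUSHR. Push-forward preserves rational equivalence. Span induction: let `c` be a generator: `W` integral of dimension `i + 1`, `a : W → X`, `φ`, `IsDiv a φ c`. `c = pushCyc a d`, `IsDiv (idIn W) φ d` (`exists_div`, `isDiv_unique`, or directly), so `d ∈ ratZero E i W` and `cls d = 0` (`cl_rat`). Let `V` be the closed subvariety of `Y` (reduced, `closedVar`) with underlying set the closure of the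
image of `W`, `b : V → Y`; `V` is integral; `h : W → V` with `h ≫ b = a ≫ f` (`liftC`, since `W` is reduced); `h` is proper (`IsProper.of_comp` or similar, `b` is separated). The generic point of `V` is the image of that of `W`, so `V.DimLE (i + 1)` (S_PFC (1), `dim_le_of_specializes`). `cls (pfc h d) = G h (cls d) = 0`, so `pfc h d ∈ ratZero E i V` by hypothesis. `pfc f c = pfc f (pfc a d) = pfc b (pfc h d)` by S_PFC (2), (3). -/
def S_PUSHR : Prop := ∀ (k E : Type) [Field k] [Field E] (T : ∀ i : ℕ, Homology.{v} k E i)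
  (_ : Full T) (i : ℕ) (X Y : Var k) (f : PrMor X Y),
  (∀ V : Var k, V.DimLE (i + 1) → (T i).InjC V) → ∀ c ∈ ratZero E i X,
  pfc E i f c ∈ ratZero E i Y

def M_PUSHR : Prop := S_PFC.{v} → S_PUSHR.{v}

/-- LPT. The points of a product with the affine line, and of a `P^1`-bundle. The fibre over `x` is the affine line over the residue field of `x`. (1) dimensions. (2), (3) there is exactly one point over `x` of dimension `dim x + 1`, the generic point of the fibre, and it specialises to all points over `x`. For an affine open subset `Spec R` of `X` the product is `Spec R[X]`: see `pX` in CUB/BR5 and S_GX, S_DIM1 (`CUB/A_GX`, `CUB/A_DIM1`).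
(4) For a `PBun`: the points of `P` are those of `U` and those of the section, of the same dimension as their image. -/
def S_LPT : Prop :=
  (∀ (k : Type) [Field k] (Y X : Var k) (L : Line Y X) (y : Y.X), X.dim (L.q y) ≤ Y.dim y ∧
    Y.dim y ≤ X.dim (L.q y) + 1) ∧
  (∀ (k : Type) [Field k] (Y X : Var k) (L : Line Y X) (x : X.X), ∃ y : Y.X, L.q y = x ∧
    Y.dim y = X.dim x + 1 ∧ (∀ y' : Y.X, L.q y' = x → y ⤳ y') ∧
    ∀ y' : Y.X, L.q y' = x → Y.dim y' = X.dim x + 1 → y' = y) ∧
  (∀ (k : Type) [Field k] (P X : Var k) (B : PBun P X) (y : P.X), X.dim (B.p.g y) ≤ P.dim y ∧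
    P.dim y ≤ X.dim (B.p.g y) + 1) ∧
  (∀ (k : Type) [Field k] (P X : Var k) (B : PBun P X) (x : X.X), ∃ y : P.X, B.p.g y = x ∧
    P.dim y = X.dim x + 1 ∧ y ∈ Set.range B.j.g ∧
    ∀ y' : P.X, B.p.g y' = x → P.dim y' = X.dim x + 1 → y' = y)

/-- PCY. Pull-back of cycles. For every point `x` of dimension `i` there is exactly one point `y_x` of dimension `i + 1` over `x`; `d = ∑ c(x) [y_x]` (`Finsupp.mapDomain`). (3) the restriction to `U`. (4) pull-backs have no component in the section or in any closed subset which contains no `y_x`; here: the push-forward to `X` is zero. -/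
def S_PCY : Prop :=
  (∀ (k E : Type) [Field k] [Field E] (i : ℕ) (Y X : Var k) (L : Line Y X) (c : Pts i X →₀ E),
    ∃ d : Pts (i + 1) Y →₀ E, IsPullC L.q c d) ∧
  (∀ (k E : Type) [Field k] [Field E] (i : ℕ) (P X : Var k) (B : PBun P X) (c : Pts i X →₀ E),
    ∃ d : Pts (i + 1) P →₀ E, IsPullC B.p.g c d) ∧
  (∀ (k E : Type) [Field k] [Field E] (i : ℕ) (P X : Var k) (B : PBun P X) (c : Pts i X →₀ E)
    (d : Pts (i + 1) P →₀ E), IsPullC B.p.g c d → IsPullC B.L.q c (resCyc B.j d)) ∧
  (∀ (k E : Type) [Field k] [Field E] (i : ℕ) (P X : Var k) (B : PBun P X) (c : Pts i X →₀ E)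
    (d : Pts (i + 1) P →₀ E), IsPullC B.p.g c d → pfc E (i + 1) B.p d = 0) ∧
  (∀ (k E : Type) [Field k] [Field E] (i : ℕ) (Y X : Var k) (q : Y.X ⟶ X.X)
    (c c' : Pts i X →₀ E) (d d' : Pts (i + 1) Y →₀ E), IsPullC q c d → IsPullC q c' d' →
    (c = c' → d = d') ∧ IsPullC q (c + c') (d + d')) ∧
  (∀ (k E : Type) [Field k] [Field E] (T : ∀ i : ℕ, Homology.{v} k E i) (hT : Extra T) (i : ℕ)
    (Y X : Var k) (L : Line Y X) (c : Pts i X →₀ E) (d : Pts (i + 1) Y →₀ E), IsPullC L.q c d →
    clz (T (i + 1)) Y d = hT.L i (2 * i) L (clz (T i) X c))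

def M_PCY : Prop := S_PFC.{v} → S_LPT → S_PCY.{v}

/-- PULLP. The pull-back to a `P^1`-bundle of a homologically trivial cycle. `R j (cls d) = cls (resCyc j d) = L (cls c) = 0` (S_PCY (3), (6)), so `cls d = P s z`. `G p (P s z) = z` (`pfClosed`, `pfFunctorial`, `push_id`: `s ≫ p = 𝟙`). `G p (cls d) = cls (pfc p d) = 0` (S_PFC (4), S_PCY (4)). So `z = 0`. -/
def S_PULLP : Prop := ∀ (k E : Type) [Field k] [Field E] (T : ∀ i : ℕ, Homology.{v} k E i)
  (_ : Full T) (i : ℕ) (P X : Var k) (B : PBun P X) (c : Pts i X →₀ E)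
  (d : Pts (i + 1) P →₀ E), IsPullC B.p.g c d → clz (T i) X c = 0 → clz (T (i + 1)) P d = 0

def M_PULLP : Prop := S_PFC.{v} → S_PCY.{v} → S_PULLP.{v}

/-- L4. Homotopy invariance: the pull-back `CH_i(X) → CH_(i+1)(X × A^1)` is injective (module L4F in block K). -/
def S_L4 : Prop := ∀ (k E : Type) [Field k] [Finite k] [Field E] [CharZero E] (i : ℕ)
  (Y X : Var k) (L : Line Y X) (c : Pts i X →₀ E) (d : Pts (i + 1) Y →₀ E), IsPullC L.q c d →
  d ∈ ratZero E (i + 1) Y → c ∈ ratZero E i X

/-- DESC. Descent. `P → X` a `P^1`-bundle, `σ` a section, `Y = P ∖ σ(X)`. Let `cls α = 0` on `X`, `d` its pull-back to `P` (S_PCY (2)); `cls d = 0` (S_PULLP). `resCyc j d ∈ ratZero` since its class is zero. `ρ ∈ ratZero E (i + 1) P` with the same restriction to `Y` (`exists_ratZero`); `ρ - d` is supported on `σ(X)`, so `ρ - d = pushCyc σ δ` (`mem_range_ptsMap`). The class of `ρ - d` is zero; apply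
`G p`: `G p (P σ (cls δ)) = cls δ`, so `cls δ = 0` and `δ ∈ ratZero E (i + 1) X` by hypothesis; so `d ∈ ratZero E (i + 1) P`, and `resCyc B.j d ∈ ratZero E (i + 1) B.U`, the pull-back of `α` (S_PCY (3)); use S_L4. -/
def S_DESC : Prop := ∀ (k E : Type) [Field k] [Finite k] [Field E] [CharZero E]
  (T : ∀ i : ℕ, Homology.{v} k E i) (_ : Full T) (i : ℕ) (P X Y : Var k) (B : PBun P X)
  (σ : ClosedIn X P) (j : OpenIn Y P), σ.g ≫ B.p.g = 𝟙 X.X → Complementary σ j →
  (T (i + 1)).InjC X → (T (i + 1)).InjC Y → (T i).InjC X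

def M_DESC : Prop := S_PCY.{v} → S_PULLP.{v} → S_L4 → S_DESC.{v}

/-- REDI. Reduction to integral varieties. Noetherian induction on closed subsets `C` of `X`: `InjC (closedVar X C)`. If `C` is empty there are no cycles. If `C` is irreducible, `closedVar X C` is integral. Otherwise `C = C₁ ∪ C₂`, both smaller: S_MOD for `X' = closedVar C₁ → closedVar C` (closed immersion, `closedVarMap`), `Z = closedVar C₂`, `U` = the complement of `Z`, `U' = f⁻¹ U`, `Z'` = its
complement in `X'`; `U' → U` is an isomorphism: a surjective closed immersion to a reduced scheme (`closedVar` is reduced). The last hypothesis of S_MOD: S_PFC (3) and `ratZero_map`. At the end `closedVar X ⊤` is the reduced subvariety: `injC_of_red`. -/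
def S_REDI : Prop := ∀ (k E : Type) [Field k] [Field E] (T : ∀ i : ℕ, Homology.{v} k E i)
  (_ : Full T) (i : ℕ) (X : Var k), (∀ Z : Var k, (T i).Surj Z ∧ (T i).Semisimple Z) →
  (∀ V : Var k, IsIntegral V.X → ClosedIn V X → (T i).InjC V) → (T i).InjC X

def M_REDI : Prop := S_PFC.{v} → S_MOD.{v} → S_REDI.{v}

/-- P0. Dimension at most `i`. By S_REDI we may assume that `X` is integral (closed subvarieties have smaller dimension, `dim_map`). If the dimension of the generic point is less than `i` there are no cycles. Otherwise a cycle is a multiple `e [X]` of the generic point `ξ` (a point of dimension `i` is the generic point: S_DST (4)). Suppose `e • cl [X] = 0`; restrict to a nonempty affine open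
subvariety `U` (`openVar`): `e • cl [U] = 0`, so `e [U] ∈ ratZero E i U` by hypothesis, and `ratZero E i U = ⊥` (there is no integral closed subvariety of dimension `i + 1`), so `e = 0`. -/
def S_P0 : Prop := ∀ (k E : Type) [Field k] [Field E] (T : ∀ i : ℕ, Homology.{v} k E i)
  (_ : Full T) (i : ℕ), (∀ Z : Var k, (T i).Surj Z ∧ (T i).Semisimple Z) →
  (∀ X : Var k, IsAffine X.X → (T i).InjC X) → ∀ X : Var k, X.DimLE i → (T i).InjC X

def M_P0 : Prop := S_DST → S_REDI.{v} → S_P0.{v}

end CUB
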