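import Pool.Agent.CUB2.L4
import Pool.Agent.CUB2.StmtsH

/-!
# CUB2: the statement `S_L4` (homotopy invariance of rational equivalence)
-/

set_option autoImplicit false

namespace CUB

open Pool.Agent.Lib_helper55.Beil

/-- Homotopy invariance: the pull-back `CH_i(X) → CH_(i+1)(X × A^1)` is injective. -/
theorem s_L4 : S_L4 := by
  intro k E _ _ _ _ i Y X L c d h hd
  exact L4.homotopy L c d h hd

end CUB
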