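import Pool.Agent.CUB2.StmtsL

/-!
# CUB2, LSUM: lengths over a finite extension
-/

set_option autoImplicit false

namespace CUB

namespace LSUM

lemma len_loc_exact {R : Type} [CommRing R] (W : Submonoid R) {N₁ N₂ N₃ : Type}
    [AddCommGroup N₁] [AddCommGroup N₂] [AddCommGroup N₃] [Module R N₁] [Module R N₂]
    [Module R N₃] (f : N₁ →ₗ[R] N₂) (g : N₂ →ₗ[R] N₃) (hf : Function.Injective f)
    (hg : Function.Surjective g) (hfg : Function.Exact f g) :
    Module.length (Localization W) (LocalizedModule W N₂) =
      Module.length (Localization W) (LocalizedModule W N₁) +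
        Module.length (Localization W) (LocalizedModule W N₃) :=
  Module.length_eq_add_of_exact (LocalizedModule.map W f) (LocalizedModule.map W g)
    (IsLocalizedModule.map_injective W (LocalizedModule.mkLinearMap W N₁)
      (LocalizedModule.mkLinearMap W N₂) f hf)
    (IsLocalizedModule.map_surjective W (LocalizedModule.mkLinearMap W N₂)
      (LocalizedModule.mkLinearMap W N₃) g hg)
    (LocalizedModule.map_exact W f g hfg)

lemma len_loc_equiv {R : Type} [CommRing R] (W : Submonoid R) {N₁ N₂ : Type}
    [AddCommGroup N₁] [AddCommGroup N₂] [Module R N₁] [Module R N₂] (e : N₁ ≃ₗ[R] N₂) :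
    Module.length (Localization W) (LocalizedModule W N₁) =
      Module.length (Localization W) (LocalizedModule W N₂) := by
  apply le_antisymm
  · exact Module.length_le_of_injective (LocalizedModule.map W e.toLinearMap)
      (IsLocalizedModule.map_injective W (LocalizedModule.mkLinearMap W N₁)
        (LocalizedModule.mkLinearMap W N₂) e.toLinearMap e.injective)
  · exact Module.length_le_of_injective (LocalizedModule.map W e.symm.toLinearMap)
      (IsLocalizedModule.map_injective W (LocalizedModule.mkLinearMap W N₂)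
        (LocalizedModule.mkLinearMap W N₁) e.symm.toLinearMap e.symm.injective)

lemma len_loc_zero {R : Type} [CommRing R] (W : Submonoid R) {N : Type}
    [AddCommGroup N] [Module R N] (h : ∀ m : N, ∃ r ∈ W, r • m = 0) :
    Module.length (Localization W) (LocalizedModule W N) = 0 := by
  rw [Module.length_eq_zero_iff]
  exact LocalizedModule.subsingleton_iff.2 h

lemma mk_zero {R : Type} [CommRing R] {W : Submonoid R} {N : Type} [AddCommGroup N]
    [Module R N] {m : N} {s : W} (h : LocalizedModule.mk m s = 0) : ∃ c : W, c.1 • m = 0 := by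
  rw [← LocalizedModule.zero_mk s, LocalizedModule.mk_eq] at h
  obtain ⟨c, hc⟩ := h
  refine ⟨c * s, ?_⟩
  rw [smul_zero, smul_zero, Submonoid.smul_def, Submonoid.smul_def, smul_smul] at hc
  exact hc

section

variable {B D : Type} [CommRing B] [CommRing D] [Algebra B D]

/-- dévissage -/
lemma devissage [IsNoetherianRing D] (p : PrimeSpectrum B) (S : Finset (PrimeSpectrum D))
    (hq : ∀ Q : PrimeSpectrum D,
      Module.length (Localization.AtPrime p.asIdeal)
        (LocalizedModule p.asIdeal.primeCompl (D ⧸ Q.asIdeal)) ≠ ⊤ →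
      Module.length (Localization.AtPrime p.asIdeal)
        (LocalizedModule p.asIdeal.primeCompl (D ⧸ Q.asIdeal)) =
      ∑ P ∈ S, (rdeg (algebraMap B D) P : ℕ∞) * Module.length (Localization.AtPrime P.asIdeal)
        (LocalizedModule P.asIdeal.primeCompl (D ⧸ Q.asIdeal)))
    (M : Type) [AddCommGroup M] [Module D M] [hfin : Module.Finite D M] :
    ∀ [Module B M] [IsScalarTower B D M],
    Module.length (Localization.AtPrime p.asIdeal) (LocalizedModule p.asIdeal.primeCompl M) ≠ ⊤ →
    Module.length (Localization.AtPrime p.asIdeal) (LocalizedModule p.asIdeal.primeCompl M) =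
      ∑ P ∈ S, (rdeg (algebraMap B D) P : ℕ∞) * Module.length (Localization.AtPrime P.asIdeal)
        (LocalizedModule P.asIdeal.primeCompl M) := by
  induction hfin using IsNoetherianRing.induction_on_isQuotientEquivQuotientPrime D with
  | subsingleton N =>
    intro _ _ _
    rw [len_loc_zero _ (fun m => ⟨1, one_mem _, Subsingleton.elim _ _⟩)]
    symm
    apply Finset.sum_eq_zero
    intro P _
    rw [len_loc_zero _ (fun m => ⟨1, one_mem _, Subsingleton.elim _ _⟩), mul_zero]
  | quotient N Q e =>
    intro _ _ hN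
    have e1 := len_loc_equiv p.asIdeal.primeCompl (e.restrictScalars B)
    rw [e1] at hN
    rw [e1, hq Q hN]
    apply Finset.sum_congr rfl
    intro P _
    rw [len_loc_equiv P.asIdeal.primeCompl e]
  | exact N₁ N₂ N₃ f g hf hg hfg h₁ h₃ =>
    intro _ _ hN
    let m1 : Module B N₁ := Module.compHom N₁ (algebraMap B D)
    let m3 : Module B N₃ := Module.compHom N₃ (algebraMap B D)
    have : IsScalarTower B D N₁ := IsScalarTower.of_algebraMap_smul (fun r x => rfl)
    have : IsScalarTower B D N₃ := IsScalarTower.of_algebraMap_smul (fun r x => rfl)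
    have e1 := len_loc_exact p.asIdeal.primeCompl (f.restrictScalars B) (g.restrictScalars B)
      hf hg hfg
    have hne1 : Module.length (Localization.AtPrime p.asIdeal)
        (LocalizedModule p.asIdeal.primeCompl N₁) ≠ ⊤ := by
      intro h
      apply hN
      exact e1.trans (by rw [h, top_add])
    have hne3 : Module.length (Localization.AtPrime p.asIdeal)
        (LocalizedModule p.asIdeal.primeCompl N₃) ≠ ⊤ := by
      intro h
      apply hN
      exact e1.trans (by rw [h, add_top])
    rw [e1, h₁ hne1, h₃ hne3, ← Finset.sum_add_distrib]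
    apply Finset.sum_congr rfl
    intro P _
    rw [len_loc_exact P.asIdeal.primeCompl f g hf hg hfg, mul_add]

end

lemma len_eq {B : Type} [CommRing B] (W : Submonoid B) {N K κ : Type} [AddCommGroup N]
    [Module B N] [Field κ] [Algebra (Localization W) κ] [AddCommGroup K] [Module κ K]
    [Module B K] [Module (Localization W) K] [IsScalarTower B (Localization W) K]
    [IsScalarTower (Localization W) κ K] (g : N →ₗ[B] K) [IsLocalizedModule W g]
    (hs : Function.Surjective (algebraMap (Localization W) κ)) [Module.Finite B N] :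
    Module.length (Localization W) (LocalizedModule W N) = Module.finrank κ K := by
  have e := (IsLocalizedModule.iso W g).extendScalarsOfIsLocalization W (Localization W)
  rw [e.length_eq, Module.length_eq_of_surjective (M := K) hs]
  have : Module.Finite (Localization W) (LocalizedModule W N) :=
    Module.Finite.of_isLocalizedModule W (LocalizedModule.mkLinearMap W N)
  have : Module.Finite (Localization W) K := Module.Finite.equiv e
  have : Module.Finite κ K := Module.Finite.of_restrictScalars_finite (Localization W) κ K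
  exact Module.length_eq_finrank κ K

section

variable {B D : Type} [CommRing B] [CommRing D] [Algebra B D]

/-- a nonzero element of an integral domain extension divides a nonzero element of the base -/
lemma dvd_base [Algebra.IsIntegral B D] (Q : PrimeSpectrum D) (x : D ⧸ Q.asIdeal) (hx : x ≠ 0) :
    ∃ s ∈ (PrimeSpectrum.comap (algebraMap B D) Q).asIdeal.primeCompl,
      x ∣ algebraMap B (D ⧸ Q.asIdeal) s := by
  have h := Ideal.comap_lt_comap_of_integral_mem_sdiff (R := B) (I := (⊥ : Ideal (D ⧸ Q.asIdeal)))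
    (J := Ideal.span {x}) bot_le (x := x) ⟨Ideal.mem_span_singleton_self x, fun h => hx h⟩
    (Algebra.IsIntegral.isIntegral x)
  obtain ⟨s, hs, hs'⟩ := SetLike.exists_of_lt h
  refine ⟨s, ?_, Ideal.mem_span_singleton.1 hs⟩
  intro hs2
  apply hs'
  show algebraMap B (D ⧸ Q.asIdeal) s = 0
  rw [IsScalarTower.algebraMap_apply B D (D ⧸ Q.asIdeal), Ideal.Quotient.algebraMap_eq,
    Ideal.Quotient.eq_zero_iff_mem]
  exact hs2

lemma algMap_ne {Q : PrimeSpectrum D} {s : B}
    (hs : s ∈ (PrimeSpectrum.comap (algebraMap B D) Q).asIdeal.primeCompl) :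
    algebraMap B (D ⧸ Q.asIdeal) s ≠ 0 := by
  intro h
  apply hs
  rw [IsScalarTower.algebraMap_apply B D (D ⧸ Q.asIdeal), Ideal.Quotient.algebraMap_eq,
    Ideal.Quotient.eq_zero_iff_mem] at h
  exact h

lemma isLoc [Algebra.IsIntegral B D] (Q : PrimeSpectrum D) :
    IsLocalization (Algebra.algebraMapSubmonoid (D ⧸ Q.asIdeal)
      (PrimeSpectrum.comap (algebraMap B D) Q).asIdeal.primeCompl) Q.asIdeal.ResidueField := by
  refine { map_units := ?_, surj := ?_, exists_of_eq := ?_ }
  · rintro ⟨_, s, hs, rfl⟩
    rw [isUnit_iff_ne_zero]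
    intro h
    exact algMap_ne hs ((FaithfulSMul.algebraMap_injective (D ⧸ Q.asIdeal)
      Q.asIdeal.ResidueField) (h.trans (map_zero _).symm))
  · intro z
    obtain ⟨⟨a, b⟩, hab⟩ := IsLocalization.surj (nonZeroDivisors (D ⧸ Q.asIdeal)) z
    obtain ⟨s, hs, c, hc⟩ := dvd_base (B := B) Q b.1 (nonZeroDivisors.ne_zero b.2)
    refine ⟨⟨a * c, ⟨_, s, hs, rfl⟩⟩, ?_⟩
    show z * algebraMap _ _ (algebraMap B (D ⧸ Q.asIdeal) s) = algebraMap _ _ (a * c)
    rw [hc, map_mul, map_mul, ← mul_assoc]
    rw [show z * algebraMap (D ⧸ Q.asIdeal) Q.asIdeal.ResidueField b.1 =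
      algebraMap (D ⧸ Q.asIdeal) Q.asIdeal.ResidueField a from hab]
  · intro x y h
    refine ⟨1, ?_⟩
    rw [(FaithfulSMul.algebraMap_injective (D ⧸ Q.asIdeal) Q.asIdeal.ResidueField) h]

lemma len_fib [Module.Finite B D] (Q : PrimeSpectrum D) :
    Module.length (Localization.AtPrime (PrimeSpectrum.comap (algebraMap B D) Q).asIdeal)
      (LocalizedModule (PrimeSpectrum.comap (algebraMap B D) Q).asIdeal.primeCompl
        (D ⧸ Q.asIdeal)) = rdeg (algebraMap B D) Q := by
  have : Algebra.IsIntegral B D := Algebra.IsIntegral.of_finite B D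
  set p := PrimeSpectrum.comap (algebraMap B D) Q with hp
  let a1 : Algebra p.asIdeal.ResidueField Q.asIdeal.ResidueField :=
    (Ideal.ResidueField.map p.asIdeal Q.asIdeal (algebraMap B D) rfl).toAlgebra
  let a2 : Algebra (Localization.AtPrime p.asIdeal) Q.asIdeal.ResidueField :=
    ((algebraMap p.asIdeal.ResidueField Q.asIdeal.ResidueField).comp
      (algebraMap (Localization.AtPrime p.asIdeal) p.asIdeal.ResidueField)).toAlgebra
  have t1 : IsScalarTower (Localization.AtPrime p.asIdeal) p.asIdeal.ResidueField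
      Q.asIdeal.ResidueField := IsScalarTower.of_algebraMap_eq (fun x => rfl)
  have t2 : IsScalarTower B (Localization.AtPrime p.asIdeal) Q.asIdeal.ResidueField := by
    apply IsScalarTower.of_algebraMap_eq
    intro x
    have h1 := Ideal.ResidueField.map_algebraMap p.asIdeal Q.asIdeal (algebraMap B D) rfl x
    rw [IsScalarTower.algebraMap_apply B D Q.asIdeal.ResidueField, ← h1]
    rfl
  have t3 : IsScalarTower B (D ⧸ Q.asIdeal) Q.asIdeal.ResidueField := by
    apply IsScalarTower.of_algebraMap_eq
    intro x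
    rw [IsScalarTower.algebraMap_apply B D Q.asIdeal.ResidueField]
    rfl
  have : IsLocalization (Algebra.algebraMapSubmonoid (D ⧸ Q.asIdeal) p.asIdeal.primeCompl)
      Q.asIdeal.ResidueField := isLoc Q
  have : IsLocalizedModule p.asIdeal.primeCompl
    (IsScalarTower.toAlgHom B (D ⧸ Q.asIdeal) Q.asIdeal.ResidueField).toLinearMap :=
    isLocalizedModule_iff_isLocalization.2 inferInstance
  exact len_eq (κ := p.asIdeal.ResidueField) p.asIdeal.primeCompl
    (IsScalarTower.toAlgHom B (D ⧸ Q.asIdeal) Q.asIdeal.ResidueField).toLinearMap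
    (IsLocalRing.residue_surjective)


/-- the length of the fibre at `Q` itself -/
lemma len_self (Q : PrimeSpectrum D) :
    Module.length (Localization.AtPrime Q.asIdeal)
      (LocalizedModule Q.asIdeal.primeCompl (D ⧸ Q.asIdeal)) = 1 := by
  rw [Module.length_eq_one_iff, isSimpleModule_iff_toSpanSingleton_surjective]
  constructor
  · rw [← not_subsingleton_iff_nontrivial, LocalizedModule.subsingleton_iff]
    intro h
    obtain ⟨r, hr, hr1⟩ := h 1
    apply hr
    show r ∈ Q.asIdeal
    rw [← Ideal.Quotient.eq_zero_iff_mem]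
    rw [Algebra.smul_def, mul_one] at hr1
    exact hr1
  · intro x hx y
    induction x using LocalizedModule.induction_on with
    | _ m s =>
    induction y using LocalizedModule.induction_on with
    | _ n t =>
    obtain ⟨d, rfl⟩ := Ideal.Quotient.mk_surjective m
    obtain ⟨e, rfl⟩ := Ideal.Quotient.mk_surjective n
    have hd : d ∉ Q.asIdeal := by
      intro h
      apply hx
      rw [Ideal.Quotient.eq_zero_iff_mem.2 h, LocalizedModule.zero_mk]
    refine ⟨Localization.mk (e * s.1) (t * ⟨d, hd⟩), ?_⟩
    rw [LinearMap.toSpanSingleton_apply, LocalizedModule.mk_smul_mk, LocalizedModule.mk_eq]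
    refine ⟨1, ?_⟩
    rw [one_smul, one_smul]
    simp only [Submonoid.smul_def, Algebra.smul_def, Ideal.Quotient.algebraMap_eq, ← map_mul]
    congr 1
    simp only [Submonoid.coe_mul]
    ring

/-- the length of the fibre at another prime -/
lemma len_other [Algebra.IsIntegral B D] (P Q : PrimeSpectrum D)
    (h : PrimeSpectrum.comap (algebraMap B D) P = PrimeSpectrum.comap (algebraMap B D) Q)
    (hPQ : P ≠ Q) :
    Module.length (Localization.AtPrime P.asIdeal)
      (LocalizedModule P.asIdeal.primeCompl (D ⧸ Q.asIdeal)) = 0 := by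
  have hn : ¬ Q.asIdeal ≤ P.asIdeal := by
    intro hle
    have hne : ¬ P.asIdeal ≤ Q.asIdeal := fun h' =>
      hPQ (PrimeSpectrum.ext (le_antisymm h' hle))
    obtain ⟨x, hx, hx'⟩ := SetLike.not_le_iff_exists.1 hne
    have := Ideal.comap_lt_comap_of_integral_mem_sdiff (R := B) hle ⟨hx, hx'⟩
      (Algebra.IsIntegral.isIntegral x)
    apply this.ne
    exact (congrArg PrimeSpectrum.asIdeal h).symm
  obtain ⟨d, hd, hd'⟩ := SetLike.not_le_iff_exists.1 hn
  apply len_loc_zero
  intro m
  refine ⟨d, hd', ?_⟩
  rw [Algebra.smul_def, Ideal.Quotient.algebraMap_eq, Ideal.Quotient.eq_zero_iff_mem.2 hd,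
    zero_mul]

/-- the case `q < p` -/
lemma len_lt (p : PrimeSpectrum B) (Q : PrimeSpectrum D)
    (h : PrimeSpectrum.comap (algebraMap B D) Q ≤ p) (b : B) (hb : b ∈ p.asIdeal)
    (hb' : algebraMap B D b ∉ Q.asIdeal) :
    Module.length (Localization.AtPrime p.asIdeal)
      (LocalizedModule p.asIdeal.primeCompl (D ⧸ Q.asIdeal)) = ⊤ := by
  by_contra hne
  rw [← ne_eq, Module.length_ne_top_iff, isFiniteLength_iff_isNoetherian_isArtinian] at hne
  obtain ⟨i1, i2⟩ := hne
  have hz : ∀ (c : B) (m : D ⧸ Q.asIdeal), algebraMap B D c ∉ Q.asIdeal → c • m = 0 → m = 0 := by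
    intro c m hc hm
    rw [Algebra.smul_def] at hm
    refine (mul_eq_zero.1 hm).resolve_left ?_
    intro h0
    apply hc
    rw [← Ideal.Quotient.eq_zero_iff_mem]
    exact h0
  have hW : ∀ c ∈ p.asIdeal.primeCompl, algebraMap B D c ∉ Q.asIdeal := by
    intro c hc hc'
    exact hc (h hc')
  let β : Localization.AtPrime p.asIdeal := algebraMap B _ b
  have hinj : Function.Injective (LinearMap.lsmul (Localization.AtPrime p.asIdeal)
      (LocalizedModule p.asIdeal.primeCompl (D ⧸ Q.asIdeal)) β) := by
    rw [← LinearMap.ker_eq_bot, LinearMap.ker_eq_bot']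
    intro x hx
    induction x using LocalizedModule.induction_on with
    | _ m s =>
    have h1 : LocalizedModule.mk (b • m) s = 0 := by
      have h2 : β • LocalizedModule.mk m s = 0 := hx
      rw [← h2]
      show _ = algebraMap B (Localization.AtPrime p.asIdeal) b • LocalizedModule.mk m s
      rw [algebraMap_smul, LocalizedModule.smul'_mk]
    obtain ⟨c, hc⟩ := mk_zero h1
    have h3 := hz c.1 _ (hW _ c.2) hc
    have h4 := hz b m hb' h3
    rw [h4, LocalizedModule.zero_mk]
  have hsurj := (IsArtinian.bijective_of_injective_endomorphism _ hinj).2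
  have hbot : (⊤ : Submodule (Localization.AtPrime p.asIdeal)
      (LocalizedModule p.asIdeal.primeCompl (D ⧸ Q.asIdeal))) = ⊥ := by
    apply Submodule.eq_bot_of_le_smul_of_le_jacobson_bot
      (IsLocalRing.maximalIdeal (Localization.AtPrime p.asIdeal)) ⊤
    · exact IsNoetherian.noetherian _
    · intro x _
      obtain ⟨y, rfl⟩ := hsurj x
      apply Submodule.smul_mem_smul _ Submodule.mem_top
      rw [IsLocalization.AtPrime.to_map_mem_maximal_iff _ p.asIdeal]
      exact hb
    · rw [IsLocalRing.jacobson_eq_maximalIdeal _ bot_ne_top]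
  have h5 : (LocalizedModule.mk (1 : D ⧸ Q.asIdeal) (1 : p.asIdeal.primeCompl)) = 0 := by
    have : (LocalizedModule.mk (1 : D ⧸ Q.asIdeal) (1 : p.asIdeal.primeCompl)) ∈
      (⊤ : Submodule (Localization.AtPrime p.asIdeal)
      (LocalizedModule p.asIdeal.primeCompl (D ⧸ Q.asIdeal))) := Submodule.mem_top
    rw [hbot] at this
    exact this
  obtain ⟨c, hc⟩ := mk_zero h5
  exact one_ne_zero (hz c.1 _ (hW _ c.2) hc)

/-- the case of a prime quotient -/
lemma quot_case [Module.Finite B D] (p : PrimeSpectrum B) (S : Finset (PrimeSpectrum D))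
    (hS : ∀ P, P ∈ S ↔ PrimeSpectrum.comap (algebraMap B D) P = p) (Q : PrimeSpectrum D)
    (hne : Module.length (Localization.AtPrime p.asIdeal)
        (LocalizedModule p.asIdeal.primeCompl (D ⧸ Q.asIdeal)) ≠ ⊤) :
      Module.length (Localization.AtPrime p.asIdeal)
        (LocalizedModule p.asIdeal.primeCompl (D ⧸ Q.asIdeal)) =
      ∑ P ∈ S, (rdeg (algebraMap B D) P : ℕ∞) * Module.length (Localization.AtPrime P.asIdeal)
        (LocalizedModule P.asIdeal.primeCompl (D ⧸ Q.asIdeal)) := by
  have : Algebra.IsIntegral B D := Algebra.IsIntegral.of_finite B D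
  by_cases h1 : PrimeSpectrum.comap (algebraMap B D) Q ≤ p
  · by_cases h2 : p ≤ PrimeSpectrum.comap (algebraMap B D) Q
    · obtain rfl : PrimeSpectrum.comap (algebraMap B D) Q = p := le_antisymm h1 h2
      rw [len_fib Q, Finset.sum_eq_single Q]
      · rw [len_self, mul_one]
      · intro P hP hPQ
        rw [len_other P Q ((hS P).1 hP) hPQ, mul_zero]
      · intro hQ
        exact absurd ((hS Q).2 rfl) hQ
    · obtain ⟨b, hb, hb'⟩ := SetLike.not_le_iff_exists.1 (show ¬ p.asIdeal ≤
        (PrimeSpectrum.comap (algebraMap B D) Q).asIdeal from h2)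
      exact absurd (len_lt p Q h1 b hb hb') hne
  · obtain ⟨b, hb, hb'⟩ := SetLike.not_le_iff_exists.1 (show ¬
      (PrimeSpectrum.comap (algebraMap B D) Q).asIdeal ≤ p.asIdeal from h1)
    have hbQ : algebraMap B D b ∈ Q.asIdeal := hb
    rw [len_loc_zero]
    · symm
      apply Finset.sum_eq_zero
      intro P hP
      rw [len_loc_zero, mul_zero]
      intro m
      refine ⟨algebraMap B D b, ?_, ?_⟩
      · intro hbP
        apply hb'
        rw [← (hS P).1 hP]
        exact hbP
      · rw [Algebra.smul_def, Ideal.Quotient.algebraMap_eq, Ideal.Quotient.eq_zero_iff_mem.2 hbQ,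
          zero_mul]
    · intro m
      refine ⟨b, hb', ?_⟩
      rw [Algebra.smul_def, IsScalarTower.algebraMap_apply B D (D ⧸ Q.asIdeal),
        Ideal.Quotient.algebraMap_eq, Ideal.Quotient.eq_zero_iff_mem.2 hbQ, zero_mul]

end

end LSUM

open LSUM in
/-- LSUM -/
theorem t_LSUM : S_LSUM := by
  intro B D _ _ _ _ _ p S hS M _ _ _ _ _ hM
  have : IsNoetherianRing D := IsNoetherianRing.of_finite B D
  exact devissage p S (fun Q hQ => quot_case p S hS Q hQ) M hM

end CUB
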