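import Pool.Agent.CUB2.StmtsL
import Pool.Agent.CUB.R_DISJ

/-!
# CUB2: LSUQ, lengths over a finite extension for a quotient of the algebra
-/

set_option autoImplicit false

namespace CUB

namespace LSUQ

lemma toNat_sum {ι : Type} (S : Finset ι) (f : ι → ℕ∞) (h : ∑ i ∈ S, f i ≠ ⊤) :
    (∑ i ∈ S, f i).toNat = ∑ i ∈ S, (f i).toNat := by
  classical
  induction S using Finset.induction_on with
  | empty => simp
  | insert a s ha ih =>
    rw [Finset.sum_insert ha] at h ⊢
    have h1 : f a ≠ ⊤ := fun h0 => h (by rw [h0, top_add])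
    have h2 : ∑ i ∈ s, f i ≠ ⊤ := fun h0 => h (by rw [h0, add_top])
    rw [ENat.toNat_add h1 h2, ih h2, Finset.sum_insert ha]

end LSUQ

theorem t_LSUQ : M_LSUQ := by
  intro h B D _ _ _ _ _ p S I hS hfin
  have h1 := h B D p S hS (D ⧸ I) hfin
  unfold lC
  rw [h1] at hfin ⊢
  rw [LSUQ.toNat_sum S _ hfin]
  refine Finset.sum_congr rfl fun P _ => ?_
  rw [ENat.toNat_mul, ENat.toNat_natCast]
  congr 1
  exact DISJ.len_eq I P

end CUB
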