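import Pool.Agent.CUB2.StmtsL
import Pool.Agent.CUB.A_LENC

/-!
# CUB2, module NPU: the divisor of the norm
-/

set_option autoImplicit false
set_option linter.unusedSectionVars false

namespace CUB

namespace NPU

section Loc

variable {B B₁ C C₁ : Type} [CommRing B] [CommRing B₁] [CommRing C] [CommRing C₁] [Algebra B B₁]
  [Algebra B C] [Algebra B₁ C₁] [Algebra C C₁] [Algebra B C₁] [IsScalarTower B B₁ C₁]
  [IsScalarTower B C C₁] (M : Submonoid B) [IsLocalization M C]
  [IsLocalization (Algebra.algebraMapSubmonoid B₁ M) C₁]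

/-- the map on quotients -/
noncomputable def qmap (I : Ideal B₁) (J : Ideal C₁) (h : J = I.map (algebraMap B₁ C₁)) :
    (B₁ ⧸ I) →ₗ[B] (C₁ ⧸ J) :=
  (Ideal.quotientMapₐ J (IsScalarTower.toAlgHom B B₁ C₁) (by
    rw [h]
    exact Ideal.le_comap_map)).toLinearMap

theorem qmap_mk (I : Ideal B₁) (J : Ideal C₁) (h : J = I.map (algebraMap B₁ C₁)) (a : B₁) :
    qmap (B := B) I J h (Ideal.Quotient.mk I a) = Ideal.Quotient.mk J (algebraMap B₁ C₁ a) := rfl

include C in
theorem isLoc (I : Ideal B₁) (J : Ideal C₁) (h : J = I.map (algebraMap B₁ C₁)) :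
    IsLocalizedModule M (qmap (B := B) I J h) where
  map_units x := by
    have hu : IsUnit (algebraMap B C x) := IsLocalization.map_units C x
    obtain ⟨u, hu⟩ := hu
    refine (Module.End.isUnit_iff _).mpr ⟨fun m n e => ?_, fun m => ⟨(↑u⁻¹ : C) • m, ?_⟩⟩
    · simp only [Module.algebraMap_end_apply] at e
      rw [← algebraMap_smul C (x : B) m, ← algebraMap_smul C (x : B) n, ← hu] at e
      have e' := congrArg (fun z => (↑u⁻¹ : C) • z) e
      simpa [smul_smul] using e'
    · rw [Module.algebraMap_end_apply, ← algebraMap_smul C (x : B), ← hu, smul_smul, Units.mul_inv,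
        one_smul]
  surj y := by
    obtain ⟨y, rfl⟩ := Ideal.Quotient.mk_surjective y
    obtain ⟨⟨a, t, s, hs, hst⟩, hy⟩ :=
      IsLocalization.surj (Algebra.algebraMapSubmonoid B₁ M) y
    refine ⟨⟨Ideal.Quotient.mk I a, ⟨s, hs⟩⟩, ?_⟩
    change (s : B) • (Ideal.Quotient.mk J y) = qmap (B := B) I J h (Ideal.Quotient.mk I a)
    rw [qmap_mk, ← hy]
    change _ = Ideal.Quotient.mk J (y * algebraMap B₁ C₁ t)
    rw [← hst]
    rw [← IsScalarTower.algebraMap_apply B B₁ C₁, mul_comm, ← Algebra.smul_def]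
    rfl
  exists_of_eq {m n} e := by
    obtain ⟨a, rfl⟩ := Ideal.Quotient.mk_surjective m
    obtain ⟨b, rfl⟩ := Ideal.Quotient.mk_surjective n
    rw [qmap_mk, qmap_mk, Ideal.Quotient.eq, ← map_sub, h,
      IsLocalization.mem_map_algebraMap_iff (Algebra.algebraMapSubmonoid B₁ M) C₁] at e
    obtain ⟨⟨⟨i, hi⟩, ⟨t, t', ht', htt⟩⟩, he⟩ := e
    simp only at he
    rw [← map_mul] at he
    obtain ⟨⟨c, c', hc', hcc⟩, hc⟩ :=
      IsLocalization.exists_of_eq (M := Algebra.algebraMapSubmonoid B₁ M) he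
    simp only at hc
    refine ⟨⟨c' * t', mul_mem hc' ht'⟩, ?_⟩
    change ((c' * t' : B)) • (Ideal.Quotient.mk I a) = ((c' * t' : B)) • (Ideal.Quotient.mk I b)
    have h1 : ∀ z : B₁, (c' * t' : B) • (Ideal.Quotient.mk I z) =
        Ideal.Quotient.mk I (c * t * z) := by
      intro z
      rw [← hcc, ← htt]
      rw [← map_mul, ← Algebra.smul_def]
      rfl
    rw [h1, h1, Ideal.Quotient.eq, ← mul_sub]
    have h2 : c * t * (a - b) = c * i := by
      rw [← hc]
      ring
    rw [h2]
    exact I.mul_mem_left _ hi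

theorem length_loc (I : Ideal B₁) (J : Ideal C₁) (h : J = I.map (algebraMap B₁ C₁))
    [Module C (LocalizedModule M (B₁ ⧸ I))] [IsScalarTower B C (LocalizedModule M (B₁ ⧸ I))] :
    Module.length C (LocalizedModule M (B₁ ⧸ I)) = Module.length C (C₁ ⧸ J) := by
  have := isLoc (C := C) M I J h
  exact ((IsLocalizedModule.iso M (qmap (B := B) I J h)).extendScalarsOfIsLocalization M
    C).length_eq

end Loc

section Norm

/-- the local statement -/
theorem norm_loc (hN : S_NORM) {B B₁ C C₁ F L : Type} [CommRing B] [IsDomain B] [CommRing B₁]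
    [IsDomain B₁] [CommRing C] [IsDomain C] [IsNoetherianRing C] [CommRing C₁] [IsDomain C₁]
    [Field F] [Field L] [Algebra B B₁] [Algebra B F] [Algebra B L]
    [Algebra B₁ L] [Algebra F L] [IsScalarTower B B₁ L] [IsScalarTower B F L]
    [IsFractionRing B F] [IsFractionRing B₁ L] [Module.Finite B B₁] [Module.Finite F L]
    [Algebra B C] [Algebra B₁ C₁] [Algebra C C₁] [Algebra B C₁] [IsScalarTower B B₁ C₁]
    [IsScalarTower B C C₁] (M : Submonoid B) (hM : M ≤ nonZeroDivisors B) [IsLocalization M C]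
    [IsLocalization (Algebra.algebraMapSubmonoid B₁ M) C₁] [Module.Finite C C₁]
    (hMB : Algebra.algebraMapSubmonoid B₁ M ≤ nonZeroDivisors B₁)
    (hfin : ∀ x : C, x ≠ 0 → Module.length C (C ⧸ Ideal.span {x}) ≠ ⊤)
    (x : B₁) (b c : B) (hx : x ≠ 0) (hb : b ≠ 0) (hc : c ≠ 0)
    (h : Algebra.norm F (algebraMap B₁ L x) * algebraMap B F c = algebraMap B F b) :
    Module.length C (C₁ ⧸ Ideal.span {algebraMap B₁ C₁ x}) +
      Module.length C (C ⧸ Ideal.span {algebraMap B C c}) =
      Module.length C (C ⧸ Ideal.span {algebraMap B C b}) := by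
  let f : C →+* F := IsLocalization.map _ (T := nonZeroDivisors B) (RingHom.id B) hM
  let g : C₁ →+* L := IsLocalization.map _ (M := Algebra.algebraMapSubmonoid B₁ M)
      (T := nonZeroDivisors B₁) (RingHom.id B₁) hMB
  algebraize [f, g, (algebraMap F L).comp f]
  have i1 : IsScalarTower B C F := IsScalarTower.of_algebraMap_eq'
    (by rw [RingHom.algebraMap_toAlgebra, IsLocalization.map_comp, RingHomCompTriple.comp_eq])
  have i2 := IsFractionRing.isFractionRing_of_isDomain_of_isLocalization M C F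
  have i3 : IsScalarTower B₁ C₁ L := IsScalarTower.of_algebraMap_eq'
    (by rw [RingHom.algebraMap_toAlgebra, IsLocalization.map_comp, RingHomCompTriple.comp_eq])
  have i4 : IsScalarTower C C₁ L := by
    apply IsScalarTower.of_algebraMap_eq'
    apply IsLocalization.ringHom_ext M
    rw [RingHom.algebraMap_toAlgebra, RingHom.algebraMap_toAlgebra (R := C₁), RingHom.comp_assoc,
      RingHom.comp_assoc, ← IsScalarTower.algebraMap_eq, IsScalarTower.algebraMap_eq B B₁ C₁,
      IsLocalization.map_comp, RingHom.comp_id, ← RingHom.comp_assoc, IsLocalization.map_comp,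
      RingHom.comp_id, ← IsScalarTower.algebraMap_eq, ← IsScalarTower.algebraMap_eq]
  have i5 := IsFractionRing.isFractionRing_of_isDomain_of_isLocalization
    (Algebra.algebraMapSubmonoid B₁ M) C₁ L
  have hx' : algebraMap B₁ C₁ x ≠ 0 := by
    rw [Ne, IsLocalization.to_map_eq_zero_iff C₁ hMB]
    exact hx
  have hb' : algebraMap B C b ≠ 0 := by
    rw [Ne, IsLocalization.to_map_eq_zero_iff C hM]
    exact hb
  have hc' : algebraMap B C c ≠ 0 := by
    rw [Ne, IsLocalization.to_map_eq_zero_iff C hM]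
    exact hc
  refine hN C C₁ F L hfin (algebraMap B₁ C₁ x) (algebraMap B C b) (algebraMap B C c) hx' hb' hc' ?_
  rw [← IsScalarTower.algebraMap_apply B₁ C₁ L, ← IsScalarTower.algebraMap_apply B C F,
    ← IsScalarTower.algebraMap_apply B C F]
  exact h

end Norm

section Dim

variable {k B B₁ : Type} [Field k] [CommRing B] [CommRing B₁] [Algebra k B] [Algebra k B₁]
  [Algebra B B₁] [IsScalarTower k B B₁] [Module.Finite B B₁]

/-- the dimension of a prime of a finite extension is the dimension of its contraction -/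
theorem rdim_fin (P : PrimeSpectrum B₁) :
    rdim k (PrimeSpectrum.comap (algebraMap B B₁) P) = rdim k P := by
  have i1 : P.asIdeal.LiesOver (PrimeSpectrum.comap (algebraMap B B₁) P).asIdeal := ⟨rfl⟩
  unfold rdim
  have h := trdeg_add_eq k (B ⧸ (PrimeSpectrum.comap (algebraMap B B₁) P).asIdeal)
    (A := B₁ ⧸ P.asIdeal)
  rw [trdeg_eq_zero (R := B ⧸ (PrimeSpectrum.comap (algebraMap B B₁) P).asIdeal)
    (A := B₁ ⧸ P.asIdeal), add_zero] at h
  exact h

end Dim

section Fin

variable {k B : Type} [Field k] [CommRing B] [IsDomain B] [Algebra k B] [Algebra.FiniteType k B]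

/-- the prime zero -/
def zeroP {n : ℕ} (hB : Algebra.trdeg k B = (n + 1 : ℕ)) : RP k B (n + 1) :=
  ⟨⟨⊥, Ideal.isPrime_bot⟩, (AlgEquiv.quotientBot k B).trdeg_eq.trans hB⟩

theorem fin1 (h1 : S_DIM1) {n : ℕ} (hB : Algebra.trdeg k B = (n + 1 : ℕ)) (p : RP k B n)
    (a : B) (ha : a ≠ 0) :
    Module.length (Localization.AtPrime p.1.asIdeal) (Localization.AtPrime p.1.asIdeal ⧸
      Ideal.span {algebraMap B (Localization.AtPrime p.1.asIdeal) a}) ≠ ⊤ := by
  have h2 := LENC.lenE_fin h1 (zeroP hB) p (bot_le : (⊥ : Ideal B) ≤ p.1.asIdeal) (a := a) ha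
  have h3 : (zeroP hB).1.asIdeal ⊔ Ideal.span {a} = Ideal.span {a} := bot_sup_eq _
  rw [h3] at h2
  unfold LENC.lenE at h2
  rw [Ideal.map_span, Set.image_singleton] at h2
  exact h2

theorem fin2 (h1 : S_DIM1) {n : ℕ} (hB : Algebra.trdeg k B = (n + 1 : ℕ)) (p : RP k B n)
    (x : Localization.AtPrime p.1.asIdeal) (hx : x ≠ 0) :
    Module.length (Localization.AtPrime p.1.asIdeal) (Localization.AtPrime p.1.asIdeal ⧸
      Ideal.span {x}) ≠ ⊤ := by
  obtain ⟨⟨a, s⟩, has⟩ := IsLocalization.surj p.1.asIdeal.primeCompl x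
  simp only at has
  have hu : IsUnit (algebraMap B (Localization.AtPrime p.1.asIdeal) s) :=
    IsLocalization.map_units _ s
  have ha : a ≠ 0 := by
    rintro rfl
    rw [map_zero] at has
    rcases hu with ⟨u, hu⟩
    rw [← hu, Units.mul_left_eq_zero] at has
    exact hx has
  have h2 := fin1 h1 hB p a ha
  rw [← has, Ideal.span_singleton_mul_right_unit hu] at h2
  exact h2

theorem lspan (p : PrimeSpectrum B) (a : B) :
    len (Ideal.span {a}) p =
      (Module.length (Localization.AtPrime p.asIdeal) (Localization.AtPrime p.asIdeal ⧸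
        Ideal.span {algebraMap B (Localization.AtPrime p.asIdeal) a})).toNat := by
  unfold len
  rw [Ideal.map_span, Set.image_singleton]

end Fin

end NPU

section

open NPU

/-- NPU: the divisor of the norm. -/
theorem t_NPU : M_NPU := by
  intro h1 hN hQ k B B₁ F L _ _ _ _ _ _ _ _ _ _ _ _ _ _ _ _ _ _ _ _ _ _ _ n p S hB hS x b c
    hx hb hc h
  classical
  have hNB : IsNoetherianRing B := Algebra.FiniteType.isNoetherianRing k B
  have hinj : Function.Injective (algebraMap B B₁) := by
    have h2 : Function.Injective ((algebraMap B₁ L).comp (algebraMap B B₁)) := by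
      rw [← IsScalarTower.algebraMap_eq B B₁ L, IsScalarTower.algebraMap_eq B F L]
      exact (algebraMap F L).injective.comp (IsFractionRing.injective B F)
    exact Function.Injective.of_comp h2
  have hM : p.1.asIdeal.primeCompl ≤ nonZeroDivisors B :=
    p.1.asIdeal.primeCompl_le_nonZeroDivisors
  have hMB : Algebra.algebraMapSubmonoid B₁ p.1.asIdeal.primeCompl ≤ nonZeroDivisors B₁ :=
    Submonoid.map_le_of_le_comap _ (hM.trans
      (nonZeroDivisors_le_comap_nonZeroDivisors_of_injective _ hinj))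
  have d1 : IsDomain (Localization.AtPrime p.1.asIdeal) :=
    IsLocalization.isDomain_localization hM
  have d2 : IsDomain (Localization (Algebra.algebraMapSubmonoid B₁ p.1.asIdeal.primeCompl)) :=
    IsLocalization.isDomain_localization hMB
  have d3 : Module.Finite (Localization.AtPrime p.1.asIdeal)
      (Localization (Algebra.algebraMapSubmonoid B₁ p.1.asIdeal.primeCompl)) :=
    Module.Finite.of_isLocalization B B₁ p.1.asIdeal.primeCompl
  have key := norm_loc hN (C := Localization.AtPrime p.1.asIdeal)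
    (C₁ := Localization (Algebra.algebraMapSubmonoid B₁ p.1.asIdeal.primeCompl))
    p.1.asIdeal.primeCompl hM hMB (fin2 h1 hB p) x b c hx hb hc h
  have hfin := fin1 h1 hB p b hb
  have hlen := length_loc (C := Localization.AtPrime p.1.asIdeal)
    (C₁ := Localization (Algebra.algebraMapSubmonoid B₁ p.1.asIdeal.primeCompl))
    p.1.asIdeal.primeCompl (Ideal.span {x}) (Ideal.span {algebraMap B₁ _ x}) (by
      rw [Ideal.map_span, Set.image_singleton])
  rw [← hlen] at key
  have hf1 : Module.length (Localization.AtPrime p.1.asIdeal)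
      (LocalizedModule p.1.asIdeal.primeCompl (B₁ ⧸ Ideal.span {x})) ≠ ⊤ := by
    intro h2
    rw [h2, top_add] at key
    exact hfin key.symm
  have hsum := hQ B B₁ p.1 (S.map (Function.Embedding.subtype _)) (Ideal.span {x}) (by
    intro P
    rw [Finset.mem_map]
    constructor
    · rintro ⟨P', hP', rfl⟩
      exact (hS P').mp hP'
    · intro h2
      have h3 : rdim k P = n := by
        rw [← rdim_fin (B := B), h2]
        exact p.2
      exact ⟨⟨P, h3⟩, (hS _).mpr h2, rfl⟩) hf1
  rw [Finset.sum_map] at hsum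
  have hf2 := fin1 h1 hB p c hc
  have h4 : (Module.length (Localization.AtPrime p.1.asIdeal)
      (LocalizedModule p.1.asIdeal.primeCompl (B₁ ⧸ Ideal.span {x}))).toNat +
      len (Ideal.span {c}) p.1 = len (Ideal.span {b}) p.1 := by
    rw [NPU.lspan, NPU.lspan, ← ENat.toNat_add hf1 hf2, key]
  rw [← h4]
  congr 1
  exact hsum.symm

end

end CUB
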