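import Pool.Agent.CUB.Asm
import Pool.Agent.CUB2.L4S
import Pool.Agent.CUB2.G_AFY
import Pool.Agent.CUB2.K_CHA
import Pool.Agent.CUB2.F_CHN
import Pool.Agent.CUB2.H_DESC
import Pool.Agent.CUB2.G_DIAG
import Pool.Agent.CUB2.H_DST
import Pool.Agent.CUB2.K_DVC
import Pool.Agent.CUB2.G_FDM
import Pool.Agent.CUB2.K_FOV
import Pool.Agent.CUB2.G_GRA
import Pool.Agent.CUB2.G_GST
import Pool.Agent.CUB2.F_IND
import Pool.Agent.CUB2.H_LPT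
import Pool.Agent.CUB2.L_LSUM
import Pool.Agent.CUB2.L_LSUQ
import Pool.Agent.CUB2.H_MOD
import Pool.Agent.CUB2.L_NPU
import Pool.Agent.CUB2.H_OPEN
import Pool.Agent.CUB2.H_P0
import Pool.Agent.CUB2.H_PCY
import Pool.Agent.CUB2.H_PFC
import Pool.Agent.CUB2.G_PLI
import Pool.Agent.CUB2.G_PLP
import Pool.Agent.CUB2.G_PPE
import Pool.Agent.CUB2.G_PRO
import Pool.Agent.CUB2.H_PULLP
import Pool.Agent.CUB2.K_PUSHD
import Pool.Agent.CUB2.K_PUSHG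
import Pool.Agent.CUB2.H_PUSHR
import Pool.Agent.CUB2.G_QAF
import Pool.Agent.CUB2.G_QEM
import Pool.Agent.CUB2.K_RDG
import Pool.Agent.CUB2.H_REDI
import Pool.Agent.CUB2.G_SEC
import Pool.Agent.CUB2.G_SEP

/-!
# CUB2: assembly of all modules
-/

set_option autoImplicit false

namespace CUB

namespace Asm2

open CUB.Asm

universe v

theorem s_DST : S_DST := t_DST

theorem s_FDM : S_FDM := t_FDM

theorem s_PFC : S_PFC.{v} := t_PFC.{v}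

theorem s_MOD : S_MOD.{v} := t_MOD.{v} s_PFC.{v}

theorem s_REDI : S_REDI.{v} := t_REDI.{v} s_PFC.{v} s_MOD.{v}

theorem s_P0 : S_P0.{v} := t_P0.{v} s_DST s_REDI.{v}

theorem s_CHA : S_CHA := t_CHA

theorem s_DVC : S_DVC := t_DVC s_DST s_CHA s_LENC

theorem s_RDG : S_RDG := t_RDG

theorem s_LSUM : S_LSUM := t_LSUM

theorem s_LSUQ : S_LSUQ := t_LSUQ s_LSUM

theorem s_NPU : S_NPU := t_NPU s_DIM1 s_NORM s_LSUQ

theorem s_FOV : S_FOV := t_FOV.{0} s_PFC.{0} s_DST s_CHA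

theorem s_PUSHD : S_PUSHD :=
    t_PUSHD.{0} s_PFC.{0} s_DST s_DIM1 s_LENC s_DVX s_CHA s_DVC s_RDG s_NPU s_FOV

theorem s_PUSHG : S_PUSHG := t_PUSHG.{0} s_PFC.{0} s_DST s_PUSHD

theorem s_PUSHR : S_PUSHR.{v} := t_PUSHR.{v} s_PFC.{v}

theorem s_PLI : S_PLI := t_PLI

theorem s_PLP : S_PLP := t_PLP

theorem s_PRO : S_PRO := t_PRO s_PLP

theorem s_SEC : S_SEC := t_SEC

theorem s_DIAG : S_DIAG := t_DIAG

theorem s_AFY : S_AFY := t_AFY s_DIAG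

theorem s_GRA : S_GRA := t_GRA

theorem s_LPT : S_LPT := t_LPT

theorem s_GST : S_GST := t_GST s_PLI s_PRO s_SEC s_AFY s_GRA s_LPT

theorem s_PPE : S_PPE := t_PPE

theorem s_SEP : S_SEP := t_SEP

theorem s_QAF : S_QAF := t_QAF s_SEP

theorem s_QEM : S_QEM := t_QEM

theorem s_OPEN : S_OPEN.{v} := t_OPEN.{v}

theorem s_PCY : S_PCY.{v} := t_PCY.{v} s_PFC.{v} s_LPT

theorem s_PULLP : S_PULLP.{v} := t_PULLP.{v} s_PFC.{v} s_PCY.{v}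

theorem s_DESC : S_DESC.{v} := t_DESC.{v} s_PCY.{v} s_PULLP.{v} s_L4

theorem s_CHN : S_CHN.{v} :=
    t_CHN.{v} s_DST s_GST s_PPE s_SEP s_QAF s_QEM s_OPEN.{v} s_MOD.{v} s_DESC.{v} s_REDI.{v}

theorem s_IND : S_IND.{v} := t_IND.{v} s_DST s_FDM s_P0.{v} s_PUSHG s_PUSHR.{v} s_CHN.{v}

end Asm2

end CUB
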