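import Pool.Agent.CUB2.Defs4
import Pool.Agent.CUB.Bridge
import Pool.Agent.Lib_helper66.OneP.Full
import Pool.Agent.Lib_helper55.Beil.Geom2

/-!
# CUB2: definitions for the modules (not used in the final statement)
-/

set_option autoImplicit false

open CategoryTheory AlgebraicGeometry Limits Polynomial TopologicalSpace

namespace CUB

open Pool.Agent.Lib_helper55.Beil Pool.Agent.Lib_helper66.OneP

universe v

variable {k : Type} [Field k]

/-! ## Morphisms -/

instance {Z X : Var k} (a : ClosedIn Z X) : IsClosedImmersion a.g := a.closed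

instance {U X : Var k} (j : OpenIn U X) : IsOpenImmersion j.g := j.isOpen

instance {X Y : Var k} (f : PrMor X Y) : IsProper f.g := f.proper

/-- The identity as a closed immersion. -/
noncomputable def idIn (X : Var k) : ClosedIn X X where
  g := 𝟙 X.X
  comm := Category.id_comp _
  closed := inferInstance

/-- A closed immersion as a proper morphism. -/
def clPr {Z X : Var k} (a : ClosedIn Z X) : PrMor Z X where
  g := a.g
  comm := a.comm
  proper := inferInstance

/-- The composition of proper morphisms. -/
def PrMor.trans {X Y Z : Var k} (f : PrMor X Y) (g : PrMor Y Z) : PrMor X Z where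
  g := f.g ≫ g.g
  comm := by rw [Category.assoc, g.comm, f.comm]
  proper := inferInstance

/-- An isomorphism as a proper morphism. -/
def VIso.pr {X Y : Var k} (s : VIso X Y) : PrMor X Y := clPr s.cl

/-- The product of varieties. -/
noncomputable def Var.prod (X Y : Var k) : Var k where
  X := pullback X.f Y.f
  f := pullback.fst X.f Y.f ≫ X.f
  sep := inferInstance
  lft := inferInstance
  qc := inferInstance

/-- The class of a cycle (`Pool.Agent.Lib_helper66.OneP.cls`; the name `CUB.cls` is used for affine
varieties). -/
noncomputable abbrev clz {E : Type} [Field E] {i : ℕ} (T : Homology.{v} k E i) (X : Var k)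
    (c : Pts i X →₀ E) : T.H (2 * i) X :=
  Pool.Agent.Lib_helper66.OneP.cls T X c

/-! ## Push-forward and pull-back of cycles -/

section Cycles

variable (E : Type) [Field E]

open Classical in
/-- The push-forward of a point, as a cycle. -/
noncomputable def pfPt (i : ℕ) {X Y : Var k} (f : PrMor X Y) (x : Pts i X) : Pts i Y →₀ E :=
  if h : Y.dim (f.g x.1) = i then Finsupp.single ⟨f.g x.1, h⟩ (f.deg x.1 : E) else 0

/-- The push-forward of cycles. -/
noncomputable def pfc (i : ℕ) {X Y : Var k} (f : PrMor X Y) : (Pts i X →₀ E) →ₗ[E] (Pts i Y →₀ E) :=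
  Finsupp.linearCombination E (pfPt E i f)

variable {E}

/-- `d` is the flat pull-back (of relative dimension one) of the cycle `c` along `q`. -/
def IsPullC {i : ℕ} {Y X : Var k} (q : Y.X ⟶ X.X) (c : Pts i X →₀ E) (d : Pts (i + 1) Y →₀ E) :
    Prop :=
  ∀ y : Pts (i + 1) Y, (∀ h : X.dim (q y.1) = i, d y = c ⟨q y.1, h⟩) ∧
    (X.dim (q y.1) ≠ i → d y = 0)

/-- The cycle `c` is the divisor of the (global) function `π` on the closure of the point `P`. -/
def IsFDv {i : ℕ} {Y : Var k} (π : Γ(Y.X, ⊤)) (P : Y.X) (c : Pts i Y →₀ E) : Prop :=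
  ∃ (V : Var k) (_ : IsIntegral V.X) (b : ClosedIn V Y), b.g (genericPoint V.X) = P ∧
    IsDiv b (V.X.presheaf.germ ⊤ (genericPoint V.X) trivial (b.g.appTop π)) c

variable (E)

open Classical in
/-- The divisor of the function `π` on the closure of the point `P` (`0` if `π` is zero there). -/
noncomputable def gysPt (i : ℕ) {Y : Var k} (π : Γ(Y.X, ⊤)) (P : Pts (i + 1) Y) : Pts i Y →₀ E :=
  if h : ∃ c : Pts i Y →₀ E, P.1 ∈ Y.X.basicOpen π ∧ IsFDv π P.1 c then h.choose else 0

/-- The intersection of a cycle with the divisor of the function `π`. -/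
noncomputable def gys (i : ℕ) {Y : Var k} (π : Γ(Y.X, ⊤)) :
    (Pts (i + 1) Y →₀ E) →ₗ[E] (Pts i Y →₀ E) :=
  Finsupp.linearCombination E (gysPt E i π)

end Cycles

/-- The closed subvariety `D` of `Y` has the zero set of the function `π` as underlying set. -/
def IsZeros {D Y : Var k} (a : ClosedIn D Y) (π : Γ(Y.X, ⊤)) : Prop :=
  Set.range a.g = ((Y.X.basicOpen π : Y.X.Opens) : Set Y.X)ᶜ

/-- The function on `Y = X × A^1` defined by a polynomial in the coordinate. -/
noncomputable def Line.fn {Y X : Var k} (L : Line Y X) (π : k[X]) : Γ(Y.X, ⊤) :=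
  L.t.appTop ((Scheme.ΓSpecIso (CommRingCat.of k[X])).inv π)

/-! ## Geometric data -/

/-- `P` is proper over `X` and contains the product of `X` and the affine line as the complement
of a section. -/
structure PBun (P X : Var k) where
  /-- the projection -/
  p : PrMor P X
  /-- the product with the affine line -/
  U : Var k
  /-- the open immersion of the product with the affine line -/
  j : OpenIn U P
  /-- the product with the affine line -/
  L : Line U X
  hL : j.g ≫ p.g = L.q
  /-- the section at infinity -/
  s : ClosedIn X P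
  hs : s.g ≫ p.g = 𝟙 X.X
  hc : Complementary s j

/-- A proper morphism which is an isomorphism over an open subvariety. -/
structure Modif (X' X : Var k) where
  /-- the morphism -/
  f : PrMor X' X
  /-- the closed subvariety -/
  Z : Var k
  /-- the open subvariety -/
  U : Var k
  /-- the closed subvariety of `X'` -/
  Z' : Var k
  /-- the open subvariety of `X'` -/
  U' : Var k
  /-- the inclusion of `Z` -/
  a : ClosedIn Z X
  /-- the inclusion of `U` -/
  j : OpenIn U X
  h : Complementary a j
  /-- the inclusion of `Z'` -/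
  a' : ClosedIn Z' X'
  /-- the inclusion of `U'` -/
  j' : OpenIn U' X'
  h' : Complementary a' j'
  /-- the morphism from `Z'` to `Z` -/
  fZ : PrMor Z' Z
  /-- the isomorphism from `U'` to `U` -/
  fU : VIso U' U
  hZ : a'.g ≫ f.g = fZ.g ≫ a.g
  hU : IsPullback j'.g fU.e.hom f.g j.g

/-- `h` is a function on the open subset `V` of `X₀`. There are finitely many global functions on
`Y` such that the union `O` of the open subsets where one of them is invertible contains the
preimage of `V`, and the pull-back of `h` to this preimage extends to a function on `O`. -/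
def Processed {Y X₀ : Scheme.{0}} (f : Y ⟶ X₀) (V : X₀.Opens) (h : Γ(X₀, V)) : Prop :=
  ∃ (s : Finset Γ(Y, ⊤)) (O : Y.Opens) (g : Γ(Y, O)) (hO : f ⁻¹ᵁ V ≤ O),
    (∀ y : Y, y ∈ O ↔ ∃ b ∈ s, y ∈ Y.basicOpen b) ∧
    Y.presheaf.map (homOfLE hO).op g = f.app V h

/-- The inclusion `k[t] → k[t, 1 / t]`. -/
noncomputable def gm₀ : k[X] →+* LaurentPolynomial k := Polynomial.toLaurent

/-- The homomorphism `k[t] → k[t, 1 / t]`, `t ↦ 1 / t`. -/
noncomputable def gm₁ : k[X] →+* LaurentPolynomial k :=
  (LaurentPolynomial.invert (R := k) : LaurentPolynomial k →+* LaurentPolynomial k).comp gm₀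

/-- The projective line over `k`: two affine lines glued along `t = 1 / s`. -/
structure PLine (k : Type) [Field k] where
  /-- the projective line -/
  P : Var k
  proper : IsProper P.f
  /-- the first affine line -/
  j₀ : OpenIn (aff k k[X]) P
  /-- the second affine line -/
  j₁ : OpenIn (aff k k[X]) P
  cover : Set.range j₀.g ∪ Set.range j₁.g = Set.univ
  glue : IsPullback (Spec.map (CommRingCat.ofHom gm₀)) (Spec.map (CommRingCat.ofHom gm₁))
    j₀.g j₁.g

end CUB
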