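import Pool.Agent.CUB.Defs2

/-!
# CUB2: push-forward along proper morphisms
-/

set_option autoImplicit false

open CategoryTheory AlgebraicGeometry Limits

namespace CUB

open Pool.Agent.Lib_helper55.Beil

universe v

variable {k : Type} [Field k]

/-- A proper morphism over `k`. -/
structure PrMor (X Y : Var k) where
  /-- the morphism -/
  g : X.X ⟶ Y.X
  comm : g ≫ Y.f = X.f
  proper : IsProper g

/-- The degree of the residue field of `x` over the residue field of `f(x)` (`0` if it is
infinite). -/
noncomputable def PrMor.deg {X Y : Var k} (f : PrMor X Y) (x : X.X) : ℕ :=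
  f.g.residueDegree x

variable {E : Type} [Field E]

/-- Push-forward maps in homology for proper morphisms. -/
structure ProperMaps (T : ∀ i : ℕ, Homology.{v} k E i) where
  /-- the push-forward along a proper morphism -/
  pf : ∀ (i n : ℕ) {X Y : Var k}, PrMor X Y → ((T i).H n X →ₗ[E] (T i).H n Y)

section

variable {T : ∀ i : ℕ, Homology.{v} k E i} (S : ProperMaps T)

/-- The push-forward of a homology class along a proper morphism. -/
def ProperMaps.G (i n : ℕ) {X Y : Var k} (f : PrMor X Y) (m : (T i).H n X) : (T i).H n Y :=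
  S.pf i n f m

/-- The push-forward extends the push-forward along closed immersions. -/
def ProperMaps.Closed : Prop :=
  ∀ (i n : ℕ) {Z X : Var k} (a : ClosedIn Z X) (f : PrMor Z X), f.g = a.g →
    ∀ m, S.G i n f m = (T i).P n a m

/-- The push-forward is functorial. -/
def ProperMaps.Functorial : Prop :=
  ∀ (i n : ℕ) {X Y Z : Var k} (f : PrMor X Y) (g : PrMor Y Z) (h : PrMor X Z), f.g ≫ g.g = h.g →
    ∀ m, S.G i n g (S.G i n f m) = S.G i n h m

/-- The push-forward is compatible with restriction to open subvarieties. -/
def ProperMaps.Restriction : Prop :=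
  ∀ (i n : ℕ) {U' X' U X : Var k} (f : PrMor X' X) (f' : PrMor U' U) (j' : OpenIn U' X')
    (j : OpenIn U X), IsPullback j'.g f'.g f.g j.g →
    ∀ m, (T i).R n j (S.G i n f m) = S.G i n f' ((T i).R n j' m)

/-- The push-forward is compatible with the boundary maps `B`. -/
def ProperMaps.Boundary (B : ExtraMaps T) : Prop :=
  ∀ (i n : ℕ) {Z' U' X' Z U X : Var k} (a' : ClosedIn Z' X') (j' : OpenIn U' X')
    (h' : Complementary a' j') (a : ClosedIn Z X) (j : OpenIn U X) (h : Complementary a j)
    (fZ : PrMor Z' Z) (fU : PrMor U' U) (fX : PrMor X' X), a'.g ≫ fX.g = fZ.g ≫ a.g →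
    j'.g ≫ fX.g = fU.g ≫ j.g →
    ∀ u, S.G i n fZ (B.B i n a' j' h' u) = B.B i n a j h (S.G i (n + 1) fU u)

/-- The push-forward commutes with Frobenius. -/
def ProperMaps.Frobenius : Prop :=
  ∀ (i n : ℕ) {X Y : Var k} (f : PrMor X Y) (m : (T i).H n X),
    S.G i n f ((T i).F n X m) = (T i).F n Y (S.G i n f m)

/-- The push-forward of the class of a point `x` is the class of `f(x)`, multiplied by the degree
of the residue fields, if `f(x)` has the same dimension as `x`, and zero otherwise. -/
def ProperMaps.Classes : Prop :=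
  ∀ (i : ℕ) {X Y : Var k} (f : PrMor X Y) (x : Pts i X),
    (∀ h : Y.dim (f.g x.1) = i,
      S.G i (2 * i) f ((T i).cl X x) = (f.deg x.1 : E) • (T i).cl Y ⟨f.g x.1, h⟩) ∧
    (Y.dim (f.g x.1) ≠ i → S.G i (2 * i) f ((T i).cl X x) = 0)

end

/-- The further formal properties of l-adic homology which are used: those of `Extra`, and the
push-forward along proper morphisms. -/
structure Full (T : ∀ i : ℕ, Homology.{v} k E i) extends Extra T, ProperMaps T where
  pfClosed : toProperMaps.Closed
  pfFunctorial : toProperMaps.Functorial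
  pfRestriction : toProperMaps.Restriction
  pfBoundary : toProperMaps.Boundary toExtraMaps
  pfFrobenius : toProperMaps.Frobenius
  pfClasses : toProperMaps.Classes

end CUB
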