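import Pool.Agent.CUB2.StmtsH
import Pool.Agent.CUB.A_GX

/-!
# CUB2: module LPT
-/

set_option autoImplicit false

open CategoryTheory AlgebraicGeometry Limits Polynomial TopologicalSpace

namespace CUB

open Pool.Agent.Lib_helper55.Beil Pool.Agent.Lib_helper66.OneP

namespace LPT

variable {k : Type} [Field k]

/-- A point has an affine neighbourhood, given as a chart. -/
lemma exists_chart (X : Var k) (x : X.X) :
    ∃ (A : Type) (_ : CommRing A) (_ : Algebra k A) (_ : Algebra.FiniteType k A)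
      (j : OpenIn (aff k A) X), x ∈ Set.range j.g := by
  obtain ⟨W, hW, hxW, -⟩ := exists_isAffineOpen_mem_and_subset (X := X.X) (U := ⊤) (x := x)
    trivial
  have : IsAffine (openVar X W).X := hW
  obtain ⟨A, i1, i2, i3, ⟨s⟩⟩ := exists_aff (openVar X W)
  refine ⟨A, i1, i2, i3, ⟨s.e.hom ≫ (openVarIn X W).g, ?_, ?_⟩, ?_⟩
  · rw [Category.assoc, (openVarIn X W).comm, s.comm]
  · infer_instance
  · have h1 : x ∈ Set.range (openVarIn X W).g := by
      rw [range_openVarIn]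
      exact hxW
    obtain ⟨y, hy⟩ := h1
    refine ⟨s.e.inv y, ?_⟩
    have h2 : s.e.hom (s.e.inv y) = y := s.surj y
    have h3 : (s.e.hom ≫ (openVarIn X W).g) (s.e.inv y) =
        (openVarIn X W).g (s.e.hom (s.e.inv y)) := rfl
    rw [h3, h2, hy]

variable {A : Type} [CommRing A] [Algebra k A] [Algebra.FiniteType k A]

/-- The part of a line over an affine chart. -/
lemma exists_line {Y X : Var k} (L : Line Y X) (j : OpenIn (aff k A) X) :
    ∃ g : OpenIn (aff k A[X]) Y,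
      IsPullback g.g (spm (Polynomial.CAlgHom : A →ₐ[k] A[X])) L.q j.g := by
  let M : Line (aff k A[X]) (aff k A) := lineX A
  have hM : M.q = spm (Polynomial.CAlgHom : A →ₐ[k] A[X]) := rfl
  have hc : (M.q ≫ j.g) ≫ X.f =
      M.t ≫ Spec.map (CommRingCat.ofHom (algebraMap k k[X])) := by
    rw [Category.assoc, j.comm]
    exact M.prod.w
  let g : (aff k A[X]).X ⟶ Y.X := L.prod.lift (M.q ≫ j.g) M.t hc
  have h1 : g ≫ L.q = M.q ≫ j.g := L.prod.lift_fst _ _ _
  have h2 : g ≫ L.t = M.t := L.prod.lift_snd _ _ _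
  have hp : IsPullback g M.q L.q j.g := by
    have h3 : IsPullback (g ≫ L.t) M.q (Spec.map (CommRingCat.ofHom (algebraMap k k[X])))
        (j.g ≫ X.f) := by
      rw [h2, j.comm]
      exact M.prod.flip
    exact IsPullback.of_right h3 h1 L.prod.flip
  have ho : IsOpenImmersion g := MorphismProperty.of_isPullback hp.flip j.isOpen
  have hg : g ≫ Y.f = (aff k A[X]).f := by
    rw [← L.comm, ← Category.assoc, h1, Category.assoc, j.comm]
    exact M.comm
  exact ⟨⟨g, hg, ho⟩, hp⟩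

lemma dim_chart {X : Var k} (j : OpenIn (aff k A) X) (p : PrimeSpectrum A) :
    X.dim (j.g (toPt p)) = rdim k p := by
  rw [dim_map j.g j.comm, dim_toPt]

lemma rdim_comap_le (P : PrimeSpectrum A[X]) :
    rdim k (PrimeSpectrum.comap (C : A →+* A[X]) P) ≤ rdim k P := by
  unfold rdim
  have H : (PrimeSpectrum.comap (C : A →+* A[X]) P).asIdeal ≤
      P.asIdeal.comap (Polynomial.CAlgHom : A →ₐ[k] A[X]) := le_refl _
  have h1 : Function.Injective (Ideal.quotientMapₐ P.asIdeal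
      (Polynomial.CAlgHom : A →ₐ[k] A[X]) H) :=
    Ideal.quotientMap_injective' (H := H) (le_refl _)
  exact trdeg_le_of_injective _ h1

/-- The points of a line, in charts. -/
lemma exists_pt {Y X : Var k} (L : Line Y X) (j : OpenIn (aff k A) X)
    (g : OpenIn (aff k A[X]) Y)
    (hp : IsPullback g.g (spm (Polynomial.CAlgHom : A →ₐ[k] A[X])) L.q j.g)
    (y : Y.X) (p : PrimeSpectrum A) (h : L.q y = j.g (toPt p)) :
    ∃ P : PrimeSpectrum A[X], g.g (toPt P) = y ∧ PrimeSpectrum.comap C P = p := by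
  obtain ⟨z, hz1, hz2⟩ := Scheme.exists_preimage_of_isPullback hp y (toPt p) h
  exact ⟨ofPt z, hz1, hz2⟩

lemma line_le {Y X : Var k} (L : Line Y X) (y : Y.X) : X.dim (L.q y) ≤ Y.dim y ∧
    Y.dim y ≤ X.dim (L.q y) + 1 := by
  obtain ⟨A, i1, i2, i3, j, ⟨p, hp⟩⟩ := exists_chart X (L.q y)
  obtain ⟨g, hg⟩ := exists_line L j
  obtain ⟨P, rfl, hP⟩ := exists_pt L j g hg y (ofPt p) hp.symm
  have h1 : X.dim (L.q (g.g (toPt P))) = rdim k (PrimeSpectrum.comap (C : A →+* A[X]) P) := by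
    rw [← hp, hP]
    exact dim_chart j (ofPt p)
  rw [h1, dim_chart g P]
  exact ⟨rdim_comap_le P, (GX.hyp P).1⟩

lemma exists_dim (X : Var k) (x : X.X) : ∃ n : ℕ, X.dim x = n := by
  obtain ⟨A, i1, i2, i3, j, ⟨p, rfl⟩⟩ := exists_chart X x
  obtain ⟨n, hn⟩ := exists_rdim (k := k) (ofPt p)
  exact ⟨n, (dim_chart j (ofPt p)).trans hn⟩

lemma line_pt {Y X : Var k} (L : Line Y X) (x : X.X) : ∃ y : Y.X, L.q y = x ∧
    Y.dim y = X.dim x + 1 ∧ (∀ y' : Y.X, L.q y' = x → y ⤳ y') ∧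
    ∀ y' : Y.X, L.q y' = x → Y.dim y' = X.dim x + 1 → y' = y := by
  obtain ⟨A, i1, i2, i3, j, ⟨p, rfl⟩⟩ := exists_chart X x
  obtain ⟨g, hg⟩ := exists_line L j
  have hd : X.dim (j.g p) = rdim k (ofPt p) := dim_chart j (ofPt p)
  refine ⟨g.g (toPt (pX (ofPt p))), ?_, ?_, ?_, ?_⟩
  · have h1 : L.q (g.g (toPt (pX (ofPt p)))) = (g.g ≫ L.q) (toPt (pX (ofPt p))) := rfl
    rw [h1, hg.w]
    have h2 : (spm (Polynomial.CAlgHom : A →ₐ[k] A[X]) ≫ j.g) (toPt (pX (ofPt p))) =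
        j.g (toPt (PrimeSpectrum.comap C (pX (ofPt p)))) := rfl
    rw [h2, comap_pX]
    rfl
  · rw [dim_chart g, hd, rdim_pX]
  · intro y' hy'
    obtain ⟨P, rfl, hP⟩ := exists_pt L j g hg y' (ofPt p) hy'
    have h1 : (toPt (k := k) (pX (ofPt p)) : (aff k A[X]).X) ⤳ toPt P :=
      (PrimeSpectrum.le_iff_specializes _ _).mp (pX_le _ P hP)
    exact h1.map g.g.continuous
  · intro y' hy' hdim
    obtain ⟨P, rfl, hP⟩ := exists_pt L j g hg y' (ofPt p) hy'
    have h1 : pX (ofPt p) = P := by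
      apply eq_of_le_of_rdim_eq (k := k) (pX_le _ P hP)
      rw [rdim_pX, ← dim_chart g P, hdim, hd]
    rw [h1]

lemma not_self (X : Var k) (x : X.X) : X.dim x ≠ X.dim x + 1 := by
  obtain ⟨n, hn⟩ := exists_dim X x
  rw [hn]
  intro h
  norm_cast at h
  omega

lemma pbun_cases {P X : Var k} (B : PBun P X) (y : P.X) :
    (∃ u, B.j.g u = y) ∨ ∃ x, B.s.g x = y := by
  by_cases h : y ∈ Set.range B.j.g
  · exact Or.inl h
  · right
    have h1 : y ∈ Set.range B.s.g := by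
      rw [B.hc]
      exact h
    exact h1

lemma pbun_j {P X : Var k} (B : PBun P X) (u : B.U.X) : B.p.g (B.j.g u) = B.L.q u := by
  have h1 : B.p.g (B.j.g u) = (B.j.g ≫ B.p.g) u := rfl
  rw [h1, B.hL]

lemma pbun_s {P X : Var k} (B : PBun P X) (x : X.X) : B.p.g (B.s.g x) = x := by
  have h1 : B.p.g (B.s.g x) = (B.s.g ≫ B.p.g) x := rfl
  rw [h1, B.hs]
  rfl

end LPT

open LPT in
theorem t_LPT : S_LPT := by
  refine ⟨fun k _ Y X L y => line_le L y, fun k _ Y X L x => line_pt L x, ?_, ?_⟩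
  · intro k _ P X B y
    rcases pbun_cases B y with ⟨u, rfl⟩ | ⟨x, rfl⟩
    · rw [pbun_j, dim_map B.j.g B.j.comm]
      exact line_le B.L u
    · rw [pbun_s, dim_map B.s.g B.s.comm]
      exact ⟨le_rfl, le_self_add⟩
  · intro k _ P X B x
    obtain ⟨u, h1, h2, -, h4⟩ := line_pt B.L x
    refine ⟨B.j.g u, ?_, ?_, ⟨u, rfl⟩, ?_⟩
    · rw [pbun_j, h1]
    · rw [dim_map B.j.g B.j.comm, h2]
    · intro y' hy' hd
      rcases pbun_cases B y' with ⟨u', rfl⟩ | ⟨x', rfl⟩
      · rw [pbun_j] at hy'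
        rw [dim_map B.j.g B.j.comm] at hd
        rw [h4 u' hy' hd]
      · rw [pbun_s] at hy'
        rw [dim_map B.s.g B.s.comm, hy'] at hd
        exact absurd hd (not_self X x)

end CUB
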