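import Pool.Agent.CUB2.StmtsK
import Pool.Agent.CUB.A_DVX
import Pool.Agent.CUB.A_DIM1

/-!
# CUB2, module CNT: the fibres of `X × V(π)` over the points of `X`
-/

set_option autoImplicit false

open CategoryTheory AlgebraicGeometry Limits Polynomial TopologicalSpace

namespace CUB

open Pool.Agent.Lib_helper55.Beil Pool.Agent.Lib_helper66.OneP

universe v

namespace CNT

section Ring

variable {k A : Type} [Field k] [CommRing A] [Algebra k A] [Algebra.FiniteType k A]

/-- A prime of dimension `n + 1` over a prime of dimension `n` is extended. -/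
lemma eq_map {n : ℕ} (P : RP k A[X] (n + 1)) (p : RP k A n)
    (h : PrimeSpectrum.comap (C : A →+* A[X]) P.1 = p.1) : P.1 = pX p.1 := by
  symm
  apply eq_of_le_of_rdim_eq (k := k) (pX_le p.1 P.1 h)
  rw [rdim_pX, p.2, P.2]
  push_cast
  rfl

omit [Algebra k A] [Algebra.FiniteType k A] in
/-- A monic polynomial is not in an extended prime. -/
lemma monic_notMem (p : PrimeSpectrum A) (π : A[X]) (hπ : π.Monic) :
    π ∉ (pX p).asIdeal := by
  intro h
  have h1 : π ∈ p.asIdeal.map (C : A →+* A[X]) := h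
  rw [Ideal.mem_map_C_iff] at h1
  have h2 := h1 π.natDegree
  rw [hπ.coeff_natDegree] at h2
  exact p.isPrime.ne_top ((Ideal.eq_top_iff_one _).mpr h2)

/-- The finite set of primes over `p` which contain `π`. -/
lemma exists_fibre (hLENC : S_LENC) (hCNTD : S_CNTD) {n : ℕ} (P : RP k A[X] (n + 1))
    (p : RP k A n) (hP : P.1 = pX p.1) (π : A[X]) (hπ : π.Monic) :
    ∃ S : Finset (RP k A[X] n), ∀ Q : RP k A[X] n, Q ∈ S ↔
      PrimeSpectrum.comap (C : A →+* A[X]) Q.1 = p.1 ∧ π ∈ Q.1.asIdeal := by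
  have hπP : π ∉ P.1.asIdeal := by
    rw [hP]
    exact monic_notMem p.1 π hπ
  obtain ⟨c, hc⟩ := t_DVX t_DIM1 hLENC k A[X] ℚ n P π hπP
  refine ⟨c.support, fun Q => ?_⟩
  rw [Finsupp.mem_support_iff, hc Q, Nat.cast_ne_zero]
  constructor
  · intro h
    obtain ⟨h1, h2⟩ := (hLENC k A[X] n P Q).2.1 π h
    refine ⟨?_, h2⟩
    apply (hCNTD k A π hπ).2 n p Q h2
    rw [hP] at h1
    exact h1
  · rintro ⟨h1, h2⟩
    refine (hLENC k A[X] n P Q).2.2.1 π hπP ?_ h2
    rw [hP]
    exact pX_le p.1 Q.1 h1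

end Ring

/-- The value of the push-forward of a cycle on `D` at a point. -/
lemma sum_fibre {ι κ : Type} {E : Type} [Field E] (g : ι →₀ E) (F : ι → E) (S : Finset κ)
    (m : ∀ Q ∈ S, ι) (G : κ → E) (hm : ∀ Q (hQ : Q ∈ S) Q' (hQ' : Q' ∈ S),
      m Q hQ = m Q' hQ' → Q = Q')
    (h1 : ∀ z, g z * F z ≠ 0 → ∃ Q, ∃ hQ : Q ∈ S, m Q hQ = z)
    (h2 : ∀ Q (hQ : Q ∈ S), g (m Q hQ) * F (m Q hQ) = G Q) :
    g.sum (fun z e => e * F z) = ∑ Q ∈ S, G Q := by
  classical
  let T : Finset ι := S.attach.image (fun Q => m Q.1 Q.2)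
  have e1 : g.sum (fun z e => e * F z) = ∑ z ∈ g.support ∪ T, g z * F z := by
    rw [Finsupp.sum]
    apply Finset.sum_subset Finset.subset_union_left
    intro z _ hz
    rw [Finsupp.notMem_support_iff.mp hz, zero_mul]
  have e2 : ∑ z ∈ T, g z * F z = ∑ z ∈ g.support ∪ T, g z * F z := by
    apply Finset.sum_subset Finset.subset_union_right
    intro z _ hz
    by_contra hne
    obtain ⟨Q, hQ, hQz⟩ := h1 z hne
    apply hz
    rw [Finset.mem_image]
    exact ⟨⟨Q, hQ⟩, Finset.mem_attach _ _, hQz⟩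
  rw [e1, ← e2, Finset.sum_image]
  · rw [← Finset.sum_attach S]
    apply Finset.sum_congr rfl
    intro Q _
    exact h2 Q.1 Q.2
  · intro Q _ Q' _ hQQ
    exact Subtype.ext (hm Q.1 Q.2 Q'.1 Q'.2 hQQ)

end CNT

theorem t_CNT : M_CNT.{v} := by
  intro hPFC _ hCHA hGYS hPICK hDPI hRDD hCNTA hCNTD hLENC
  intro k E _ _ n Y X D L π a f x P hπ hf hz hP
  classical
  -- the support
  have hsupp : ∀ Q : Pts n Y, gysPt E n (L.fn π) P Q ≠ 0 → Q ∈ Set.range (ptsMap n a) := by
    intro Q hQ
    have h1 : gys E n (L.fn π) (Finsupp.single P 1) = gysPt E n (L.fn π) P := by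
      unfold gys
      rw [Finsupp.linearCombination_single, one_smul]
    have h2 := hGYS.2.2.2.2 k E n Y (L.fn π) (Finsupp.single P 1) Q (by rw [h1]; exact hQ)
    apply mem_range_ptsMap a Q
    have h3 : Set.range a.g = ((Y.X.basicOpen (L.fn π) : Y.X.Opens) : Set Y.X)ᶜ := hz
    rw [h3]
    exact h2
  let g' : Pts n D →₀ E :=
    Finsupp.comapDomain (ptsMap n a) (gysPt E n (L.fn π) P) (ptsMap_injective n a).injOn
  have hg' : ∀ z : Pts n D, g' z = gysPt E n (L.fn π) P (ptsMap n a z) := fun z => rfl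
  refine ⟨g', ?_, ?_⟩
  · ext Q
    by_cases hQ : Q ∈ Set.range (ptsMap n a)
    · obtain ⟨z, rfl⟩ := hQ
      exact Finsupp.mapDomain_apply (ptsMap_injective n a) g' z
    · have h1 : gysPt E n (L.fn π) P Q = 0 := by
        by_contra hne
        exact hQ (hsupp Q hne)
      rw [h1]
      exact Finsupp.mapDomain_of_notMem_range _ _ hQ
  · ext y
    rw [hPFC.2.2.2.2.2 k E n D X f g' y]
    -- the charts
    obtain ⟨A, i1, i2, i3, j, ⟨u, hu⟩, -⟩ := hCHA.1 k X y.1 ⊤ trivial
    have hu' : j.g (toPt (ofPt u)) = y.1 := hu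
    obtain ⟨j', hj1, hj2, hj3⟩ := hDPI.2.2 k A Y X L j
    have hqj : ∀ Q : PrimeSpectrum A[X], L.q (j'.g (toPt Q)) =
        j.g (toPt (PrimeSpectrum.comap (C : A →+* A[X]) Q)) := by
      intro Q
      exact congrArg (fun (h : (aff k A[X]).X ⟶ X.X) => h (toPt Q)) hj1
    have hdim' : ∀ (Q : PrimeSpectrum A[X]) (m : ℕ), Y.dim (j'.g (toPt Q)) = m ↔ rdim k Q = m := by
      intro Q m
      rw [dim_map j'.g j'.comm, dim_toPt]
    have hdim : ∀ (Q : PrimeSpectrum A) (m : ℕ), X.dim (j.g (toPt Q)) = m ↔ rdim k Q = m := by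
      intro Q m
      rw [dim_map j.g j.comm, dim_toPt]
    -- points of `D` over `y` are in the chart
    have hchart : ∀ z : Pts n D, f.g z.1 = y.1 →
        ∃ Q : RP k A[X] n, j'.g (toPt Q.1) = a.g z.1 := by
      intro z hzy
      have h1 : L.q (a.g z.1) = y.1 := by
        rw [← hzy, hf]
        rfl
      obtain ⟨w, hw⟩ := hj2 (a.g z.1) (by rw [h1]; exact ⟨u, hu⟩)
      have hw' : j'.g (toPt (ofPt w)) = a.g z.1 := hw
      refine ⟨⟨ofPt w, ?_⟩, hw'⟩
      rw [← hdim', hw']
      exact (ptsMap n a z).2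
    have hrc : ∀ (z : Pts n D) (Q : RP k A[X] n), j'.g (toPt Q.1) = a.g z.1 →
        g' z = rc E n j' (gysPt E n (L.fn π) P) Q := by
      intro z Q hQ
      rw [hg']
      exact (hCHA.2.2.2.2.2 k A[X] E n Y j' (gysPt E n (L.fn π) P) Q (ptsMap n a z) hQ).symm
    by_cases hPj : P.1 ∈ Set.range j'.g
    · obtain ⟨w, hw⟩ := hPj
      have hw' : j'.g (toPt (ofPt w)) = P.1 := hw
      have hdw : rdim k (ofPt w) = (n + 1 : ℕ) := by
        rw [← hdim', hw']
        exact P.2
      let P0 : RP k A[X] (n + 1) := ⟨ofPt w, hdw⟩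
      have hx : j.g (toPt (PrimeSpectrum.comap (C : A →+* A[X]) P0.1)) = x.1 := by
        rw [← hqj, ← hP, ← hw']
      have hdp : rdim k (PrimeSpectrum.comap (C : A →+* A[X]) P0.1) = n := by
        rw [← hdim, hx]
        exact x.2
      let p : RP k A n := ⟨PrimeSpectrum.comap (C : A →+* A[X]) P0.1, hdp⟩
      have hP0 : P0.1 = pX p.1 := CNT.eq_map P0 p rfl
      let πA : A[X] := π.map (algebraMap k A)
      have hπA : πA.Monic := hπ.map _
      have hπP : πA ∉ P0.1.asIdeal := by
        rw [hP0]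
        exact CNT.monic_notMem p.1 πA hπA
      have hrf : rfn j' (L.fn π) = πA := hj3 π
      have hdv : IsDv k E P0.1 πA (rc E n j' (gysPt E n (L.fn π) P)) := by
        have h1 := ((hGYS.2.1 k A[X] E n Y (L.fn π) P j').2 P0 hw' (by rw [hrf]; exact hπP)).2
        rw [hrf] at h1
        exact h1
      -- the points of `D` over `y` with nonzero multiplicity
      have hover : ∀ (z : Pts n D) (Q : RP k A[X] n), j'.g (toPt Q.1) = a.g z.1 → g' z ≠ 0 →
          PrimeSpectrum.comap (C : A →+* A[X]) Q.1 = p.1 ∧ πA ∈ Q.1.asIdeal := by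
        intro z Q hQ hne
        rw [hrc z Q hQ, hdv Q] at hne
        have h1 : len (P0.1.asIdeal ⊔ Ideal.span {πA}) Q.1 ≠ 0 := by
          intro h0
          apply hne
          rw [h0, Nat.cast_zero]
        obtain ⟨h2, h3⟩ := (hLENC k A[X] n P0 Q).2.1 πA h1
        refine ⟨?_, h3⟩
        apply (hCNTD k A πA hπA).2 n p Q h3
        rw [hP0] at h2
        exact h2
      have hfz : ∀ (z : Pts n D) (Q : RP k A[X] n), j'.g (toPt Q.1) = a.g z.1 →
          f.g z.1 = j.g (toPt (PrimeSpectrum.comap (C : A →+* A[X]) Q.1)) := by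
        intro z Q hQ
        rw [← hqj, hQ, hf]
        rfl
      by_cases hxy : x = y
      · subst hxy
        rw [Finsupp.single_eq_same]
        obtain ⟨S, hS⟩ := CNT.exists_fibre hLENC hCNTD P0 p hP0 πA hπA
        have hSm : ∀ Q ∈ S, ∃ z : Pts n D, a.g z.1 = j'.g (toPt Q.1) := by
          intro Q hQ
          have h1 : j'.g (toPt Q.1) ∉ Y.X.basicOpen (L.fn π) := by
            rw [hGYS.2.2.1 k A[X] Y (L.fn π) j' Q.1, not_not, hrf]
            exact ((hS Q).1 hQ).2
          have h2 : j'.g (toPt Q.1) ∈ Set.range a.g := by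
            have h3 : Set.range a.g = ((Y.X.basicOpen (L.fn π) : Y.X.Opens) : Set Y.X)ᶜ := hz
            rw [h3]
            exact h1
          obtain ⟨z, hz2⟩ := mem_range_ptsMap a
            (⟨j'.g (toPt Q.1), (hdim' Q.1 n).2 Q.2⟩ : Pts n Y) h2
          exact ⟨z, congrArg Subtype.val hz2⟩
        choose m hm using hSm
        have hsum := hCNTA k A n p P0 πA S hπA (by rw [hP0]; rfl) hS
        have hnat : πA.natDegree = π.natDegree := by
          have : Nontrivial A := ⟨⟨0, 1, fun h01 => p.1.isPrime.ne_top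
            ((Ideal.eq_top_iff_one _).mpr (by rw [← h01]; exact zero_mem _))⟩⟩
          exact hπ.natDegree_map _
        rw [← hnat, ← hsum, Nat.cast_sum]
        refine CNT.sum_fibre g' (fun z => if f.g z.1 = x.1 then (f.deg z.1 : E) else 0) S m
          (fun Q => ((rdeg (C : A →+* A[X]) Q.1 *
            len (P0.1.asIdeal ⊔ Ideal.span {πA}) Q.1 : ℕ) : E)) ?_ ?_ ?_
        · intro Q hQ Q' hQ' hQQ
          have h1 : j'.g (toPt Q.1) = j'.g (toPt Q'.1) := by
            rw [← hm Q hQ, ← hm Q' hQ', hQQ]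
          exact Subtype.ext (openIn_injective j' h1)
        · intro z hne
          have hne1 : g' z ≠ 0 := fun h0 => hne (by rw [h0, zero_mul])
          have hne2 : f.g z.1 = x.1 := by
            by_contra hcon
            apply hne
            rw [if_neg hcon, mul_zero]
          obtain ⟨Q, hQ⟩ := hchart z hne2
          have hQS : Q ∈ S := (hS Q).2 (hover z Q hQ hne1)
          refine ⟨Q, hQS, ?_⟩
          apply ptsMap_injective n a
          apply Subtype.ext
          exact (hm Q hQS).trans hQ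
        · intro Q hQ
          have h1 : j'.g (toPt Q.1) = a.g (m Q hQ).1 := (hm Q hQ).symm
          have h2 : f.g (m Q hQ).1 = x.1 := by
            rw [hfz (m Q hQ) Q h1, ((hS Q).1 hQ).1]
            exact hx
          have h3 : f.deg (m Q hQ).1 = rdeg (C : A →+* A[X]) Q.1 :=
            hRDD k A A[X] (CC k A) X Y D L.q a f j j' hf hj1 Q.1 (m Q hQ).1 (hm Q hQ)
          rw [if_pos h2, h3, hrc (m Q hQ) Q h1, hdv Q, Nat.cast_mul, mul_comm]
      · rw [Finsupp.single_eq_of_ne' hxy]
        apply Finset.sum_eq_zero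
        intro z hzs
        have hne : g' z ≠ 0 := Finsupp.mem_support_iff.1 hzs
        change g' z * (if f.g z.1 = y.1 then (f.deg z.1 : E) else 0) = 0
        split_ifs with hzy
        · exfalso
          obtain ⟨Q, hQ⟩ := hchart z hzy
          have h1 := (hover z Q hQ hne).1
          apply hxy
          apply Subtype.ext
          rw [← hzy, hfz z Q hQ, h1]
          exact hx.symm
        · rw [mul_zero]
    · -- `P` is not in the chart
      have h0 : rc E n j' (gysPt E n (L.fn π) P) = 0 :=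
        (hGYS.2.1 k A[X] E n Y (L.fn π) P j').1 hPj
      have hxy : x ≠ y := by
        rintro rfl
        apply hPj
        apply hj2
        rw [hP]
        exact ⟨u, hu⟩
      rw [Finsupp.single_eq_of_ne' hxy]
      apply Finset.sum_eq_zero
      intro z hzs
      have hne : g' z ≠ 0 := Finsupp.mem_support_iff.1 hzs
      change g' z * (if f.g z.1 = y.1 then (f.deg z.1 : E) else 0) = 0
      split_ifs with hzy
      · exfalso
        obtain ⟨Q, hQ⟩ := hchart z hzy
        apply hne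
        rw [hrc z Q hQ, h0]
        rfl
      · rw [mul_zero]

end CUB
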