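import Pool.Agent.CUB2.StmtsK

/-!
# CUB2, module DPI: the closed subvariety `X × V(π)` of a line over `X`
-/

set_option autoImplicit false

open CategoryTheory AlgebraicGeometry Limits Polynomial TopologicalSpace

namespace CUB

open Pool.Agent.Lib_helper55.Beil Pool.Agent.Lib_helper66.OneP

namespace DPI

/-! ## Finite morphisms preserve the dimension of points -/

section Ring

variable {k A B : Type} [Field k] [CommRing A] [CommRing B] [Algebra k A] [Algebra k B]

lemma rdim_integral (φ : A →ₐ[k] B) (hφ : φ.toRingHom.IsIntegral) (Q : PrimeSpectrum B) :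
    rdim k (PrimeSpectrum.comap φ.toRingHom Q) = rdim k Q := by
  let p : Ideal A := Q.asIdeal.comap φ.toRingHom
  have hp : p.IsPrime := Ideal.comap_isPrime _ _
  let D := A ⧸ p
  let D' := B ⧸ Q.asIdeal
  let g : D →+* D' := Ideal.quotientMap Q.asIdeal φ.toRingHom le_rfl
  let alg : Algebra D D' := g.toAlgebra
  have hinj : Function.Injective (algebraMap D D') :=
    Ideal.quotientMap_injective (I := Q.asIdeal) (f := φ.toRingHom)
  have hf2 : FaithfulSMul D D' := (faithfulSMul_iff_algebraMap_injective D D').mpr hinj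
  have hf : FaithfulSMul k D := (faithfulSMul_iff_algebraMap_injective k D).mpr
      (algebraMap k D).injective
  have htow : IsScalarTower k D D' := by
    refine IsScalarTower.of_algebraMap_eq fun r => ?_
    change Ideal.Quotient.mk Q.asIdeal (algebraMap k B r) =
      g (Ideal.Quotient.mk p (algebraMap k A r))
    change _ = Ideal.Quotient.mk Q.asIdeal (φ (algebraMap k A r))
    rw [φ.commutes]
  have hint : Algebra.IsIntegral D D' := by
    constructor
    intro x
    obtain ⟨y, rfl⟩ := Ideal.Quotient.mk_surjective x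
    obtain ⟨P, hP1, hP2⟩ := hφ y
    refine ⟨P.map (Ideal.Quotient.mk p), hP1.map _, ?_⟩
    have h1 : (algebraMap D D').comp (Ideal.Quotient.mk p) =
        (Ideal.Quotient.mk Q.asIdeal).comp φ.toRingHom := RingHom.ext fun _ => rfl
    rw [Polynomial.eval₂_map, h1, ← Polynomial.hom_eval₂, hP2, map_zero]
  have h2 := trdeg_add_eq k D (A := D')
  rw [trdeg_eq_zero (R := D) (A := D'), add_zero] at h2
  exact h2

end Ring

/-- A finite morphism preserves the dimension of points. -/
theorem dim_finite {k : Type} [Field k] (D X : Var k) (f : D.X ⟶ X.X) (hc : f ≫ X.f = D.f)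
    [IsFinite f] (z : D.X) : X.dim (f z) = D.dim z := by
  obtain ⟨U, hU, hx, -⟩ := exists_isAffineOpen_mem_and_subset (U := ⊤) (x := f z) trivial
  have hA : IsAffine (openVar X U).X := hU
  obtain ⟨A, i1, i2, i3, ⟨s⟩⟩ := exists_aff (openVar X U)
  -- the preimage of the chart
  let V : D.X.Opens := f ⁻¹ᵁ U
  have hV : IsAffine (openVar D V).X := hU.preimage f
  obtain ⟨B, i4, i5, i6, ⟨t⟩⟩ := exists_aff (openVar D V)
  let g : (openVar D V).X ⟶ (openVar X U).X := f ∣_ U
  have hg : IsFinite g := inferInstanceAs (IsFinite (f ∣_ U))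
  have hgc : g ≫ (openVar X U).f = (openVar D V).f := by
    change (f ∣_ U) ≫ U.ι ≫ X.f = V.ι ≫ D.f
    rw [morphismRestrict_ι_assoc, hc]
  let h : (aff k B).X ⟶ (aff k A).X := t.e.hom ≫ g ≫ s.e.inv
  have hh : IsFinite h := inferInstanceAs (IsFinite (t.e.hom ≫ g ≫ s.e.inv))
  have hsc : s.e.inv ≫ (aff k A).f = (openVar X U).f := by
    rw [← s.comm, Iso.inv_hom_id_assoc]
  have hhc : h ≫ (aff k A).f = (aff k B).f := by
    change (t.e.hom ≫ g ≫ s.e.inv) ≫ _ = _
    rw [Category.assoc, Category.assoc, hsc, hgc, t.comm]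
  -- the ring homomorphism
  let ψ : CommRingCat.of A ⟶ CommRingCat.of B := Spec.preimage h
  have hψ : Spec.map ψ = h := Spec.map_preimage _
  let φ : A →ₐ[k] B :=
    { ψ.hom with
      commutes' := fun r => by
        have h1 : CommRingCat.ofHom (algebraMap k A) ≫ ψ = CommRingCat.ofHom (algebraMap k B) := by
          apply Spec.map_injective
          rw [Spec.map_comp, hψ]
          exact hhc
        exact congrArg (fun (χ : CommRingCat.of k ⟶ CommRingCat.of B) => χ.hom r) h1 }
  have hφh : spm φ = h := hψ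
  have hfin : φ.toRingHom.Finite := by
    have h1 : IsFinite (Spec.map ψ) := by
      rw [hψ]
      exact hh
    exact (IsFinite.SpecMap_iff _).1 h1
  have hint : φ.toRingHom.IsIntegral := hfin.to_isIntegral
  -- the point
  let z' : (openVar D V).X := ⟨z, hx⟩
  have hz' : (openVarIn D V).g z' = z := rfl
  let Q : (aff k B).X := t.symm.e.hom z'
  have e1 : D.dim z = (openVar D V).dim z' := by
    have := dim_map (openVarIn D V).g (openVarIn D V).comm z'
    rwa [hz'] at this
  have e2 : (aff k B).dim Q = (openVar D V).dim z' := dim_map t.symm.e.hom t.symm.comm z'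
  have e3 : (aff k B).dim Q = rdim k (ofPt Q) := dim_toPt (ofPt Q)
  have e4 : (aff k A).dim (h Q) = rdim k (PrimeSpectrum.comap φ.toRingHom (ofPt Q)) := by
    rw [← dim_toPt, ← hφh]
    rfl
  have e5 : (openVar X U).dim (g z') = (aff k A).dim (h Q) := by
    have h1 := dim_map s.e.hom s.comm (h Q)
    rw [← h1]
    congr 1
    change g z' = (h ≫ s.e.hom) (t.e.inv z')
    have h2 : h ≫ s.e.hom = t.e.hom ≫ g := by
      change (t.e.hom ≫ g ≫ s.e.inv) ≫ s.e.hom = _
      rw [Category.assoc, Category.assoc, Iso.inv_hom_id, Category.comp_id]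
    have h3 : t.e.inv ≫ h ≫ s.e.hom = g := by
      rw [h2, Iso.inv_hom_id_assoc]
    conv_lhs => rw [← h3]
    rfl
  have e6 : X.dim (f z) = (openVar X U).dim (g z') := by
    have h1 := dim_map (openVarIn X U).g (openVarIn X U).comm (g z')
    rw [← h1]
    congr 1
    change f z = (g ≫ U.ι) z'
    have h2 : g ≫ U.ι = V.ι ≫ f := morphismRestrict_ι f U
    rw [h2]
    rfl
  rw [e6, e5, e4, rdim_integral φ hint, ← e3, e2, e1]

/-! ## The zero set of a polynomial in the coordinate -/

/-- `Spec (k[t] / π) → Spec k[t]`. -/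
noncomputable abbrev pii (k : Type) [Field k] (π : k[X]) :
    Spec (CommRingCat.of (k[X] ⧸ Ideal.span {π})) ⟶ Spec (CommRingCat.of k[X]) :=
  Spec.map (CommRingCat.ofHom (Ideal.Quotient.mk (Ideal.span {π})))

instance (k : Type) [Field k] (π : k[X]) : IsClosedImmersion (pii k π) :=
  IsClosedImmersion.spec_of_surjective _ Ideal.Quotient.mk_surjective

lemma range_pii (k : Type) [Field k] (π : k[X]) (x : Spec (CommRingCat.of k[X])) :
    x ∈ Set.range (pii k π) ↔ π ∈ (show PrimeSpectrum k[X] from x).asIdeal := by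
  have h1 : Set.range (pii k π) =
      (Set.range (PrimeSpectrum.comap (Ideal.Quotient.mk (Ideal.span {π}))) :
        Set (PrimeSpectrum k[X])) := rfl
  rw [h1, range_comap_of_surjective _ _ Ideal.Quotient.mk_surjective, Ideal.mk_ker]
  exact (PrimeSpectrum.mem_zeroLocus _ _).trans (Ideal.span_singleton_le_iff_mem _)

lemma mem_basicOpen {k : Type} [Field k] {Y X : Var k} (L : Line Y X) (π : k[X]) (y : Y.X) :
    y ∈ Y.X.basicOpen (L.fn π) ↔ π ∉ (show PrimeSpectrum k[X] from L.t y).asIdeal := by
  have h1 : Y.X.basicOpen (L.fn π) = L.t ⁻¹ᵁ ((Spec (CommRingCat.of k[X])).basicOpen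
      ((Scheme.ΓSpecIso (CommRingCat.of k[X])).inv π)) := by
    rw [Scheme.preimage_basicOpen]
    rfl
  rw [h1, basicOpen_eq_of_affine]
  rfl

lemma finite_quot (k : Type) [Field k] (π : k[X]) (hπ : π.Monic) :
    IsFinite (pii k π ≫ Spec.map (CommRingCat.ofHom (algebraMap k k[X]))) := by
  rw [← Spec.map_comp, ← CommRingCat.ofHom_comp, IsFinite.SpecMap_iff]
  have h1 : Module.Finite k (k[X] ⧸ Ideal.span {π}) := hπ.finite_quotient
  exact RingHom.finite_algebraMap.2 h1

/-- The closed subvariety defined by a monic polynomial in the coordinate. -/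
theorem part1 {k : Type} [Field k] (Y X : Var k) (L : Line Y X) (π : k[X]) (hπ : π.Monic) :
    ∃ (D : Var k) (a : ClosedIn D Y) (f : PrMor D X), f.g = a.g ≫ L.q ∧
      IsZeros a (L.fn π) ∧ IsFinite f.g := by
  let D : Var k :=
    { X := pullback L.t (pii k π)
      f := pullback.fst L.t (pii k π) ≫ Y.f
      sep := inferInstance
      lft := inferInstance
      qc := inferInstance }
  let a : ClosedIn D Y :=
    { g := pullback.fst L.t (pii k π)
      comm := rfl
      closed := inferInstance }
  have hsq : IsPullback (pullback.fst L.t (pii k π) ≫ L.q) (pullback.snd L.t (pii k π)) X.f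
      (pii k π ≫ Spec.map (CommRingCat.ofHom (algebraMap k k[X]))) :=
    (IsPullback.of_hasPullback L.t (pii k π)).paste_horiz L.prod
  have hfin : IsFinite (pullback.fst L.t (pii k π) ≫ L.q) :=
    MorphismProperty.of_isPullback hsq.flip (finite_quot k π hπ)
  let f : PrMor D X :=
    { g := pullback.fst L.t (pii k π) ≫ L.q
      comm := by
        rw [Category.assoc, L.comm]
      proper := inferInstance }
  refine ⟨D, a, f, rfl, ?_, hfin⟩
  change Set.range (pullback.fst L.t (pii k π)) = _
  rw [Scheme.Pullback.range_fst]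
  ext y
  rw [Set.mem_preimage, range_pii, Set.mem_compl_iff, SetLike.mem_coe, mem_basicOpen, not_not]

/-! ## Charts -/

theorem part3 {k A : Type} [Field k] [CommRing A] [Algebra k A] [Algebra.FiniteType k A]
    (Y X : Var k) (L : Line Y X) (j : OpenIn (aff k A) X) : ∃ j' : OpenIn (aff k A[X]) Y,
    j'.g ≫ L.q = spm (CC k A) ≫ j.g ∧ (∀ y : Y.X, L.q y ∈ Set.range j.g → y ∈ Set.range j'.g) ∧
    ∀ π : k[X], rfn j' (L.fn π) = π.map (algebraMap k A) := by
  let M : Line (aff k A[X]) (aff k A) := lineX A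
  have hM : M.q = spm (CC k A) := rfl
  have hw : (M.q ≫ j.g) ≫ X.f = M.t ≫ Spec.map (CommRingCat.ofHom (algebraMap k k[X])) := by
    rw [Category.assoc, j.comm, M.prod.w]
  let g : (aff k A[X]).X ⟶ Y.X := L.prod.lift (M.q ≫ j.g) M.t hw
  have hg1 : g ≫ L.q = M.q ≫ j.g := L.prod.lift_fst _ _ _
  have hg2 : g ≫ L.t = M.t := L.prod.lift_snd _ _ _
  have hsq : IsPullback g M.q L.q j.g := by
    have h1 : IsPullback (g ≫ L.t) M.q (Spec.map (CommRingCat.ofHom (algebraMap k k[X])))
        (j.g ≫ X.f) := by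
      rw [hg2, j.comm]
      exact M.prod.flip
    exact IsPullback.of_right h1 hg1 L.prod.flip
  have ho : IsOpenImmersion g := by
    have hj : IsOpenImmersion j.g := j.isOpen
    exact MorphismProperty.of_isPullback hsq.flip hj
  let j' : OpenIn (aff k A[X]) Y :=
    { g := g
      comm := by
        rw [← L.comm, ← Category.assoc, hg1, Category.assoc, j.comm, M.comm]
      isOpen := ho }
  refine ⟨j', hg1, fun y hy => ?_, fun π => ?_⟩
  · obtain ⟨x, hx⟩ := hy
    obtain ⟨z, hz, -⟩ := Scheme.exists_preimage_of_isPullback hsq y x hx.symm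
    exact ⟨z, hz⟩
  · have h1 : j'.g.appTop (L.fn π) = M.t.appTop ((Scheme.ΓSpecIso (CommRingCat.of k[X])).inv π) := by
      have h2 : (g ≫ L.t).appTop = L.t.appTop ≫ g.appTop := Scheme.Hom.comp_appTop _ _
      rw [hg2] at h2
      rw [h2]
      rfl
    rw [rfn, h1]
    have h3 := Scheme.ΓSpecIso_inv_naturality (CommRingCat.ofHom
      ((RingEquiv.refl A[X]).toRingHom.comp (Polynomial.mapRingHom (algebraMap k A))))
    have h4 : M.t.appTop ((Scheme.ΓSpecIso (CommRingCat.of k[X])).inv π) =
        (Scheme.ΓSpecIso (CommRingCat.of A[X])).inv (π.map (algebraMap k A)) :=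
      (congrArg (fun (χ : CommRingCat.of k[X] ⟶ Γ(Spec (CommRingCat.of A[X]), ⊤)) => χ.hom π)
        h3).symm
    rw [h4]
    exact Iso.inv_hom_id_apply (Scheme.ΓSpecIso (CommRingCat.of A[X])) _

end DPI

/-- DPI. -/
theorem t_DPI : S_DPI := by
  refine ⟨fun k _ Y X L π hπ => DPI.part1 Y X L π hπ, fun k _ D X f hf z => ?_,
    fun k A _ _ _ _ Y X L j => DPI.part3 Y X L j⟩
  exact DPI.dim_finite D X f.g f.comm z

end CUB
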