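import Pool.Agent.CUB2.StmtsK

/-!
# CUB2: module GDV
-/

set_option autoImplicit false

open CategoryTheory AlgebraicGeometry Limits Polynomial TopologicalSpace

namespace CUB

open Pool.Agent.Lib_helper55.Beil Pool.Agent.Lib_helper66.OneP

namespace GDV

variable {k : Type} [Field k] {E : Type} [Field E]

/-- A point is the generic point of an integral closed subvariety. -/
lemma exists_closure (D : Var k) (T : D.X) : ∃ (V : Var k) (_ : IsIntegral V.X)
    (b : ClosedIn V D), b.g (genericPoint V.X) = T := by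
  let F : Spec (D.X.residueField T) ⟶ D.X := D.X.fromSpecResidueField T
  have hq : QuasiCompact F := by
    have h1 : QuasiCompact (F ≫ D.f) := inferInstance
    exact QuasiCompact.of_comp F D.f
  let V : Var k :=
    { X := F.image
      f := F.imageι ≫ D.f
      sep := inferInstance
      lft := inferInstance
      qc := inferInstance }
  have hV : IsIntegral V.X := isIntegral_image F
  let b : ClosedIn V D := ⟨F.imageι, rfl, inferInstanceAs (IsClosedImmersion F.imageι)⟩
  refine ⟨V, hV, b, ?_⟩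
  have h1 := (genericPoint_spec (Spec (D.X.residueField T))).image F.toImage.continuous
  rw [Set.image_univ] at h1
  have h2 : closure (Set.range F.toImage) = Set.univ :=
    (IsDominant.denseRange (f := F.toImage)).closure_range
  rw [h2] at h1
  have h3 : F.toImage (genericPoint (Spec (D.X.residueField T))) = genericPoint V.X :=
    h1.eq (genericPoint_spec V.X)
  rw [← h3]
  have h4 : b.g (F.toImage (genericPoint (Spec (D.X.residueField T)))) =
      F (genericPoint (Spec (D.X.residueField T))) :=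
    congrArg (fun m : Spec (D.X.residueField T) ⟶ D.X =>
      m (genericPoint (Spec (D.X.residueField T)))) F.toImage_imageι
  rw [h4]
  exact Scheme.fromSpecResidueField_apply _ _

/-- The composition of closed immersions. -/
def compC {V D W : Var k} (b : ClosedIn V D) (a : ClosedIn D W) : ClosedIn V W where
  g := b.g ≫ a.g
  comm := by rw [Category.assoc, a.comm, b.comm]
  closed := inferInstance

/-- A divisor on a closed subvariety, as the push-forward of a cycle. -/
lemma isDiv_pushCyc {n : ℕ} {V D W : Var k} [IsIntegral V.X] (b : ClosedIn V D)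
    (a : ClosedIn D W) (φ : V.X.functionField) (d : Pts n D →₀ E) (hd : IsDiv b φ d) :
    IsDiv (compC b a) φ (pushCyc a d) := by
  constructor
  · intro w h
    have hw : D.dim (b.g w) = n := by
      rw [← dim_map a.g a.comm]
      exact h
    have h5 : Finsupp.mapDomain (ptsMap n a) d (ptsMap n a (Subtype.mk (b.g w) hw : Pts n D)) =
        d (Subtype.mk (b.g w) hw : Pts n D) :=
      Finsupp.mapDomain_apply (ptsMap_injective n a) _ _
    exact h5.trans (hd.1 w hw)
  · intro x hx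
    by_cases hx2 : x ∈ Set.range (ptsMap n a)
    · obtain ⟨z, rfl⟩ := hx2
      have h5 : Finsupp.mapDomain (ptsMap n a) d (ptsMap n a z) = d z :=
        Finsupp.mapDomain_apply (ptsMap_injective n a) _ _
      refine h5.trans (hd.2 z ?_)
      rintro ⟨v, hv⟩
      apply hx
      refine ⟨v, ?_⟩
      have h6 : (compC b a).g v = a.g (b.g v) := rfl
      rw [h6, hv]
      rfl
    · exact Finsupp.mapDomain_of_notMem_range _ _ hx2

/-- Germs and isomorphisms of function fields. -/
lemma funMap_germ {A B : Scheme.{0}} (h : A ⟶ B) [IsOpenImmersion h] [IsIntegral A]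
    [IsIntegral B] (O : B.Opens) (hO : genericPoint B ∈ O) (s : Γ(B, O))
    (hO' : genericPoint A ∈ h ⁻¹ᵁ O) :
    funMap h (B.presheaf.germ O (genericPoint B) hO s) =
      A.presheaf.germ (h ⁻¹ᵁ O) (genericPoint A) hO' (h.app O s) := by
  have h1 : B.presheaf.stalkSpecializes (specializes_of_eq (genericPoint_eq_of_isOpenImmersion h))
      (B.presheaf.germ O (genericPoint B) hO s) =
      B.presheaf.germ O (h (genericPoint A)) hO' s :=
    B.presheaf.germ_stalkSpecializes_apply _ _ _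
  have h2 : h.stalkMap (genericPoint A) (B.presheaf.germ O (h (genericPoint A)) hO' s) =
      A.presheaf.germ (h ⁻¹ᵁ O) (genericPoint A) hO' (h.app O s) :=
    Scheme.Hom.germ_stalkMap_apply h O (genericPoint A) hO' s
  refine Eq.trans ?_ h2
  rw [← h1]
  rfl

lemma germ_congr {A B : Scheme.{0}} (m m' : A ⟶ B) (hm : m = m') (O : B.Opens) (s : Γ(B, O))
    (x : A) (hx : x ∈ m ⁻¹ᵁ O) (hx' : x ∈ m' ⁻¹ᵁ O) :
    A.presheaf.germ (m ⁻¹ᵁ O) x hx (m.app O s) = A.presheaf.germ (m' ⁻¹ᵁ O) x hx' (m'.app O s) := by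
  subst hm
  rfl

section Affine

variable {A : Type} [CommRing A] [Algebra k A] [Algebra.FiniteType k A]

/-- A function as a global section. -/
noncomputable def gl (a : A) : Γ((aff k A).X, ⊤) := (Scheme.ΓSpecIso (CommRingCat.of A)).inv a

lemma fnA_eq [IsDomain A] (a : A) : fnA k a =
    (aff k A).X.presheaf.germ ⊤ (genericPoint (aff k A).X) trivial (gl (k := k) a) := rfl

lemma gl_mk (q : Ideal A) (a : A) : gl (k := k) (Ideal.Quotient.mk q a) =
    (cq (k := k) q).g.app ⊤ (gl (k := k) a) :=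
  congrArg (fun t => t.hom a)
    (Scheme.ΓSpecIso_inv_naturality (CommRingCat.ofHom (Ideal.Quotient.mk q)))

/-- An equality of rational functions at a point where they are regular. -/
lemma germ_mul_eq {S : Scheme.{0}} [IsIntegral S] (O : S.Opens) (s : Γ(S, O)) (x y : Γ(S, ⊤))
    (hO : genericPoint S ∈ O)
    (h : S.presheaf.germ O (genericPoint S) hO s * S.presheaf.germ ⊤ (genericPoint S) trivial y =
      S.presheaf.germ ⊤ (genericPoint S) trivial x) (P : S) (hP : P ∈ O) :
    S.presheaf.germ O P hP s * S.presheaf.germ ⊤ P trivial y =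
      S.presheaf.germ ⊤ P trivial x := by
  have hinj : Function.Injective (S.presheaf.stalkSpecializes (genericPoint_specializes P)) :=
    IsFractionRing.injective (S.presheaf.stalk P) S.functionField
  apply hinj
  rw [map_mul]
  have h1 : S.presheaf.stalkSpecializes (genericPoint_specializes P)
      (S.presheaf.germ O P hP s) = S.presheaf.germ O (genericPoint S) hO s :=
    S.presheaf.germ_stalkSpecializes_apply _ _ _
  have h2 : S.presheaf.stalkSpecializes (genericPoint_specializes P)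
      (S.presheaf.germ ⊤ P trivial y) = S.presheaf.germ ⊤ (genericPoint S) trivial y :=
    S.presheaf.germ_stalkSpecializes_apply _ _ _
  have h3 : S.presheaf.stalkSpecializes (genericPoint_specializes P)
      (S.presheaf.germ ⊤ P trivial x) = S.presheaf.germ ⊤ (genericPoint S) trivial x :=
    S.presheaf.germ_stalkSpecializes_apply _ _ _
  rw [h1, h2, h3]
  exact h

end Affine

/-- The identity `f y = x` on `V(t)`. -/
lemma key {A : Type} [CommRing A] [Algebra k A] [Algebra.FiniteType k A] [IsDomain A]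
    {W V : Var k} [IsIntegral W.X] [IsIntegral V.X] (U : W.X.Opens)
    (hU : genericPoint W.X ∈ U) (f : Γ(W.X, U)) (c : V.X ⟶ W.X)
    (hgV : genericPoint V.X ∈ c ⁻¹ᵁ U) (j : (aff k A).X ⟶ W.X) [IsOpenImmersion j]
    (t : PrimeSpectrum A) (h : (aff k (A ⧸ t.asIdeal)).X ⟶ V.X) [IsOpenImmersion h]
    (hcomm : h ≫ c = (cq (k := k) t.asIdeal).g ≫ j) (x y : A)
    (hxy : funMap j (W.X.presheaf.germ U (genericPoint W.X) hU f) * fnA k y = fnA k x) :
    funMap h (V.X.presheaf.germ (c ⁻¹ᵁ U) (genericPoint V.X) hgV (c.app U f)) *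
      fnA k (Ideal.Quotient.mk t.asIdeal y) = fnA k (Ideal.Quotient.mk t.asIdeal x) := by
  have hjS : genericPoint (aff k A).X ∈ j ⁻¹ᵁ U := by
    change j (genericPoint (aff k A).X) ∈ U
    rw [genericPoint_eq_of_isOpenImmersion j]
    exact hU
  have hhS : genericPoint (aff k (A ⧸ t.asIdeal)).X ∈ h ⁻¹ᵁ (c ⁻¹ᵁ U) := by
    change h (genericPoint (aff k (A ⧸ t.asIdeal)).X) ∈ c ⁻¹ᵁ U
    rw [genericPoint_eq_of_isOpenImmersion h]
    exact hgV
  have hqS : genericPoint (aff k (A ⧸ t.asIdeal)).X ∈ ((cq (k := k) t.asIdeal).g ≫ j) ⁻¹ᵁ U := by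
    rw [← hcomm]
    exact hhS
  have hP : (cq (k := k) t.asIdeal).g (genericPoint (aff k (A ⧸ t.asIdeal)).X) ∈ j ⁻¹ᵁ U := hqS
  rw [funMap_germ j U hU f hjS, fnA_eq, fnA_eq] at hxy
  have e0 := germ_mul_eq (j ⁻¹ᵁ U) (j.app U f) (gl x) (gl y) hjS hxy _ hP
  have e1 := funMap_germ h (c ⁻¹ᵁ U) hgV (c.app U f) hhS
  have e2 : (aff k (A ⧸ t.asIdeal)).X.presheaf.germ (h ⁻¹ᵁ (c ⁻¹ᵁ U))
      (genericPoint (aff k (A ⧸ t.asIdeal)).X) hhS (h.app (c ⁻¹ᵁ U) (c.app U f)) =
      (aff k (A ⧸ t.asIdeal)).X.presheaf.germ (((cq (k := k) t.asIdeal).g ≫ j) ⁻¹ᵁ U)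
        (genericPoint (aff k (A ⧸ t.asIdeal)).X) hqS
        (((cq (k := k) t.asIdeal).g ≫ j).app U f) :=
    germ_congr (h ≫ c) ((cq (k := k) t.asIdeal).g ≫ j) hcomm U f _ hhS hqS
  have e3 : (cq (k := k) t.asIdeal).g.stalkMap (genericPoint (aff k (A ⧸ t.asIdeal)).X)
      ((aff k A).X.presheaf.germ (j ⁻¹ᵁ U) _ hP (j.app U f)) =
      (aff k (A ⧸ t.asIdeal)).X.presheaf.germ (((cq (k := k) t.asIdeal).g ≫ j) ⁻¹ᵁ U)
        (genericPoint (aff k (A ⧸ t.asIdeal)).X) hqS
        (((cq (k := k) t.asIdeal).g ≫ j).app U f) :=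
    Scheme.Hom.germ_stalkMap_apply (cq (k := k) t.asIdeal).g (j ⁻¹ᵁ U) _ hP (j.app U f)
  have e4 : ∀ z : A, fnA k (Ideal.Quotient.mk t.asIdeal z) =
      (cq (k := k) t.asIdeal).g.stalkMap (genericPoint (aff k (A ⧸ t.asIdeal)).X)
        ((aff k A).X.presheaf.germ ⊤ _ trivial (gl (k := k) z)) := by
    intro z
    rw [fnA_eq, gl_mk]
    exact (Scheme.Hom.germ_stalkMap_apply (cq (k := k) t.asIdeal).g ⊤
      (genericPoint (aff k (A ⧸ t.asIdeal)).X) trivial (gl z)).symm
  rw [e1, e2, ← e3, e4, e4, ← e0, map_mul]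

end GDV

theorem t_GDV : M_GDV := by
  intro hDST hCHA hDVC k E _ _ n W D hW a φ U hU f hf hφ T hT
  obtain ⟨V, hV, b, hb⟩ := GDV.exists_closure D T.1
  have hcT : (GDV.compC b a).g (genericPoint V.X) = a.g T.1 := by
    have h1 : (GDV.compC b a).g (genericPoint V.X) = a.g (b.g (genericPoint V.X)) := rfl
    rw [h1, hb]
  have hgV : genericPoint V.X ∈ (GDV.compC b a).g ⁻¹ᵁ U := by
    change (GDV.compC b a).g (genericPoint V.X) ∈ U
    rw [hcT]
    exact hT
  let ψ : V.X.functionField := V.X.presheaf.germ ((GDV.compC b a).g ⁻¹ᵁ U) (genericPoint V.X) hgV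
    ((GDV.compC b a).g.app U f)
  have hψ : ψ ≠ 0 := by
    have h1 : IsUnit ψ := (hf.map ((GDV.compC b a).g.app U).hom).map
      (V.X.presheaf.germ ((GDV.compC b a).g ⁻¹ᵁ U) (genericPoint V.X) hgV).hom
    exact h1.ne_zero
  obtain ⟨ρ, hρ⟩ := exists_div (E := E) (i := n) b ψ hψ
  refine ⟨ρ, Submodule.subset_span ⟨V, hV, b, ψ, ?_, hψ, hρ⟩, ?_⟩
  · rw [← dim_map b.g b.comm, hb]
    exact T.2
  have hd := GDV.isDiv_pushCyc b a ψ ρ hρ
  intro A _ _ _ j
  refine ⟨fun hj => ?_, ?_⟩
  · apply hDVC.1 k A E n W V hV (GDV.compC b a) ψ (pushCyc a ρ) j hd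
    rw [hcT]
    exact hj
  · intro hA hj t x y ht hx hy hxy dx dy hdx hdy
    obtain ⟨h, hh, hcomm, hr⟩ := hCHA.2.2.2.2.1 k A W V hV (GDV.compC b a) j t.1
      (hcT.trans ht.symm)
    have h1 := hDVC.2 k A E n W V hV (GDV.compC b a) ψ (pushCyc a ρ) j t h hh hψ hd hcomm hr
    refine h1.2 x y hx hy ?_ dx dy hdx hdy
    rw [← hφ] at hxy
    exact GDV.key U hU f (GDV.compC b a).g hgV j.g t.1 h hcomm x y hxy

end CUB
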