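import Pool.Agent.CUB2.StmtsK

/-!
# CUB2: module GYR
-/

set_option autoImplicit false

open CategoryTheory AlgebraicGeometry Limits Polynomial TopologicalSpace

namespace CUB

open Pool.Agent.Lib_helper55.Beil Pool.Agent.Lib_helper66.OneP

namespace GYR

variable {k : Type} [Field k]

/-- The closed immersions `a` with image the zero set of `π` receive the closed immersions of
reduced varieties into the zero set. -/
lemma exists_factor {V D Y : Var k} [IsReduced V.X] (b : ClosedIn V Y) (a : ClosedIn D Y)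
    (h : ∀ v, b.g v ∈ Set.range a.g) : ∃ e : ClosedIn V D, e.g ≫ a.g = b.g := by
  have ha := a.closed
  have hb := b.closed
  let C : Closeds Y.X := ⟨Set.range a.g, a.g.isClosedEmbedding.isClosed_range⟩
  have h1 : Scheme.IdealSheafData.vanishingIdeal C ≤ b.g.ker := vanishingIdeal_le_ker b.g C h
  have h2 : a.g.ker ≤ Scheme.IdealSheafData.vanishingIdeal C := by
    rw [← Scheme.IdealSheafData.le_support_iff_le_vanishingIdeal]
    exact a.g.range_subset_ker_support
  have h3 : a.g.ker ≤ b.g.ker := h2.trans h1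
  have h4 : IsClosedImmersion.lift a.g b.g h3 ≫ a.g = b.g := IsClosedImmersion.lift_fac _ _ _
  have h5 : IsClosedImmersion (IsClosedImmersion.lift a.g b.g h3 ≫ a.g) := by
    rw [h4]
    exact hb
  refine ⟨⟨IsClosedImmersion.lift a.g b.g h3, ?_, ?_⟩, h4⟩
  · rw [← a.comm, ← Category.assoc, h4, b.comm]
  · exact IsClosedImmersion.of_comp _ a.g

/-- The reduced zero set of a function. -/
lemma exists_zeros (W : Var k) (π : Γ(W.X, ⊤)) : ∃ (D : Var k) (a : ClosedIn D W),
    IsReduced D.X ∧ IsZeros a π := by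
  let C : Closeds W.X := ⟨((W.X.basicOpen π : W.X.Opens) : Set W.X)ᶜ,
    (W.X.basicOpen π).isOpen.isClosed_compl⟩
  refine ⟨redVar (closedVar W C), (redVarIn (closedVar W C)).trans (closedVarIn W C),
    isReduced_redVar _, ?_⟩
  have h1 : Set.range ((redVarIn (closedVar W C)).trans (closedVarIn W C)).g =
      Set.range (closedVarIn W C).g := by
    have h2 : ((redVarIn (closedVar W C)).trans (closedVarIn W C)).g =
      (redVarIn (closedVar W C)).g ≫ (closedVarIn W C).g := rfl
    rw [h2, Scheme.Hom.comp_base, TopCat.coe_comp, Set.range_comp]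
    have h3 : Set.range (redVarIn (closedVar W C)).g = Set.univ := range_redVarIn _
    rw [h3, Set.image_univ]
  unfold IsZeros
  rw [h1, range_closedVarIn]
  rfl

lemma pushCyc_comp {E : Type} [Field E] {i : ℕ} {U V X V' : Var k} (a : ClosedIn U V)
    (b : ClosedIn V X) (a' : ClosedIn U V') (b' : ClosedIn V' X) (h : a.g ≫ b.g = a'.g ≫ b'.g)
    (c : Pts i U →₀ E) : pushCyc b (pushCyc a c) = pushCyc b' (pushCyc a' c) := by
  unfold pushCyc
  rw [← Finsupp.mapDomain_comp, ← Finsupp.mapDomain_comp]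
  congr 1
  funext z
  apply Subtype.ext
  exact congrArg (fun f => f z.1) h

lemma exists_push {E : Type} [Field E] {i : ℕ} {W X : Var k} [IsIntegral W.X] (b : ClosedIn W X)
    (φ : W.X.functionField) (hφ : φ ≠ 0) (d : Pts i X →₀ E) (hd : IsDiv b φ d) :
    ∃ c : Pts i W →₀ E, IsDiv (idIn W) φ c ∧ pushCyc b c = d := by
  obtain ⟨c, hc⟩ := exists_div (E := E) (i := i) (idIn W) φ hφ
  refine ⟨c, hc, ?_⟩
  apply isDiv_unique b φ _ _ _ hd
  constructor
  · intro w h
    have hw : W.dim w = i := by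
      have := b.closed
      rw [← dim_map b.g b.comm]
      exact h
    have h5 : pushCyc b c (ptsMap i b (Subtype.mk w hw : Pts i W)) =
        c (Subtype.mk w hw : Pts i W) :=
      Finsupp.mapDomain_apply (ptsMap_injective i b) _ _
    exact h5.trans (hc.1 w hw)
  · intro x hx
    apply Finsupp.mapDomain_of_notMem_range
    rintro ⟨z, rfl⟩
    exact hx ⟨z.1, rfl⟩

end GYR

open GYR in
theorem t_GYR : M_GYR := by
  intro hG hS k E _ _ _ n Y d hd
  classical
  induction hd using Submodule.span_induction with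
  | mem d hd =>
    obtain ⟨W, hW, b, φ, hdim, hφ, hdiv⟩ := hd
    obtain ⟨c, hc, rfl⟩ := exists_push b φ hφ d hdiv
    obtain ⟨F, hF⟩ := hS k E n W hW φ c hdim hφ hc
    refine ⟨F.image b.g, ?_⟩
    intro π hπ D a ha
    obtain ⟨D', a', hred, ha'⟩ := exists_zeros W (b.g.appTop π)
    have hpre : b.g ⁻¹ᵁ (Y.X.basicOpen π) = W.X.basicOpen (b.g.appTop π) :=
      Scheme.preimage_basicOpen_top b.g π
    obtain ⟨ρ, hρ, hρ2⟩ := hF (b.g.appTop π) (by
      intro y hy
      rw [← hpre]
      exact hπ _ (Finset.mem_image_of_mem _ hy)) D' a' ha'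
    obtain ⟨e, he⟩ := exists_factor (a'.trans b) a (by
      intro v
      rw [ha]
      intro hv
      have h1 : a'.g v ∈ W.X.basicOpen (b.g.appTop π) := by
        rw [← hpre]
        exact hv
      have h2 : a'.g v ∈ Set.range a'.g := ⟨v, rfl⟩
      rw [ha'] at h2
      exact h2 h1)
    refine ⟨pushCyc e ρ, pushCyc_ratZero e ρ hρ, ?_⟩
    rw [hG.2.2.2.1 k E n W Y b π c, ← hρ2]
    exact pushCyc_comp e a a' b he ρ
  | zero =>
    refine ⟨∅, fun π _ D a _ => ⟨0, zero_mem _, ?_⟩⟩
    rw [map_zero]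
    exact Finsupp.mapDomain_zero
  | add x y _ _ hx hy =>
    obtain ⟨F, hF⟩ := hx
    obtain ⟨F', hF'⟩ := hy
    refine ⟨F ∪ F', fun π hπ D a ha => ?_⟩
    obtain ⟨ρ, h1, h2⟩ := hF π (fun y hy => hπ y (Finset.mem_union_left _ hy)) D a ha
    obtain ⟨ρ', h1', h2'⟩ := hF' π (fun y hy => hπ y (Finset.mem_union_right _ hy)) D a ha
    refine ⟨ρ + ρ', add_mem h1 h1', ?_⟩
    rw [map_add, ← h2, ← h2']
    exact Finsupp.mapDomain_add
  | smul r x _ hx =>
    obtain ⟨F, hF⟩ := hx
    refine ⟨F, fun π hπ D a ha => ?_⟩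
    obtain ⟨ρ, h1, h2⟩ := hF π hπ D a ha
    refine ⟨r • ρ, Submodule.smul_mem _ _ h1, ?_⟩
    rw [map_smul, ← h2]
    exact Finsupp.mapDomain_smul _ _

end CUB
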