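import Pool.Agent.CUB2.StmtsK
import Pool.Agent.CUB.A_DVX
import Pool.Agent.CUB.A_DIM1

/-!
# CUB2, module GYS: the intersection of cycles with the divisor of a function
-/

set_option autoImplicit false

open CategoryTheory AlgebraicGeometry Limits Polynomial TopologicalSpace

namespace CUB

open Pool.Agent.Lib_helper55.Beil Pool.Agent.Lib_helper66.OneP

namespace GYS

variable {k : Type} [Field k]

lemma fn_one {R : CommRingCat.{0}} [IsDomain R] : fn (1 : R) = 1 := map_one _

/-- Germs of functions on `Spec R` at the generic point. -/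
lemma germ_fn {R : CommRingCat.{0}} [IsDomain R] (s : Γ(Spec R, ⊤)) :
    (Spec R).presheaf.germ ⊤ (genericPoint (Spec R)) trivial s =
      fn ((Scheme.ΓSpecIso R).hom s) := by
  have h1 : (Scheme.ΓSpecIso R).inv ((Scheme.ΓSpecIso R).hom s) = s := by
    rw [← ConcreteCategory.comp_apply, Iso.hom_inv_id]
    rfl
  have h2 : fn ((Scheme.ΓSpecIso R).hom s) =
      (Spec R).presheaf.germ ⊤ (genericPoint (Spec R)) trivial
        ((Scheme.ΓSpecIso R).inv ((Scheme.ΓSpecIso R).hom s)) := rfl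
  rw [h2, h1]

/-- `funMap` and germs. -/
lemma funMap_germ {A B : Scheme.{0}} (h : A ⟶ B) [IsOpenImmersion h] [IsIntegral A]
    [IsIntegral B] (s : Γ(B, ⊤)) :
    funMap h (B.presheaf.germ ⊤ (genericPoint B) trivial s) =
      A.presheaf.germ ⊤ (genericPoint A) trivial (h.appTop s) := by
  have h1 : B.presheaf.germ ⊤ (genericPoint B) trivial ≫ funMap h =
      h.appTop ≫ A.presheaf.germ ⊤ (genericPoint A) trivial := by
    unfold funMap
    rw [TopCat.Presheaf.germ_stalkSpecializes_assoc]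
    exact Scheme.Hom.germ_stalkMap h ⊤ (genericPoint A) trivial
  exact congrArg (fun f => f.hom s) h1

variable {A : Type} [CommRing A] [Algebra k A] [Algebra.FiniteType k A]

/-- Basic open subsets and charts. -/
lemma mem_basicOpen_iff (Y : Var k) (π : Γ(Y.X, ⊤)) (j : OpenIn (aff k A) Y)
    (p : PrimeSpectrum A) : j.g (toPt p) ∈ Y.X.basicOpen π ↔ rfn j π ∉ p.asIdeal := by
  have h1 : j.g ⁻¹ᵁ Y.X.basicOpen π = (aff k A).X.basicOpen (j.g.appTop π) :=
    Scheme.preimage_basicOpen_top j.g π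
  have h2 : j.g (toPt p) ∈ Y.X.basicOpen π ↔ toPt p ∈ j.g ⁻¹ᵁ Y.X.basicOpen π := Iff.rfl
  rw [h2, h1]
  have h3 : (Spec (CommRingCat.of A)).basicOpen
      (show Γ(Spec (CommRingCat.of A), ⊤) from j.g.appTop π) =
      PrimeSpectrum.basicOpen ((Scheme.ΓSpecIso (CommRingCat.of A)).hom
        (show Γ(Spec (CommRingCat.of A), ⊤) from j.g.appTop π)) :=
    basicOpen_eq_of_affine' _
  have h4 : toPt p ∈ (aff k A).X.basicOpen (j.g.appTop π) ↔
      p ∈ PrimeSpectrum.basicOpen (show A from (Scheme.ΓSpecIso (CommRingCat.of A)).hom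
        (show Γ(Spec (CommRingCat.of A), ⊤) from j.g.appTop π)) := by
    constructor
    · intro h
      exact h3 ▸ h
    · intro h
      exact h3.symm ▸ h
  rw [h4]
  exact Iff.rfl

/-- The function `π` on `V(p)`, in terms of rings. -/
lemma germ_chart (Y V : Var k) (hV : IsIntegral V.X) (b : ClosedIn V Y) (π : Γ(Y.X, ⊤))
    (j : OpenIn (aff k A) Y) (p : PrimeSpectrum A) (h : (aff k (A ⧸ p.asIdeal)).X ⟶ V.X)
    (hh : IsOpenImmersion h) (hc : h ≫ b.g = (cq p.asIdeal).g ≫ j.g) :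
    funMap h (V.X.presheaf.germ ⊤ (genericPoint V.X) trivial (b.g.appTop π)) =
      fnA k (Ideal.Quotient.mk p.asIdeal (rfn j π)) := by
  rw [funMap_germ]
  have h1 : h.appTop (b.g.appTop π) = (cq (k := k) p.asIdeal).g.appTop (j.g.appTop π) := by
    have h2 : (h ≫ b.g).appTop = ((cq (k := k) p.asIdeal).g ≫ j.g).appTop := by rw [hc]
    rw [Scheme.Hom.comp_appTop, Scheme.Hom.comp_appTop] at h2
    exact congrArg (fun f => f.hom π) h2
  rw [h1]
  have h3 : (Scheme.ΓSpecIso (CommRingCat.of (A ⧸ p.asIdeal))).hom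
      ((Spec.map (CommRingCat.ofHom (Ideal.Quotient.mk p.asIdeal))).appTop
        (show Γ(Spec (CommRingCat.of A), ⊤) from j.g.appTop π)) =
      Ideal.Quotient.mk p.asIdeal (rfn j π) :=
    congrArg (fun f => f.hom (show Γ(Spec (CommRingCat.of A), ⊤) from j.g.appTop π))
      (Scheme.ΓSpecIso_naturality (CommRingCat.ofHom (Ideal.Quotient.mk p.asIdeal)))
  have h4 := germ_fn (R := CommRingCat.of (A ⧸ p.asIdeal))
    ((Spec.map (CommRingCat.ofHom (Ideal.Quotient.mk p.asIdeal))).appTop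
        (show Γ(Spec (CommRingCat.of A), ⊤) from j.g.appTop π))
  rw [h3] at h4
  exact h4

variable {E : Type} [Field E] {n : ℕ}

/-- The dimension of the prime in a chart. -/
lemma rdim_chart {Y : Var k} (j : OpenIn (aff k A) Y) (p : PrimeSpectrum A) (m : ℕ) :
    Y.dim (j.g (toPt p)) = m ↔ rdim k p = m := by
  rw [dim_map j.g j.comm, dim_toPt]

/-- The restriction to a chart which does not contain the point. -/
lemma rc_eq_zero (hDVC : S_DVC) (Y : Var k) (π : Γ(Y.X, ⊤)) (P : Y.X) (c : Pts n Y →₀ E)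
    (hc : IsFDv π P c) (j : OpenIn (aff k A) Y) (hP : P ∉ Set.range j.g) : rc E n j c = 0 := by
  obtain ⟨V, hV, b, hb, hd⟩ := hc
  exact hDVC.1 k A E n Y V hV b _ c j hd (by rw [hb]; exact hP)

/-- The restriction to a chart which contains the point. -/
lemma rc_isDv (hCHA : S_CHA) (hDVC : S_DVC) (hDVX : S_DVX) (Y : Var k) (π : Γ(Y.X, ⊤)) (P : Y.X)
    (c : Pts n Y →₀ E) (hc : IsFDv π P c) (j : OpenIn (aff k A) Y) (p : RP k A (n + 1))
    (hP : j.g (toPt p.1) = P) (hp : rfn j π ∉ p.1.asIdeal) :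
    IsDv k E p.1 (rfn j π) (rc E n j c) := by
  obtain ⟨V, hV, b, hb, hd⟩ := hc
  obtain ⟨h, hh, hcomm, hr⟩ := hCHA.2.2.2.2.1 k A Y V hV b j p.1 (hb.trans hP.symm)
  have hg := germ_chart Y V hV b π j p.1 h hh hcomm
  have hmk : Ideal.Quotient.mk p.1.asIdeal (rfn j π) ≠ 0 := fun h0 =>
    hp (Ideal.Quotient.eq_zero_iff_mem.mp h0)
  have hφ : V.X.presheaf.germ ⊤ (genericPoint V.X) trivial (b.g.appTop π) ≠ 0 := by
    intro h0
    rw [h0] at hg
    have h1 : funMap h (0 : V.X.functionField) = 0 := map_zero (funMap h).hom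
    exact fnA_ne_zero (k := k) hmk (hg.symm.trans h1)
  have h1 : (1 : A) ∉ p.1.asIdeal := fun h1 =>
    p.1.isPrime.ne_top ((Ideal.eq_top_iff_one _).mpr h1)
  obtain ⟨dx, hdx⟩ := hDVX k A E n p (rfn j π) hp
  have hdy : IsDv k E (n := n) p.1 (1 : A) 0 := by
    intro q
    rw [len_eq_zero, Nat.cast_zero]
    · rfl
    · intro h2
      have h3 : (1 : A) ∈ q.1.asIdeal := h2 (Ideal.mem_sup_right (Ideal.mem_span_singleton_self _))
      exact q.1.isPrime.ne_top ((Ideal.eq_top_iff_one _).mpr h3)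
  have hone : fnA k (Ideal.Quotient.mk p.1.asIdeal (1 : A)) = 1 := by
    rw [map_one]
    exact fn_one (R := CommRingCat.of (A ⧸ p.1.asIdeal))
  have h2 := (hDVC.2 k A E n Y V hV b _ c j p h hh hφ hd hcomm hr).2 (rfn j π) 1 hp h1
    (by rw [hg, hone, mul_one]) dx 0 hdx hdy
  rw [h2, sub_zero]
  exact hdx

/-- Uniqueness of the divisor of a function on the closure of a point. -/
lemma unique (hCHA : S_CHA) (hDVC : S_DVC) (hDVX : S_DVX) (Y : Var k) (π : Γ(Y.X, ⊤))
    (P : Pts (n + 1) Y) (hπ : P.1 ∈ Y.X.basicOpen π) (c c' : Pts n Y →₀ E)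
    (hc : IsFDv π P.1 c) (hc' : IsFDv π P.1 c') : c = c' := by
  apply hCHA.2.2.1 k E n Y c c'
  intro A _ _ _ j
  by_cases hP : P.1 ∈ Set.range j.g
  · obtain ⟨x, hx⟩ := hP
    have hx' : j.g (toPt (ofPt x)) = P.1 := hx
    have hd : rdim k (ofPt x) = (n + 1 : ℕ) := by
      rw [← rdim_chart j, hx']
      exact P.2
    have hp : rfn j π ∉ (ofPt x).asIdeal := by
      rw [← mem_basicOpen_iff, hx']
      exact hπ
    have h1 := rc_isDv hCHA hDVC hDVX Y π P.1 c hc j ⟨ofPt x, hd⟩ hx' hp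
    have h2 := rc_isDv hCHA hDVC hDVX Y π P.1 c' hc' j ⟨ofPt x, hd⟩ hx' hp
    ext q
    rw [h1 q, h2 q]
  · rw [rc_eq_zero hDVC Y π P.1 c hc j hP, rc_eq_zero hDVC Y π P.1 c' hc' j hP]

/-- The closure of a point as an integral closed subvariety. -/
lemma exists_closure (Y : Var k) (P : Y.X) :
    ∃ (V : Var k) (_ : IsIntegral V.X) (b : ClosedIn V Y), b.g (genericPoint V.X) = P := by
  let f : Spec (Y.X.residueField P) ⟶ Y.X := Y.X.fromSpecResidueField P
  have hf : QuasiCompact f := by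
    have : QuasiCompact (f ≫ Y.f) := inferInstance
    exact QuasiCompact.of_comp f Y.f
  have hint : IsIntegral (Spec (Y.X.residueField P)) := inferInstance
  let V : Var k :=
    { X := f.image
      f := f.imageι ≫ Y.f
      sep := inferInstance
      lft := inferInstance
      qc := inferInstance }
  have hV : IsIntegral V.X := isIntegral_image f
  have ha : IsClosedImmersion f.imageι := inferInstance
  let x₀ : Spec (Y.X.residueField P) := genericPoint _
  refine ⟨V, hV, ⟨f.imageι, rfl, ha⟩, ?_⟩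
  have h1 : f.toImage x₀ = genericPoint V.X := by
    apply IsGenericPoint.eq (S := Set.univ)
    · rw [isGenericPoint_iff_specializes]
      intro y
      constructor
      · intro _
        trivial
      · intro _
        rw [specializes_iff_mem_closure]
        have h2 : Set.range f.toImage = {f.toImage x₀} := by
          ext z
          constructor
          · rintro ⟨w, rfl⟩
            rw [Set.mem_singleton_iff, Subsingleton.elim w x₀]
          · intro hz
            exact ⟨x₀, (Set.mem_singleton_iff.mp hz).symm⟩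
        rw [← h2, (IsDominant.denseRange (f := f.toImage)).closure_range]
        trivial
    · exact genericPoint_spec _
  rw [← h1]
  have h3 : f.imageι (f.toImage x₀) = (f.toImage ≫ f.imageι) x₀ := rfl
  have h4 : f.toImage ≫ f.imageι = f := f.toImage_imageι
  change f.imageι (f.toImage x₀) = P
  rw [h3, h4]
  exact Scheme.fromSpecResidueField_apply P x₀

/-- Existence of the divisor of a function on the closure of a point. -/
lemma exists_fdv (E : Type) [Field E] (n : ℕ) (Y : Var k) (π : Γ(Y.X, ⊤)) (P : Y.X)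
    (hπ : P ∈ Y.X.basicOpen π) : ∃ c : Pts n Y →₀ E, IsFDv π P c := by
  obtain ⟨V, hV, b, hb⟩ := exists_closure Y P
  have h1 : genericPoint V.X ∈ V.X.basicOpen (b.g.appTop π) := by
    rw [← Scheme.preimage_basicOpen_top]
    change b.g (genericPoint V.X) ∈ Y.X.basicOpen π
    rw [hb]
    exact hπ
  have h2 := (Scheme.mem_basicOpen_top _ _ _).mp h1
  obtain ⟨c, hc⟩ := exists_div (E := E) (i := n) b
    (V.X.presheaf.germ ⊤ (genericPoint V.X) trivial (b.g.appTop π)) h2.ne_zero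
  exact ⟨c, V, hV, b, hb, hc⟩

lemma gysPt_spec (E : Type) [Field E] (n : ℕ) (Y : Var k) (π : Γ(Y.X, ⊤)) (P : Pts (n + 1) Y)
    (hπ : P.1 ∈ Y.X.basicOpen π) : IsFDv π P.1 (gysPt E n π P) := by
  classical
  have h : ∃ c : Pts n Y →₀ E, P.1 ∈ Y.X.basicOpen π ∧ IsFDv π P.1 c := by
    obtain ⟨c, hc⟩ := exists_fdv E n Y π P.1 hπ
    exact ⟨c, hπ, hc⟩
  have h1 : gysPt E n π P = h.choose := dif_pos h
  rw [h1]
  exact h.choose_spec.2

lemma gysPt_zero (E : Type) [Field E] (n : ℕ) (Y : Var k) (π : Γ(Y.X, ⊤)) (P : Pts (n + 1) Y)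
    (hπ : P.1 ∉ Y.X.basicOpen π) : gysPt E n π P = 0 := by
  classical
  have h : ¬ ∃ c : Pts n Y →₀ E, P.1 ∈ Y.X.basicOpen π ∧ IsFDv π P.1 c := by
    rintro ⟨c, hc, -⟩
    exact hπ hc
  exact dif_neg h

/-- Push-forward of divisors of functions. -/
lemma fdv_push (W Y : Var k) (a : ClosedIn W Y) (π : Γ(Y.X, ⊤)) (P : W.X) (c : Pts n W →₀ E)
    (hc : IsFDv (a.g.appTop π) P c) : IsFDv π (a.g P) (pushCyc a c) := by
  obtain ⟨V, hV, b, hb, hd⟩ := hc
  refine ⟨V, hV, b.trans a, ?_, ?_⟩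
  · have h1 : (b.trans a).g (genericPoint V.X) = a.g (b.g (genericPoint V.X)) := rfl
    rw [h1, hb]
  · have h2 : (b.trans a).g.appTop π = b.g.appTop (a.g.appTop π) := by
      have h3 : (b.g ≫ a.g).appTop = a.g.appTop ≫ b.g.appTop := Scheme.Hom.comp_appTop _ _
      exact congrArg (fun f => f.hom π) h3
    rw [h2]
    obtain ⟨h3, h4⟩ := hd
    refine ⟨?_, ?_⟩
    · intro w h
      have hw : W.dim (b.g w) = n := by
        have := a.closed
        rw [← dim_map a.g a.comm]
        exact h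
      have h5 : Finsupp.mapDomain (ptsMap n a) c (ptsMap n a (Subtype.mk (b.g w) hw : Pts n W)) =
          c (Subtype.mk (b.g w) hw : Pts n W) :=
        Finsupp.mapDomain_apply (ptsMap_injective n a) _ _
      exact h5.trans (h3 w hw)
    · intro x hx
      by_cases hx2 : x ∈ Set.range (ptsMap n a)
      · obtain ⟨z, rfl⟩ := hx2
        refine (Finsupp.mapDomain_apply (ptsMap_injective n a) c z).trans ?_
        apply h4
        rintro ⟨w, hw⟩
        exact hx ⟨w, congrArg a.g hw⟩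
      · exact Finsupp.mapDomain_of_notMem_range _ _ hx2

end GYS

theorem t_GYS : M_GYS := by
  intro _ hCHA hLENC hDVC
  have hDVX : S_DVX := t_DVX t_DIM1 hLENC
  have part1 : ∀ (k E : Type) [Field k] [Field E] (n : ℕ) (Y : Var k) (π : Γ(Y.X, ⊤))
      (P : Pts (n + 1) Y), P.1 ∈ Y.X.basicOpen π → IsFDv π P.1 (gysPt E n π P) ∧
        ∀ c : Pts n Y →₀ E, IsFDv π P.1 c → c = gysPt E n π P := by
    intro k E _ _ n Y π P hP
    have h1 := GYS.gysPt_spec E n Y π P hP
    exact ⟨h1, fun c hc => GYS.unique hCHA hDVC hDVX Y π P hP c _ hc h1⟩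
  have part3 : ∀ (k A : Type) [Field k] [CommRing A] [Algebra k A] [Algebra.FiniteType k A]
      (Y : Var k) (π : Γ(Y.X, ⊤)) (j : OpenIn (aff k A) Y) (p : PrimeSpectrum A),
      j.g (toPt p) ∈ Y.X.basicOpen π ↔ rfn j π ∉ p.asIdeal := by
    intro k A _ _ _ _ Y π j p
    exact GYS.mem_basicOpen_iff Y π j p
  have part2 : ∀ (k A E : Type) [Field k] [CommRing A] [Algebra k A] [Algebra.FiniteType k A]
      [Field E] (n : ℕ) (Y : Var k) (π : Γ(Y.X, ⊤)) (P : Pts (n + 1) Y)
      (j : OpenIn (aff k A) Y),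
      (P.1 ∉ Set.range j.g → rc E n j (gysPt E n π P) = 0) ∧
      ∀ p : RP k A (n + 1), j.g (toPt p.1) = P.1 → rfn j π ∉ p.1.asIdeal →
        P.1 ∈ Y.X.basicOpen π ∧ IsDv k E p.1 (rfn j π) (rc E n j (gysPt E n π P)) := by
    intro k A E _ _ _ _ _ n Y π P j
    refine ⟨?_, ?_⟩
    · intro hP
      by_cases hπ : P.1 ∈ Y.X.basicOpen π
      · exact GYS.rc_eq_zero hDVC Y π P.1 _ (GYS.gysPt_spec E n Y π P hπ) j hP
      · rw [GYS.gysPt_zero E n Y π P hπ]
        unfold rc
        rw [map_zero, map_zero]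
    · intro p hp hπ
      have h1 : P.1 ∈ Y.X.basicOpen π := by
        rw [← hp, part3]
        exact hπ
      exact ⟨h1, GYS.rc_isDv hCHA hDVC hDVX Y π P.1 _ (GYS.gysPt_spec E n Y π P h1) j p hp hπ⟩
  refine ⟨part1, part2, part3, ?_, ?_⟩
  · intro k E _ _ n W Y a π c
    have hpush : ∀ {m : ℕ} (d : Pts m W →₀ E), pushCyc a d =
        Finsupp.lmapDomain E E (ptsMap m a) d := fun _ => rfl
    rw [hpush c, hpush (gys E n (a.g.appTop π) c), ← LinearMap.comp_apply,
      ← LinearMap.comp_apply]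
    congr 1
    apply Finsupp.lhom_ext
    intro P e
    rw [LinearMap.comp_apply, LinearMap.comp_apply, Finsupp.lmapDomain_apply,
      Finsupp.mapDomain_single]
    unfold gys
    rw [Finsupp.linearCombination_single, Finsupp.linearCombination_single, map_smul]
    congr 1
    have hP' : (ptsMap (n + 1) a P).1 = a.g P.1 := rfl
    have hmem : (ptsMap (n + 1) a P).1 ∈ Y.X.basicOpen π ↔
        P.1 ∈ W.X.basicOpen (a.g.appTop π) := by
      rw [hP', ← Scheme.preimage_basicOpen_top]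
      exact Iff.rfl
    by_cases hπ : P.1 ∈ W.X.basicOpen (a.g.appTop π)
    · have h1 := GYS.gysPt_spec E n W (a.g.appTop π) P hπ
      have h2 := GYS.fdv_push W Y a π P.1 _ h1
      exact ((part1 k E n Y π (ptsMap (n + 1) a P) (hmem.mpr hπ)).2 _ h2).symm
    · rw [GYS.gysPt_zero E n W _ P hπ, GYS.gysPt_zero E n Y π _ (fun h => hπ (hmem.mp h)), map_zero]
  · intro k E _ _ n Y π c x hx hxπ
    have h1 : ∃ P : Pts (n + 1) Y, gysPt E n π P x ≠ 0 := by
      by_contra hcon
      push Not at hcon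
      apply hx
      unfold gys
      rw [Finsupp.linearCombination_apply, Finsupp.sum, Finsupp.finsetSum_apply]
      apply Finset.sum_eq_zero
      intro P _
      rw [Finsupp.smul_apply, hcon P, smul_zero]
    obtain ⟨P, hP⟩ := h1
    obtain ⟨A, i1, i2, i3, j, ⟨y, hy⟩, -⟩ := hCHA.1 k Y x.1 ⊤ trivial
    have hy' : j.g (toPt (ofPt y)) = x.1 := hy
    have hdy : rdim k (ofPt y) = n := by
      rw [← GYS.rdim_chart j, hy']
      exact x.2
    have hrc : rc E n j (gysPt E n π P) ⟨ofPt y, hdy⟩ = gysPt E n π P x :=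
      hCHA.2.2.2.2.2 k A E n Y j _ ⟨ofPt y, hdy⟩ x hy'
    have hπP : P.1 ∈ Y.X.basicOpen π := by
      by_contra hcon
      rw [GYS.gysPt_zero E n Y π P hcon] at hP
      exact hP rfl
    by_cases hPj : P.1 ∈ Set.range j.g
    · obtain ⟨z, hz⟩ := hPj
      have hz' : j.g (toPt (ofPt z)) = P.1 := hz
      have hdz : rdim k (ofPt z) = (n + 1 : ℕ) := by
        rw [← GYS.rdim_chart j, hz']
        exact P.2
      have hpz : rfn j π ∉ (ofPt z).asIdeal := by
        rw [← part3, hz']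
        exact hπP
      have h3 := ((part2 k A E n Y π P j).2 ⟨ofPt z, hdz⟩ hz' hpz).2 ⟨ofPt y, hdy⟩
      rw [hrc] at h3
      have h4 : len ((ofPt z).asIdeal ⊔ Ideal.span {rfn j π}) (ofPt y) ≠ 0 := by
        intro h5
        apply hP
        rw [h3]
        have h6 : len ((⟨ofPt z, hdz⟩ : RP k A (n + 1)).1.asIdeal ⊔ Ideal.span {rfn j π})
          (⟨ofPt y, hdy⟩ : RP k A n).1 = 0 := h5
        rw [h6, Nat.cast_zero]
      have h5 := ((hLENC k A n ⟨ofPt z, hdz⟩ ⟨ofPt y, hdy⟩).2.1 (rfn j π) h4).2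
      have h6 : rfn j π ∉ (ofPt y).asIdeal := by
        rw [← part3, hy']
        exact hxπ
      exact h6 h5
    · have h3 := (part2 k A E n Y π P j).1 hPj
      rw [h3] at hrc
      exact hP hrc.symm

end CUB
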