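import Pool.Agent.CUB2.StmtsK

/-!
# CUB2: module L4F
-/

set_option autoImplicit false

open CategoryTheory AlgebraicGeometry Limits Polynomial TopologicalSpace

namespace CUB

open Pool.Agent.Lib_helper55.Beil Pool.Agent.Lib_helper66.OneP

universe v

theorem t_L4F : M_L4F.{v} := by
  intro hLPT _ hGYR hPICK hDPI hCNT hPUSHG k E _ _ _ _ i Y X L c d hcd hd
  classical
  obtain ⟨F, hF⟩ := hGYR k E i Y d hd
  obtain ⟨π, hmon, hirr, hπ⟩ := hPICK.1 k Y X L F
  obtain ⟨D, a, f, hf, hz, hfin⟩ := hDPI.1 k Y X L π hmon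
  obtain ⟨ρ, hρ, hρe⟩ := hF (L.fn π) hπ D a hz
  have hG : ∀ P : Pts (i + 1) Y, ∃ g' : Pts i D →₀ E, ∀ h : X.dim (L.q P.1) = i,
      pushCyc a g' = gysPt E i (L.fn π) P ∧
        pfc E i f g' = Finsupp.single (⟨L.q P.1, h⟩ : Pts i X) (π.natDegree : E) := by
    intro P
    by_cases h : X.dim (L.q P.1) = i
    · obtain ⟨g', h1, h2⟩ := hCNT k E i Y X D L π a f ⟨L.q P.1, h⟩ P hmon hf hz rfl
      exact ⟨g', fun _ => ⟨h1, h2⟩⟩
    · exact ⟨0, fun h' => absurd h' h⟩
  choose G hG using hG
  have hsupp : ∀ P ∈ d.support, X.dim (L.q P.1) = i := by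
    intro P hP
    by_contra hcon
    exact (Finsupp.mem_support_iff.mp hP) ((hcd P).2 hcon)
  have h1 : pushCyc a (∑ P ∈ d.support, d P • G P) = gys E i (L.fn π) d := by
    have e1 : gys E i (L.fn π) d = ∑ P ∈ d.support, d P • gysPt E i (L.fn π) P := by
      unfold gys
      rw [Finsupp.linearCombination_apply, Finsupp.sum]
    rw [e1]
    have e2 : pushCyc a (∑ P ∈ d.support, d P • G P)
        = ∑ P ∈ d.support, d P • pushCyc a (G P) := by
      unfold pushCyc
      rw [Finsupp.mapDomain_finsetSum]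
      exact Finset.sum_congr rfl (fun P _ => Finsupp.mapDomain_smul _ _)
    rw [e2]
    exact Finset.sum_congr rfl (fun P hP => by rw [(hG P (hsupp P hP)).1])
  have h2 : ρ = ∑ P ∈ d.support, d P • G P := by
    refine Finsupp.mapDomain_injective (ptsMap_injective i a) ?_
    exact hρe.trans h1.symm
  have h3 : pfc E i f ρ = (π.natDegree : E) • c := by
    rw [h2, map_sum]
    ext x
    rw [Finsupp.finsetSum_apply, Finsupp.smul_apply, smul_eq_mul]
    obtain ⟨y, hy1, hy2, -, hy4⟩ := hLPT.2.1 k Y X L x.1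
    have hydim : Y.dim y = (i + 1 : ℕ) := by
      rw [hy2, x.2]
      push_cast
      rfl
    set P₀ : Pts (i + 1) Y := ⟨y, hydim⟩ with hP₀
    have hq : L.q P₀.1 = x.1 := hy1
    have hdP : d P₀ = c x := by
      have hh : X.dim (L.q P₀.1) = i := by rw [hq]; exact x.2
      rw [(hcd P₀).1 hh]
      congr 1
      exact Subtype.ext hq
    have hterm : ∀ P ∈ d.support, (pfc E i f (d P • G P)) x
        = if P = P₀ then d P * (π.natDegree : E) else 0 := by
      intro P hP
      have e3 : (pfc E i f (d P • G P)) x = d P * (pfc E i f (G P)) x := by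
        rw [map_smul]
        rfl
      obtain ⟨x', hx', h3'⟩ : ∃ x' : Pts i X, x'.1 = L.q P.1 ∧
          pfc E i f (G P) = Finsupp.single x' (π.natDegree : E) :=
        ⟨_, rfl, (hG P (hsupp P hP)).2⟩
      rw [e3, h3', Finsupp.single_apply]
      by_cases hPP : P = P₀
      · subst hPP
        have hxx : x' = x := Subtype.ext (hx'.trans hq)
        simp [hxx]
      · have hxx : x' ≠ x := by
          intro hcon
          apply hPP
          apply Subtype.ext
          have hqx : L.q P.1 = x.1 := hx'.symm.trans (congrArg Subtype.val hcon)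
          refine hy4 P.1 hqx ?_
          rw [P.2, x.2]
          push_cast
          rfl
        simp [hxx, hPP]
    rw [Finset.sum_congr rfl hterm, Finset.sum_ite_eq']
    split_ifs with hmem
    · rw [hdP, mul_comm]
    · have : d P₀ = 0 := by
        rw [Finsupp.mem_support_iff, not_not] at hmem
        exact hmem
      rw [← hdP, this, mul_zero]
  have h4 : pfc E i f ρ ∈ ratZero E i X := by
    refine hPUSHG k E i D X f (fun z hz => ?_) ρ hρ
    rw [hDPI.2.1 k D X f hfin z]
    exact hz
  have hdeg : (π.natDegree : E) ≠ 0 := by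
    have := hirr.natDegree_pos
    exact_mod_cast this.ne'
  rw [h3] at h4
  have h5 := Submodule.smul_mem (ratZero E i X) (π.natDegree : E)⁻¹ h4
  rwa [smul_smul, inv_mul_cancel₀ hdeg, one_smul] at h5

end CUB
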