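import Pool.Agent.CUB2.StmtsK

/-!
# CUB2: choice of an irreducible polynomial
-/

set_option autoImplicit false

open CategoryTheory AlgebraicGeometry Limits Polynomial TopologicalSpace

namespace CUB

open Pool.Agent.Lib_helper55.Beil Pool.Agent.Lib_helper66.OneP

namespace PICK

theorem mem_iff {k : Type} [Field k] {Y X : Var k} (L : Line Y X) (π : k[X]) (y : Y.X) :
    y ∈ Y.X.basicOpen (L.fn π) ↔ π ∉ (show PrimeSpectrum k[X] from L.t y).asIdeal := by
  have h : Y.X.basicOpen (L.fn π) =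
      L.t ⁻¹ᵁ ((Spec (CommRingCat.of k[X])).basicOpen
        ((Scheme.ΓSpecIso (CommRingCat.of k[X])).inv π)) := by
    rw [Scheme.preimage_basicOpen_top]
    rfl
  rw [h, basicOpen_eq_of_affine]
  rfl

theorem exists_poly {k : Type} [Field k] {ι : Type} (F : Finset ι) (P : ι → Ideal k[X])
    (hP : ∀ i, (P i).IsPrime) :
    ∃ π : k[X], π.Monic ∧ Irreducible π ∧ ∀ i ∈ F, π ∉ P i := by
  classical
  have hg : ∀ i, ∃ g : k[X], g ≠ 0 ∧ (g ∈ P i ∨ P i = ⊥) := by
    intro i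
    by_cases h : P i = ⊥
    · exact ⟨1, one_ne_zero, Or.inr h⟩
    · obtain ⟨g, hg, hg0⟩ := Submodule.exists_mem_ne_zero_of_ne_bot h
      exact ⟨g, hg0, Or.inl hg⟩
  choose g hg0 hg using hg
  have hprod : (∏ i ∈ F, g i) ≠ 0 := Finset.prod_ne_zero_iff.2 fun i _ => hg0 i
  have hdeg : 0 < (X * (∏ i ∈ F, g i) + 1 : k[X]).natDegree := by
    rw [show (1 : k[X]) = C 1 from (C_1).symm, natDegree_add_C, natDegree_mul X_ne_zero hprod,
      natDegree_X]
    omega
  obtain ⟨π, hm, hi, hd⟩ := Polynomial.exists_monic_irreducible_factor _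
    (not_isUnit_of_natDegree_pos _ hdeg)
  refine ⟨π, hm, hi, fun i hiF hmem => ?_⟩
  rcases hg i with h | h
  · have h1 : (X * (∏ i ∈ F, g i) + 1 : k[X]) ∈ P i := (P i).mem_of_dvd hd hmem
    have h2 : (X * (∏ i ∈ F, g i) : k[X]) ∈ P i :=
      (P i).mul_mem_left _ ((P i).mem_of_dvd (Finset.dvd_prod_of_mem g hiF) h)
    have h3 : (1 : k[X]) ∈ P i := by
      have := (P i).sub_mem h1 h2
      simpa using this
    exact (hP i).ne_top ((Ideal.eq_top_iff_one _).2 h3)
  · rw [h] at hmem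
    exact hm.ne_zero (by simpa using hmem)

end PICK

theorem t_PICK : S_PICK := by
  refine ⟨fun k _ Y X L F => ?_, fun k _ Y X L π y => PICK.mem_iff L π y⟩
  obtain ⟨π, h1, h2, h3⟩ := PICK.exists_poly F
    (fun y => (show PrimeSpectrum k[X] from L.t y).asIdeal)
    (fun y => (show PrimeSpectrum k[X] from L.t y).isPrime)
  exact ⟨π, h1, h2, fun y hy => (PICK.mem_iff L π y).2 (h3 y hy)⟩

end CUB
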