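import Pool.Agent.CUB2.StmtsK

/-!
# CUB2: module PUSHG
-/

set_option autoImplicit false

open CategoryTheory AlgebraicGeometry Limits Polynomial TopologicalSpace

namespace CUB

open Pool.Agent.Lib_helper55.Beil Pool.Agent.Lib_helper66.OneP

universe v

namespace PUSHG

variable {k : Type} [Field k] {E : Type} [Field E]

/-- A divisor on a closed subvariety, as the push-forward of a cycle. -/
lemma isDiv_pushCyc {n : ℕ} {W X : Var k} [IsIntegral W.X] (a : ClosedIn W X)
    (φ : W.X.functionField) (d : Pts n W →₀ E) (hd : IsDiv (idIn W) φ d) :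
    IsDiv a φ (pushCyc a d) := by
  constructor
  · intro w h
    have hw : W.dim w = n := by
      rw [← dim_map a.g a.comm]
      exact h
    have h5 : Finsupp.mapDomain (ptsMap n a) d (ptsMap n a (Subtype.mk w hw : Pts n W)) =
        d (Subtype.mk w hw : Pts n W) :=
      Finsupp.mapDomain_apply (ptsMap_injective n a) _ _
    exact h5.trans (hd.1 w hw)
  · intro x hx
    refine Finsupp.mapDomain_of_notMem_range _ _ ?_
    rintro ⟨w, rfl⟩
    exact hx ⟨w.1, rfl⟩

/-- The image of an integral variety, as a closed subvariety. -/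
noncomputable def imVar {W Y : Var k} (F : W.X ⟶ Y.X) [QuasiCompact F] : Var k where
  X := F.image
  f := F.imageι ≫ Y.f
  sep := inferInstance
  lft := inferInstance
  qc := inferInstance

/-- The inclusion of the image. -/
noncomputable def imIn {W Y : Var k} (F : W.X ⟶ Y.X) [QuasiCompact F] :
    ClosedIn (imVar F) Y where
  g := F.imageι
  comm := rfl
  closed := inferInstanceAs (IsClosedImmersion F.imageι)

/-- The morphism to the image. -/
noncomputable def toIm {W Y : Var k} (F : W.X ⟶ Y.X) [IsProper F] (hF : F ≫ Y.f = W.f) :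
    PrMor W (imVar F) where
  g := F.toImage
  comm := by
    change F.toImage ≫ F.imageι ≫ Y.f = W.f
    rw [← Category.assoc, F.toImage_imageι, hF]
  proper := by
    have h1 : IsProper (F.toImage ≫ F.imageι) := by
      rw [F.toImage_imageι]
      infer_instance
    exact IsProper.of_comp F.toImage F.imageι

lemma toIm_comp {W Y : Var k} (F : W.X ⟶ Y.X) [IsProper F] (hF : F ≫ Y.f = W.f) :
    (toIm F hF).g ≫ (imIn F).g = F := F.toImage_imageι

lemma toIm_generic {W Y : Var k} (F : W.X ⟶ Y.X) [IsProper F] (hF : F ≫ Y.f = W.f)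
    [IsIntegral W.X] [hV : IsIntegral (imVar F).X] :
    (toIm F hF).g (genericPoint W.X) = genericPoint (imVar F).X := by
  have h1 := (genericPoint_spec W.X).image F.toImage.continuous
  rw [Set.image_univ] at h1
  have h2 : closure (Set.range F.toImage) = Set.univ :=
    (IsDominant.denseRange (f := F.toImage)).closure_range
  rw [h2] at h1
  exact h1.eq (genericPoint_spec (imVar F).X)

end PUSHG

open PUSHG

theorem t_PUSHG : M_PUSHG.{v} := by
  intro hPFC hDST hPUSHD k E _ _ n X Y f hf c hc
  obtain ⟨-, hfun, hcl, -, -, -⟩ := hPFC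
  induction hc using Submodule.span_induction with
  | mem c hc =>
    obtain ⟨W, hW, a, φ, h1, h2, h3⟩ := hc
    obtain ⟨d, hd⟩ := exists_div (E := E) (i := n) (idIn W) φ h2
    have hcd : c = pushCyc a d := isDiv_unique a φ c _ h3 (isDiv_pushCyc a φ d hd)
    have hF : (a.g ≫ f.g) ≫ Y.f = W.f := by
      rw [Category.assoc, f.comm, a.comm]
    have hV : IsIntegral (imVar (W := W) (Y := Y) (a.g ≫ f.g)).X :=
      isIntegral_image (a.g ≫ f.g)
    have hgen := toIm_generic (W := W) (Y := Y) (a.g ≫ f.g) hF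
    have hdim : (imVar (W := W) (Y := Y) (a.g ≫ f.g)).dim
        (genericPoint (imVar (W := W) (Y := Y) (a.g ≫ f.g)).X) = (n + 1 : ℕ) := by
      rw [← hgen, ← dim_map (imIn (W := W) (Y := Y) (a.g ≫ f.g)).g
        (imIn (W := W) (Y := Y) (a.g ≫ f.g)).comm, ← Scheme.Hom.comp_apply, toIm_comp,
        Scheme.Hom.comp_apply]
      apply hf
      rw [dim_map a.g a.comm, h1]
    have h4 := hPUSHD k E n W (imVar (W := W) (Y := Y) (a.g ≫ f.g)) hW hV
      (toIm (W := W) (Y := Y) (a.g ≫ f.g) hF) φ d h1 hdim hgen h2 hd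
    have h5 := ratZero_map (imIn (W := W) (Y := Y) (a.g ≫ f.g)) _ h4
    have h6 : pfc E n f c = pushCyc (imIn (W := W) (Y := Y) (a.g ≫ f.g))
        (pfc E n (toIm (W := W) (Y := Y) (a.g ≫ f.g) hF) d) := by
      rw [hcd, ← hcl k E n W X a (clPr a) rfl d,
        ← hcl k E n _ Y (imIn (W := W) (Y := Y) (a.g ≫ f.g))
          (clPr (imIn (W := W) (Y := Y) (a.g ≫ f.g))) rfl,
        hfun k E n W X Y (clPr a) f ((clPr a).trans f) rfl d]
      refine (hfun k E n W _ Y _ _ ((clPr a).trans f) ?_ d).symm
      exact toIm_comp (W := W) (Y := Y) (a.g ≫ f.g) hF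
    rw [h6]
    exact h5
  | zero => rw [map_zero]; exact zero_mem _
  | add x y _ _ hx hy => rw [map_add]; exact add_mem hx hy
  | smul r x _ hx => rw [map_smul]; exact Submodule.smul_mem _ _ hx

end CUB
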