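import Pool.Agent.CUB2.StmtsK

/-!
# CUB2, module RDD: residue degrees and closed immersions
-/

set_option autoImplicit false

open CategoryTheory AlgebraicGeometry Limits Polynomial TopologicalSpace

namespace CUB

open Pool.Agent.Lib_helper55.Beil Pool.Agent.Lib_helper66.OneP

namespace RDD

/-- The degree of a homomorphism. -/
noncomputable def rd {K L : CommRingCat.{0}} (ψ : K ⟶ L) : ℕ :=
  @Module.finrank K L _ _ ψ.hom.toAlgebra.toModule

theorem rd_eq {K L K' L' : CommRingCat.{0}} (ψ : K ⟶ L) (ψ' : K' ⟶ L') (e : K ≅ K')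
    (e' : L ≅ L') (h : e.hom ≫ ψ' = ψ ≫ e'.hom) : rd ψ = rd ψ' := by
  letI := ψ.hom.toAlgebra
  letI := ψ'.hom.toAlgebra
  refine Algebra.finrank_eq_of_equiv_equiv e.commRingCatIsoToRingEquiv
    e'.commRingCatIsoToRingEquiv ?_
  ext x
  exact congrArg (fun t : K ⟶ L' => t.hom x) h

theorem deg_eq {X Y : Scheme.{0}} (f : X ⟶ Y) (x : X) :
    f.residueDegree x = rd (f.residueFieldMap x) := rfl

theorem deg_comp_left {X Y Z : Scheme.{0}} (f : X ⟶ Y) (g : Y ⟶ Z) [IsOpenImmersion f] (x : X) :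
    g.residueDegree (f x) = (f ≫ g).residueDegree x := by
  rw [deg_eq, deg_eq]
  refine rd_eq _ _ (Iso.refl _) (asIso (f.residueFieldMap x)) ?_
  rw [Scheme.residueFieldMap_comp]
  simp

theorem deg_comp_right {X Y Z : Scheme.{0}} (f : X ⟶ Y) (g : Y ⟶ Z) [IsOpenImmersion g] (x : X) :
    (f ≫ g).residueDegree x = f.residueDegree x := by
  rw [deg_eq, deg_eq]
  have i1 : IsIso (g.residueFieldMap (f x)) := inferInstance
  refine rd_eq _ _ (@asIso _ _ _ _ (g.residueFieldMap (f x)) i1) (Iso.refl _) ?_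
  rw [Scheme.residueFieldMap_comp]
  simp

theorem deg_congr {X Y : Scheme.{0}} (f g : X ⟶ Y) (h : f = g) (x : X) :
    f.residueDegree x = g.residueDegree x := by rw [h]

theorem sq {A B : CommRingCat.{0}} (φ : A ⟶ B) (P : Spec B) :
    (Scheme.Spec.residueFieldIso A (Spec.map φ P)).inv ≫ (Spec.map φ).residueFieldMap P =
      CommRingCat.ofHom (Ideal.ResidueField.map
        (PrimeSpectrum.comap φ.hom P).asIdeal P.asIdeal φ.hom rfl) ≫
        (Scheme.Spec.residueFieldIso B P).inv := by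
  apply CommRingCat.hom_ext
  apply Ideal.ResidueField.ringHom_ext
  ext a
  have e1 : (Scheme.Spec.residueFieldIso A (Spec.map φ P)).inv.hom
      (algebraMap A (PrimeSpectrum.comap φ.hom P).asIdeal.ResidueField a) =
      ((Spec A).Γevaluation (Spec.map φ P)).hom ((Scheme.ΓSpecIso A).inv.hom a) :=
    congrArg (fun t => t.hom a) (Scheme.Spec.algebraMap_residueFieldIso_inv A (Spec.map φ P))
  have e2 : (Scheme.Spec.residueFieldIso B P).inv.hom
      (algebraMap B (PrimeSpectrum.asIdeal P).ResidueField (φ.hom a)) =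
      ((Spec B).Γevaluation P).hom ((Scheme.ΓSpecIso B).inv.hom (φ.hom a)) :=
    congrArg (fun t => t.hom (φ.hom a)) (Scheme.Spec.algebraMap_residueFieldIso_inv B P)
  have e3 : Ideal.ResidueField.map
        (PrimeSpectrum.comap φ.hom P).asIdeal (PrimeSpectrum.asIdeal P) φ.hom rfl
        (algebraMap A (PrimeSpectrum.comap φ.hom P).asIdeal.ResidueField a) =
        algebraMap B (PrimeSpectrum.asIdeal P).ResidueField (φ.hom a) :=
    Ideal.ResidueField.map_algebraMap _ _ _ _ a
  have e4 : ((Spec.map φ).residueFieldMap P).hom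
      (((Spec A).Γevaluation (Spec.map φ P)).hom ((Scheme.ΓSpecIso A).inv.hom a)) =
      ((Spec B).Γevaluation P).hom ((Spec.map φ).appTop.hom ((Scheme.ΓSpecIso A).inv.hom a)) :=
    congrArg (fun t => t.hom ((Scheme.ΓSpecIso A).inv.hom a))
      (Scheme.Γevaluation_naturality (Spec.map φ) P)
  have e5 : (Scheme.ΓSpecIso B).inv.hom (φ.hom a) =
      (Spec.map φ).appTop.hom ((Scheme.ΓSpecIso A).inv.hom a) :=
    congrArg (fun t => t.hom a) (Scheme.ΓSpecIso_inv_naturality φ)
  have g1 : ((Spec.map φ).residueFieldMap P).hom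
      ((Scheme.Spec.residueFieldIso A (Spec.map φ P)).inv.hom
      (algebraMap A (PrimeSpectrum.comap φ.hom P).asIdeal.ResidueField a)) =
      ((Spec B).Γevaluation P).hom ((Scheme.ΓSpecIso B).inv.hom (φ.hom a)) := by
    rw [e5, ← e4]
    exact congrArg ((Spec.map φ).residueFieldMap P).hom e1
  have g2 : (Scheme.Spec.residueFieldIso B P).inv.hom
      (Ideal.ResidueField.map
        (PrimeSpectrum.comap φ.hom P).asIdeal (PrimeSpectrum.asIdeal P) φ.hom rfl
        (algebraMap A (PrimeSpectrum.comap φ.hom P).asIdeal.ResidueField a)) =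
      ((Spec B).Γevaluation P).hom ((Scheme.ΓSpecIso B).inv.hom (φ.hom a)) :=
    (congrArg (Scheme.Spec.residueFieldIso B P).inv.hom e3).trans e2
  exact g1.trans g2.symm

theorem sq' {A B : CommRingCat.{0}} (φ : A ⟶ B) (P : Spec B) :
    (Scheme.Spec.residueFieldIso A (Spec.map φ P)).hom ≫
      CommRingCat.ofHom (Ideal.ResidueField.map
        (PrimeSpectrum.comap φ.hom P).asIdeal P.asIdeal φ.hom rfl) =
      (Spec.map φ).residueFieldMap P ≫ (Scheme.Spec.residueFieldIso B P).hom := by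
  have h := (Iso.inv_comp_eq _).1 (sq φ P)
  have h2 := (Iso.eq_comp_inv (Scheme.Spec.residueFieldIso B P)).1
    (h.trans (Category.assoc _ _ _).symm)
  exact h2.symm

theorem isIso_res {X Y : Scheme.{0}} (f : X ⟶ Y) (hf : IsClosedImmersion f) (x : X) :
    IsIso (f.residueFieldMap x) := by
  have hs : Function.Surjective (f.stalkMap x).hom := f.stalkMap_surjective x
  have h1 : Function.Surjective (f.residueFieldMap x).hom := by
    intro y
    obtain ⟨y', rfl⟩ := X.residue_surjective x y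
    obtain ⟨z, rfl⟩ := hs y'
    exact ⟨(Y.residue (f x)).hom z,
      congrArg (fun t => t.hom z) (Scheme.residue_residueFieldMap f x)⟩
  have h2 : Function.Bijective (f.residueFieldMap x).hom :=
    ⟨(f.residueFieldMap x).hom.injective, h1⟩
  exact (ConcreteCategory.isIso_iff_bijective (f.residueFieldMap x)).2 h2

theorem deg_comp_closed {X Y Z : Scheme.{0}} (f : X ⟶ Y) (g : Y ⟶ Z) (hf : IsClosedImmersion f)
    (x : X) : (f ≫ g).residueDegree x = g.residueDegree (f x) := by
  rw [deg_eq, deg_eq]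
  have i1 : IsIso (f.residueFieldMap x) := isIso_res f hf x
  refine (rd_eq _ _ (Iso.refl _) (@asIso _ _ _ _ (f.residueFieldMap x) i1) ?_).symm
  rw [Scheme.residueFieldMap_comp]
  simp

theorem deg_congr_pt {X Y : Scheme.{0}} (f : X ⟶ Y) {x y : X} (h : x = y) :
    f.residueDegree x = f.residueDegree y := by rw [h]

end RDD

theorem t_RDD : S_RDD := by
  intro k A B _ _ _ _ _ _ _ φ X Y D q a f j j' hf hq P z hz
  have h1 : f.deg z = f.g.residueDegree z := rfl
  have h2 : rdeg φ.toRingHom P = RDD.rd (CommRingCat.ofHom (Ideal.ResidueField.map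
        (PrimeSpectrum.comap φ.toRingHom P).asIdeal P.asIdeal φ.toRingHom rfl)) := rfl
  have h0 : (a.g ≫ q).residueDegree z = q.residueDegree (a.g z) :=
    RDD.deg_comp_closed a.g q a.closed z
  have h3 : q.residueDegree (j'.g (toPt P)) = (j'.g ≫ q).residueDegree (toPt P) :=
    RDD.deg_comp_left j'.g q (toPt P)
  have h4 : (spm φ ≫ j.g).residueDegree (toPt P) = (spm φ).residueDegree (toPt P) :=
    RDD.deg_comp_right (spm φ) j.g (toPt P)
  have h5 : (spm φ).residueDegree (toPt P) = rdeg φ.toRingHom P := by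
    rw [h2]
    exact RDD.rd_eq _ _ (Scheme.Spec.residueFieldIso (CommRingCat.of A)
      (Spec.map (CommRingCat.ofHom φ.toRingHom) P))
      (Scheme.Spec.residueFieldIso (CommRingCat.of B) P) (RDD.sq' (CommRingCat.ofHom φ.toRingHom) P)
  rw [h1, RDD.deg_congr _ _ hf, h0, RDD.deg_congr_pt q hz, h3, RDD.deg_congr _ _ hq, h4, h5]

end CUB
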