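import Pool.Agent.CUB2.StmtsK

/-!
# CUB2: module SYMW
-/

set_option autoImplicit false

open CategoryTheory AlgebraicGeometry Limits Polynomial TopologicalSpace

namespace CUB

open Pool.Agent.Lib_helper55.Beil Pool.Agent.Lib_helper66.OneP

namespace SYMW

variable {k : Type} [Field k] {E : Type} [Field E]

section Chart

variable {A : Type} [CommRing A] [Algebra k A] [Algebra.FiniteType k A] {X : Var k} {n : ℕ}

/-- The point of `X` defined by a prime of the chart. -/
noncomputable def jp (j : OpenIn (aff k A) X) (p : RP k A n) : Pts n X :=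
  ptsMapO n j (ptE n p)

lemma jp_val (j : OpenIn (aff k A) X) (p : RP k A n) : (jp j p).1 = j.g (toPt p.1) := rfl

lemma rc_apply (j : OpenIn (aff k A) X) (c : Pts n X →₀ E) (p : RP k A n) :
    rc E n j c p = c (jp j p) := by
  unfold rc
  rw [← cyE_apply ((cyE E n).symm (resCyc j c)) p, LinearEquiv.apply_symm_apply, resCyc_apply]
  rfl

lemma jp_injective (j : OpenIn (aff k A) X) : Function.Injective (jp (n := n) j) := by
  intro p q h
  exact (ptE n).injective (ptsMapO_injective n j h)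

lemma exists_jp (j : OpenIn (aff k A) X) (P : Pts n X) (h : P.1 ∈ Set.range j.g) :
    ∃ p : RP k A n, jp j p = P := by
  obtain ⟨z, hz⟩ := mem_range_ptsMapO j P h
  obtain ⟨p, hp⟩ := (ptE (k := k) (A := A) n).surjective z
  exact ⟨p, by rw [jp, hp, hz]⟩

lemma rc_sum (j : OpenIn (aff k A) X) {m : ℕ} (G : Pts m X → (Pts n X →₀ E))
    (c : Pts m X →₀ E) : rc E n j (Finsupp.linearCombination E G c) =
      Finsupp.linearCombination E (fun P => rc E n j (G P)) c := by
  let L : (Pts n X →₀ E) →ₗ[E] (RP k A n →₀ E) := (cyE E n).symm.toLinearMap.comp (resCyc j)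
  have h1 : ∀ x, rc E n j x = L x := fun _ => rfl
  rw [h1]
  induction c using Finsupp.induction_linear with
  | zero => simp only [map_zero]
  | add c d hc hd => simp only [map_add, hc, hd]
  | single p x =>
    rw [Finsupp.linearCombination_single, Finsupp.linearCombination_single, map_smul, h1]

lemma linComb_rc (j : OpenIn (aff k A) X) {M : Type} [AddCommGroup M] [Module E M]
    (G : Pts n X → M) (hG : ∀ P : Pts n X, P.1 ∉ Set.range j.g → G P = 0) (c : Pts n X →₀ E) :
    Finsupp.linearCombination E G c =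
      Finsupp.linearCombination E (fun p : RP k A n => G (jp j p)) (rc E n j c) := by
  let L : (Pts n X →₀ E) →ₗ[E] (RP k A n →₀ E) := (cyE E n).symm.toLinearMap.comp (resCyc j)
  have h1 : ∀ x, rc E n j x = L x := fun _ => rfl
  rw [h1]
  induction c using Finsupp.induction_linear with
  | zero => simp only [map_zero]
  | add c d hc hd => simp only [map_add, hc, hd]
  | single P x =>
    rw [Finsupp.linearCombination_single, ← h1]
    by_cases hP : P.1 ∈ Set.range j.g
    · obtain ⟨p, rfl⟩ := exists_jp j P hP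
      have h2 : rc E n j (Finsupp.single (jp j p) x) = Finsupp.single p x := by
        classical
        ext q
        rw [rc_apply, Finsupp.single_apply, Finsupp.single_apply]
        by_cases hq : p = q
        · rw [if_pos hq, if_pos (congrArg (jp j) hq)]
        · rw [if_neg hq, if_neg (fun h => hq (jp_injective j h))]
      rw [h2, Finsupp.linearCombination_single]
    · have h2 : rc E n j (Finsupp.single P x) = 0 := by
        classical
        ext q
        rw [rc_apply, Finsupp.single_apply, if_neg, Finsupp.zero_apply]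
        rintro rfl
        exact hP ⟨_, rfl⟩
      rw [h2, map_zero, hG P hP, smul_zero]

end Chart

/-- Finitely many points of codimension one are not in a nonempty open subset. -/
lemma finite_compl (W : Scheme.{0}) [IsIntegral W] [IsNoetherian W] (V : W.Opens)
    (hV : genericPoint W ∈ V) : {w : W | Order.coheight w = 1 ∧ w ∉ V}.Finite := by
  let C : Closeds W := V.compl
  let Z : Scheme.{0} := (Scheme.IdealSheafData.vanishingIdeal C).subscheme
  let ι : Z ⟶ W := (Scheme.IdealSheafData.vanishingIdeal C).subschemeι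
  have hι : IsClosedImmersion ι := inferInstanceAs
    (IsClosedImmersion (Scheme.IdealSheafData.vanishingIdeal C).subschemeι)
  have hrange : Set.range ι = C := by
    have := Scheme.IdealSheafData.range_subschemeι (Scheme.IdealSheafData.vanishingIdeal C)
    rw [Scheme.IdealSheafData.coe_support_vanishingIdeal] at this
    exact this
  have hZ : NoetherianSpace Z := ι.isEmbedding.isInducing.noetherianSpace
  apply ((finite_maximal Z).image ι).subset
  rintro w ⟨hco, hwV⟩
  have hwC : w ∈ Set.range ι := by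
    rw [hrange]
    exact hwV
  obtain ⟨z, rfl⟩ := hwC
  refine ⟨z, ?_, rfl⟩
  intro y hy
  have h1 : ι y ⤳ ι z := hy.map ι.continuous
  rcases eq_or_eq_of_coheight hco h1 with h2 | h2
  · exact ι.isEmbedding.injective h2
  · exfalso
    have h3 : ι y ∈ (C : Set W) := by
      rw [← hrange]
      exact ⟨y, rfl⟩
    apply h3
    rw [h2]
    exact hV

section Domain

variable {A : Type} [CommRing A] [Algebra k A] [Algebra.FiniteType k A] [IsDomain A]

/-- The zero ideal of a chart, as a point of the dimension of the variety. -/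
lemma rdim_bot_chart {W : Var k} [IsIntegral W.X] (j : OpenIn (aff k A) W) :
    rdim k (⟨⊥, Ideal.isPrime_bot⟩ : PrimeSpectrum A) = W.dim (genericPoint W.X) := by
  rw [rdim_bot, ← dim_generic_aff, ← dim_map j.g j.comm, genericPoint_eq_of_isOpenImmersion]

/-- The restriction of a divisor to a chart. -/
lemma rc_div {n : ℕ} {W : Var k} [IsIntegral W.X] (φ : W.X.functionField)
    (c : Pts n W →₀ E) (hdim : W.dim (genericPoint W.X) = (n + 1 : ℕ)) (hφ : φ ≠ 0)
    (hc : IsDiv (idIn W) φ c) (j : OpenIn (aff k A) W) [IsOpenImmersion j.g] (x y : A)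
    (hx : x ≠ 0) (hy : y ≠ 0) (hxy : funMap j.g φ * fnA k y = fnA k x)
    (dx dy : RP k A n →₀ E) (hdx : IsDv k E ⟨⊥, Ideal.isPrime_bot⟩ x dx)
    (hdy : IsDv k E ⟨⊥, Ideal.isPrime_bot⟩ y dy) : rc E n j c = dx - dy := by
  have hD : Algebra.trdeg k A = (n + 1 : ℕ) := by
    rw [← rdim_bot, rdim_bot_chart j, hdim]
  have hψ : funMap j.g φ ≠ 0 := by
    intro h0
    exact hφ ((map_eq_zero_iff _ (funMap j.g).hom.injective).mp h0)
  ext p
  have h1 := hc.1 (j.g (toPt p.1)) (jp j p).2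
  have h2 : rc E n j c p = ((Scheme.ord φ (j.g (toPt p.1)) : ℤ) : E) := by
    rw [rc_apply]
    exact h1
  have h4 : Scheme.ord (fnA k x) (toPt p.1) =
      Scheme.ord (funMap j.g φ) (toPt p.1) + Scheme.ord (fnA k y) (toPt p.1) := by
    rw [← hxy, Scheme.ord_mul hψ (fnA_ne_zero hy)]
  have ox : Scheme.ord (fnA k x) (toPt p.1) = (len (Ideal.span {x}) p.1 : ℤ) :=
    ord_fnA hD x hx (toPt p.1) p.2
  have oy : Scheme.ord (fnA k y) (toPt p.1) = (len (Ideal.span {y}) p.1 : ℤ) :=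
    ord_fnA hD y hy (toPt p.1) p.2
  have of : Scheme.ord (funMap j.g φ) (toPt p.1) = Scheme.ord φ (j.g (toPt p.1)) :=
    ord_funMap j.g φ (toPt p.1)
  rw [ox, oy, of] at h4
  rw [h2, Finsupp.sub_apply, hdx p, hdy p, bot_sup_eq, bot_sup_eq]
  have h5 : Scheme.ord φ (j.g (toPt p.1)) =
      (len (Ideal.span {x}) p.1 : ℤ) - (len (Ideal.span {y}) p.1 : ℤ) := by
    rw [h4]
    ring
  rw [h5]
  push_cast
  rfl

/-- The comparison in a chart. -/
lemma compare [CharZero E] (hLENC : S_LENC) (hDVX : S_DVX) (hSYMA : S_SYMA) (hGYS : S_GYS)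
    {n : ℕ} {W : Var k} [IsIntegral W.X] (φ : W.X.functionField)
    (c : Pts (n + 1) W →₀ E) (hdim : W.dim (genericPoint W.X) = (n + 1 + 1 : ℕ)) (hφ : φ ≠ 0)
    (hc : IsDiv (idIn W) φ c) (j : OpenIn (aff k A) W) [IsOpenImmersion j.g] (x y : A)
    (hx : x ≠ 0) (hy : y ≠ 0) (hxy : funMap j.g φ * fnA k y = fnA k x) (π : Γ(W.X, ⊤))
    (hgen : genericPoint W.X ∈ W.X.basicOpen π)
    (hF : ∀ p : RP k A (n + 1), x ∈ p.1.asIdeal ∨ y ∈ p.1.asIdeal →
      (jp j p).1 ∈ W.X.basicOpen π)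
    (R : Pts (n + 1) W → (Pts n W →₀ E))
    (hR0 : ∀ P : Pts (n + 1) W, P.1 ∉ Set.range j.g → rc E n j (R P) = 0)
    (hR1 : ∀ t : RP k A (n + 1), (jp j t).1 ∉ W.X.basicOpen π → x ∉ t.1.asIdeal →
      y ∉ t.1.asIdeal → ∀ dx dy : RP k A n →₀ E, IsDv k E t.1 x dx → IsDv k E t.1 y dy →
      rc E n j (R (jp j t)) = dx - dy) :
    rc E n j (Finsupp.linearCombination E R
      (gysPt E (n + 1) π (⟨genericPoint W.X, hdim⟩ : Pts (n + 1 + 1) W))) =
      rc E n j (gys E n π c) := by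
  let q : RP k A (n + 1 + 1) := ⟨⟨⊥, Ideal.isPrime_bot⟩, (rdim_bot_chart j).trans hdim⟩
  let ξ : Pts (n + 1 + 1) W := ⟨genericPoint W.X, hdim⟩
  have hxq : x ∉ q.1.asIdeal := fun h => hx h
  have hyq : y ∉ q.1.asIdeal := fun h => hy h
  have hjq : j.g (toPt q.1) = ξ.1 := by
    have h1 := genericPoint_eq_of_isOpenImmersion j.g
    rw [genericPoint_aff] at h1
    exact h1
  have hπq : rfn j π ∉ q.1.asIdeal := by
    rw [← hGYS.2.2.1 k A W π j q.1, hjq]
    exact hgen
  have hd := ((hGYS.2.1 k A E (n + 1) W π ξ j).2 q hjq hπq).2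
  obtain ⟨cx, hcx⟩ := hDVX k A E (n + 1) q x hxq
  obtain ⟨cy, hcy⟩ := hDVX k A E (n + 1) q y hyq
  have hmem : ∀ (z : A) (cz : RP k A (n + 1) →₀ E), IsDv k E q.1 z cz → ∀ P, cz P ≠ 0 →
      z ∈ P.1.asIdeal := by
    intro z cz hz P hP
    rw [hz P] at hP
    exact ((hLENC k A (n + 1) q P).2.1 z (fun h => hP (by rw [h, Nat.cast_zero]))).2
  have hx1 : ∀ T : RP k A (n + 1), ∃ h : RP k A n →₀ E, x ∉ T.1.asIdeal →
      IsDv k E T.1 x h := by
    intro T
    by_cases hT : x ∉ T.1.asIdeal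
    · obtain ⟨h, hh⟩ := hDVX k A E n T x hT
      exact ⟨h, fun _ => hh⟩
    · exact ⟨0, fun h => absurd h hT⟩
  have hy1 : ∀ T : RP k A (n + 1), ∃ h : RP k A n →₀ E, y ∉ T.1.asIdeal →
      IsDv k E T.1 y h := by
    intro T
    by_cases hT : y ∉ T.1.asIdeal
    · obtain ⟨h, hh⟩ := hDVX k A E n T y hT
      exact ⟨h, fun _ => hh⟩
    · exact ⟨0, fun h => absurd h hT⟩
  choose fx hfx using hx1
  choose fy hfy using hy1
  have hgood : ∀ (z : A) (cz : RP k A (n + 1) →₀ E), IsDv k E q.1 z cz →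
      (∀ p : RP k A (n + 1), z ∈ p.1.asIdeal → (jp j p).1 ∈ W.X.basicOpen π) →
      ∀ P, cz P ≠ 0 → rfn j π ∉ P.1.asIdeal ∧
        IsDv k E P.1 (rfn j π) (rc E n j (gysPt E n π (jp j P))) := by
    intro z cz hz hzF P hP
    have h1 : rfn j π ∉ P.1.asIdeal := by
      rw [← hGYS.2.2.1 k A W π j P.1]
      exact hzF P (hmem z cz hz P hP)
    exact ⟨h1, ((hGYS.2.1 k A E n W π (jp j P) j).2 P rfl h1).2⟩
  have hdT : ∀ T, (rc E (n + 1) j (gysPt E (n + 1) π ξ)) T ≠ 0 →
      (jp j T).1 ∉ W.X.basicOpen π := by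
    intro T hT h
    exact ((hGYS.2.2.1 k A W π j T.1).mp h) (hmem _ _ hd T hT)
  have hxT : ∀ T, (rc E (n + 1) j (gysPt E (n + 1) π ξ)) T ≠ 0 → x ∉ T.1.asIdeal :=
    fun T hT h => hdT T hT (hF T (Or.inl h))
  have hyT : ∀ T, (rc E (n + 1) j (gysPt E (n + 1) π ξ)) T ≠ 0 → y ∉ T.1.asIdeal :=
    fun T hT h => hdT T hT (hF T (Or.inr h))
  have e1 := hSYMA k A E n q x (rfn j π) cx (rc E (n + 1) j (gysPt E (n + 1) π ξ))
    (fun P => rc E n j (gysPt E n π (jp j P))) fx hxq hπq hcx hd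
    (hgood x cx hcx (fun p h => hF p (Or.inl h)))
    (fun T hT => ⟨hxT T hT, hfx T (hxT T hT)⟩)
  have e2 := hSYMA k A E n q y (rfn j π) cy (rc E (n + 1) j (gysPt E (n + 1) π ξ))
    (fun P => rc E n j (gysPt E n π (jp j P))) fy hyq hπq hcy hd
    (hgood y cy hcy (fun p h => hF p (Or.inr h)))
    (fun T hT => ⟨hyT T hT, hfy T (hyT T hT)⟩)
  have hrc : rc E (n + 1) j c = cx - cy := rc_div φ c hdim hφ hc j x y hx hy hxy cx cy hcx hcy
  have hG : ∀ P : Pts (n + 1) W, P.1 ∉ Set.range j.g → rc E n j (gysPt E n π P) = 0 :=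
    fun P hP => (hGYS.2.1 k A E n W π P j).1 hP
  rw [rc_sum, linComb_rc j (fun P => rc E n j (R P)) hR0]
  change _ = rc E n j (Finsupp.linearCombination E (gysPt E n π) c)
  rw [rc_sum, linComb_rc j (fun P => rc E n j (gysPt E n π P)) hG, hrc, map_sub,
    Finsupp.linearCombination_apply, Finsupp.linearCombination_apply,
    Finsupp.linearCombination_apply, e1, e2, ← Finsupp.sum_sub]
  apply Finsupp.sum_congr
  intro T hT
  rw [Finsupp.mem_support_iff] at hT
  rw [hR1 T (hdT T hT) (hxT T hT) (hyT T hT) (fx T) (fy T) (hfx T (hxT T hT))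
    (hfy T (hyT T hT)), smul_sub]

end Domain

/-- The family `R` consists of divisors of `φ` on the closures of the points where `π` is not
invertible. -/
def Adm {n : ℕ} {W : Var k} [IsIntegral W.X] (φ : W.X.functionField) (π : Γ(W.X, ⊤))
    (R : Pts (n + 1) W → (Pts n W →₀ E)) : Prop :=
  (∀ P : Pts (n + 1) W, P.1 ∈ W.X.basicOpen π → R P = 0) ∧
  ∀ P : Pts (n + 1) W, P.1 ∉ W.X.basicOpen π → ∀ (A : Type) [CommRing A] [Algebra k A]
    [Algebra.FiniteType k A] (j : OpenIn (aff k A) W),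
    (P.1 ∉ Set.range j.g → rc E n j (R P) = 0) ∧
    ∀ (_ : IsDomain A) (_ : IsOpenImmersion j.g) (t : RP k A (n + 1)) (x y : A),
      j.g (toPt t.1) = P.1 → x ∉ t.1.asIdeal → y ∉ t.1.asIdeal →
      funMap j.g φ * fnA k y = fnA k x → ∀ dx dy : RP k A n →₀ E, IsDv k E t.1 x dx →
      IsDv k E t.1 y dy → rc E n j (R P) = dx - dy

/-- The local statement. -/
lemma local_F [CharZero E] (hLENC : S_LENC) (hDVX : S_DVX) (hSYMA : S_SYMA) (hCHA : S_CHA)
    (hGYS : S_GYS) {n : ℕ} {W : Var k} [hW : IsIntegral W.X] (φ : W.X.functionField)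
    (c : Pts (n + 1) W →₀ E) (hdim : W.dim (genericPoint W.X) = (n + 1 + 1 : ℕ)) (hφ : φ ≠ 0)
    (hc : IsDiv (idIn W) φ c) (w : W.X) :
    ∃ (O : Set W.X) (F : Finset W.X), IsOpen O ∧ w ∈ O ∧ ∀ π : Γ(W.X, ⊤),
      genericPoint W.X ∈ W.X.basicOpen π → (∀ y ∈ F, y ∈ W.X.basicOpen π) →
      ∀ R : Pts (n + 1) W → (Pts n W →₀ E), Adm φ π R → ∀ P : Pts n W, P.1 ∈ O →
        Finsupp.linearCombination E R
          (gysPt E (n + 1) π (⟨genericPoint W.X, hdim⟩ : Pts (n + 1 + 1) W)) P =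
          gys E n π c P := by
  classical
  obtain ⟨A, i1, i2, i3, j, ⟨w', hw'⟩, -⟩ := hCHA.1 k W w ⊤ trivial
  have hA : IsDomain A := hCHA.2.1 k A W hW j w'
  have hψ : funMap j.g φ ≠ 0 := by
    intro h0
    exact hφ ((map_eq_zero_iff _ (funMap j.g).hom.injective).mp h0)
  obtain ⟨x, y, hx, hy, hxy⟩ := exists_fnA (k := k) (D := A) (funMap j.g φ) hψ
  let q : RP k A (n + 1 + 1) := ⟨⟨⊥, Ideal.isPrime_bot⟩, (rdim_bot_chart j).trans hdim⟩
  have hxq : x ∉ q.1.asIdeal := fun h => hx h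
  have hyq : y ∉ q.1.asIdeal := fun h => hy h
  obtain ⟨cx, hcx⟩ := hDVX k A E (n + 1) q x hxq
  obtain ⟨cy, hcy⟩ := hDVX k A E (n + 1) q y hyq
  have key : ∀ (z : A) (cz : RP k A (n + 1) →₀ E), z ∉ q.1.asIdeal → IsDv k E q.1 z cz →
      ∀ p : RP k A (n + 1), z ∈ p.1.asIdeal → p ∈ cz.support := by
    intro z cz hz hcz p hp
    rw [Finsupp.mem_support_iff, hcz p]
    have h1 := (hLENC k A (n + 1) q p).2.2.1 z hz (bot_le (a := p.1.asIdeal)) hp
    exact_mod_cast h1
  refine ⟨Set.range j.g, (cx.support ∪ cy.support).image (fun p => (jp j p).1),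
    j.g.isOpenEmbedding.isOpen_range, ⟨w', hw'⟩, ?_⟩
  intro π hgen hF R hR P hP
  obtain ⟨p, rfl⟩ := exists_jp j P hP
  rw [← rc_apply, ← rc_apply]
  congr 1
  apply compare hLENC hDVX hSYMA hGYS φ c hdim hφ hc j x y hx hy hxy π hgen
  · intro p hp
    apply hF
    rw [Finset.mem_image]
    refine ⟨p, ?_, rfl⟩
    rw [Finset.mem_union]
    rcases hp with hp | hp
    · exact Or.inl (key x cx hxq hcx p hp)
    · exact Or.inr (key y cy hyq hcy p hp)
  · intro P hP
    by_cases hb : P.1 ∈ W.X.basicOpen π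
    · rw [hR.1 P hb]
      ext p
      rw [rc_apply]
      rfl
    · exact (hR.2 P hb A j).1 hP
  · intro t ht hxt hyt dx dy hdx hdy
    exact (hR.2 (jp j t) ht A j).2 hA inferInstance t x y rfl hxt hyt hxy dx dy hdx hdy

end SYMW

open SYMW

theorem t_SYMW : M_SYMW := by
  intro hDST hDIM1 hLENC hDVX hSYMA hCHA hDVC hGYS hGDV k E _ _ _ n W hW φ c hdim hφ hc
  classical
  obtain ⟨U, ⟨u⟩, f, hf, hfφ⟩ := exists_unit W.X φ hφ
  have hgU : genericPoint W.X ∈ U := (genericPoint_specializes u.1).mem_open U.2 u.2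
  have hloc := local_F (E := E) hLENC hDVX hSYMA hCHA hGYS φ c hdim hφ hc
  choose O F hO hwO hF using hloc
  obtain ⟨s, -, hs⟩ := isCompact_univ.elim_nhds_subcover O
    (fun w _ => (hO w).mem_nhds (hwO w))
  have hfin : {w : W.X | Order.coheight w = 1 ∧ w ∉ U}.Finite := finite_compl W.X U hgU
  refine ⟨insert (genericPoint W.X) (hfin.toFinset ∪ s.biUnion F), ?_⟩
  intro π hπ D a hD
  have hgen : genericPoint W.X ∈ W.X.basicOpen π := hπ _ (Finset.mem_insert_self _ _)
  have hπU : ∀ T : Pts (n + 1) D, a.g T.1 ∈ U := by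
    intro T
    by_contra hT
    have h1 : Order.coheight (a.g T.1) = 1 := hDST.2.2.1 k (n + 1) W hW _ hdim (ptsMap (n + 1) a T).2
    have h2 : a.g T.1 ∈ W.X.basicOpen π := hπ _ (Finset.mem_insert_of_mem
      (Finset.mem_union_left _ (hfin.mem_toFinset.mpr ⟨h1, hT⟩)))
    have h3 : a.g T.1 ∈ Set.range a.g := ⟨_, rfl⟩
    rw [hD] at h3
    exact h3 h2
  have hex := fun T : Pts (n + 1) D => hGDV k E n W D hW a φ U hgU f hf hfφ T (hπU T)
  choose ρ hρ hρ2 using hex
  have hRex : ∀ P : Pts (n + 1) W, ∃ r ∈ ratZero E n D, (P.1 ∈ W.X.basicOpen π → r = 0) ∧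
      (P.1 ∉ W.X.basicOpen π → ∃ T : Pts (n + 1) D, ptsMap (n + 1) a T = P ∧ r = ρ T) := by
    intro P
    by_cases hP : P.1 ∈ W.X.basicOpen π
    · exact ⟨0, zero_mem _, fun _ => rfl, fun h => absurd hP h⟩
    · have h1 : P.1 ∈ Set.range a.g := by
        rw [hD]
        exact hP
      obtain ⟨T, hT⟩ := mem_range_ptsMap a P h1
      exact ⟨ρ T, hρ T, fun h => absurd h hP, fun _ => ⟨T, hT, rfl⟩⟩
  choose R hR0 hR1 hR2 using hRex
  let ξ : Pts (n + 1 + 1) W := ⟨genericPoint W.X, hdim⟩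
  have hpush : ∀ d : Pts (n + 1) W →₀ E, pushCyc a (Finsupp.linearCombination E R d) =
      Finsupp.linearCombination E (fun P => pushCyc a (R P)) d := by
    intro d
    let L : (Pts n D →₀ E) →ₗ[E] (Pts n W →₀ E) := Finsupp.lmapDomain E E (ptsMap n a)
    have h1 : ∀ x, pushCyc a x = L x := fun _ => rfl
    rw [h1]
    induction d using Finsupp.induction_linear with
    | zero => simp only [map_zero]
    | add c d hc hd => simp only [map_add, hc, hd]
    | single p x =>
      rw [Finsupp.linearCombination_single, Finsupp.linearCombination_single, map_smul, h1]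
  have hadm : Adm φ π (fun P => pushCyc a (R P)) := by
    constructor
    · intro P hP
      change pushCyc a (R P) = 0
      rw [hR1 P hP]
      exact Finsupp.mapDomain_zero
    · intro P hP A _ _ _ j
      obtain ⟨T, rfl, hT⟩ := hR2 P hP
      simp only [hT]
      exact hρ2 T A j
  refine ⟨Finsupp.linearCombination E R (gysPt E (n + 1) π ξ), ?_, ?_⟩
  · rw [Finsupp.linearCombination_apply]
    exact Submodule.sum_mem _ (fun P _ => Submodule.smul_mem _ _ (hR0 P))
  · rw [hpush]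
    ext P
    have h1 : P.1 ∈ ⋃ x ∈ s, O x := hs trivial
    rw [Set.mem_iUnion₂] at h1
    obtain ⟨w, hws, hwP⟩ := h1
    refine hF w π hgen ?_ _ hadm P hwP
    intro y hy
    exact hπ y (Finset.mem_insert_of_mem (Finset.mem_union_right _
      (Finset.mem_biUnion.mpr ⟨w, hws, hy⟩)))

end CUB
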