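import Pool.Agent.CUB2.L4Val

/-!
# CUB2, L4: the contribution of one valuation ring
-/

set_option autoImplicit false

open Polynomial CategoryTheory AlgebraicGeometry Limits

namespace CUB

open Pool.Agent.Lib_helper55.Beil Pool.Agent.Lib_helper66.OneP

namespace L4

variable {k : Type} [Field k] {E : Type} [Field E] {i : ℕ}

section

variable {K : Type} [Field K] [Algebra k K]

/-- The divisor of a product on `V(T)`. -/
lemma isDv_mul {R : Type} [CommRing R] [Algebra k R] [Algebra.FiniteType k R]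
    (T : RP k R (i + 1)) {b c : R} (hb : b ∉ T.1.asIdeal) (hc : c ∉ T.1.asIdeal)
    {db dc : RP k R i →₀ E} (h : IsDv k E T.1 b db) (h' : IsDv k E T.1 c dc) :
    IsDv k E T.1 (b * c) (db + dc) := by
  intro p
  rw [Finsupp.add_apply, h p, h' p, (Asm.s_LENC k R i T p).1 b c hb hc]
  push_cast
  rfl

/-- The global cycle defined by the tame symbol at one valuation ring. -/
theorem exists_D {X : Var k} {x : Spec (CommRingCat.of K) ⟶ X.X} {O : ValuationSubring K}
    {y : Spec (CommRingCat.of O) ⟶ X.X} (hy : iO O ≫ y = x) (hdim : X.dim (y (cO O)) = (i + 1 : ℕ))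
    (f s : K) : ∃ D ∈ ratZero E i X,
      (∀ (R : Type) [CommRing R] [Algebra k R] [Algebra.FiniteType k R] (j : OpenIn (aff k R) X)
        (θ : R →ₐ[k] K), sp k θ.toRingHom ≫ j.g = x → ∀ (A B : K), B ≠ 0 → f * B = A →
        ∀ dA dB : RP k R i →₀ E, IsTD E θ O A s⁻¹ dA → IsTD E θ O B s⁻¹ dB →
        resCyc j D = cyE E i (dA - dB)) ∧
      ∀ (R : Type) [CommRing R] [Algebra k R] [Algebra.FiniteType k R] (j : OpenIn (aff k R) X),
        y (cO O) ∉ Set.range j.g → resCyc j D = 0 := by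
  classical
  let z : Spec (CommRingCat.of (IsLocalRing.ResidueField O)) ⟶ X.X := rO O ≫ y
  have hz : z (pt (IsLocalRing.ResidueField O)) = y (cO O) := by
    change (rO O ≫ y) _ = _
    rw [Scheme.Hom.comp_apply, rO_pt]
  obtain ⟨F, hF1, hF2⟩ := exists_global (E := E) (i := i) z (by rw [hz, hdim])
  -- the symbols and the norms in one chart
  have key : ∀ (R : Type) [CommRing R] [Algebra k R] [Algebra.FiniteType k R]
      (j : OpenIn (aff k R) X) (θ : R →ₐ[k] K), sp k θ.toRingHom ≫ j.g = x →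
      ∀ (A B : K), B ≠ 0 → f * B = A → ∀ dA dB : RP k R i →₀ E, IsTD E θ O A s⁻¹ dA →
      IsTD E θ O B s⁻¹ dB → ∃ (w : O) (ρ : R →+* IsLocalRing.ResidueField O) (T : RP k R (i + 1))
        (b c : R) (db dc : RP k R i →₀ E), IsTame O f s⁻¹ (w : K) ∧
        sp k ρ ≫ j.g = z ∧ T.1.asIdeal = RingHom.ker ρ ∧ ρ b ≠ 0 ∧ ρ c ≠ 0 ∧
        nm F (IsLocalRing.residue O w) * ρ c = ρ b ∧ IsDv k E T.1 b db ∧ IsDv k E T.1 c dc ∧
        dA - dB = db - dc := by
    intro R _ _ _ j θ hθ A B hB hfB dA dB hA' hB'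
    obtain ⟨h, T, wA, b, c, db, dc, hT, hw, hN, hb, hc, rfl⟩ := hA'
    obtain ⟨h', T', wB, b', c', db', dc', hT', hw', hN', hb', hc', rfl⟩ := hB'
    obtain rfl : T = T' := Subtype.ext (PrimeSpectrum.ext (hT.trans hT'.symm))
    have hρ : sp k (rhoO θ O h) ≫ j.g = z := (centre_of_mem j θ hθ hy h).1
    have hcl := (hF1 R j (rhoO θ O h) hρ).1
    rw [isNm_iff hcl] at hN hN'
    have htame := isTame_div hw hw'
    have hf : A / B = f := by rw [← hfB, mul_div_cancel_right₀ _ hB]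
    rw [hf] at htame
    have hun := isTame_un htame
    let w : O := ⟨(wA : K) / (wB : K), hun.2.1⟩
    have hww : wA = w * wB := by
      apply Subtype.ext
      have h1 : (wB : K) ≠ 0 := (isTame_un hw').1
      change (wA : K) = (wA : K) / (wB : K) * (wB : K)
      rw [div_mul_cancel₀ _ h1]
    have hnm : nm F (IsLocalRing.residue O wA) =
        nm F (IsLocalRing.residue O w) * nm F (IsLocalRing.residue O wB) := by
      rw [hww, map_mul, nm_mul]
    have mT : ∀ x : R, rhoO θ O h x ≠ 0 → x ∉ T.1.asIdeal := by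
      intro x hx hx'
      rw [hT, RingHom.mem_ker] at hx'
      exact hx hx'
    refine ⟨w, rhoO θ O h, T, b * c', b' * c, db + dc', db' + dc, htame, hρ, hT, ?_, ?_, ?_,
      isDv_mul T (mT _ hN.1) (mT _ hN'.2.1) hb hc', isDv_mul T (mT _ hN'.1) (mT _ hN.2.1) hb' hc,
      ?_⟩
    · rw [map_mul]
      exact mul_ne_zero hN.1 hN'.2.1
    · rw [map_mul]
      exact mul_ne_zero hN'.1 hN.2.1
    · rw [map_mul, map_mul, ← hN.2.2, ← hN'.2.2, hnm]
      ring
    · abel
  by_cases hex : ∃ w : O, IsTame O f s⁻¹ (w : K) ∧ nm F (IsLocalRing.residue O w) ≠ 0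
  · obtain ⟨w, hw, hw0⟩ := hex
    obtain ⟨D, hD, hD1, hD2⟩ := hF2 (nm F (IsLocalRing.residue O w)) (nm_mem F _) hw0
    refine ⟨D, hD, ?_, ?_⟩
    · intro R _ _ _ j θ hθ A B hB hfB dA dB hA' hB'
      obtain ⟨w', ρ, T, b, c, db, dc, h1, h2, h3, h4, h5, h6, h7, h8, h9⟩ :=
        key R j θ hθ A B hB hfB dA dB hA' hB'
      obtain rfl : w = w' := Subtype.ext (TDU.tame_uniq hw h1)
      rw [h9]
      exact hD1 R j ρ h2 T h3 b c h4 h5 h6 db dc h7 h8
    · intro R _ _ _ j hj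
      exact hD2 R j (by rw [hz]; exact hj)
  · refine ⟨0, zero_mem _, ?_, fun R _ _ _ j _ => map_zero _⟩
    intro R _ _ _ j θ hθ A B hB hfB dA dB hA' hB'
    obtain ⟨w', ρ, T, b, c, db, dc, h1, h2, h3, h4, h5, h6, h7, h8, h9⟩ :=
      key R j θ hθ A B hB hfB dA dB hA' hB'
    refine absurd ⟨w', h1, ?_⟩ hex
    intro h0
    rw [h0, zero_mul] at h6
    exact h4 h6.symm

end

end L4

end CUB
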