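import Pool.Agent.CUB2.L4Div
import Pool.Agent.CUB2.L4Loc

/-!
# CUB2, L4: homotopy invariance of rational equivalence (main theorem)
-/

set_option autoImplicit false

open Polynomial CategoryTheory AlgebraicGeometry Limits

namespace CUB

open Pool.Agent.Lib_helper55.Beil Pool.Agent.Lib_helper66.OneP

namespace L4

variable {k : Type} [Field k] [PerfectField k] {E : Type} [Field E] {i : ℕ}

section Main

variable {X Y W : Var k} (q : Line Y X) [AlgebraicGeometry.IsIntegral W.X] (a : ClosedIn W Y)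

theorem sp_div_aux {K : Type} [Field K] [Algebra k K] (g : Spec (CommRingCat.of K) ⟶ W.X)
    (e : W.X.functionField ⟶ CommRingCat.of K) (he : Ev g e) (hsurj : Function.Surjective e.hom)
    (hg : g ≫ W.f = Spec.map (CommRingCat.ofHom (algebraMap k K)))
    (φ : W.X.functionField) (hφ : φ ≠ 0) (hW : W.dim (genericPoint W.X) = (i + 1 + 1 : ℕ))
    (c : Pts (i + 1) Y →₀ E) (hc : IsDiv a φ c) : ∃ d ∈ ratZero E i X, IsSp q c d := by
  classical
  obtain ⟨s, hs⟩ := exists_s q a g hg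
  obtain ⟨x, hxdef⟩ : ∃ x : Spec (CommRingCat.of K) ⟶ X.X, x = (g ≫ a.g) ≫ q.q := ⟨_, rfl⟩
  have hx : x ≫ X.f = Spec.map (CommRingCat.ofHom (algebraMap k K)) := by
    rw [hxdef, Category.assoc, q.comm, Category.assoc, a.comm, hg]
  have hx1 : x (pt K) = q.q (a.g (genericPoint W.X)) := by
    rw [hxdef, Scheme.Hom.comp_apply, Scheme.Hom.comp_apply, ev_pt he]
  have hf : e.hom φ ≠ 0 := fun h0 => hφ ((map_eq_zero_iff _ e.hom.injective).mp h0)
  -- charts which do not meet the variety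
  have hout : ∀ (R : Type) [CommRing R] [Algebra k R] [Algebra.FiniteType k R]
      (j : OpenIn (aff k R) X) (j' : OpenIn (aff k R[X]) Y), j'.g ≫ q.q = spm (CC k R) ≫ j.g →
      x (pt K) ∉ Set.range j.g → resCyc j' c = 0 := by
    intro R _ _ _ j j' hq hpt
    apply chart_div_zero a φ c hc j'
    rintro ⟨z, hz⟩
    apply hpt
    rw [hx1, ← hz, ← Scheme.Hom.comp_apply, hq, Scheme.Hom.comp_apply]
    exact ⟨_, rfl⟩
  -- the other charts
  have hin : ∀ (R : Type) [CommRing R] [Algebra k R] [Algebra.FiniteType k R]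
      (j : OpenIn (aff k R) X) (θ : R →ₐ[k] K), sp k θ.toRingHom ≫ j.g = x →
      (∃ Q : RP k R[X] (i + 1 + 1), Q.1.asIdeal = RingHom.ker (evs θ s).toRingHom) ∧
      (∀ u : K, ∃ A B : R[X], evs θ s B ≠ 0 ∧ u * evs θ s B = evs θ s A) := by
    intro R _ _ _ j θ hθ
    obtain ⟨j', hq, ht, -⟩ := exists_lineChart q j
    have hσ := sigma_chart q a g hs j j' hq ht θ (hθ.trans hxdef)
    refine ⟨⟨⟨⟨RingHom.ker (evs θ s).toRingHom, RingHom.ker_isPrime _⟩, ?_⟩, rfl⟩, ?_⟩
    · rw [chart_dim a g e he j' (evs θ s).toRingHom hσ _ rfl, hW]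
    · intro u
      obtain ⟨v, rfl⟩ := hsurj u
      exact chart_frac a g e he j' (evs θ s).toRingHom hσ v
  by_cases hs0 : s = 0
  · -- the function `s` vanishes
    refine ⟨0, zero_mem _, ?_⟩
    intro R _ _ _ j j' hq ht c₁ d₁ hc₁ hd₁
    rw [map_zero] at hd₁
    have hd2 : d₁ = 0 := (cyE E i).injective (by rw [← hd₁, map_zero])
    by_cases hpt : x (pt K) ∈ Set.range j.g
    · obtain ⟨θ, hθ⟩ := exists_theta j hx hpt
      have hσ := sigma_chart q a g hs j j' hq ht θ (hθ.trans hxdef)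
      obtain ⟨⟨Q, hQ⟩, hfr⟩ := hin R j θ hθ
      obtain ⟨A, B, hB, hAB⟩ := hfr (e.hom φ)
      have hA : evs θ s A ≠ 0 := by
        rw [← hAB]
        exact mul_ne_zero hf hB
      have hA' : A ∉ Q.1.asIdeal := by rw [hQ]; exact hA
      have hB' : B ∉ Q.1.asIdeal := by rw [hQ]; exact hB
      obtain ⟨cA, hcA⟩ := Asm.s_DVX k R[X] E (i + 1) Q A hA'
      obtain ⟨cB, hcB⟩ := Asm.s_DVX k R[X] E (i + 1) Q B hB'
      obtain ⟨dA, hdA⟩ := Asm.s_B1 k R E i cA
      obtain ⟨dB, hdB⟩ := Asm.s_B1 k R E i cB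
      have h1 : c₁ = cA - cB := (cyE E (i + 1)).injective (by
        rw [← hc₁]
        exact chart_div a g e he j' (evs θ s).toRingHom hσ φ hφ c hc Q hQ A B hA hB hAB cA cB
          hcA hcB)
      obtain ⟨D, -, -, hD⟩ := Asm.s_R k R K E i θ
      have hV : VV i θ s = ∅ := by
        rw [Set.eq_empty_iff_forall_notMem]
        rintro O ⟨h2, -⟩
        apply h2
        rw [hs0]
        exact O.zero_mem
      obtain ⟨hfin, h3⟩ := hD s A Q cA dA hfr hQ hA' hcA hdA
      obtain ⟨hfin2, h4⟩ := hD s B Q cB dB hfr hQ hB' hcB hdB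
      have h5 : dA = 0 := by
        rw [h3]
        apply Finset.sum_eq_zero
        intro O hO
        rw [Set.Finite.mem_toFinset, hV] at hO
        exact absurd hO (Set.notMem_empty _)
      have h6 : dB = 0 := by
        rw [h4]
        apply Finset.sum_eq_zero
        intro O hO
        rw [Set.Finite.mem_toFinset, hV] at hO
        exact absurd hO (Set.notMem_empty _)
      have h7 := (Asm.s_BLIN k R E i cA cB dA dB 1 hdA hdB).2.2.1
      rw [h1, hd2]
      rw [h5, h6, sub_zero] at h7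
      exact h7
    · rw [hout R j j' hq hpt] at hc₁
      have h1 : c₁ = 0 := (cyE E (i + 1)).injective (by rw [← hc₁, map_zero])
      rw [h1, hd2]
      intro p
      rw [Finsupp.sum_zero_index]
      rfl
  · -- the main case
    have hVV : ∀ (R : Type) [CommRing R] [Algebra k R] [Algebra.FiniteType k R]
        (j : OpenIn (aff k R) X) (θ : R →ₐ[k] K), sp k θ.toRingHom ≫ j.g = x →
        (VV i θ s).Finite := by
      intro R _ _ _ j θ hθ
      obtain ⟨⟨Q, hQ⟩, hfr⟩ := hin R j θ hθ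
      have h1 : (1 : R[X]) ∉ Q.1.asIdeal := fun h0 => Q.1.2.ne_top ((Ideal.eq_top_iff_one _).mpr h0)
      obtain ⟨c1, hc1⟩ := Asm.s_DVX k R[X] E (i + 1) Q 1 h1
      obtain ⟨d1, hd1⟩ := Asm.s_B1 k R E i c1
      exact (Asm.s_TDF k R K E i θ s 1 Q c1 d1 hs0 hfr hQ h1 hc1 hd1).choose
    have hPl : (Pl i x s).Finite := finite_Pl hx hVV
    have hD : ∀ O ∈ Pl i x s, ∃ D ∈ ratZero E i X,
      (∀ (R : Type) [CommRing R] [Algebra k R] [Algebra.FiniteType k R] (j : OpenIn (aff k R) X)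
        (θ : R →ₐ[k] K), sp k θ.toRingHom ≫ j.g = x → ∀ (A B : K), B ≠ 0 → e.hom φ * B = A →
        ∀ dA dB : RP k R i →₀ E, IsTD E θ O A s⁻¹ dA → IsTD E θ O B s⁻¹ dB →
        resCyc j D = cyE E i (dA - dB)) ∧
      ∀ (y : Spec (CommRingCat.of O) ⟶ X.X), iO O ≫ y = x →
      ∀ (R : Type) [CommRing R] [Algebra k R] [Algebra.FiniteType k R] (j : OpenIn (aff k R) X),
        y (cO O) ∉ Set.range j.g → resCyc j D = 0 := by
      rintro O ⟨h1, y, hy, hyd⟩
      obtain ⟨D, hD, hD1, hD2⟩ := exists_D (E := E) hy hyd (e.hom φ) s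
      refine ⟨D, hD, hD1, ?_⟩
      intro y' hy' R _ _ _ j hj
      obtain rfl : y = y' := pl_unique hy hy'
      exact hD2 R j hj
    choose! D hD0 hD1 hD2 using hD
    refine ⟨∑ O ∈ hPl.toFinset, D O, Submodule.sum_mem _ (fun O hO => hD0 O
      (hPl.mem_toFinset.mp hO)), ?_⟩
    intro R _ _ _ j j' hq ht c₁ d₁ hc₁ hd₁
    have hj := j.isOpen
    by_cases hpt : x (pt K) ∈ Set.range j.g
    · obtain ⟨θ, hθ⟩ := exists_theta j hx hpt
      have hσ := sigma_chart q a g hs j j' hq ht θ (hθ.trans hxdef)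
      obtain ⟨⟨Q, hQ⟩, hfr⟩ := hin R j θ hθ
      obtain ⟨A, B, hB, hAB⟩ := hfr (e.hom φ)
      have hA : evs θ s A ≠ 0 := by
        rw [← hAB]
        exact mul_ne_zero hf hB
      have hA' : A ∉ Q.1.asIdeal := by rw [hQ]; exact hA
      have hB' : B ∉ Q.1.asIdeal := by rw [hQ]; exact hB
      obtain ⟨cA, hcA⟩ := Asm.s_DVX k R[X] E (i + 1) Q A hA'
      obtain ⟨cB, hcB⟩ := Asm.s_DVX k R[X] E (i + 1) Q B hB'
      obtain ⟨dA, hdA⟩ := Asm.s_B1 k R E i cA
      obtain ⟨dB, hdB⟩ := Asm.s_B1 k R E i cB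
      have h1 : c₁ = cA - cB := (cyE E (i + 1)).injective (by
        rw [← hc₁]
        exact chart_div a g e he j' (evs θ s).toRingHom hσ φ hφ c hc Q hQ A B hA hB hAB cA cB
          hcA hcB)
      have hTA : ∀ O ∈ VV i θ s, ∃ d : RP k R i →₀ E, IsTD E θ O (evs θ s A) s⁻¹ d :=
        fun O hO => Asm.s_TDE k R K E i θ s Q hs0 hfr hQ O hO _ hA
      have hTB : ∀ O ∈ VV i θ s, ∃ d : RP k R i →₀ E, IsTD E θ O (evs θ s B) s⁻¹ d :=
        fun O hO => Asm.s_TDE k R K E i θ s Q hs0 hfr hQ O hO _ hB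
      choose! DA hDA using hTA
      choose! DB hDB using hTB
      obtain ⟨hfin, h3⟩ := Asm.s_TDF k R K E i θ s A Q cA dA hs0 hfr hQ hA' hcA hdA
      obtain ⟨hfin2, h4⟩ := Asm.s_TDF k R K E i θ s B Q cB dB hs0 hfr hQ hB' hcB hdB
      have h5 := h3 DA hDA
      have h6 := h4 DB hDB
      have h7 := (Asm.s_BLIN k R E i cA cB dA dB 1 hdA hdB).2.2.1
      have h8 : d₁ = dA - dB := by
        apply (cyE (k := k) (A := R) E i).injective
        rw [← hd₁, h5, h6, map_sum, ← Finset.sum_sub_distrib, map_sum]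
        symm
        apply Finset.sum_subset_zero_on_sdiff
        · intro O hO
          rw [Set.Finite.mem_toFinset] at hO ⊢
          obtain ⟨g1, y, g2, g3, -⟩ := of_mem_VV j θ hθ hO
          exact ⟨g1, y, g2, g3⟩
        · intro O hO
          rw [Finset.mem_sdiff, Set.Finite.mem_toFinset, Set.Finite.mem_toFinset] at hO
          obtain ⟨hO1, hO2⟩ := hO
          obtain ⟨g1, y, g2, g3⟩ := id hO1
          apply hD2 O hO1 y g2 R j
          intro hcon
          exact hO2 (mem_VV j θ hθ g1 g2 g3 hcon)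
        · intro O hO
          rw [Set.Finite.mem_toFinset] at hO
          obtain ⟨g1, y, g2, g3, -⟩ := of_mem_VV j θ hθ hO
          exact (hD1 O ⟨g1, y, g2, g3⟩ R j θ hθ _ _ hB hAB _ _ (hDA O hO) (hDB O hO)).symm
      rw [h1, h8]
      exact h7
    · rw [hout R j j' hq hpt] at hc₁
      have h1 : c₁ = 0 := (cyE E (i + 1)).injective (by rw [← hc₁, map_zero])
      have h2 : resCyc j (∑ O ∈ hPl.toFinset, D O) = 0 := by
        rw [map_sum]
        apply Finset.sum_eq_zero
        intro O hO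
        rw [Set.Finite.mem_toFinset] at hO
        obtain ⟨g1, y, g2, g3⟩ := id hO
        apply hD2 O hO y g2 R j
        intro hcon
        apply hpt
        rw [← g2, Scheme.Hom.comp_apply]
        have h2 : (iO O) (pt K) ⤳ cO O := IsLocalRing.specializes_closedPoint _
        exact (h2.map y.continuous).mem_open j.g.opensRange.2 hcon
      rw [h2] at hd₁
      have h3 : d₁ = 0 := (cyE E i).injective (by rw [← hd₁, map_zero])
      rw [h1, h3]
      intro p
      rw [Finsupp.sum_zero_index]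
      rfl

/-- The divisor of a rational function specialises to a cycle which is rationally equivalent to
zero. -/
theorem sp_div (φ : W.X.functionField) (hφ : φ ≠ 0)
    (hW : W.dim (genericPoint W.X) = (i + 1 + 1 : ℕ))
    (c : Pts (i + 1) Y →₀ E) (hc : IsDiv a φ c) : ∃ d ∈ ratZero E i X, IsSp q c d := by
  let K : Type := W.X.functionField
  let _ : Field K := inferInstanceAs (Field W.X.functionField)
  let g : Spec (CommRingCat.of K) ⟶ W.X := W.X.fromSpecStalk (genericPoint W.X)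
  let α : CommRingCat.of k ⟶ CommRingCat.of K := Spec.preimage (g ≫ W.f)
  let _ : Algebra k K := α.hom.toAlgebra
  let e : W.X.functionField ⟶ CommRingCat.of K := 𝟙 _
  have he : Ev g e := by
    change Spec.map (𝟙 _) ≫ W.X.fromSpecStalk (genericPoint W.X) = _
    rw [Spec.map_id, Category.id_comp]
  have hg : g ≫ W.f = Spec.map (CommRingCat.ofHom (algebraMap k K)) := (Spec.map_preimage _).symm
  exact sp_div_aux q a g e he (fun y => ⟨y, rfl⟩) hg φ hφ hW c hc

end Main

/-- Homotopy invariance: if the pull-back to `Y = X × A^1` of a cycle `d` on `X` is rationally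
equivalent to zero, then so is `d`. -/
theorem homotopy {X Y : Var k} (q : Line Y X) (d : Pts i X →₀ E) (c : Pts (i + 1) Y →₀ E)
    (h : ∀ y : Pts (i + 1) Y, (∀ h : X.dim (q.q y.1) = i, c y = d ⟨q.q y.1, h⟩) ∧
      (X.dim (q.q y.1) ≠ i → c y = 0)) (hc : c ∈ ratZero E (i + 1) Y) : d ∈ ratZero E i X := by
  have key : ∀ c ∈ ratZero E (i + 1) Y, ∃ d ∈ ratZero E i X, IsSp q c d := by
    intro c hc
    induction hc using Submodule.span_induction with
    | mem c hc =>
      obtain ⟨W, hW, a, φ, h1, h2, h3⟩ := hc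
      exact sp_div q a φ h2 h1 c h3
    | zero => exact ⟨0, zero_mem _, isSp_zero q⟩
    | add x y _ _ hx hy =>
      obtain ⟨x', hx', h1⟩ := hx
      obtain ⟨y', hy', h2⟩ := hy
      exact ⟨x' + y', add_mem hx' hy', isSp_add h1 h2⟩
    | smul r x _ hx =>
      obtain ⟨x', hx', h1⟩ := hx
      exact ⟨r • x', Submodule.smul_mem _ _ hx', isSp_smul r h1⟩
  obtain ⟨d', hd', h1⟩ := key c hc
  rw [isSp_unique (isSp_pull h) h1]
  exact hd'

end L4

end CUB
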