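import Pool.Agent.CUB2.L4Glob
import Pool.Agent.CUB.Asm

/-!
# CUB2, L4: charts
-/

set_option autoImplicit false

open Polynomial CategoryTheory AlgebraicGeometry Limits TopologicalSpace

namespace CUB

open Pool.Agent.Lib_helper55.Beil Pool.Agent.Lib_helper66.OneP

namespace L4

variable {k : Type} [Field k]

/-- Every point has an affine chart. -/
theorem exists_chartAt (X : Var k) (x : X.X) : ∃ (R : Type) (_ : CommRing R) (_ : Algebra k R)
    (_ : Algebra.FiniteType k R) (j : OpenIn (aff k R) X), x ∈ Set.range j.g := by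
  obtain ⟨_, ⟨U, hU, rfl⟩, hxU, -⟩ := X.X.isBasis_affineOpens.exists_subset_of_mem_open
    (Set.mem_univ x) isOpen_univ
  have hU2 : IsAffineOpen U := hU
  have haff : IsAffine (openVar X U).X := hU2
  obtain ⟨R, _, _, _, ⟨s⟩⟩ := exists_aff (openVar X U)
  have hj := (openVarIn X U).isOpen
  refine ⟨R, inferInstance, inferInstance, inferInstance,
    ⟨s.e.hom ≫ (openVarIn X U).g, ?_, inferInstance⟩, ?_⟩
  · rw [Category.assoc, (openVarIn X U).comm, s.comm]
  · have h1 : x ∈ Set.range (openVarIn X U).g := by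
      rw [range_openVarIn]
      exact hxU
    obtain ⟨y, hy⟩ := h1
    refine ⟨s.e.inv y, ?_⟩
    change (s.e.hom ≫ (openVarIn X U).g) (s.e.inv y) = x
    rw [← Scheme.Hom.comp_apply, s.e.inv_hom_id_assoc, hy]

/-- The chart of `Y = X × A^1` over a chart of `X`. -/
theorem exists_lineChart {X Y : Var k} (q : Line Y X) {R : Type} [CommRing R] [Algebra k R]
    [Algebra.FiniteType k R] (j : OpenIn (aff k R) X) :
    ∃ j' : OpenIn (aff k R[X]) Y, j'.g ≫ q.q = spm (CC k R) ≫ j.g ∧
      j'.g ≫ q.t = Spec.map (CommRingCat.ofHom (Polynomial.mapRingHom (algebraMap k R))) ∧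
      ∀ y : Y.X, q.q y ∈ Set.range j.g → y ∈ Set.range j'.g := by
  have hj := j.isOpen
  let l := lineX (k := k) R
  have hw : (l.q ≫ j.g) ≫ X.f = l.t ≫ Spec.map (CommRingCat.ofHom (algebraMap k k[X])) := by
    rw [Category.assoc, j.comm, l.prod.w]
  let g : (aff k R[X]).X ⟶ Y.X := q.prod.lift (l.q ≫ j.g) l.t hw
  have h1 : g ≫ q.q = l.q ≫ j.g := q.prod.lift_fst _ _ _
  have h2 : g ≫ q.t = l.t := q.prod.lift_snd _ _ _
  have hpb : IsPullback g l.q q.q j.g := by
    have hr : IsPullback (g ≫ q.t) l.q (Spec.map (CommRingCat.ofHom (algebraMap k k[X])))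
        (j.g ≫ X.f) := by
      rw [h2, j.comm]
      exact l.prod.flip
    exact IsPullback.of_right hr h1 q.prod.flip
  have hg : IsOpenImmersion g := MorphismProperty.of_isPullback hpb.flip hj
  refine ⟨⟨g, ?_, hg⟩, h1, ?_, ?_⟩
  · rw [← q.comm, ← Category.assoc, h1, Category.assoc, j.comm, l.comm]
  · rw [h2]
    rfl
  · rintro y ⟨x, hx⟩
    obtain ⟨z, hz1, -⟩ := Scheme.Pullback.exists_preimage_pullback (f := q.q) (g := j.g) y x hx.symm
    refine ⟨hpb.isoPullback.inv z, ?_⟩
    change g (hpb.isoPullback.inv z) = y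
    rw [← Scheme.Hom.comp_apply, hpb.isoPullback_inv_fst, hz1]

end L4

end CUB
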