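import Pool.Agent.CUB2.L4Chart

/-!
# CUB2, L4: valuation rings of a function field and their centres
-/

set_option autoImplicit false

open Polynomial CategoryTheory AlgebraicGeometry Limits

namespace CUB

open Pool.Agent.Lib_helper55.Beil Pool.Agent.Lib_helper66.OneP

namespace L4

/-! ## Tame symbols and norms -/

section Tame

variable {K : Type} [Field K]

lemma isTame_div {O : ValuationSubring K} {a a' u w w' : K} (h : IsTame O a u w)
    (h' : IsTame O a' u w') : IsTame O (a / a') u (w / w') := by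
  obtain ⟨π, α, β, i, j, hπ, hα, hβ, ha, hu, hw⟩ := h
  obtain ⟨π', α', β', i', j', hπ', hα', hβ', ha', hu', hw'⟩ := h'
  have hj : j = j' := TDU.unif_uniq hπ hπ' hβ hβ' (hu.symm.trans hu')
  subst hj
  have hp : O.valuation π = O.valuation π' :=
    le_antisymm (TDU.unif_val hπ' hπ) (TDU.unif_val hπ hπ')
  have h0 : O.valuation π ≠ 0 := (Valuation.ne_zero_iff _).2 hπ.2.1
  refine ⟨π, α / (α' * (π' / π) ^ i'), β, i - i', j, hπ, ?_, hβ, ?_, hu, ?_⟩
  · apply TDU.val_un
    rw [map_div₀, map_mul, map_zpow₀, map_div₀, ← hp, div_self h0, one_zpow, TDU.un_val hα,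
      TDU.un_val hα', mul_one, div_one]
  · have h1 : (π' / π) ^ i' = π' ^ i' / π ^ i' := div_zpow _ _ _
    rw [ha, ha', h1, zpow_sub₀ hπ.2.1]
    have h2 : π ^ i' ≠ 0 := zpow_ne_zero _ hπ.2.1
    have h3 : π' ^ i' ≠ 0 := zpow_ne_zero _ hπ'.2.1
    have h4 : α' ≠ 0 := hα'.1
    field_simp
  · have hu0 : u ≠ 0 := by
      rw [hu]
      exact mul_ne_zero hβ.1 (zpow_ne_zero _ hπ.2.1)
    rw [hw, hw', div_zpow, neg_sub, zpow_sub₀ hu0, zpow_neg, zpow_neg]
    have h2 : u ^ i ≠ 0 := zpow_ne_zero _ hu0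
    have h3 : u ^ i' ≠ 0 := zpow_ne_zero _ hu0
    field_simp

lemma isTame_un {O : ValuationSubring K} {a u w : K} (h : IsTame O a u w) : IsUn O w := by
  obtain ⟨π, α, β, i, j, hπ, hα, hβ, ha, hu, hw⟩ := h
  apply TDU.val_un
  have h0 : O.valuation π ≠ 0 := (Valuation.ne_zero_iff _).2 hπ.2.1
  rw [hw, ha, hu, map_mul, map_zpow₀, map_zpow₀, map_mul, map_mul, map_zpow₀, map_zpow₀,
    TDU.un_val hα, TDU.un_val hβ, one_mul, one_mul, ← zpow_mul, ← zpow_mul, ← zpow_add₀ h0]
  have : i * j + j * -i = 0 := by ring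
  rw [this, zpow_zero]

end Tame

section Nm

variable {L : Type} [Field L]

/-- The norm to a subfield, as an element of the field. -/
noncomputable def nm (F : Subfield L) (x : L) : L := ((Algebra.norm F x : F) : L)

lemma nm_mem (F : Subfield L) (x : L) : nm F x ∈ F := (Algebra.norm F x).2

lemma nm_mul (F : Subfield L) (x y : L) : nm F (x * y) = nm F x * nm F y := by
  unfold nm
  rw [map_mul]
  rfl

lemma isNm_iff {R : Type} [CommRing R] {ρ : R →+* L} {F : Subfield L}
    (hF : Subfield.closure (Set.range ρ) = F) {x : L} {b c : R} :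
    IsNm ρ x b c ↔ ρ b ≠ 0 ∧ ρ c ≠ 0 ∧ nm F x * ρ c = ρ b := by
  subst hF
  exact Iff.rfl

end Nm

/-! ## Centres -/

section Centre

variable {k : Type} [Field k] {K : Type} [Field K]

/-- The morphism `Spec K → Spec O`. -/
noncomputable def iO (O : ValuationSubring K) : Spec (CommRingCat.of K) ⟶ Spec (CommRingCat.of O) :=
  Spec.map (CommRingCat.ofHom O.subtype)

instance isDominant_iO (O : ValuationSubring K) : IsDominant (iO O) := by
  constructor
  have h1 : Function.Injective O.subtype := Subtype.val_injective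
  exact PrimeSpectrum.denseRange_comap_iff_ker_le_nilRadical O.subtype |>.mpr (by
    rw [(RingHom.injective_iff_ker_eq_bot _).mp h1]
    exact bot_le)

/-- The morphism `Spec κ(O) → Spec O`. -/
noncomputable def rO (O : ValuationSubring K) :
    Spec (CommRingCat.of (IsLocalRing.ResidueField O)) ⟶ Spec (CommRingCat.of O) :=
  Spec.map (CommRingCat.ofHom (IsLocalRing.residue O))

/-- The closed point. -/
noncomputable abbrev cO (O : ValuationSubring K) : Spec (CommRingCat.of O) :=
  IsLocalRing.closedPoint (CommRingCat.of O)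

lemma rO_pt (O : ValuationSubring K) :
    (rO O) (pt (IsLocalRing.ResidueField O)) = cO O := by
  apply PrimeSpectrum.ext
  change Ideal.comap (IsLocalRing.residue O) (IsLocalRing.maximalIdeal _) = IsLocalRing.maximalIdeal O
  rw [IsLocalRing.maximalIdeal_eq_bot]
  exact IsLocalRing.ker_residue

variable {X : Var k} {x : Spec (CommRingCat.of K) ⟶ X.X} {O : ValuationSubring K}

/-- The morphism from `Spec O` is determined by its restriction to `Spec K`. -/
lemma pl_unique {y y' : Spec (CommRingCat.of O) ⟶ X.X} (h : iO O ≫ y = x)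
    (h' : iO O ≫ y' = x) : y = y' := by
  have hred : AlgebraicGeometry.IsReduced (Spec (CommRingCat.of O)) := inferInstance
  refine ext_of_isDominant_of_isSeparated X.f ?_ (iO O) (h.trans h'.symm)
  obtain ⟨α, hα⟩ : ∃ α : CommRingCat.of k ⟶ CommRingCat.of O, Spec.map α = y ≫ X.f :=
    ⟨Spec.preimage _, Spec.map_preimage _⟩
  obtain ⟨α', hα'⟩ : ∃ α : CommRingCat.of k ⟶ CommRingCat.of O, Spec.map α = y' ≫ X.f :=
    ⟨Spec.preimage _, Spec.map_preimage _⟩
  have h1 : α ≫ CommRingCat.ofHom O.subtype = α' ≫ CommRingCat.ofHom O.subtype := by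
    apply Spec.map_injective
    rw [Spec.map_comp, Spec.map_comp, hα, hα']
    change iO O ≫ y ≫ X.f = iO O ≫ y' ≫ X.f
    rw [← Category.assoc, ← Category.assoc, h, h']
  rw [← hα, ← hα']
  congr 1
  apply CommRingCat.hom_ext
  apply RingHom.ext
  intro r
  apply Subtype.val_injective
  exact congrArg (fun f => f.hom r) h1

/-- A morphism from the spectrum of a local ring which maps the closed point to a chart. -/
lemma lift_chart {O' : Type} [CommRing O'] [IsLocalRing O'] (y : Spec (CommRingCat.of O') ⟶ X.X)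
    {R : Type} [CommRing R] [Algebra k R] [Algebra.FiniteType k R] (j : OpenIn (aff k R) X)
    (h : y (IsLocalRing.closedPoint (CommRingCat.of O')) ∈ Set.range j.g) :
    ∃ ρ : R →+* O', sp k ρ ≫ j.g = y := by
  have hj := j.isOpen
  have h1 : Set.range y ⊆ Set.range j.g := by
    rintro _ ⟨p, rfl⟩
    have h2 : p ⤳ IsLocalRing.closedPoint (CommRingCat.of O') :=
      IsLocalRing.specializes_closedPoint p
    exact (h2.map y.continuous).mem_open j.g.opensRange.2 h
  let l : Spec (CommRingCat.of O') ⟶ (aff k R).X := IsOpenImmersion.lift j.g y h1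
  have hl : l ≫ j.g = y := IsOpenImmersion.lift_fac j.g y h1
  obtain ⟨ρ, hρ⟩ := exists_sp k l
  exact ⟨ρ, by rw [hρ, hl]⟩

variable [Algebra k K] {R : Type} [CommRing R] [Algebra k R] [Algebra.FiniteType k R]
  (j : OpenIn (aff k R) X)

/-- The homomorphism from the functions on a chart to `K`. -/
lemma exists_theta (hx : x ≫ X.f = Spec.map (CommRingCat.ofHom (algebraMap k K)))
    (h : x (pt K) ∈ Set.range j.g) :
    ∃ θ : R →ₐ[k] K, sp k θ.toRingHom ≫ j.g = x := by
  obtain ⟨ρ, hρ⟩ := lift_chart x j h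
  have h1 : CommRingCat.ofHom (ρ.comp (algebraMap k R)) = CommRingCat.ofHom (algebraMap k K) := by
    apply Spec.map_injective
    rw [← sp_f, ← hx, ← hρ, Category.assoc, j.comm]
  exact ⟨{ ρ with commutes' := fun r => congrArg (fun f => f.hom r) h1 }, hρ⟩

variable (θ : R →ₐ[k] K) (hθ : sp k θ.toRingHom ≫ j.g = x)

include hθ

lemma theta_unique (θ' : R →ₐ[k] K)
    (hθ' : sp k θ'.toRingHom ≫ j.g = x) : θ = θ' := by
  have hj := j.isOpen
  have h1 : sp k θ.toRingHom = sp k θ'.toRingHom := (cancel_mono j.g).mp (hθ.trans hθ'.symm)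
  have h2 := sp_injective k h1
  apply AlgHom.ext
  intro r
  exact RingHom.congr_fun h2 r

lemma mem_of_centre {y : Spec (CommRingCat.of O) ⟶ X.X} (hy : iO O ≫ y = x)
    (hc : y (cO O) ∈ Set.range j.g) (r : R) : θ r ∈ O := by
  have hj := j.isOpen
  obtain ⟨ρ, hρ⟩ := lift_chart y j hc
  have h1 : sp k (O.subtype.comp ρ) ≫ j.g = sp k θ.toRingHom ≫ j.g := by
    rw [hθ, ← hy, ← hρ, ← sp_comp, Category.assoc]
    rfl
  have h2 := sp_injective k ((cancel_mono j.g).mp h1)
  have h3 : O.subtype (ρ r) = θ r := RingHom.congr_fun h2 r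
  rw [← h3]
  exact (ρ r).2

lemma centre_of_mem {y : Spec (CommRingCat.of O) ⟶ X.X} (hy : iO O ≫ y = x)
    (h : ∀ r, θ r ∈ O) :
    sp k (rhoO θ O h) ≫ j.g = rO O ≫ y ∧ y (cO O) ∈ Set.range j.g ∧
      ∀ T : PrimeSpectrum R, T.asIdeal = RingHom.ker (rhoO θ O h) →
        X.dim (y (cO O)) = rdim k T := by
  have hj := j.isOpen
  let y' : Spec (CommRingCat.of O) ⟶ X.X :=
    sp k (θ.toRingHom.codRestrict O.toSubring h) ≫ j.g
  have hy' : iO O ≫ y' = x := by
    rw [← hθ]
    change iO O ≫ sp k _ ≫ j.g = _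
    rw [← Category.assoc]
    congr 1
    exact sp_comp k O.subtype _
  have e1 : y = y' := pl_unique hy hy'
  have e2 : sp k (rhoO θ O h) ≫ j.g = rO O ≫ y := by
    rw [e1]
    change _ = rO O ≫ sp k _ ≫ j.g
    rw [← Category.assoc]
    congr 1
    exact (sp_comp k (IsLocalRing.residue O) _).symm
  have e3 : y (cO O) = j.g ((sp k (rhoO θ O h)) (pt (IsLocalRing.ResidueField O))) := by
    rw [← rO_pt, ← Scheme.Hom.comp_apply, ← e2, Scheme.Hom.comp_apply]
  refine ⟨e2, ⟨_, e3.symm⟩, ?_⟩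
  intro T hT
  have e4 : (sp k (rhoO θ O h)) (pt (IsLocalRing.ResidueField O)) = toPt (k := k) T := by
    apply PrimeSpectrum.ext
    change Ideal.comap (rhoO θ O h) (IsLocalRing.maximalIdeal _) = T.asIdeal
    rw [IsLocalRing.maximalIdeal_eq_bot, hT]
    rfl
  rw [e3, dim_map j.g j.comm, ← dim_toPt, e4]

end Centre

end L4

end CUB
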