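import Pool.Agent.CUB2.L4Main
import Pool.Agent.CUB2.L4Val

/-!
# CUB2, L4: the specialisation of a divisor
-/

set_option autoImplicit false

open Polynomial CategoryTheory AlgebraicGeometry Limits

namespace CUB

open Pool.Agent.Lib_helper55.Beil Pool.Agent.Lib_helper66.OneP

namespace L4

variable {k : Type} [Field k] {E : Type} [Field E] {i : ℕ}

section Div

variable {X Y W : Var k} (q : Line Y X) (a : ClosedIn W Y)
  {K : Type} [Field K] [Algebra k K] (g : Spec (CommRingCat.of K) ⟶ W.X)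

/-- The coordinate on the line, as an element of the field. -/
lemma exists_s (hg : g ≫ W.f = Spec.map (CommRingCat.ofHom (algebraMap k K))) :
    ∃ s : K, (g ≫ a.g) ≫ q.t =
      Spec.map (CommRingCat.ofHom (eval₂RingHom (algebraMap k K) s)) := by
  obtain ⟨τ, hτ⟩ : ∃ τ : CommRingCat.of k[X] ⟶ CommRingCat.of K, Spec.map τ = (g ≫ a.g) ≫ q.t :=
    ⟨Spec.preimage _, Spec.map_preimage _⟩
  refine ⟨τ.hom Polynomial.X, ?_⟩
  rw [← hτ]
  congr 1
  apply CommRingCat.hom_ext
  apply Polynomial.ringHom_ext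
  · intro r
    have h1 : CommRingCat.ofHom (algebraMap k k[X]) ≫ τ = CommRingCat.ofHom (algebraMap k K) := by
      apply Spec.map_injective
      rw [Spec.map_comp, hτ, ← hg, Category.assoc, Category.assoc, ← q.prod.w, ← a.comm, ← q.comm]
    have h2 := congrArg (fun f => f.hom r) h1
    refine Eq.trans ?_ (eval₂_C (algebraMap k K) (τ.hom Polynomial.X)).symm
    exact h2
  · exact (eval₂_X (algebraMap k K) (τ.hom Polynomial.X)).symm

/-- The homomorphism from the functions on a chart of `Y` to the field. -/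
lemma sigma_chart {s : K} (hs : (g ≫ a.g) ≫ q.t =
      Spec.map (CommRingCat.ofHom (eval₂RingHom (algebraMap k K) s)))
    {R : Type} [CommRing R] [Algebra k R] [Algebra.FiniteType k R] (j : OpenIn (aff k R) X)
    (j' : OpenIn (aff k R[X]) Y) (hq : j'.g ≫ q.q = spm (CC k R) ≫ j.g)
    (ht : j'.g ≫ q.t = Spec.map (CommRingCat.ofHom (Polynomial.mapRingHom (algebraMap k R))))
    (θ : R →ₐ[k] K) (hθ : sp k θ.toRingHom ≫ j.g = (g ≫ a.g) ≫ q.q) :
    sp k (evs θ s).toRingHom ≫ j'.g = g ≫ a.g := by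
  apply q.prod.hom_ext
  · rw [Category.assoc, hq, ← Category.assoc, sp_spm, ← hθ]
    congr 2
    ext r
    exact evs_C θ s r
  · rw [Category.assoc, ht, hs]
    change Spec.map (CommRingCat.ofHom (evs θ s).toRingHom) ≫ Spec.map _ = _
    rw [← Spec.map_comp]
    congr 1
    apply CommRingCat.hom_ext
    apply Polynomial.ringHom_ext
    · intro r
      change evs θ s (Polynomial.map (algebraMap k R) (C r)) = eval₂ (algebraMap k K) s (C r)
      rw [Polynomial.map_C, evs_C, eval₂_C, AlgHom.commutes]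
    · change evs θ s (Polynomial.map (algebraMap k R) Polynomial.X) = eval₂ (algebraMap k K) s Polynomial.X
      rw [Polynomial.map_X, evs_X, eval₂_X]

end Div

section Places

variable {K : Type} [Field K] [Algebra k K] {X : Var k} {x : Spec (CommRingCat.of K) ⟶ X.X}

lemma exists_pl {R : Type} [CommRing R] [Algebra k R] [Algebra.FiniteType k R]
    (j : OpenIn (aff k R) X) (θ : R →ₐ[k] K) (hθ : sp k θ.toRingHom ≫ j.g = x)
    {O : ValuationSubring K} (h : ∀ r, θ r ∈ O) :
    ∃ y : Spec (CommRingCat.of O) ⟶ X.X, iO O ≫ y = x := by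
  refine ⟨sp k (θ.toRingHom.codRestrict O.toSubring h) ≫ j.g, ?_⟩
  rw [← hθ, ← Category.assoc]
  congr 1
  exact sp_comp k O.subtype _

variable (i x) in
/-- The valuation rings whose centre on `X` exists and has dimension `i + 1`, and which do not
contain `s`. -/
def Pl (s : K) : Set (ValuationSubring K) :=
  {O | s ∉ O ∧ ∃ y : Spec (CommRingCat.of O) ⟶ X.X, iO O ≫ y = x ∧
    X.dim (y (cO O)) = (i + 1 : ℕ)}

lemma mem_VV {R : Type} [CommRing R] [Algebra k R] [Algebra.FiniteType k R]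
    (j : OpenIn (aff k R) X) (θ : R →ₐ[k] K) (hθ : sp k θ.toRingHom ≫ j.g = x) {s : K}
    {O : ValuationSubring K} (hs : s ∉ O) {y : Spec (CommRingCat.of O) ⟶ X.X}
    (hy : iO O ≫ y = x) (hd : X.dim (y (cO O)) = (i + 1 : ℕ)) (hc : y (cO O) ∈ Set.range j.g) :
    O ∈ VV i θ s := by
  have h : ∀ r, θ r ∈ O := mem_of_centre j θ hθ hy hc
  let T : PrimeSpectrum R := ⟨RingHom.ker (rhoO θ O h), RingHom.ker_isPrime _⟩
  have hT := (centre_of_mem j θ hθ hy h).2.2 T rfl
  exact ⟨hs, h, ⟨T, hT.symm.trans hd⟩, rfl⟩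

lemma of_mem_VV {R : Type} [CommRing R] [Algebra k R] [Algebra.FiniteType k R]
    (j : OpenIn (aff k R) X) (θ : R →ₐ[k] K) (hθ : sp k θ.toRingHom ≫ j.g = x) {s : K}
    {O : ValuationSubring K} (hO : O ∈ VV i θ s) : s ∉ O ∧
    ∃ y : Spec (CommRingCat.of O) ⟶ X.X, iO O ≫ y = x ∧ X.dim (y (cO O)) = (i + 1 : ℕ) ∧
      y (cO O) ∈ Set.range j.g := by
  obtain ⟨hs, h, T, hT⟩ := hO
  obtain ⟨y, hy⟩ := exists_pl j θ hθ h
  obtain ⟨-, h2, h3⟩ := centre_of_mem j θ hθ hy h
  exact ⟨hs, y, hy, (h3 T.1 hT).trans T.2, h2⟩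

/-- Finitely many valuation rings. -/
theorem finite_Pl {s : K} (hx : x ≫ X.f = Spec.map (CommRingCat.ofHom (algebraMap k K)))
    (H : ∀ (R : Type) [CommRing R] [Algebra k R] [Algebra.FiniteType k R]
      (j : OpenIn (aff k R) X) (θ : R →ₐ[k] K), sp k θ.toRingHom ≫ j.g = x →
      (VV i θ s).Finite) : (Pl i x s).Finite := by
  classical
  have hcomp : CompactSpace X.X := by
    have h1 : CompactSpace (Spec (CommRingCat.of k)) := inferInstance
    exact QuasiCompact.compactSpace_of_compactSpace X.f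
  -- the places with centre in a chart
  have key : ∀ p : X.X, ∃ U : Set X.X, IsOpen U ∧ p ∈ U ∧
      {O : ValuationSubring K | s ∉ O ∧ ∃ y : Spec (CommRingCat.of O) ⟶ X.X, iO O ≫ y = x ∧
        X.dim (y (cO O)) = (i + 1 : ℕ) ∧ y (cO O) ∈ U}.Finite := by
    intro p
    obtain ⟨R, _, _, _, j, hp⟩ := exists_chartAt X p
    have hj := j.isOpen
    refine ⟨Set.range j.g, j.g.opensRange.2, hp, ?_⟩
    by_cases hpt : x (pt K) ∈ Set.range j.g
    · obtain ⟨θ, hθ⟩ := exists_theta j hx hpt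
      apply (H R j θ hθ).subset
      rintro O ⟨hs, y, hy, hd, hc⟩
      exact mem_VV j θ hθ hs hy hd hc
    · convert Set.finite_empty
      rw [Set.eq_empty_iff_forall_notMem]
      rintro O ⟨hs, y, hy, hd, hc⟩
      apply hpt
      rw [← hy, Scheme.Hom.comp_apply]
      have h2 : (iO O) (pt K) ⤳ cO O := IsLocalRing.specializes_closedPoint _
      exact (h2.map y.continuous).mem_open j.g.opensRange.2 hc
  choose U hU hpU hfin using key
  obtain ⟨t, ht⟩ := isCompact_univ.elim_finite_subcover (fun p : X.X => U p) hU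
    (fun p _ => Set.mem_iUnion.mpr ⟨p, hpU p⟩)
  apply (Set.Finite.biUnion t.finite_toSet (fun p _ => hfin p)).subset
  rintro O ⟨hs, y, hy, hd⟩
  obtain ⟨p, hp⟩ := Set.mem_iUnion.mp (ht (Set.mem_univ (y (cO O))))
  obtain ⟨hpt, hp2⟩ := Set.mem_iUnion.mp hp
  exact Set.mem_biUnion (Finset.mem_coe.mpr hpt) ⟨hs, y, hy, hd, hp2⟩

end Places

end L4

end CUB
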