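import Pool.Agent.CUB.Bridge

/-!
# CUB2, L4: function fields and field valued points; the divisor of a rational function in a chart
-/

set_option autoImplicit false

open Polynomial CategoryTheory AlgebraicGeometry Limits

namespace CUB

open Pool.Agent.Lib_helper55.Beil Pool.Agent.Lib_helper66.OneP

namespace L4

section Ev

variable {L : Type} [Field L]

/-- The point of `Spec L`. -/
noncomputable abbrev pt (L : Type) [Field L] : Spec (CommRingCat.of L) :=
  IsLocalRing.closedPoint (CommRingCat.of L)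

/-- The homomorphism `e` from the function field of `V` to `L` defines the morphism `g`. -/
def Ev {V : Scheme.{0}} [IsIntegral V] (g : Spec (CommRingCat.of L) ⟶ V)
    (e : V.functionField ⟶ CommRingCat.of L) : Prop :=
  Spec.map e ≫ V.fromSpecStalk (genericPoint V) = g

lemma exists_ev {V : Scheme.{0}} [IsIntegral V] (g : Spec (CommRingCat.of L) ⟶ V)
    (h : g (pt L) = genericPoint V) : ∃ e, Ev g e := by
  have h1 := Scheme.Spec_stalkClosedPointTo_fromSpecStalk g
  refine ⟨V.presheaf.stalkSpecializes (specializes_of_eq h) ≫ Scheme.stalkClosedPointTo g, ?_⟩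
  unfold Ev
  rw [Spec.map_comp, Category.assoc, Scheme.SpecMap_stalkSpecializes_fromSpecStalk]
  exact h1

lemma ev_unique {V : Scheme.{0}} [IsIntegral V] {g : Spec (CommRingCat.of L) ⟶ V}
    {e e' : V.functionField ⟶ CommRingCat.of L} (h : Ev g e) (h' : Ev g e') : e = e' := by
  unfold Ev at h h'
  apply Spec.map_injective
  rw [← cancel_mono (V.fromSpecStalk (genericPoint V)), h, h']

lemma ev_pt {V : Scheme.{0}} [IsIntegral V] {g : Spec (CommRingCat.of L) ⟶ V}
    {e : V.functionField ⟶ CommRingCat.of L} (h : Ev g e) (x : Spec (CommRingCat.of L)) :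
    g x = genericPoint V := by
  unfold Ev at h
  have h1 : g x ∈ Set.range (V.fromSpecStalk (genericPoint V)) := by
    rw [← h, Scheme.Hom.comp_apply]
    exact ⟨_, rfl⟩
  rw [Scheme.range_fromSpecStalk] at h1
  exact (Specializes.antisymm h1 (genericPoint_specializes _)).eq

lemma ev_comp {A B : Scheme.{0}} (h : A ⟶ B) [IsOpenImmersion h] [IsIntegral A] [IsIntegral B]
    {g : Spec (CommRingCat.of L) ⟶ A} {e : A.functionField ⟶ CommRingCat.of L} (he : Ev g e) :
    Ev (g ≫ h) (funMap h ≫ e) := by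
  unfold Ev at he ⊢
  have h1 : Spec.map (funMap h) ≫ B.fromSpecStalk (genericPoint B) =
      A.fromSpecStalk (genericPoint A) ≫ h := by
    unfold funMap
    rw [Spec.map_comp, Category.assoc, Scheme.SpecMap_stalkSpecializes_fromSpecStalk,
      Scheme.SpecMap_stalkMap_fromSpecStalk]
  rw [Spec.map_comp, Category.assoc, h1, ← Category.assoc, he]

variable {k : Type} [Field k]

lemma ev_fnA {D : Type} [CommRing D] [Algebra k D] [Algebra.FiniteType k D] [IsDomain D]
    (σ : D →+* L) {g : Spec (CommRingCat.of L) ⟶ (aff k D).X}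
    (hg : Spec.map (CommRingCat.ofHom σ) = g) {e : (aff k D).X.functionField ⟶ CommRingCat.of L}
    (he : Ev g e) (b : D) : e.hom (fnA k b) = σ b := by
  unfold Ev at he
  have h1 : (aff k D).X.fromSpecStalk (genericPoint (aff k D).X) =
      Spec.map (StructureSheaf.toStalk (CommRingCat.of D) _) := Spec.fromSpecStalk_eq' _ _
  rw [h1, ← hg] at he
  have h2 : (StructureSheaf.toStalk (CommRingCat.of D) (genericPoint (aff k D).X)) ≫ e =
      CommRingCat.ofHom σ := by
    apply Spec.map_injective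
    exact (Spec.map_comp _ _).trans he
  have h3 := congrArg (fun f => f.hom b) h2
  exact h3

end Ev

section Sp

variable (k : Type) [Field k] {R : Type} [CommRing R] [Algebra k R] [Algebra.FiniteType k R]
  {O' : Type} [CommRing O']

/-- The morphism to an affine variety defined by a homomorphism of rings. -/
noncomputable def sp (ρ : R →+* O') : Spec (CommRingCat.of O') ⟶ (aff k R).X :=
  Spec.map (CommRingCat.ofHom ρ)

lemma sp_injective {ρ ρ' : R →+* O'} (h : sp k ρ = sp k ρ') : ρ = ρ' := by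
  have h1 := Spec.map_injective h
  exact congrArg (fun f => f.hom) h1

lemma exists_sp (l : Spec (CommRingCat.of O') ⟶ (aff k R).X) : ∃ ρ : R →+* O', sp k ρ = l :=
  ⟨(Spec.preimage l).hom, Spec.map_preimage l⟩

lemma sp_comp {O'' : Type} [CommRing O''] (τ : O' →+* O'') (ρ : R →+* O') :
    Spec.map (CommRingCat.ofHom τ) ≫ sp k ρ = sp k (τ.comp ρ) := by
  change Spec.map (CommRingCat.ofHom τ) ≫ Spec.map (CommRingCat.ofHom ρ) =
    Spec.map (CommRingCat.ofHom (τ.comp ρ))
  rw [← Spec.map_comp]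
  rfl

lemma sp_spm {S : Type} [CommRing S] [Algebra k S] [Algebra.FiniteType k S] (ρ : S →+* O')
    (φ : R →ₐ[k] S) : sp k ρ ≫ spm φ = sp k (ρ.comp φ.toRingHom) := by
  change Spec.map (CommRingCat.ofHom ρ) ≫ Spec.map (CommRingCat.ofHom φ.toRingHom) = _
  rw [← Spec.map_comp]
  rfl

lemma sp_f (ρ : R →+* O') : sp k ρ ≫ (aff k R).f =
    Spec.map (CommRingCat.ofHom (ρ.comp (algebraMap k R))) := by
  change Spec.map (CommRingCat.ofHom ρ) ≫ Spec.map (CommRingCat.ofHom (algebraMap k R)) = _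
  rw [← Spec.map_comp]
  rfl

end Sp

section Res

variable {k : Type} [Field k] {E : Type} [Field E] {n : ℕ}

/-- The divisor of a product. -/
lemma isDiv_mul {W X : Var k} (a : ClosedIn W X) [AlgebraicGeometry.IsIntegral W.X]
    {φ ψ : W.X.functionField} (hφ : φ ≠ 0) (hψ : ψ ≠ 0) {c d : Pts n X →₀ E}
    (hc : IsDiv a φ c) (hd : IsDiv a ψ d) : IsDiv a (φ * ψ) (c + d) := by
  refine ⟨?_, ?_⟩
  · intro w h
    refine (Finsupp.add_apply _ _ _).trans ((congrArg₂ (· + ·) (hc.1 w h) (hd.1 w h)).trans ?_)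
    rw [Scheme.ord_mul hφ hψ]
    push_cast
    rfl
  · intro x hx
    exact (Finsupp.add_apply _ _ _).trans
      ((congrArg₂ (· + ·) (hc.2 x hx) (hd.2 x hx)).trans (add_zero _))

/-- The intersection of an integral closed subvariety `W` of `Z` with a chart `Spec S` which
contains its generic point. -/
theorem exists_chart {Z W : Var k} [AlgebraicGeometry.IsIntegral W.X] (a : ClosedIn W Z)
    {L : Type} [Field L] (g : Spec (CommRingCat.of L) ⟶ W.X) (e : W.X.functionField ⟶ CommRingCat.of L)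
    (he : Ev g e) {S : Type} [CommRing S] [Algebra k S] [Algebra.FiniteType k S]
    (j : OpenIn (aff k S) Z) (σ : S →+* L)
    (hσ : sp k σ ≫ j.g = g ≫ a.g) :
    ∃ (q : PrimeSpectrum S) (h : (aff k (S ⧸ q.asIdeal)).X ⟶ W.X) (_ : IsOpenImmersion h)
      (e' : (aff k (S ⧸ q.asIdeal)).X.functionField ⟶ CommRingCat.of L),
      q.asIdeal = RingHom.ker σ ∧ h ≫ a.g = (cq (k := k) q.asIdeal).g ≫ j.g ∧
      (∀ w, a.g w ∈ Set.range j.g → w ∈ Set.range h) ∧ funMap h ≫ e' = e ∧
      ∀ b : S, e'.hom (fnA k (Ideal.Quotient.mk q.asIdeal b)) = σ b := by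
  have ha := a.closed
  have hj := j.isOpen
  have hcomm : pullback.fst a.g j.g ≫ a.g = pullback.snd a.g j.g ≫ j.g := pullback.condition
  let W' : Var k := interVar a j
  have hb : IsClosedImmersion (pullback.snd a.g j.g) := inferInstance
  let b : ClosedIn W' (aff k S) := ⟨pullback.snd a.g j.g, rfl, hb⟩
  let h₀ : W'.X ⟶ W.X := pullback.fst a.g j.g
  have hh₀ : IsOpenImmersion h₀ := inferInstanceAs (IsOpenImmersion (pullback.fst a.g j.g))
  have hr : ∀ w, a.g w ∈ Set.range j.g → w ∈ Set.range h₀ := by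
    intro w hw
    have h4 := Scheme.Pullback.range_fst a.g j.g
    rw [show Set.range h₀ = Set.range (pullback.fst a.g j.g) from rfl, h4]
    exact hw
  let g₀ : Spec (CommRingCat.of L) ⟶ W'.X := pullback.lift g (sp k σ) hσ.symm
  have hg₀ : g₀ ≫ h₀ = g := pullback.lift_fst _ _ _
  have hg₁ : g₀ ≫ b.g = Spec.map (CommRingCat.ofHom σ) := pullback.lift_snd _ _ _
  have hne : Nonempty W'.X := ⟨g₀ (pt L)⟩
  have hint : AlgebraicGeometry.IsIntegral W'.X := isIntegral_of_isOpenImmersion h₀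
  obtain ⟨I, ε, hε⟩ := (IsClosedImmersion.Spec_iff (R := CommRingCat.of S) (f := b.g)).mp b.closed
  have hne2 : Nonempty (Spec (CommRingCat.of (S ⧸ I))) := ⟨ε.hom (genericPoint W'.X)⟩
  have hint2 : AlgebraicGeometry.IsIntegral (Spec (CommRingCat.of (S ⧸ I))) :=
    isIntegral_of_isOpenImmersion ε.inv
  have hdom : IsDomain (S ⧸ I) := (affine_isIntegral_iff (CommRingCat.of (S ⧸ I))).mp hint2
  have hI : I.IsPrime := (Ideal.Quotient.isDomain_iff_prime I).mp hdom
  let q : PrimeSpectrum S := ⟨I, hI⟩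
  let h : (aff k (S ⧸ I)).X ⟶ W.X := ε.inv ≫ h₀
  have hh : IsOpenImmersion h := inferInstanceAs (IsOpenImmersion (ε.inv ≫ h₀))
  have hinv : ε.inv ≫ b.g = (cq (k := k) I).g := (Iso.inv_comp_eq ε).mpr hε
  let g' : Spec (CommRingCat.of L) ⟶ (aff k (S ⧸ I)).X := g₀ ≫ ε.hom
  have hg' : g' ≫ h = g := by
    change (g₀ ≫ ε.hom) ≫ ε.inv ≫ h₀ = g
    rw [Category.assoc, ε.hom_inv_id_assoc, hg₀]
  have hg2 : g' ≫ (cq (k := k) I).g = Spec.map (CommRingCat.ofHom σ) := by
    rw [← hinv]
    change (g₀ ≫ ε.hom) ≫ ε.inv ≫ b.g = _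
    rw [Category.assoc, ε.hom_inv_id_assoc, hg₁]
  have hgen : g' (pt L) = genericPoint (aff k (S ⧸ I)).X := by
    apply h.isOpenEmbedding.injective
    rw [genericPoint_eq_of_isOpenImmersion h, ← Scheme.Hom.comp_apply, hg']
    exact ev_pt he _
  obtain ⟨e', he'⟩ := exists_ev g' hgen
  have he2 : funMap h ≫ e' = e := by
    apply ev_unique (g := g) _ he
    rw [← hg']
    exact ev_comp h he'
  -- the homomorphism `S / I → L`
  obtain ⟨σ', hσ'⟩ : ∃ σ' : CommRingCat.of (S ⧸ I) ⟶ CommRingCat.of L, Spec.map σ' = g' :=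
    ⟨Spec.preimage g', Spec.map_preimage g'⟩
  have hσ2 : ∀ x : S, σ'.hom (Ideal.Quotient.mk I x) = σ x := by
    intro x
    have h1 : CommRingCat.ofHom (Ideal.Quotient.mk I) ≫ σ' = CommRingCat.ofHom σ := by
      apply Spec.map_injective
      rw [Spec.map_comp, hσ']
      exact hg2
    exact congrArg (fun f => f.hom x) h1
  have hev : ∀ x : S, e'.hom (fnA k (Ideal.Quotient.mk I x)) = σ x := by
    intro x
    rw [← hσ2]
    exact ev_fnA σ'.hom hσ' he' _
  have hker : I = RingHom.ker σ := by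
    ext x
    rw [RingHom.mem_ker, ← hev]
    have h1 : e'.hom (fnA k (Ideal.Quotient.mk I x)) = 0 ↔ fnA k (Ideal.Quotient.mk I x) = 0 :=
      map_eq_zero_iff _ e'.hom.injective
    rw [h1]
    constructor
    · intro hx
      rw [Ideal.Quotient.eq_zero_iff_mem.mpr hx]
      exact fn_zero
    · intro hx
      by_contra hx2
      exact fnA_ne_zero (k := k) (fun h0 => hx2 (Ideal.Quotient.eq_zero_iff_mem.mp h0)) hx
  refine ⟨q, h, hh, e', hker, ?_, ?_, he2, hev⟩
  · have e1 : (ε.inv ≫ h₀) ≫ a.g = (ε.inv ≫ b.g) ≫ j.g := by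
      rw [Category.assoc, Category.assoc]
      exact congrArg (ε.inv ≫ ·) hcomm
    exact e1.trans (congrArg (· ≫ j.g) hinv)
  · intro w hw
    obtain ⟨w', rfl⟩ := hr w hw
    refine ⟨ε.hom w', ?_⟩
    change (ε.inv ≫ h₀) (ε.hom w') = h₀ w'
    rw [← Scheme.Hom.comp_apply, ε.hom_inv_id_assoc]

section

variable {Z W : Var k} [AlgebraicGeometry.IsIntegral W.X] (a : ClosedIn W Z)
  {L : Type} [Field L] (g : Spec (CommRingCat.of L) ⟶ W.X)
  (e : W.X.functionField ⟶ CommRingCat.of L) (he : Ev g e) {S : Type} [CommRing S] [Algebra k S]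
  [Algebra.FiniteType k S] (j : OpenIn (aff k S) Z) (σ : S →+* L)
  (hσ : sp k σ ≫ j.g = g ≫ a.g)

include he hσ

/-- The dimension of the prime ideal defined by `W` in the chart. -/
theorem chart_dim (q : PrimeSpectrum S) (hq : q.asIdeal = RingHom.ker σ) :
    rdim k q = W.dim (genericPoint W.X) := by
  obtain ⟨q', h, hh, e', hq', h1, h2, h3, h4⟩ := exists_chart a g e he j σ hσ
  obtain rfl : q = q' := PrimeSpectrum.ext (hq.trans hq'.symm)
  have hj := j.isOpen
  have hc : IsClosedImmersion (cq (k := k) q.asIdeal).g := (cq q.asIdeal).closed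
  have e1 : h (genericPoint (aff k (S ⧸ q.asIdeal)).X) = genericPoint W.X :=
    genericPoint_eq_of_isOpenImmersion h
  have e2 : h ≫ W.f = (aff k (S ⧸ q.asIdeal)).f := by
    rw [← a.comm, ← Category.assoc, h1, Category.assoc, j.comm, (cq q.asIdeal).comm]
  rw [← e1, dim_map h e2, dim_generic_aff]
  rfl

/-- Every element of the function field of `W` is a quotient of functions in the chart. -/
theorem chart_frac (x : W.X.functionField) : ∃ A B : S, σ B ≠ 0 ∧ e.hom x * σ B = σ A := by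
  obtain ⟨q, h, hh, e', hq, h1, h2, h3, h4⟩ := exists_chart a g e he j σ hσ
  by_cases hx : x = 0
  · refine ⟨0, 1, ?_, ?_⟩
    · rw [map_one]
      exact one_ne_zero
    · rw [hx, map_zero, map_zero, zero_mul]
  have hψ : funMap h x ≠ 0 := by
    intro h0
    exact hx ((map_eq_zero_iff _ (funMap h).hom.injective).mp h0)
  obtain ⟨α, β, hα, hβ, hαβ⟩ := exists_fnA (k := k) (D := S ⧸ q.asIdeal) (funMap h x) hψ
  obtain ⟨α, rfl⟩ := Ideal.Quotient.mk_surjective α
  obtain ⟨β, rfl⟩ := Ideal.Quotient.mk_surjective β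
  refine ⟨α, β, ?_, ?_⟩
  · intro h0
    apply hβ
    rw [Ideal.Quotient.eq_zero_iff_mem, hq]
    exact h0
  · have h5 := congrArg e'.hom hαβ
    rw [map_mul, h4, h4] at h5
    rw [← h5, ← h3]
    rfl

/-- The functions in the chart are elements of the function field of `W`. -/
theorem chart_mem (A : S) : ∃ x : W.X.functionField, e.hom x = σ A := by
  obtain ⟨q, h, hh, e', hq, h1, h2, h3, h4⟩ := exists_chart a g e he j σ hσ
  refine ⟨inv (funMap h) (fnA k (Ideal.Quotient.mk q.asIdeal A)), ?_⟩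
  rw [← h4, ← h3]
  change e'.hom (funMap h (inv (funMap h) _)) = _
  congr 1
  rw [← ConcreteCategory.comp_apply, IsIso.inv_hom_id]
  rfl

/-- The divisor of a rational function on `W` in a chart. -/
theorem chart_div (φ : W.X.functionField) (hφ : φ ≠ 0) (c : Pts n Z →₀ E) (hc : IsDiv a φ c)
    (q : RP k S (n + 1)) (hq : q.1.asIdeal = RingHom.ker σ) (A B : S) (hA : σ A ≠ 0)
    (hB : σ B ≠ 0) (hAB : e.hom φ * σ B = σ A) (cA cB : RP k S n →₀ E)
    (hcA : IsDv k E q.1 A cA) (hcB : IsDv k E q.1 B cB) : resCyc j c = cyE E n (cA - cB) := by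
  obtain ⟨q', h, hh, e', hq', h1, h2, h3, h4⟩ := exists_chart a g e he j σ hσ
  have hqq : q.1 = q' := PrimeSpectrum.ext (hq.trans hq'.symm)
  obtain ⟨q, hqd⟩ := q
  change q = q' at hqq
  subst hqq
  have hA' : A ∉ q.asIdeal := by rw [hq]; exact hA
  have hB' : B ∉ q.asIdeal := by rw [hq]; exact hB
  have hA2 : Ideal.Quotient.mk q.asIdeal A ≠ 0 := fun h0 =>
    hA' (Ideal.Quotient.eq_zero_iff_mem.mp h0)
  have hB2 : Ideal.Quotient.mk q.asIdeal B ≠ 0 := fun h0 =>
    hB' (Ideal.Quotient.eq_zero_iff_mem.mp h0)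
  have hψ : funMap h φ ≠ 0 := by
    intro h0
    exact hφ ((map_eq_zero_iff _ (funMap h).hom.injective).mp h0)
  have h5 : funMap h φ * fnA k (Ideal.Quotient.mk q.asIdeal B) =
      fnA k (Ideal.Quotient.mk q.asIdeal A) := by
    apply e'.hom.injective
    rw [map_mul, h4, h4, ← hAB, ← h3]
    rfl
  have h6 : IsDiv (cq (k := k) q.asIdeal) (funMap h φ) (resCyc j c) :=
    isDiv_res a j (cq q.asIdeal) h h1 h2 φ c hc
  have h7 : IsDiv (cq (k := k) q.asIdeal) (fnA k (Ideal.Quotient.mk q.asIdeal B)) (cyE E n cB) :=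
    (isDiv_iff q hqd B hB' cB).mpr hcB
  have h8 : IsDiv (cq (k := k) q.asIdeal) (fnA k (Ideal.Quotient.mk q.asIdeal A)) (cyE E n cA) :=
    (isDiv_iff q hqd A hA' cA).mpr hcA
  have h9 := isDiv_mul (cq (k := k) q.asIdeal) hψ (fnA_ne_zero hB2) h6 h7
  rw [h5] at h9
  have h10 := isDiv_unique _ _ _ _ h9 h8
  rw [map_sub, ← h10, add_sub_cancel_right]

end

/-- The divisor of a rational function on `W` is zero in charts which do not meet `W`. -/
theorem chart_div_zero {Z W : Var k} [AlgebraicGeometry.IsIntegral W.X] (a : ClosedIn W Z)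
    (φ : W.X.functionField) (c : Pts n Z →₀ E) (hc : IsDiv a φ c) {U : Var k} (j : OpenIn U Z)
    (h : a.g (genericPoint W.X) ∉ Set.range j.g) : resCyc j c = 0 := by
  ext u
  rw [resCyc_apply]
  apply hc.2
  rintro ⟨w, hw⟩
  apply h
  have hj := j.isOpen
  have h1 : a.g (genericPoint W.X) ⤳ a.g w := (genericPoint_specializes w).map a.g.continuous
  exact h1.mem_open j.g.opensRange.2 ⟨u.1, hw.symm⟩

end Res

end L4

end CUB
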