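import Pool.Agent.CUB2.L4Ev

/-!
# CUB2, L4: the divisor of an element of the residue field of a point, as a cycle on `X`
-/

set_option autoImplicit false

open Polynomial CategoryTheory AlgebraicGeometry Limits

namespace CUB

open Pool.Agent.Lib_helper55.Beil Pool.Agent.Lib_helper66.OneP

namespace L4

variable {k : Type} [Field k] {E : Type} [Field E] {i : ℕ}

/-- The closure of the image of a field valued point. -/
theorem exists_closure (X : Var k) {L : Type} [Field L] (z : Spec (CommRingCat.of L) ⟶ X.X) :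
    ∃ (W : Var k) (_ : AlgebraicGeometry.IsIntegral W.X) (a : ClosedIn W X)
      (g : Spec (CommRingCat.of L) ⟶ W.X) (e : W.X.functionField ⟶ CommRingCat.of L),
      g ≫ a.g = z ∧ Ev g e := by
  have hf2 : QuasiCompact z := by
    have : QuasiCompact (z ≫ X.f) := inferInstance
    exact QuasiCompact.of_comp z X.f
  have ha : IsClosedImmersion z.imageι := inferInstance
  let W : Var k :=
    { X := z.image
      f := z.imageι ≫ X.f
      sep := inferInstance
      lft := inferInstance
      qc := inferInstance }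
  have hW : AlgebraicGeometry.IsIntegral W.X := isIntegral_image z
  let a : ClosedIn W X := ⟨z.imageι, rfl, ha⟩
  let g : Spec (CommRingCat.of L) ⟶ W.X := z.toImage
  have hdom : DenseRange g := IsDominant.denseRange (f := z.toImage)
  have hgen : g (pt L) = genericPoint W.X := by
    have h1 : IsGenericPoint (g (pt L)) (Set.univ : Set W.X) := by
      have h2 : Set.range g = {g (pt L)} := by
        ext x
        constructor
        · rintro ⟨y, rfl⟩
          rw [Set.mem_singleton_iff]
          congr 1
          exact Subsingleton.elim _ _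
        · rintro rfl
          exact ⟨_, rfl⟩
      have h3 := hdom.closure_range
      rw [h2] at h3
      exact h3
    exact h1.eq (genericPoint_spec W.X)
  obtain ⟨e, he⟩ := exists_ev g hgen
  exact ⟨W, hW, a, g, e, z.toImage_imageι, he⟩

/-- `D` is, in every chart, the divisor of `r`, an element of the residue field of the image `z`
of a field valued point. -/
def IsGl {X : Var k} {L : Type} [Field L] (z : Spec (CommRingCat.of L) ⟶ X.X) (r : L)
    (D : Pts i X →₀ E) : Prop :=
  (∀ (R : Type) [CommRing R] [Algebra k R] [Algebra.FiniteType k R] (j : OpenIn (aff k R) X)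
    (ρ : R →+* L), sp k ρ ≫ j.g = z → ∀ (T : RP k R (i + 1)),
    T.1.asIdeal = RingHom.ker ρ → ∀ b c : R, ρ b ≠ 0 → ρ c ≠ 0 → r * ρ c = ρ b →
    ∀ db dc : RP k R i →₀ E, IsDv k E T.1 b db → IsDv k E T.1 c dc →
      resCyc j D = cyE E i (db - dc)) ∧
  ∀ (R : Type) [CommRing R] [Algebra k R] [Algebra.FiniteType k R] (j : OpenIn (aff k R) X),
    z (pt L) ∉ Set.range j.g → resCyc j D = 0

/-- The residue field of the image of a field valued point, as a subfield, and the global divisors
of its elements. -/
theorem exists_global {X : Var k} {L : Type} [Field L] (z : Spec (CommRingCat.of L) ⟶ X.X)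
    (hT : X.dim (z (pt L)) = (i + 1 : ℕ)) :
    ∃ F : Subfield L, (∀ (R : Type) [CommRing R] [Algebra k R] [Algebra.FiniteType k R]
      (j : OpenIn (aff k R) X) (ρ : R →+* L), sp k ρ ≫ j.g = z →
      Subfield.closure (Set.range ρ) = F ∧
        ∀ T : PrimeSpectrum R, T.asIdeal = RingHom.ker ρ → rdim k T = (i + 1 : ℕ)) ∧
      ∀ r ∈ F, r ≠ 0 → ∃ D ∈ ratZero E i X, IsGl z r D := by
  obtain ⟨W, hW, a, g, e, hga, he⟩ := exists_closure X z
  have ha := a.closed
  have hgen : a.g (genericPoint W.X) = z (pt L) := by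
    rw [← hga, Scheme.Hom.comp_apply, ev_pt he]
  have hdim : W.dim (genericPoint W.X) = (i + 1 : ℕ) := by
    rw [← dim_map a.g a.comm, hgen, hT]
  refine ⟨e.hom.fieldRange, ?_, ?_⟩
  · intro R _ _ _ j ρ hρ
    have hσ : sp k ρ ≫ j.g = g ≫ a.g := by rw [hρ, hga]
    refine ⟨?_, ?_⟩
    · apply le_antisymm
      · rw [Subfield.closure_le]
        rintro _ ⟨x, rfl⟩
        obtain ⟨y, hy⟩ := chart_mem a g e he j ρ hσ x
        exact ⟨y, hy⟩
      · rintro _ ⟨x, rfl⟩
        obtain ⟨A, B, hB, hAB⟩ := chart_frac a g e he j ρ hσ x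
        have h1 : e.hom x = ρ A / ρ B := (eq_div_iff hB).mpr hAB
        rw [h1]
        exact div_mem (Subfield.subset_closure ⟨A, rfl⟩) (Subfield.subset_closure ⟨B, rfl⟩)
    · intro T hT'
      rw [chart_dim a g e he j ρ hσ T hT', hdim]
  · rintro r ⟨φ, rfl⟩ hr
    have hφ : φ ≠ 0 := by
      rintro rfl
      exact hr (map_zero e.hom)
    obtain ⟨D, hD⟩ := exists_div (E := E) (i := i) a φ hφ
    refine ⟨D, Submodule.subset_span ⟨W, hW, a, φ, hdim, hφ, hD⟩, ?_, ?_⟩
    · intro R _ _ _ j ρ hρ T hT' b c hb hc hbc db dc hdb hdc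
      have hσ : sp k ρ ≫ j.g = g ≫ a.g := by rw [hρ, hga]
      exact chart_div a g e he j ρ hσ φ hφ D hD T hT' b c hb hc hbc db dc hdb hdc
    · intro R _ _ _ j hj
      apply chart_div_zero a φ D hD j
      rw [hgen]
      exact hj

end L4

end CUB
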