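import Pool.Agent.CUB2.L4Chart

/-!
# CUB2, L4: homotopy invariance of rational equivalence
-/

set_option autoImplicit false

open Polynomial CategoryTheory AlgebraicGeometry Limits

namespace CUB

open Pool.Agent.Lib_helper55.Beil Pool.Agent.Lib_helper66.OneP

namespace L4

variable {k : Type} [Field k] {E : Type} [Field E] {i : ℕ}

/-- The cycle `d` on `X` is the specialisation at infinity of the cycle `c` on `Y = X × A^1`. -/
def IsSp {X Y : Var k} (q : Line Y X) (c : Pts (i + 1) Y →₀ E) (d : Pts i X →₀ E) : Prop :=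
  ∀ (R : Type) [CommRing R] [Algebra k R] [Algebra.FiniteType k R] (j : OpenIn (aff k R) X)
    (j' : OpenIn (aff k R[X]) Y), j'.g ≫ q.q = spm (CC k R) ≫ j.g →
    j'.g ≫ q.t = Spec.map (CommRingCat.ofHom (Polynomial.mapRingHom (algebraMap k R))) →
    ∀ (c₁ : RP k R[X] (i + 1) →₀ E) (d₁ : RP k R i →₀ E), resCyc j' c = cyE E (i + 1) c₁ →
      resCyc j d = cyE E i d₁ → IsBeta k E c₁ d₁

section Basic

variable {X Y : Var k} (q : Line Y X)

lemma isSp_zero : IsSp q (0 : Pts (i + 1) Y →₀ E) (0 : Pts i X →₀ E) := by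
  intro R _ _ _ j j' _ _ c₁ d₁ hc hd
  rw [map_zero] at hc hd
  have h1 : c₁ = 0 := (cyE E (i + 1)).injective (by rw [← hc, map_zero])
  have h2 : d₁ = 0 := (cyE E i).injective (by rw [← hd, map_zero])
  rw [h1, h2]
  intro p
  rw [Finsupp.sum_zero_index]
  rfl

variable {q}

lemma isSp_add {c c' : Pts (i + 1) Y →₀ E} {d d' : Pts i X →₀ E} (h : IsSp q c d)
    (h' : IsSp q c' d') : IsSp q (c + c') (d + d') := by
  intro R _ _ _ j j' hq ht c₁ d₁ hc hd
  obtain ⟨u, hu⟩ := (cyE (k := k) (A := R[X]) E (i + 1)).surjective (resCyc j' c)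
  obtain ⟨u', hu'⟩ := (cyE (k := k) (A := R[X]) E (i + 1)).surjective (resCyc j' c')
  obtain ⟨v, hv⟩ := (cyE (k := k) (A := R) E i).surjective (resCyc j d)
  obtain ⟨v', hv'⟩ := (cyE (k := k) (A := R) E i).surjective (resCyc j d')
  have h1 := h R j j' hq ht u v hu.symm hv.symm
  have h2 := h' R j j' hq ht u' v' hu'.symm hv'.symm
  have h3 := (Asm.s_BLIN k R E i u u' v v' 1 h1 h2).2.1
  have e1 : c₁ = u + u' := (cyE E (i + 1)).injective (by rw [← hc, map_add, map_add, hu, hu'])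
  have e2 : d₁ = v + v' := (cyE E i).injective (by rw [← hd, map_add, map_add, hv, hv'])
  rw [e1, e2]
  exact h3

lemma isSp_smul {c : Pts (i + 1) Y →₀ E} {d : Pts i X →₀ E} (r : E) (h : IsSp q c d) :
    IsSp q (r • c) (r • d) := by
  intro R _ _ _ j j' hq ht c₁ d₁ hc hd
  obtain ⟨u, hu⟩ := (cyE (k := k) (A := R[X]) E (i + 1)).surjective (resCyc j' c)
  obtain ⟨v, hv⟩ := (cyE (k := k) (A := R) E i).surjective (resCyc j d)
  have h1 := h R j j' hq ht u v hu.symm hv.symm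
  have h3 := (Asm.s_BLIN k R E i u u v v r h1 h1).2.2.2.1
  have e1 : c₁ = r • u := (cyE E (i + 1)).injective (by rw [← hc, map_smul, map_smul, hu])
  have e2 : d₁ = r • v := (cyE E i).injective (by rw [← hd, map_smul, map_smul, hv])
  rw [e1, e2]
  exact h3

lemma isSp_unique {c : Pts (i + 1) Y →₀ E} {d d' : Pts i X →₀ E} (h : IsSp q c d)
    (h' : IsSp q c d') : d = d' := by
  ext p
  obtain ⟨R, _, _, _, j, x, hx⟩ := exists_chartAt X p.1
  obtain ⟨j', hq, ht, -⟩ := exists_lineChart q j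
  obtain ⟨u, hu⟩ := (cyE (k := k) (A := R[X]) E (i + 1)).surjective (resCyc j' c)
  obtain ⟨v, hv⟩ := (cyE (k := k) (A := R) E i).surjective (resCyc j d)
  obtain ⟨v', hv'⟩ := (cyE (k := k) (A := R) E i).surjective (resCyc j d')
  have h1 := h R j j' hq ht u v hu.symm hv.symm
  have h2 := h' R j j' hq ht u v' hu.symm hv'.symm
  have h3 := (Asm.s_BLIN k R E i u u v v' 1 h1 h2).1 rfl
  rw [h3, hv'] at hv
  obtain ⟨y, hy⟩ := mem_range_ptsMapO j p ⟨x, hx⟩
  rw [← hy, ← resCyc_apply, ← resCyc_apply, hv]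

lemma pull_apply {c : Pts (i + 1) Y →₀ E} {d : Pts i X →₀ E}
    (h : ∀ y : Pts (i + 1) Y, (∀ h : X.dim (q.q y.1) = i, c y = d ⟨q.q y.1, h⟩) ∧
      (X.dim (q.q y.1) ≠ i → c y = 0)) (y : Pts (i + 1) Y) (x : Pts i X) (hyx : q.q y.1 = x.1) :
    c y = d x := by
  obtain ⟨x, hx⟩ := x
  change q.q y.1 = x at hyx
  subst hyx
  exact (h y).1 hx

/-- The pull-back of a cycle specialises to the cycle. -/
lemma isSp_pull {c : Pts (i + 1) Y →₀ E} {d : Pts i X →₀ E}
    (h : ∀ y : Pts (i + 1) Y, (∀ h : X.dim (q.q y.1) = i, c y = d ⟨q.q y.1, h⟩) ∧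
      (X.dim (q.q y.1) ≠ i → c y = 0)) : IsSp q c d := by
  intro R _ _ _ j j' hq ht c₁ d₁ hc hd
  have hj := j.isOpen
  apply Asm.s_B2 k R E i d₁ c₁
  intro P
  have e2 : c₁ P = c (ptsMapO (i + 1) j' (ptE (i + 1) P)) := by
    rw [← resCyc_apply, hc, cyE_apply]
  have e1 : q.q (ptsMapO (i + 1) j' (ptE (i + 1) P)).1 =
      j.g (toPt (PrimeSpectrum.comap (CC k R).toRingHom P.1)) := by
    change q.q (j'.g (toPt P.1)) = _
    rw [← Scheme.Hom.comp_apply, hq, Scheme.Hom.comp_apply]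
    rfl
  have e3 : X.dim (q.q (ptsMapO (i + 1) j' (ptE (i + 1) P)).1) =
      rdim k (PrimeSpectrum.comap (CC k R).toRingHom P.1) := by
    rw [e1, dim_map j.g j.comm, dim_toPt]
  refine ⟨?_, ?_⟩
  · intro hP
    have key : ∀ p : RP k R i, p.1 = PrimeSpectrum.comap (CC k R).toRingHom P.1 → c₁ P = d₁ p := by
      intro p hp
      have e4 : d₁ p = d (ptsMapO i j (ptE i p)) := by
        rw [← resCyc_apply, hd, cyE_apply]
      rw [e2, e4]
      apply pull_apply h
      rw [e1, ← hp]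
      rfl
    exact key _ rfl
  · intro hP
    rw [e2]
    exact (h _).2 (fun h0 => hP (e3.symm.trans h0))

end Basic

end L4

end CUB
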