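import Pool.Agent.CUB2.StmtsL

/-!
# CUB2, module CNTA: the fibre of `V(π)` over a point
-/

set_option autoImplicit false

open Polynomial

namespace CUB

namespace CNTA

/-- residue degrees and a surjection on the upper side -/
lemma rdeg_comp {A B D : Type} [CommRing A] [CommRing B] [CommRing D] (φ : A →+* B) (ψ : B →+* D)
    (hψ : Function.Surjective ψ) (P : PrimeSpectrum D) :
    rdeg (ψ.comp φ) P = rdeg φ (PrimeSpectrum.comap ψ P) := by
  unfold rdeg
  set p : Ideal A := (PrimeSpectrum.comap φ (PrimeSpectrum.comap ψ P)).asIdeal with hp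
  set f1 : p.ResidueField →+* (PrimeSpectrum.comap ψ P).asIdeal.ResidueField :=
    Ideal.ResidueField.map p (PrimeSpectrum.comap ψ P).asIdeal φ rfl with hf1
  set f2 : (PrimeSpectrum.comap ψ P).asIdeal.ResidueField →+* P.asIdeal.ResidueField :=
    Ideal.ResidueField.map (PrimeSpectrum.comap ψ P).asIdeal P.asIdeal ψ rfl with hf2
  set f3 : p.ResidueField →+* P.asIdeal.ResidueField :=
    Ideal.ResidueField.map p P.asIdeal (ψ.comp φ) rfl with hf3
  have hb : Function.Bijective f2 :=
    (RingHom.surjectiveOnStalks_of_surjective hψ).residueFieldMap_bijective _ _ rfl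
  have h3 : f3 = f2.comp f1 := by
    rw [hf1, hf2, hf3]
    unfold Ideal.ResidueField.map
    rw [← IsLocalRing.ResidueField.map_comp]
    congr 1
    exact Localization.localRingHom_comp _ _ _ _ rfl _ rfl
  let a1 : Algebra p.ResidueField (PrimeSpectrum.comap ψ P).asIdeal.ResidueField := f1.toAlgebra
  let a3 : Algebra p.ResidueField P.asIdeal.ResidueField := f3.toAlgebra
  have e : (PrimeSpectrum.comap ψ P).asIdeal.ResidueField ≃ₗ[p.ResidueField]
      P.asIdeal.ResidueField :=
    { RingEquiv.ofBijective f2 hb with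
      map_smul' := by
        intro r x
        change f2 (f1 r * x) = f3 r * f2 x
        rw [map_mul, h3]
        rfl }
  exact e.finrank_eq.symm

/-- the kernel of the coordinates modulo an ideal -/
lemma mem_map_iff {R D : Type} [CommRing R] [CommRing D] [Algebra R D] {ι : Type} [Fintype ι]
    (b : Module.Basis ι R D) (I : Ideal R) (x : D) :
    x ∈ I.map (algebraMap R D) ↔ ∀ i, b.repr x i ∈ I := by
  have h0 : x ∈ I.map (algebraMap R D) ↔ x ∈ I • (⊤ : Submodule R D) := by
    rw [Ideal.smul_top_eq_map]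
    rfl
  rw [h0]
  constructor
  · intro h
    refine Submodule.smul_induction_on h ?_ ?_
    · intro r hr n _ i
      rw [map_smul, Finsupp.smul_apply, smul_eq_mul]
      exact I.mul_mem_right _ hr
    · intro x y hx hy i
      rw [map_add, Finsupp.add_apply]
      exact I.add_mem (hx i) (hy i)
  · intro h
    rw [← b.sum_repr x]
    exact Submodule.sum_mem _ fun i _ => Submodule.smul_mem_smul (h i) trivial

/-- the quotient of a free algebra by an extended ideal -/
noncomputable def quotEquiv {R D : Type} [CommRing R] [CommRing D] [Algebra R D] {ι : Type}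
    [Fintype ι] (b : Module.Basis ι R D) (I : Ideal R) :
    (D ⧸ I.map (algebraMap R D)) ≃ₗ[R] (ι → R ⧸ I) := by
  let φ : D →ₗ[R] (ι → R ⧸ I) := LinearMap.pi fun i => (Submodule.mkQ I) ∘ₗ (b.coord i)
  have hφ : Function.Surjective φ := by
    intro y
    choose z hz using fun i => Submodule.mkQ_surjective I (y i)
    refine ⟨∑ i, z i • b i, ?_⟩
    funext j
    change Submodule.mkQ I (b.repr (∑ i, z i • b i) j) = y j
    rw [b.repr_sum_self, hz]
  have hk : (I.map (algebraMap R D)).restrictScalars R = LinearMap.ker φ := by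
    ext x
    rw [LinearMap.mem_ker, Submodule.restrictScalars_mem, mem_map_iff b I x]
    constructor
    · intro h
      funext i
      change Submodule.mkQ I (b.repr x i) = 0
      rw [Submodule.mkQ_apply, Submodule.Quotient.mk_eq_zero]
      exact h i
    · intro h i
      have h1 : Submodule.mkQ I (b.repr x i) = 0 := congrFun h i
      rw [Submodule.mkQ_apply, Submodule.Quotient.mk_eq_zero] at h1
      exact h1
  exact (Submodule.Quotient.restrictScalarsEquiv R (I.map (algebraMap R D))).symm ≪≫ₗ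
    (Submodule.quotEquivOfEq _ _ hk) ≪≫ₗ (LinearMap.quotKerEquivOfSurjective φ hφ)

/-- the length of the fibre -/
lemma length_fibre {R D : Type} [CommRing R] [CommRing D] [Algebra R D] {ι : Type}
    [Fintype ι] (b : Module.Basis ι R D) (p : Ideal R) [p.IsPrime] :
    Module.length (Localization.AtPrime p)
      (LocalizedModule p.primeCompl (D ⧸ p.map (algebraMap R D))) = (Fintype.card ι : ℕ∞) := by
  let N : Type := Localization.AtPrime p ⧸ p.map (algebraMap R (Localization.AtPrime p))
  have hloc : IsLocalization (Algebra.algebraMapSubmonoid (R ⧸ p) p.primeCompl) N :=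
    inferInstance
  have hg : IsLocalizedModule p.primeCompl (IsScalarTower.toAlgHom R (R ⧸ p) N).toLinearMap :=
    isLocalizedModule_iff_isLocalization.mpr hloc
  have hpi : IsLocalizedModule p.primeCompl (LinearMap.pi fun i : ι =>
      (IsScalarTower.toAlgHom R (R ⧸ p) N).toLinearMap ∘ₗ LinearMap.proj i) :=
    IsLocalizedModule.pi (S := p.primeCompl) (M := fun _ : ι => R ⧸ p) (M' := fun _ : ι => N)
      (fun _ : ι => (IsScalarTower.toAlgHom R (R ⧸ p) N).toLinearMap)
  have hpi2 : IsLocalizedModule p.primeCompl ((LinearMap.pi fun i : ι =>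
      (IsScalarTower.toAlgHom R (R ⧸ p) N).toLinearMap ∘ₗ LinearMap.proj i) ∘ₗ
      (quotEquiv b p).toLinearMap) := IsLocalizedModule.of_linearEquiv_right _ _ (quotEquiv b p)
  have e := (IsLocalizedModule.linearEquiv p.primeCompl
    (LocalizedModule.mkLinearMap p.primeCompl (D ⧸ p.map (algebraMap R D)))
    ((LinearMap.pi fun i : ι =>
      (IsScalarTower.toAlgHom R (R ⧸ p) N).toLinearMap ∘ₗ LinearMap.proj i) ∘ₗ
      (quotEquiv b p).toLinearMap)).extendScalarsOfIsLocalization p.primeCompl
      (Localization.AtPrime p)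
  have hs : IsSimpleModule (Localization.AtPrime p) N := by
    rw [isSimpleModule_iff_isCoatom]
    have h1 : p.map (algebraMap R (Localization.AtPrime p)) =
        IsLocalRing.maximalIdeal (Localization.AtPrime p) :=
      Localization.AtPrime.map_eq_maximalIdeal
    rw [h1]
    exact Ideal.isMaximal_def.mp inferInstance
  rw [e.length_eq, Module.length_pi, Module.length_eq_one, mul_one]
  simp

end CNTA

open CNTA in
/-- CNTA. -/
theorem t_CNTA : M_CNTA := by
  intro _ hLENA hLSUQ k R _ _ _ _ n p P π S hπ hP hS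
  have : IsNoetherianRing R := Algebra.FiniteType.isNoetherianRing k R
  have hRn : Nontrivial R := by
    refine ⟨0, 1, fun h => p.1.isPrime.ne_top ((Ideal.eq_top_iff_one _).mpr ?_)⟩
    rw [← h]
    exact Submodule.zero_mem _
  have : Module.Finite R (AdjoinRoot π) := hπ.finite_adjoinRoot
  let ψ : R[X] →ₐ[k] AdjoinRoot π := (AdjoinRoot.mkₐ π).restrictScalars k
  have hψ : Function.Surjective ψ := AdjoinRoot.mk_surjective
  have hψ' : Function.Surjective (AdjoinRoot.mk π) := AdjoinRoot.mk_surjective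
  -- the dimension of the primes over `p`
  have hdim : ∀ P' : PrimeSpectrum (AdjoinRoot π),
      PrimeSpectrum.comap (algebraMap R (AdjoinRoot π)) P' = p.1 →
      rdim k (PrimeSpectrum.comap (AdjoinRoot.mk π) P') = n := by
    intro P' h
    have h2 : rdim k (PrimeSpectrum.comap (AdjoinRoot.mk π) P') = rdim k P' := rdim_comap ψ hψ P'
    rw [h2]
    have : P'.asIdeal.LiesOver p.1.asIdeal := ⟨by rw [← h]; rfl⟩
    have h0 : Algebra.trdeg (R ⧸ p.1.asIdeal) (AdjoinRoot π ⧸ P'.asIdeal) = 0 :=
      _root_.trdeg_eq_zero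
    have h1 := p.2
    unfold rdim at h1 ⊢
    rw [← _root_.trdeg_add_eq k (R ⧸ p.1.asIdeal) (A := AdjoinRoot π ⧸ P'.asIdeal), h0, add_zero,
      h1]
  have hker : RingHom.ker (AdjoinRoot.mk π) = Ideal.span {π} := Ideal.mk_ker
  have hmem : ∀ P' : PrimeSpectrum (AdjoinRoot π),
      π ∈ (PrimeSpectrum.comap (AdjoinRoot.mk π) P').asIdeal := by
    intro P'
    change AdjoinRoot.mk π π ∈ P'.asIdeal
    rw [AdjoinRoot.mk_self]
    exact Submodule.zero_mem _
  have hinj : Function.Injective (PrimeSpectrum.comap (AdjoinRoot.mk π)) :=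
    PrimeSpectrum.comap_injective_of_surjective _ hψ'
  -- the primes over `p`
  have hfin : {P' : PrimeSpectrum (AdjoinRoot π) |
      PrimeSpectrum.comap (algebraMap R (AdjoinRoot π)) P' = p.1}.Finite := by
    refine Set.Finite.of_injOn (f := PrimeSpectrum.comap (AdjoinRoot.mk π))
      (t := Subtype.val '' (S : Set (RP k R[X] n))) ?_ hinj.injOn (S.finite_toSet.image _)
    intro P' hP'
    exact ⟨⟨PrimeSpectrum.comap (AdjoinRoot.mk π) P', hdim P' hP'⟩,
      (hS _).mpr ⟨hP', hmem P'⟩, rfl⟩
  have hI : (p.1.asIdeal.map (algebraMap R (AdjoinRoot π))).comap (AdjoinRoot.mk π) =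
      P.1.asIdeal ⊔ Ideal.span {π} := by
    have h1 : algebraMap R (AdjoinRoot π) = (AdjoinRoot.mk π).comp (C : R →+* R[X]) := rfl
    rw [h1, ← Ideal.map_map, Ideal.comap_map_of_surjective _ hψ', ← hP]
    congr 1
  have hlen := length_fibre (AdjoinRoot.powerBasis' hπ).basis p.1.asIdeal
  have hcard : Fintype.card (Fin (AdjoinRoot.powerBasis' hπ).dim) = π.natDegree := by
    rw [Fintype.card_fin]
    rfl
  rw [hcard] at hlen
  have hmain := hLSUQ R (AdjoinRoot π) p.1 hfin.toFinset
    (p.1.asIdeal.map (algebraMap R (AdjoinRoot π))) (fun P' => by simp) (by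
      rw [hlen]
      exact ENat.natCast_ne_top _)
  have hl2 : lC (Localization.AtPrime p.1.asIdeal) (LocalizedModule p.1.asIdeal.primeCompl
      (AdjoinRoot π ⧸ p.1.asIdeal.map (algebraMap R (AdjoinRoot π)))) = π.natDegree := by
    unfold lC
    rw [hlen]
    rfl
  rw [hl2] at hmain
  rw [hmain]
  symm
  refine Finset.sum_bij (fun P' h => (⟨PrimeSpectrum.comap (AdjoinRoot.mk π) P',
    hdim P' (hfin.mem_toFinset.mp h)⟩ : RP k R[X] n)) ?_ ?_ ?_ ?_
  · intro P' h
    exact (hS _).mpr ⟨hfin.mem_toFinset.mp h, hmem P'⟩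
  · intro P1 h1 P2 h2 h
    exact hinj (congrArg Subtype.val h)
  · intro Q hQ
    obtain ⟨h1, h2⟩ := (hS Q).mp hQ
    have h3 : Q.1 ∈ Set.range (PrimeSpectrum.comap (AdjoinRoot.mk π)) := by
      rw [range_comap_of_surjective _ _ hψ', hker]
      change ((Ideal.span {π} : Ideal R[X]) : Set R[X]) ⊆ Q.1.asIdeal
      rw [SetLike.coe_subset_coe, Ideal.span_singleton_le_iff_mem]
      exact h2
    obtain ⟨P', hP'⟩ := h3
    refine ⟨P', ?_, Subtype.ext hP'⟩
    rw [hfin.mem_toFinset]
    change PrimeSpectrum.comap (C : R →+* R[X]) (PrimeSpectrum.comap (AdjoinRoot.mk π) P') = p.1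
    rw [hP']
    exact h1
  · intro P' h
    have h1 : rdeg (algebraMap R (AdjoinRoot π)) P' =
        rdeg (C : R →+* R[X]) (PrimeSpectrum.comap (AdjoinRoot.mk π) P') :=
      rdeg_comp (C : R →+* R[X]) (AdjoinRoot.mk π) hψ' P'
    have h2 := hLENA R[X] (AdjoinRoot π) (AdjoinRoot.mk π) hψ'
      (p.1.asIdeal.map (algebraMap R (AdjoinRoot π))) P'
    rw [h1, ← h2, hI]

end CUB
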