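import Pool.Agent.CUB2.StmtsL

/-!
# CUB2, module CNTD: primes of `R[X]` containing a monic polynomial
-/

set_option autoImplicit false

open Polynomial

namespace CUB

namespace CNTD

lemma rdim_eq {k R : Type} [Field k] [CommRing R] [Algebra k R] (π : R[X]) (hπ : π.Monic)
    (Q : PrimeSpectrum R[X]) (hQ : π ∈ Q.asIdeal) :
    rdim k (PrimeSpectrum.comap (C : R →+* R[X]) Q) = rdim k Q := by
  unfold rdim
  let φ : R →ₐ[k] R[X] := CAlgHom
  have H : (PrimeSpectrum.comap (C : R →+* R[X]) Q).asIdeal ≤ Q.asIdeal.comap φ := le_refl _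
  let ψ : (R ⧸ (PrimeSpectrum.comap (C : R →+* R[X]) Q).asIdeal) →ₐ[k] (R[X] ⧸ Q.asIdeal) :=
    Ideal.quotientMapₐ Q.asIdeal φ H
  have h1 : Function.Injective ψ := Ideal.quotientMap_injective' (H := H) (le_refl _)
  let _ : Algebra (R ⧸ (PrimeSpectrum.comap (C : R →+* R[X]) Q).asIdeal) (R[X] ⧸ Q.asIdeal) :=
    ψ.toRingHom.toAlgebra
  have : IsScalarTower k (R ⧸ (PrimeSpectrum.comap (C : R →+* R[X]) Q).asIdeal)
      (R[X] ⧸ Q.asIdeal) :=
    IsScalarTower.of_algebraMap_eq (fun x => (ψ.commutes x).symm)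
  have : FaithfulSMul (R ⧸ (PrimeSpectrum.comap (C : R →+* R[X]) Q).asIdeal)
      (R[X] ⧸ Q.asIdeal) :=
    (faithfulSMul_iff_algebraMap_injective _ _).mpr h1
  have hX : IsIntegral (R ⧸ (PrimeSpectrum.comap (C : R →+* R[X]) Q).asIdeal)
      (Ideal.Quotient.mk Q.asIdeal X) := by
    refine ⟨π.map (Ideal.Quotient.mk _), hπ.map _, ?_⟩
    change (π.map (Ideal.Quotient.mk (PrimeSpectrum.comap (C : R →+* R[X]) Q).asIdeal)).eval₂
        ψ.toRingHom (Ideal.Quotient.mk Q.asIdeal X) = 0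
    rw [Polynomial.eval₂_map]
    have h2 : (ψ.toRingHom).comp
          (Ideal.Quotient.mk (PrimeSpectrum.comap (C : R →+* R[X]) Q).asIdeal) =
          (Ideal.Quotient.mk Q.asIdeal).comp C := rfl
    rw [h2, ← Polynomial.hom_eval₂, eval₂_C_X]
    exact Ideal.Quotient.eq_zero_iff_mem.mpr hQ
  have hall : ∀ g : R[X], IsIntegral (R ⧸ (PrimeSpectrum.comap (C : R →+* R[X]) Q).asIdeal)
      (Ideal.Quotient.mk Q.asIdeal g) := by
    intro g
    induction g using Polynomial.induction_on' with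
    | add p q hp hq =>
      rw [map_add]
      exact hp.add hq
    | monomial n a =>
      rw [← C_mul_X_pow_eq_monomial, map_mul, map_pow]
      refine IsIntegral.mul ?_ (hX.pow n)
      have h3 : Ideal.Quotient.mk Q.asIdeal (C a) =
        algebraMap (R ⧸ (PrimeSpectrum.comap (C : R →+* R[X]) Q).asIdeal) (R[X] ⧸ Q.asIdeal)
          (Ideal.Quotient.mk _ a) := rfl
      rw [h3]
      exact isIntegral_algebraMap
  have : Algebra.IsAlgebraic (R ⧸ (PrimeSpectrum.comap (C : R →+* R[X]) Q).asIdeal)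
      (R[X] ⧸ Q.asIdeal) := by
    constructor
    intro x
    obtain ⟨x, rfl⟩ := Ideal.Quotient.mk_surjective x
    exact (hall x).isAlgebraic
  have h := trdeg_add_eq k (R ⧸ (PrimeSpectrum.comap (C : R →+* R[X]) Q).asIdeal)
    (A := R[X] ⧸ Q.asIdeal)
  rw [trdeg_eq_zero (R := R ⧸ (PrimeSpectrum.comap (C : R →+* R[X]) Q).asIdeal)
    (A := R[X] ⧸ Q.asIdeal), add_zero] at h
  exact h

end CNTD

/-- CNTD. -/
theorem t_CNTD : M_CNTD := by
  intro hD k R _ _ _ _ π hπ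
  refine ⟨fun Q hQ => CNTD.rdim_eq π hπ Q hQ, fun n p Q hQ hp => ?_⟩
  have h1 : rdim k (PrimeSpectrum.comap (C : R →+* R[X]) Q.1) = n :=
    (CNTD.rdim_eq π hπ Q.1 hQ).trans Q.2
  by_contra hne
  have h2 : p.1 < PrimeSpectrum.comap (C : R →+* R[X]) Q.1 := by
    refine lt_of_le_of_ne ?_ (Ne.symm hne)
    intro x hx
    exact hp (Ideal.mem_map_of_mem _ hx)
  have h3 := (hD k R p.1).2 _ h2
  rw [h1, p.2] at h3
  exact lt_irrefl _ h3

end CUB
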