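import Pool.Agent.CUB2.StmtsL
import Pool.Agent.CUB.R_DISJ
import Pool.Agent.CUB.R_HHA

/-!
# CUB2, block L, module SYM
-/

set_option autoImplicit false

namespace CUB

open DISJ in
theorem t_SYM : M_SYM := by
  intro hDEV hKOS C _ _ _ _ hdim x y hx hy hxy W hW hW2
  have h3 : ∀ p ∈ HH C, ∀ p' : Ideal C, p'.IsPrime → p' < p.asIdeal → p' = ⊥ := by
    intro p hp p' hp' hlt
    by_contra hne
    apply hp.2
    rw [hdim p' p.asIdeal hp' p.2 hne hlt]
    infer_instance
  have h5 : ∀ p ∈ HH C, ∀ x, x ∉ p.asIdeal →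
      Module.length C (C ⧸ (p.asIdeal ⊔ Ideal.span {x})) ≠ ⊤ := by
    intro p hp x hx
    refine HHA.flq C C _ ?_
    intro P hP hle
    have hlt : p.asIdeal < P := by
      refine lt_of_le_of_ne (le_trans le_sup_left hle) ?_
      intro h
      apply hx
      rw [h]
      exact hle (Ideal.mem_sup_right (Ideal.mem_span_singleton_self _))
    rw [hdim p.asIdeal P p.2 hP hp.1 hlt]
    infer_instance
  have h4 : ∀ x : C, x ≠ 0 → {p | p ∈ HH C ∧ x ∈ p.asIdeal}.Finite := by
    intro x hx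
    have hf : ((Ideal.span {x}).minimalPrimes).Finite :=
      Ideal.finite_minimalPrimes_of_isNoetherianRing C _
    refine Set.Finite.of_finite_image (f := PrimeSpectrum.asIdeal) (hf.subset ?_) ?_
    · rintro _ ⟨p, ⟨hp, hxp⟩, rfl⟩
      refine ⟨⟨p.2, (Ideal.span_singleton_le_iff_mem _).2 hxp⟩, ?_⟩
      rintro q ⟨hq, hxq⟩ hle
      by_contra hnle
      have hlt : q < p.asIdeal := lt_of_le_not_ge hle hnle
      have := h3 p hp q hq hlt
      rw [this] at hxq
      have h0 : x ∈ (⊥ : Ideal C) := hxq (Ideal.mem_span_singleton_self _)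
      exact hx (by simpa using h0)
    · intro p _ q _ h
      exact PrimeSpectrum.ext h
  have e1 := half hDEV (C := C) h3 h5 x y hx (h4 x hx) hxy W hW
    (fun p hp h => hW2 p hp (Or.inl h))
  have e2 := half hDEV (C := C) h3 h5 y x hy (h4 y hy) (fun p hp h1 h2 => hxy p hp h2 h1) W hW
    (fun p hp h => hW2 p hp (Or.inr h))
  have e3 : lC C (LinearMap.ker (LinearMap.lsmul C (C ⧸ Ideal.span {x}) y)) =
      lC C (LinearMap.ker (LinearMap.lsmul C (C ⧸ Ideal.span {y}) x)) := by
    unfold lC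
    rw [hKOS C C x y hx hy]
  rw [sup_comm, e1, e3] at e2
  exact Nat.add_left_cancel e2

end CUB
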