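import Pool.Agent.CUB2.StmtsL
import Pool.Agent.CUB.R_GREC

set_option autoImplicit false
set_option linter.unusedSectionVars false

/-!
# CUB2, module SYMA: the symmetric formula on an algebra of finite type
-/

open Polynomial

namespace CUB

namespace SYMA

open GREC

section Core

variable {k S K C : Type} [Field k] [CommRing S] [Algebra k S] [Algebra.FiniteType k S]
  [Field K] [Algebra k K] [CommRing C] [IsDomain C] [IsLocalRing C] [Algebra C K]
  {θ : S →ₐ[k] K} {n : ℕ} {q : RP k S (n + 1 + 1)} {m : RP k S n} {γ : S →+* C}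

theorem dim (h1 : S_DIM1) (H : Chart θ q.1 m.1 γ) : ∀ P P' : Ideal C, P.IsPrime → P'.IsPrime →
    P ≠ ⊥ → P < P' → P' = IsLocalRing.maximalIdeal C := by
  intro P P' hP hP' hne hlt
  have hzz : (⟨P, hP⟩ : PrimeSpectrum C) < ⟨P', hP'⟩ := hlt
  have hne' : (⟨P, hP⟩ : PrimeSpectrum C).asIdeal ≠ ⊥ := hne
  have h3 : PrimeSpectrum.comap γ ⟨P, hP⟩ < PrimeSpectrum.comap γ ⟨P', hP'⟩ := by
    refine lt_of_le_of_ne (Ideal.comap_mono hzz.le) fun h => hzz.ne (eq_of_comap H h)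
  rw [Ne, bot_iff H] at hne'
  have h4 : q.1 < PrimeSpectrum.comap γ ⟨P, hP⟩ :=
    lt_of_le_of_ne (le_comap H _) (Ne.symm hne')
  have h5 : PrimeSpectrum.comap γ ⟨P', hP'⟩ = m.1 := by
    by_contra hcon
    have h6 := lt_of_le_of_ne (comap_le H ⟨P', hP'⟩) hcon
    have h7 := rdim_mid h1 q m _ h4 (h3.trans h6)
    have h8 := rdim_mid h1 q m _ (h4.trans h3) h6
    have h9 := (h1 k S (PrimeSpectrum.comap γ ⟨P, hP⟩)).2 _ h3
    rw [h7, h8] at h9
    exact lt_irrefl _ h9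
  exact IsLocalRing.eq_maximalIdeal ((max_iff H ⟨P', hP'⟩).mpr h5)

theorem transfer (h1 : S_DIM1) (H : Chart θ q.1 m.1 γ) (x y : S)
    (T : Finset (RP k S (n + 1))) (W : Finset (PrimeSpectrum C)) (hW1 : ∀ z ∈ W, z ∈ HH C)
    (hW2 : ∀ z ∈ HH C, γ x ∈ z.asIdeal → z ∈ W)
    (hWT : ∀ z ∈ W, ∀ h : rdim k (PrimeSpectrum.comap γ z) = (n + 1 : ℕ),
      (⟨PrimeSpectrum.comap γ z, h⟩ : RP k S (n + 1)) ∈ T) :
    ∑ P ∈ T, len (q.1.asIdeal ⊔ Ideal.span {x}) P.1 * len (P.1.asIdeal ⊔ Ideal.span {y}) m.1 =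
      ∑ z ∈ W, len (Ideal.span {γ x}) z * lC C (C ⧸ (z.asIdeal ⊔ Ideal.span {γ y})) := by
  classical
  let G : PrimeSpectrum S → ℕ := fun P => len (q.1.asIdeal ⊔ Ideal.span {x}) P *
    len (P.asIdeal ⊔ Ideal.span {y}) m.1
  have h2 : ∑ z ∈ T, G z.1 = ∑ P ∈ T.map ⟨Subtype.val, Subtype.val_injective⟩, G P :=
    (Finset.sum_map T ⟨Subtype.val, Subtype.val_injective⟩ G).symm
  change ∑ z ∈ T, G z.1 = _
  rw [h2]
  symm
  apply Finset.sum_of_injOn (PrimeSpectrum.comap γ)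
  · intro z _ z' _ h
    exact eq_of_comap H h
  · intro z hz
    have hz1 := hW1 z hz
    rw [hh_iff h1 H] at hz1
    rw [Finset.mem_coe]
    exact Finset.mem_map.mpr ⟨⟨PrimeSpectrum.comap γ z, hz1⟩, hWT z hz hz1, rfl⟩
  · intro P hP hP2
    obtain ⟨z, hz, rfl⟩ := Finset.mem_map.mp hP
    by_contra h3
    apply hP2
    have h4 := left_ne_zero_of_mul h3
    have h5 := right_ne_zero_of_mul h3
    have h6 : q.1.asIdeal ⊔ Ideal.span {x} ≤ z.1.asIdeal := by
      by_contra h7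
      exact h4 (len_top _ _ h7)
    have h7 : z.1.asIdeal ⊔ Ideal.span {y} ≤ m.1.asIdeal := by
      by_contra h7
      exact h5 (len_top _ _ h7)
    obtain ⟨z', hz'⟩ := exists_prime H z.1 (le_sup_left.trans h6) (le_sup_left.trans h7)
    refine ⟨z', ?_, hz'⟩
    rw [Finset.mem_coe]
    apply hW2
    · rw [hh_iff h1 H, hz']
      exact z.2
    · have h8 : x ∈ (PrimeSpectrum.comap γ z').asIdeal := by
        rw [hz']
        exact h6 (Ideal.mem_sup_right (Ideal.mem_span_singleton_self _))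
      exact h8
  · intro z hz
    change _ = len (q.1.asIdeal ⊔ Ideal.span {x}) (PrimeSpectrum.comap γ z) *
      len ((PrimeSpectrum.comap γ z).asIdeal ⊔ Ideal.span {y}) m.1
    rw [len_z H, len_m H]

theorem core [IsNoetherianRing C] (h1 : S_DIM1) (hS : S_SYM) (H : Chart θ q.1 m.1 γ) (x y : S)
    (hx : x ∉ q.1.asIdeal) (hy : y ∉ q.1.asIdeal) (T : Finset (RP k S (n + 1)))
    (hT : ∀ P : RP k S (n + 1), q.1.asIdeal ≤ P.1.asIdeal →
      (x ∈ P.1.asIdeal ∨ y ∈ P.1.asIdeal) → P ∈ T)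
    (hxy : ∀ P : RP k S (n + 1), q.1.asIdeal ≤ P.1.asIdeal → x ∈ P.1.asIdeal →
      y ∉ P.1.asIdeal) :
    ∑ P ∈ T, len (q.1.asIdeal ⊔ Ideal.span {x}) P.1 * len (P.1.asIdeal ⊔ Ideal.span {y}) m.1 =
    ∑ P ∈ T, len (q.1.asIdeal ⊔ Ideal.span {y}) P.1 *
      len (P.1.asIdeal ⊔ Ideal.span {x}) m.1 := by
  classical
  have hx0 : γ x ≠ 0 := fun h => hx ((H.ker x).mp h)
  have hy0 : γ y ≠ 0 := fun h => hy ((H.ker y).mp h)
  have hin : ∀ z ∈ HH C, (γ x ∈ z.asIdeal ∨ γ y ∈ z.asIdeal) →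
      ∀ h : rdim k (PrimeSpectrum.comap γ z) = (n + 1 : ℕ),
      (⟨PrimeSpectrum.comap γ z, h⟩ : RP k S (n + 1)) ∈ T :=
    fun z _ hz2 h => hT ⟨PrimeSpectrum.comap γ z, h⟩ (le_comap H z) hz2
  have hfin : {z : PrimeSpectrum C | z ∈ HH C ∧ (γ x ∈ z.asIdeal ∨ γ y ∈ z.asIdeal)}.Finite := by
    have h2 : {z : PrimeSpectrum C | z ∈ HH C ∧ (γ x ∈ z.asIdeal ∨ γ y ∈ z.asIdeal)} ⊆
        (PrimeSpectrum.comap γ) ⁻¹' (Subtype.val '' (T : Set (RP k S (n + 1)))) := by
      rintro z ⟨hz1, hz2⟩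
      have hz3 := (hh_iff h1 H z).mp hz1
      exact ⟨⟨PrimeSpectrum.comap γ z, hz3⟩, hin z hz1 hz2 hz3, rfl⟩
    refine Set.Finite.subset (Set.Finite.preimage ?_ (T.finite_toSet.image _)) h2
    intro z _ z' _ h
    exact eq_of_comap H h
  have hW : ∀ z, z ∈ hfin.toFinset ↔ z ∈ HH C ∧ (γ x ∈ z.asIdeal ∨ γ y ∈ z.asIdeal) := by
    intro z
    exact Set.Finite.mem_toFinset _
  have e1 := transfer h1 H x y T hfin.toFinset (fun z hz => ((hW z).mp hz).1)
    (fun z hz hz2 => (hW z).mpr ⟨hz, Or.inl hz2⟩)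
    (fun z hz h => hin z ((hW z).mp hz).1 ((hW z).mp hz).2 h)
  have e2 := transfer h1 H y x T hfin.toFinset (fun z hz => ((hW z).mp hz).1)
    (fun z hz hz2 => (hW z).mpr ⟨hz, Or.inr hz2⟩)
    (fun z hz h => hin z ((hW z).mp hz).1 ((hW z).mp hz).2 h)
  rw [e1, e2]
  refine hS C (dim h1 H) (γ x) (γ y) hx0 hy0 ?_ hfin.toFinset (fun z hz => ((hW z).mp hz).1)
    (fun z hz hz2 => (hW z).mpr ⟨hz, hz2⟩)
  intro z hz hz2
  exact hxy ⟨PrimeSpectrum.comap γ z, (hh_iff h1 H z).mp hz⟩ (le_comap H z) hz2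

end Core

theorem final {k S B : Type} [Field k] [CommRing S] [Algebra k S]
    [Algebra.FiniteType k S] [CommRing B] [IsDomain B] [Algebra k B] [Algebra.FiniteType k B]
    {n : ℕ} {q : RP k S (n + 1 + 1)} {m : RP k S n}
    (h1 : S_DIM1) (hLA : S_LENA) (hLB : S_LENB) (hS : S_SYM) (π : S →ₐ[k] B)
    (hπ : Function.Surjective π) (hker : RingHom.ker π.toRingHom = q.1.asIdeal)
    (M : Ideal B) [M.IsPrime] (hM : M.comap π.toRingHom = m.1.asIdeal) (x y : S)
    (hx : x ∉ q.1.asIdeal) (hy : y ∉ q.1.asIdeal) (T : Finset (RP k S (n + 1)))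
    (hT : ∀ P : RP k S (n + 1), q.1.asIdeal ≤ P.1.asIdeal →
      (x ∈ P.1.asIdeal ∨ y ∈ P.1.asIdeal) → P ∈ T)
    (hxy : ∀ P : RP k S (n + 1), q.1.asIdeal ≤ P.1.asIdeal → x ∈ P.1.asIdeal →
      y ∉ P.1.asIdeal) :
    ∑ P ∈ T, len (q.1.asIdeal ⊔ Ideal.span {x}) P.1 * len (P.1.asIdeal ⊔ Ideal.span {y}) m.1 =
    ∑ P ∈ T, len (q.1.asIdeal ⊔ Ideal.span {y}) P.1 *
      len (P.1.asIdeal ⊔ Ideal.span {x}) m.1 := by
  have hle : M.primeCompl ≤ nonZeroDivisors B := M.primeCompl_le_nonZeroDivisors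
  let _ : Algebra (Localization.AtPrime M) (FractionRing B) :=
    IsLocalization.localizationAlgebraOfSubmonoidLe (Localization.AtPrime M) (FractionRing B)
      M.primeCompl (nonZeroDivisors B) hle
  have hst : IsScalarTower B (Localization.AtPrime M) (FractionRing B) :=
    IsLocalization.localization_isScalarTower_of_submonoid_le (Localization.AtPrime M)
      (FractionRing B) M.primeCompl (nonZeroDivisors B) hle
  have hdom : IsDomain (Localization.AtPrime M) := IsLocalization.isDomain_localization hle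
  have hNB : IsNoetherianRing B := Algebra.FiniteType.isNoetherianRing k B
  have hNC : IsNoetherianRing (Localization.AtPrime M) :=
    IsLocalization.isNoetherianRing M.primeCompl _ hNB
  have hinj : Function.Injective (algebraMap B (Localization.AtPrime M)) :=
    IsLocalization.injective (Localization.AtPrime M) hle
  have hmM : ∀ s, s ∈ m.1.asIdeal ↔ π s ∈ M := by
    intro s
    rw [← hM]
    exact Iff.rfl
  have H : Chart ((IsScalarTower.toAlgHom k B (FractionRing B)).comp π) q.1 m.1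
      ((algebraMap B (Localization.AtPrime M)).comp π.toRingHom) := by
    refine ⟨?_, ?_, ?_, ?_, ?_, ?_⟩
    · intro s
      have h2 : (algebraMap B (Localization.AtPrime M)).comp π.toRingHom s =
          algebraMap B (Localization.AtPrime M) (π s) := rfl
      rw [h2, ← IsScalarTower.algebraMap_apply]
      rfl
    · intro s
      rw [RingHom.comp_apply, map_eq_zero_iff _ hinj, ← hker]
      exact Iff.rfl
    · intro s hs
      rw [hmM] at hs
      exact IsLocalization.map_units (Localization.AtPrime M) (⟨π s, hs⟩ : M.primeCompl)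
    · intro c
      obtain ⟨b, u, rfl⟩ := IsLocalization.exists_mk'_eq M.primeCompl c
      obtain ⟨s, rfl⟩ := hπ b
      obtain ⟨t', ht'⟩ := hπ u.1
      refine ⟨s, t', ?_, ?_⟩
      · rw [hmM, ht']
        exact u.2
      · have h2 : π.toRingHom t' = u.1 := ht'
        rw [RingHom.comp_apply, RingHom.comp_apply, h2, IsLocalization.mk'_spec']
        rfl
    · intro s hs
      rw [hmM] at hs
      exact (IsLocalization.AtPrime.to_map_mem_maximal_iff (Localization.AtPrime M) M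
        (π s)).mpr hs
    · intro I hI z
      exact lenB hLA hLB π.toRingHom hπ M I (by rw [hker]; exact hI) z
  exact core h1 hS H x y hx hy T hT hxy

end SYMA

open SYMA GREC in
theorem t_SYMA : M_SYMA := by
  classical
  intro h1 hLA hLB hLC hS k A E _ _ _ _ _ _ n q x y c d g h hx hy hc hd hg hh
  -- the support
  have hcs : ∀ P : RP k A (n + 1), q.1.asIdeal ≤ P.1.asIdeal → x ∈ P.1.asIdeal → c P ≠ 0 := by
    intro P hq hxP
    rw [hc P]
    exact Nat.cast_ne_zero.mpr ((hLC k A (n + 1) q P).2.2.1 x hx hq hxP)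
  have hds : ∀ P : RP k A (n + 1), q.1.asIdeal ≤ P.1.asIdeal → y ∈ P.1.asIdeal → d P ≠ 0 := by
    intro P hq hyP
    rw [hd P]
    exact Nat.cast_ne_zero.mpr ((hLC k A (n + 1) q P).2.2.1 y hy hq hyP)
  ext m
  have key : ∀ (a b : A) (c' : RP k A (n + 1) →₀ E) (g' : RP k A (n + 1) → (RP k A n →₀ E)),
      IsDv k E q.1 a c' → (∀ P, c' P ≠ 0 → IsDv k E P.1 b (g' P)) →
      ∀ T : Finset (RP k A (n + 1)), c'.support ⊆ T →
      (c'.sum fun P e => e • g' P) m = ((∑ P ∈ T, len (q.1.asIdeal ⊔ Ideal.span {a}) P.1 *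
        len (P.1.asIdeal ⊔ Ideal.span {b}) m.1 : ℕ) : E) := by
    intro a b c' g' hc' hg' T hT
    rw [Finsupp.sum, Finsupp.finsetSum_apply, Nat.cast_sum]
    apply Finset.sum_subset_zero_on_sdiff hT
    · intro P hP
      have h2 : c' P = 0 := by
        rw [← Finsupp.notMem_support_iff]
        exact (Finset.mem_sdiff.mp hP).2
      rw [hc' P] at h2
      rw [Nat.cast_mul, h2, zero_mul]
    · intro P hP
      rw [Finsupp.smul_apply, smul_eq_mul, hc' P, hg' P (Finsupp.mem_support_iff.mp hP) m,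
        Nat.cast_mul]
  rw [key x y c g hc (fun P hP => (hg P hP).2) (c.support ∪ d.support)
    Finset.subset_union_left,
    key y x d h hd (fun P hP => (hh P hP).2) (c.support ∪ d.support)
    Finset.subset_union_right]
  congr 1
  by_cases hqm : q.1.asIdeal ≤ m.1.asIdeal
  · have hqp : q.1.asIdeal.IsPrime := q.1.isPrime
    have hMp : (m.1.asIdeal.map (Ideal.Quotient.mk q.1.asIdeal)).IsPrime := by
      apply Ideal.map_isPrime_of_surjective Ideal.Quotient.mk_surjective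
      rw [Ideal.mk_ker]
      exact hqm
    refine final h1 hLA hLB hS (Ideal.Quotient.mkₐ k q.1.asIdeal)
      (Ideal.Quotient.mkₐ_surjective k q.1.asIdeal) ?_
      (m.1.asIdeal.map (Ideal.Quotient.mk q.1.asIdeal)) ?_ x y hx hy _ ?_ ?_
    · exact Ideal.mk_ker
    · exact Ideal.comap_map_mk hqm
    · intro P hq hP
      rw [Finset.mem_union, Finsupp.mem_support_iff, Finsupp.mem_support_iff]
      rcases hP with hP | hP
      · exact Or.inl (hcs P hq hP)
      · exact Or.inr (hds P hq hP)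
    · intro P hq hP
      exact (hg P (hcs P hq hP)).1
  · have hz : ∀ a b : A, ∑ P ∈ c.support ∪ d.support,
        len (q.1.asIdeal ⊔ Ideal.span {a}) P.1 * len (P.1.asIdeal ⊔ Ideal.span {b}) m.1 = 0 := by
      intro a b
      apply Finset.sum_eq_zero
      intro P _
      by_cases h2 : q.1.asIdeal ≤ P.1.asIdeal
      · have h3 : ¬ P.1.asIdeal ⊔ Ideal.span {b} ≤ m.1.asIdeal :=
          fun h4 => hqm (h2.trans (le_sup_left.trans h4))
        rw [len_top _ _ h3, mul_zero]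
      · have h3 : ¬ q.1.asIdeal ⊔ Ideal.span {a} ≤ P.1.asIdeal :=
          fun h4 => h2 (le_sup_left.trans h4)
        rw [len_top _ _ h3, zero_mul]
    rw [hz, hz]

end CUB
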