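import Pool.Agent.CUB2.StmtsH

/-!
# CUB2, block G: geometry (statements)

Module `X` proves `theorem t_X : M_X` (or `t_X : S_X` if there is no `M_X`) in the namespace `CUB`, in the file
`Pool/Agent/CUB2/G_X.lean`, importing this file.  The hypotheses of `M_X` are statements of other modules.
`PLine k` (`Defs5.lean`) is the projective line over `k`: a proper variety `P` with two open immersions `j₀, j₁ : A^1 → P` which cover `P` and are glued along `t = 1 / s`; `X.prod Y` is the fibre product over `k`.
Mathlib: `AlgebraicGeometry/ProjectiveSpectrum/Basic`, `Proper`, `AlgebraicGeometry/Gluing`, `AlgebraicGeometry/QuasiAffine`, `Morphisms/Affine`.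
-/

set_option autoImplicit false

open CategoryTheory AlgebraicGeometry Limits Polynomial TopologicalSpace

namespace CUB

open Pool.Agent.Lib_helper55.Beil Pool.Agent.Lib_helper66.OneP

universe v

/-! ## 1. The projective line -/

/-- PLI. The projective line exists. `Proj` of `k[x_0, x_1]` (`MvPolynomial (Fin 2) k` with `MvPolynomial.homogeneousSubmodule`, or the graded ring of your choice): proper over `Spec 𝒜_0 = Spec k` by `AlgebraicGeometry/ProjectiveSpectrum/Proper.lean`; the charts are `Proj.awayι` for `x_0`, `x_1`, of degree one, with `Away x_0 = k[x_1 / x_0]` (polynomial ring: surjective, and injective since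
`k[x_0, x_1]` is a domain / by evaluation), they cover (`iSup_basicOpen_eq_top`), and their intersection is the chart of `x_0 x_1` (`pullbackAwayιIso`), with ring `k[t, 1 / t]`, `t ↦ t` and `t ↦ 1 / t`. Any other construction is welcome (gluing two affine lines: then separatedness and the valuative criterion have to be checked by hand). It may be convenient to prove first the existence of the scheme with the two charts, then the rest. -/
def S_PLI : Prop := ∀ (k : Type) [Field k], Nonempty (PLine k)

/-- PLP. The point at infinity: the complement of the first chart is the point `s = 0` of the second chart: the morphism `Spec k → Spec k[s] → P` (`s ↦ 0`) is a closed immersion (`Spec k` is proper over `k` and the morphism is an immersion, or a section of the separated morphism `P → Spec k`), with image the complement of the image of `j₀` (from the field `glue`: a point `j₁ y` is in the image of `j₀` iff `s` is invertible at `y`). `P` is integral. -/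
def S_PLP : Prop := ∀ (k : Type) [Field k] (H : PLine k), IsIntegral H.P.X ∧
  ∃ s : ClosedIn (aff k k) H.P, Complementary s H.j₀

/-- DIAG. `P × P ∖ Δ` is affine. Let `T` be this open subscheme. It is covered by the two open subsets `T₁` = (`j₀` chart in the first factor, coordinate `t`, `j₁` chart in the second factor, coordinate `s'`, minus the diagonal) = `Spec k[t, s'][1 / (1 - t s')]` and `T₂` = (`j₁` chart, coordinate `s`, and `j₀` chart, coordinate `t'`, minus the diagonal) = `Spec k[s, t'][1 / (1 - s t')]`: indeed a point of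
`P × P` outside both is `(j₀-point not in j₁, j₀-point not in j₁) = (0, 0)` or `(∞, ∞)`, which are in `Δ`. On the intersection `t t' s s' ≠ 0`: the functions `u₁ = 1 / (1 - t s')` on `T₁` and `u₂ = s t' / (s t' - 1)` on `T₂` agree, so they define a global function `u` on `T`; `T₁ = D(u)`: `u₁` is a unit, and a point of `T₂` where `u₂ ≠ 0` has `s ≠ 0` and `t' ≠ 0`, so it is in `T₁`. Similarly `T₂ = D(1 - u)`:
`1 - u₂ = 1 / (1 - s t')`, `1 - u₁ = - t s' / (1 - t s')`. So `T` has the global functions `u, 1 - u` generating the unit ideal with affine `D(u)`, `D(1 - u)`: `T` is affine (`isAffine_of_isAffineOpen_basicOpen` or similar in AffineScheme.lean). -/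
def S_DIAG : Prop := ∀ (k : Type) [Field k] (H : PLine k),
  ∃ T : (H.P.prod H.P).X.Opens, (T : Set (H.P.prod H.P).X) =
    (Set.range (pullback.diagonal H.P.f))ᶜ ∧ IsAffineOpen T

/-! ## 2. Products with the projective line -/

/-- PRO. `X × P` for the projective line `P` is a `PBun` over `X` with the first projection; `X × P` is integral if `X` is. (1) `U = X × A^1` (`X.prod (aff k k[X])`), `L` with `q` and `t` the projections (`IsPullback.of_hasPullback`; the structure morphism of `aff k k[X]` is the one in `Line`), `s` = the base change of the point at infinity (S_PLP), `hc`: a point of `X × P` is in the image of `U` iff its image in `P` is in the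
image of `j₀` (`Scheme.Pullback.range_fst` etc.). (2) a product `Y` of an integral variety with the affine line is integral: locally `R[X]`, `R` a domain; irreducible: the product of two nonempty affine open subsets of `X` with the line meet. `X × P` is covered by the two integral open subsets `X × A^1`, whose intersection is not empty. -/
def S_PRO : Prop :=
  (∀ (k : Type) [Field k] (H : PLine k) (X : Var k), ∃ B : PBun (X.prod H.P) X,
    B.p.g = pullback.fst X.f H.P.f) ∧
  (∀ (k : Type) [Field k] (Y X : Var k) (_ : Line Y X), IsIntegral X.X → IsIntegral Y.X) ∧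
  ∀ (k : Type) [Field k] (H : PLine k) (X : Var k), IsIntegral X.X → IsIntegral (X.prod H.P).X

def M_PRO : Prop := S_PLP → S_PRO

/-- SEC. The graph of a morphism `ψ : X → P` is a closed immersion `σ : X → X × P`, a section of the first projection (`pullback.lift`; a section of a separated morphism is a closed immersion). -/
def S_SEC : Prop := ∀ (k : Type) [Field k] (X P : Var k) (ψ : X.X ⟶ P.X), ψ ≫ P.f = X.f →
  ∃ σ : ClosedIn X (X.prod P), σ.g ≫ pullback.fst X.f P.f = 𝟙 X.X ∧
    σ.g ≫ pullback.snd X.f P.f = ψ

/-- AFY. `X₁` a closed subvariety of `X × P`, `ψ : X₁ → P` the second projection, `σ` its graph, `Y = X₁ × P ∖ σ(X₁)`. (1) `Y → X` is affine. With `T = P × P ∖ Δ` (S_DIAG): `Y` is the preimage of `T` under `ψ × id : X₁ × P → P × P` (the graph of `ψ` is the preimage of the diagonal: points of `X₁ × P` in the preimage of `Δ` are in the image of `σ`: `σ(X₁) = X₁ × P ×_(P × P) P`, use fibre products and `Scheme.Pullback` range lemmas). `X₁ × P → (X × P) × P ≅ X × (P × P)` is a closed immersion, and `Y` is the preimage of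
`X × T`, so `Y → X × T` is a closed immersion, and `X × T → X` is affine (base change of `T → Spec k`). (2) for every open subset `W` of `P` the preimage in `Y` under `Y → X₁ → P` is a finite union of basic open subsets of global functions on `Y`: `Y` maps to the affine Noetherian scheme `T`, in which the preimage of `W` under the first projection is a finite union of basic open subsets; pull back the functions. -/
def S_AFY : Prop := ∀ (k : Type) [Field k] (H : PLine k) (X X₁ Y : Var k)
  (e : ClosedIn X₁ (X.prod H.P)) (σ : ClosedIn X₁ (X₁.prod H.P)) (j : OpenIn Y (X₁.prod H.P)),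
  σ.g ≫ pullback.fst X₁.f H.P.f = 𝟙 X₁.X →
  σ.g ≫ pullback.snd X₁.f H.P.f = e.g ≫ pullback.snd X.f H.P.f → Complementary σ j →
  IsAffineHom (j.g ≫ pullback.fst X₁.f H.P.f ≫ e.g ≫ pullback.fst X.f H.P.f) ∧
  ∀ W : H.P.X.Opens, ∃ s : Finset Γ(Y.X, ⊤), ∀ y : Y.X,
    (j.g ≫ pullback.fst X₁.f H.P.f ≫ e.g ≫ pullback.snd X.f H.P.f) y ∈ W ↔
      ∃ b ∈ s, y ∈ Y.X.basicOpen b

def M_AFY : Prop := S_DIAG → S_AFY

/-- GRA. The closure of the graph of a function. `X` integral, `V` a nonempty open subset, `φ` a function on `V`. `φ` defines `V → A^1 → P` (`j₀`), and `(id, φ) : V → X × P`, an immersion; `X₁` = its scheme-theoretic image (integral: `isIntegral_image` in OneP/Loc), `V → X₁` is an open immersion. `M.f` = `X₁ → X × P → X`, proper (`P` is proper over `k`). Over `V`: the graph of `V → P` is closed in `V × P`, so `X₁ ∩ (V × P)` is the graph, and `M.f` is an isomorphism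
over `V`. `M.U` = the open subvariety `V`, `M.Z` its reduced complement (`closedVar`), `M.U'` the preimage of `V` in `X₁`, `M.Z'` its reduced complement; `fZ` exists since `Z'` is reduced (`liftC`), and is proper. Last: the preimage of the image of `j₀` under `X₁ → P` contains the preimage of `V`, and the coordinate `t` of `A^1`, a function on the image of `j₀`, pulled back, restricts to the pull-back of `φ` on the preimage of `V`. -/
def S_GRA : Prop := ∀ (k : Type) [Field k] (H : PLine k) (X : Var k) (_ : IsIntegral X.X)
  (V : X.X.Opens) (φ : Γ(X.X, V)), (∃ x : X.X, x ∈ V) →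
  ∃ (X₁ : Var k) (_ : IsIntegral X₁.X) (M : Modif X₁ X) (e : ClosedIn X₁ (X.prod H.P)),
    e.g ≫ pullback.fst X.f H.P.f = M.f.g ∧ Set.range M.j.g = V ∧
    ∃ (g : Γ(X₁.X, (e.g ≫ pullback.snd X.f H.P.f) ⁻¹ᵁ H.j₀.g.opensRange))
      (hO : M.f.g ⁻¹ᵁ V ≤ (e.g ≫ pullback.snd X.f H.P.f) ⁻¹ᵁ H.j₀.g.opensRange),
      X₁.X.presheaf.map (homOfLE hO).op g = M.f.g.app V φ

/-- GST. The step. Put S_GRA (for `X`, the open subset `f ⁻¹ᵁ V` and the function `f.app V h`), S_SEC, S_PRO, S_AFY together; `P = X₁ × P¹`, `Y` = the complement of `σ` (`openVar`), integral as a nonempty open subscheme of an integral scheme (nonempty: the fibre of `X₁ × P → X₁` over a point has more than one point, S_LPT (4): the point of dimension `dim x + 1` is not in the section). `Processed g V h`: `O` = the preimage of the image of `j₀`, which contains the preimage of `V`. Dimensions: `M.f` is an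
isomorphism over `V`, so the generic points have the same dimension; points of an integral variety have dimension at most that of the generic point (`dim_le_of_specializes`); S_LPT (3). -/
def S_GST : Prop := ∀ (k : Type) [Field k] (X₀ X : Var k) (_ : IsIntegral X.X)
  (f : X.X ⟶ X₀.X) (_ : IsAffineHom f) (V : X₀.X.Opens) (h : Γ(X₀.X, V)), f ≫ X₀.f = X.f →
  (∃ x : X.X, f x ∈ V) →
  ∃ (X₁ P Y : Var k) (_ : IsIntegral X₁.X) (_ : IsIntegral Y.X) (M : Modif X₁ X)
    (B : PBun P X₁) (σ : ClosedIn X₁ P) (j : OpenIn Y P) (g : Y.X ⟶ X₀.X),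
    σ.g ≫ B.p.g = 𝟙 X₁.X ∧ Complementary σ j ∧ g = j.g ≫ B.p.g ≫ M.f.g ≫ f ∧
    Set.range M.j.g = f ⁻¹ᵁ V ∧ IsAffineHom g ∧ Processed g V h ∧
    ∀ n : ℕ, X.DimLE n → X₁.DimLE n ∧ Y.DimLE (n + 1)

def M_GST : Prop := S_PLI → S_PRO → S_SEC → S_AFY → S_GRA → S_LPT → S_GST

/-! ## 3. Quasi-affine varieties -/

/-- PPE. `Processed` is stable under composition: pull back the functions (`Scheme.preimage_basicOpen` or similar). -/
def S_PPE : Prop := ∀ (Z Y X₀ : Scheme.{0}) (g : Z ⟶ Y) (f : Y ⟶ X₀) (V : X₀.Opens)
  (h : Γ(X₀, V)), Processed f V h → Processed (g ≫ f) V h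

/-- SEP. Let `V` be an affine open subset of the variety `X₀`, and `S` a set of functions on `V` which together with `k` generate the ring `Γ(X₀, V)`; `f : Y → X₀` a morphism over `k`, `Y` integral, with `f⁻¹ V` not empty, and `y` a point of `Y` such that for all `h ∈ S` the pull-back of `h` extends to a neighbourhood of `y`. Then `f y ∈ V`. Proof. Let `K` be the function field of `Y`, `O = O_(Y, y) ⊆ K`. The homomorphism `Γ(X₀, V) → Γ(Y, f⁻¹ V) → K` has values in `O` (true for `h ∈ S` and for
constants, which come from `Γ(X₀, ⊤)`-free functions on `Spec k`: `Y → Spec k`). This gives `g : Spec O → V → X₀`, over `k`, and `Spec O → Y → X₀`; both agree on `Spec K`; since `X₀` is separated and `Spec O` is integral they agree (the equaliser is a closed subscheme containing the generic point; `ext_of_isDominant_of_isSeparated` or similar). The closed point of `Spec O` maps to `f y`, and to `V`. (2) finite generating sets exist (`LocallyOfFiniteType`). -/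
def S_SEP : Prop :=
  (∀ (k : Type) [Field k] (X₀ : Var k) (V : X₀.X.Opens) (Y : Scheme.{0}) (f : Y ⟶ X₀.X)
    (_ : IsIntegral Y) (S : Set Γ(X₀.X, V)) (y : Y), IsAffineOpen V → (∃ z : Y, f z ∈ V) →
    Subring.closure (Set.range ((Scheme.ΓSpecIso (CommRingCat.of k)).inv ≫
      X₀.f.appLE ⊤ V le_top).hom ∪ S) = ⊤ →
    (∀ h ∈ S, ∃ (O : Y.Opens) (g : Γ(Y, O)) (hO : f ⁻¹ᵁ V ≤ O), y ∈ O ∧
      Y.presheaf.map (homOfLE hO).op g = f.app V h) → f y ∈ V) ∧
  ∀ (k : Type) [Field k] (X₀ : Var k) (V : X₀.X.Opens), IsAffineOpen V →
    ∃ S : Finset Γ(X₀.X, V), Subring.closure (Set.range ((Scheme.ΓSpecIso (CommRingCat.of k)).inv ≫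
      X₀.f.appLE ⊤ V le_top).hom ∪ (S : Set Γ(X₀.X, V))) = ⊤

/-- QAF. The criterion. `f : Y → X₀` affine, `Y` integral, `𝒱` a set of affine open subsets covering `X₀`, `S V` finite generating sets as in S_SEP; all `h ∈ S V` are processed if `f⁻¹ V` is not empty. Then `Y` is quasi-affine. Let `y ∈ Y`, `f y ∈ V ∈ 𝒱`. For `h ∈ S V` there is `b_h` among the functions in `Processed` with `y ∈ D(b_h)` (as `f⁻¹ V ≤ O_h`); let `b` be the product of the `b_h`. For `y' ∈ D(b)` all the pull-backs of the `h ∈ S V` extend to neighbourhoods `O_h` of `y'`, so `f y' ∈ V` by S_SEP.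
So `D(b) ⊆ f⁻¹ V`, an affine open subset, and `D(b)` is a basic open subset of it: affine. Now `IsQuasiAffine.of_forall_exists_mem_basicOpen` (`Y` is quasi-compact, being a variety: `Var.compactSpace`). -/
def S_QAF : Prop := ∀ (k : Type) [Field k] (X₀ Y : Var k) (f : Y.X ⟶ X₀.X) (_ : IsAffineHom f)
  (_ : IsIntegral Y.X) (𝒱 : Set X₀.X.Opens) (S : ∀ V : X₀.X.Opens, Finset Γ(X₀.X, V)),
  (∀ x : X₀.X, ∃ V ∈ 𝒱, x ∈ V) →
  (∀ V ∈ 𝒱, IsAffineOpen V ∧ Subring.closure (Set.range
    ((Scheme.ΓSpecIso (CommRingCat.of k)).inv ≫ X₀.f.appLE ⊤ V le_top).hom ∪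
      (S V : Set Γ(X₀.X, V))) = ⊤) →
  (∀ V ∈ 𝒱, (∃ y : Y.X, f y ∈ V) → ∀ h ∈ S V, Processed f V h) → Y.X.IsQuasiAffine

def M_QAF : Prop := S_SEP → S_QAF

/-- QEM. A quasi-affine variety is an open subvariety of an affine variety. `Y` is covered by finitely many affine `D(b_r)`, `b_r ∈ Γ = Γ(Y, ⊤)`; `Γ(D(b_r))` is the localisation of `Γ` at `b_r` (`isLocalization_basicOpen_of_qcqs`), of finite type over `k`, generated by elements `g_(r s) / b_r^N`. Let `A ⊆ Γ` be the `k`-algebra generated by the `b_r, g_(r s)` (`k → Γ` from the structure morphism). `Y → Spec Γ → Spec A` is an open immersion: over `D(b_r) ⊆ Spec A` it is the isomorphism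
`Spec Γ_(b_r) → Spec A_(b_r)`, as in the proof of `of_forall_exists_mem_basicOpen` in QuasiAffine.lean. -/
def S_QEM : Prop := ∀ (k : Type) [Field k] (Y : Var k), Y.X.IsQuasiAffine →
  ∃ (A : Type) (_ : CommRing A) (_ : Algebra k A) (_ : Algebra.FiniteType k A),
    Nonempty (OpenIn Y (aff k A))

/-- FDM. Every variety has finite dimension; the dimension of a point of `Spec A` is the transcendence degree of `A / p`, at most the number of generators of `A` (S_DIM1 in CUB); finitely many charts. -/
def S_FDM : Prop := ∀ (k : Type) [Field k] (X : Var k), ∃ n : ℕ, X.DimLE n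

end CUB
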