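import Pool.Agent.CUB2.StmtsK
import Pool.Agent.CUB2.StmtsG

/-!
# CUB2, block F: the induction (statements)

Module `X` proves `theorem t_X : M_X` in the namespace `CUB`, in the file `Pool/Agent/CUB2/F_X.lean`, importing this file.
-/

set_option autoImplicit false

open CategoryTheory AlgebraicGeometry Limits Polynomial TopologicalSpace

namespace CUB

open Pool.Agent.Lib_helper55.Beil Pool.Agent.Lib_helper66.OneP

universe v

/-- CHN. The inductive step. Let `P(d)`: `InjC (T i) X` for all `i` and all `X` with `X.DimLE (i + d)`. Suppose `P(d)`; to prove `P(d + 1)`. By S_REDI we may assume that `X` is integral (closed subvarieties have smaller dimension, `dim_map`). Fix `X₀ = X`, a finite set `𝒱` of affine open subsets covering `X₀` (quasi-compactness), and finite generating sets `S V` (S_SEP (2)).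
Claim B: for all `m`, all integral varieties `Y` with an affine morphism `f : Y → X₀` over `k` and all `i` with `Y.DimLE (i + (d + 1))` such that there are at most `m` pairs `(V, h)`, `V ∈ 𝒱`, `h ∈ S V`, with `f⁻¹ V ≠ ∅` which are not processed (`¬ Processed f V h`): `InjC (T i) Y`. Induction on `m`. If all pairs with `f⁻¹ V ≠ ∅` are processed, `Y` is quasi-affine by S_QAF, so open in an affine variety (S_QEM), use S_OPEN and the hypothesis on affine varieties.
Otherwise let `(V, h)` be a pair with `f⁻¹ V ≠ ∅` which is not processed and apply S_GST to `f, V, h`: `X₁, P, Y', M, B, σ, j, g`. `InjC (T (i + 1)) Y'` by Claim B for `m - 1`: the pairs not processed for `g` with `g⁻¹ V' ≠ ∅` are not processed for `f` (S_PPE, `g` factors through `f`) and `f⁻¹ V' ≠ ∅`, and `(V, h)` is processed for `g`; `Y'.DimLE ((i + 1) + (d + 1))`. `InjC (T (i + 1)) X₁` by `P(d)`, as `X₁.DimLE ((i + 1) + d)`. So `InjC (T i) X₁` by S_DESC.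
`InjC (T i) M.Z` by `P(d)`: `Y` is integral and `M.U` is not empty, so the points of `M.Z` are not the generic point and have dimension smaller than that of the generic point (S_DST). S_MOD gives `InjC (T i) Y`, with the hypothesis on push-forwards. Apply Claim B to `Y = X₀`, `f = 𝟙`. -/
def S_CHN : Prop := ∀ (k E : Type) [Field k] [Finite k] [Field E] [CharZero E]
  (T : ∀ i : ℕ, Homology.{v} k E i) (_ : Full T) (d : ℕ),
  (∀ (i : ℕ) (Z : Var k), (T i).Surj Z ∧ (T i).Semisimple Z) →
  (∀ (i : ℕ) (X : Var k), IsAffine X.X → (T i).InjC X) →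
  (∀ (i : ℕ) (X : Var k), X.DimLE (i + d) → (T i).InjC X) →
  (∀ (i : ℕ) (X' X : Var k) (M : Modif X' X), IsIntegral X'.X → IsIntegral X.X →
    X.DimLE (i + (d + 1)) → (∃ x : X.X, x ∈ Set.range M.j.g) →
    ∀ c ∈ ratZero E i X', pfc E i M.f c ∈ ratZero E i X) →
  ∀ (i : ℕ) (X : Var k), X.DimLE (i + (d + 1)) → (T i).InjC X

def M_CHN : Prop := S_DST → S_GST → S_PPE → S_SEP → S_QAF → S_QEM → S_OPEN.{v} → S_MOD.{v} →
  S_DESC.{v} → S_REDI.{v} → S_CHN.{v}

/-- IND. `P(d)` for all `d` by induction on `d`: `P(0)` is S_P0; `P(d)` implies `P(d + 1)` by S_CHN. The hypothesis of S_CHN on push-forwards: if `d ≥ 1` then `P(1)` holds (`P(d)` implies `P(1)`: the condition `X.DimLE (i + 1)` implies `X.DimLE (i + d)`), so S_PUSHR. If `d = 0`: `X', X` integral, `X.DimLE (i + 1)`, use S_PUSHG: let `x` be a point of `X'` of dimension `i + 1`. The generic point `ξ'` of `X'` is in `U'` (nonempty since isomorphic to `U`), its image in `X` is the generic point `ξ`, of the same dimension (isomorphism over `U`). So `dim ξ' ≤ i + 1`,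
`x` is a specialisation of `ξ'` of dimension `i + 1`, so `x = ξ'` (S_DST) and `dim (f x) = dim ξ = i + 1`. Finally every variety has finite dimension (S_FDM). -/
def S_IND : Prop := ∀ (k E : Type) [Field k] [Finite k] [Field E] [CharZero E]
  (T : ∀ i : ℕ, Homology.{v} k E i) (_ : Full T),
  (∀ (i : ℕ) (Z : Var k), (T i).Surj Z ∧ (T i).Semisimple Z) →
  (∀ (i : ℕ) (X : Var k), IsAffine X.X → (T i).InjC X) →
  ∀ (i : ℕ) (X : Var k), (T i).InjC X

def M_IND : Prop := S_DST → S_FDM → S_P0.{v} → S_PUSHG → S_PUSHR.{v} → S_CHN.{v} → S_IND.{v}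

end CUB
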