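import Pool.Agent.CUB2.Defs5
import Pool.Agent.CUB.StmtsR

/-!
# CUB2, block L: rings (statements)

Module `X` proves `theorem t_X : M_X` (or `t_X : S_X` if there is no `M_X`) in the namespace `CUB`, in the file
`Pool/Agent/CUB2/L_X.lean`, importing this file.  The hypotheses of `M_X` are statements of other modules, of this file or of the finished project CUB
(`Pool/Agent/CUB/StmtsA.lean`, `StmtsR.lean`; the proofs are in `Pool/Agent/CUB/A_*.lean`, `R_*.lean` and may be imported and used directly instead).
`len I p` is the length of `A_p / I A_p` (`CUB/Defs.lean`), `RP k A n` the primes of dimension `n`, `IsDv k E q a c`: `c` is the divisor of `a` on `V(q)`, `lC C M` the length of the `C`-module `M`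
as a natural number, `HH A` the primes which are neither zero nor maximal.
-/

set_option autoImplicit false

open Polynomial

namespace CUB

/-- The degree of the residue field of `P` over the residue field of its preimage. -/
noncomputable def rdeg {A B : Type} [CommRing A] [CommRing B] (φ : A →+* B)
    (P : PrimeSpectrum B) : ℕ :=
  @Module.finrank (PrimeSpectrum.comap φ P).asIdeal.ResidueField P.asIdeal.ResidueField _ _
    (Ideal.ResidueField.map (PrimeSpectrum.comap φ P).asIdeal P.asIdeal φ rfl).toAlgebra.toModule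

/-- SYM. The symmetric formula: `C` a Noetherian local domain of dimension at most two, `x, y` nonzero without a common prime of height one. This is S_DISJ (`CUB/StmtsR`, proof in `CUB/R_DISJ.lean`) for `A = C`, without normality: S_DEV for `M = C / x`, the element `y`, and `S` the primes in `HH C` containing `x`; the same with `x` and `y` exchanged; S_KOS. The facts of S_HHA for `A = C`
(they do not use normality) are elementary: `p ∈ HH C` has height one; finitely many contain `x ≠ 0` (minimal primes over `(x)`); `C / (p + y)` has finite length for `y ∉ p` (only the maximal ideal in its support). -/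
def S_SYM : Prop := ∀ (C : Type) [CommRing C] [IsDomain C] [IsLocalRing C] [IsNoetherianRing C],
  (∀ P P' : Ideal C, P.IsPrime → P'.IsPrime → P ≠ ⊥ → P < P' → P' = IsLocalRing.maximalIdeal C) →
  ∀ x y : C, x ≠ 0 → y ≠ 0 → (∀ p ∈ HH C, x ∈ p.asIdeal → y ∉ p.asIdeal) →
  ∀ W : Finset (PrimeSpectrum C), (∀ p ∈ W, p ∈ HH C) →
  (∀ p ∈ HH C, x ∈ p.asIdeal ∨ y ∈ p.asIdeal → p ∈ W) →
  ∑ p ∈ W, len (Ideal.span {x}) p * lC C (C ⧸ (p.asIdeal ⊔ Ideal.span {y})) =
    ∑ p ∈ W, len (Ideal.span {y}) p * lC C (C ⧸ (p.asIdeal ⊔ Ideal.span {x}))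

def M_SYM : Prop := S_DEV → S_KOS → S_SYM

/-- SYMA. The symmetric formula on an algebra of finite type. `c = div_q x`, `d = div_q y`, `g P = div_P y` for `P` in the support of `c`, `h T = div_T x` for `T` in the support of `d`. Evaluate at a prime `m` of dimension `n`. If `q ⊄ m` both sides are zero (S_LENC (2)). Otherwise let `C = (A / q)_m`: a Noetherian local domain; a prime strictly between `q` and `m` has dimension `n + 1` (S_DIM1), which gives
the condition on dimensions. `z ↦ z C` is a bijection from the primes `z` of dimension `n + 1` with `q ≤ z ≤ m` to `HH C`; `len (q ⊔ x) z = len (x) (z C)` and `len (z ⊔ y) m = lC C (C / (z C + y))` (see the proof of GREC in `CUB/StmtsR`, file `CUB/R_GREC.lean`). There is no common prime: if `x, y ∈ z`, `q ≤ z`, `dim z = n + 1` then `c z ≠ 0` (S_LENC (3), characteristic zero) and `y ∉ z` by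
hypothesis. Apply S_SYM. -/
def S_SYMA : Prop := ∀ (k A E : Type) [Field k] [CommRing A] [Algebra k A]
  [Algebra.FiniteType k A] [Field E] [CharZero E] (n : ℕ) (q : RP k A (n + 1 + 1)) (x y : A)
  (c d : RP k A (n + 1) →₀ E) (g h : RP k A (n + 1) → (RP k A n →₀ E)), x ∉ q.1.asIdeal →
  y ∉ q.1.asIdeal → IsDv k E q.1 x c → IsDv k E q.1 y d →
  (∀ P, c P ≠ 0 → y ∉ P.1.asIdeal ∧ IsDv k E P.1 y (g P)) →
  (∀ P, d P ≠ 0 → x ∉ P.1.asIdeal ∧ IsDv k E P.1 x (h P)) →
  c.sum (fun P e => e • g P) = d.sum (fun P e => e • h P)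

def M_SYMA : Prop := S_DIM1 → S_LENA → S_LENB → S_LENC → S_SYM → S_SYMA

/-- LSUM. Lengths over a finite extension. `D` is finite over the Noetherian ring `B`, `M` a finitely generated `D`-module such that `M_p` has finite length over `B_p`. Then `length_(B_p) M_p = ∑_(P over p) [κ(P) : κ(p)] length_(D_P) M_P`. Dévissage (`IsNoetherianRing.induction_on_isQuotientEquivQuotientPrime` or as in `CUB/A_HER.lean`, `CUB/R_DEV.lean`): both sides are additive in short exact sequences
(localisation is exact). For `M = D / Q`, `Q` a prime of `D`, `q = Q ∩ B`: if `q ⊄ p` both sides vanish. If `q < p` then `M_p` contains `B_p / q B_p`, a domain which is not a field, so it does not have finite length. If `q = p`: `M_p` is `κ(Q)` (`D / Q` is finite over the domain `B / q`), of length `[κ(Q) : κ(p)]`, and `M_P = 0` for `P ≠ Q` over `p` (incomparability), `M_Q = κ(Q)` has length one. -/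
def S_LSUM : Prop := ∀ (B D : Type) [CommRing B] [IsNoetherianRing B] [CommRing D] [Algebra B D]
  [Module.Finite B D] (p : PrimeSpectrum B) (S : Finset (PrimeSpectrum D)),
  (∀ P, P ∈ S ↔ PrimeSpectrum.comap (algebraMap B D) P = p) →
  ∀ (M : Type) [AddCommGroup M] [Module D M] [Module B M] [IsScalarTower B D M]
    [Module.Finite D M],
  Module.length (Localization.AtPrime p.asIdeal) (LocalizedModule p.asIdeal.primeCompl M) ≠ ⊤ →
  Module.length (Localization.AtPrime p.asIdeal) (LocalizedModule p.asIdeal.primeCompl M) =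
    ∑ P ∈ S, (rdeg (algebraMap B D) P : ℕ∞) * Module.length (Localization.AtPrime P.asIdeal)
      (LocalizedModule P.asIdeal.primeCompl M)

/-- LSUQ. The case `M = D / x`, in terms of `len`, for algebras of finite type: `D` finite over `B`, `x ∈ D`, and `D_p / x` of finite length over `B_p`. (`len (x) P` is the length of `D_P / x D_P`, the localisation of `D / x` at `P`; the localisation of the `B`-module `D / x` at `p` is the quotient of `D_p` by `x`.) -/
def S_LSUQ : Prop := ∀ (B D : Type) [CommRing B] [IsNoetherianRing B] [CommRing D] [Algebra B D]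
  [Module.Finite B D] (p : PrimeSpectrum B) (S : Finset (PrimeSpectrum D)) (I : Ideal D),
  (∀ P, P ∈ S ↔ PrimeSpectrum.comap (algebraMap B D) P = p) →
  Module.length (Localization.AtPrime p.asIdeal)
    (LocalizedModule p.asIdeal.primeCompl (D ⧸ I)) ≠ ⊤ →
  lC (Localization.AtPrime p.asIdeal) (LocalizedModule p.asIdeal.primeCompl (D ⧸ I)) =
    ∑ P ∈ S, rdeg (algebraMap B D) P * len I P

def M_LSUQ : Prop := S_LSUM → S_LSUQ

/-- NPU. The divisor of the norm. `B ⊆ B₁` domains of finite type over `k`, `B₁` finite over `B`, `dim B = n + 1`, fraction fields `F ⊆ L`, `p` a prime of `B` of dimension `n`, `x ∈ B₁` with norm `b / c`. Localise at `p`: `C = B_p`, a Noetherian local domain of dimension one (a nonzero prime contained in `p` is `p` by S_DIM1), `C₁ = ` the localisation of `B₁` at the elements of `B ∖ p`, finite over `C`; S_NORM for `C`, `C₁`, `F`, `L`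
(`C / x` has finite length for `x ≠ 0`: `isFiniteLength_quotient_span_singleton` or similar) gives `length_C (C₁ / x) + length_C (C / c) = length_C (C / b)`, and `length_C (C₁ / x) = ∑ rdeg P * len (x) P` by S_LSUQ (`C₁ / x` is the localisation of the `B`-module `B₁ / x` at `p`). -/
def S_NPU : Prop := ∀ (k B B₁ F L : Type) [Field k] [CommRing B] [IsDomain B] [CommRing B₁]
  [IsDomain B₁] [Algebra k B] [Algebra k B₁] [Algebra.FiniteType k B] [Algebra.FiniteType k B₁]
  [Field F] [Field L] [Algebra B B₁] [IsScalarTower k B B₁] [Algebra B F] [Algebra B L]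
  [Algebra B₁ L] [Algebra F L] [IsScalarTower B B₁ L] [IsScalarTower B F L]
  [IsFractionRing B F] [IsFractionRing B₁ L] [Module.Finite B B₁] [Module.Finite F L] (n : ℕ)
  (p : RP k B n) (S : Finset (RP k B₁ n)), Algebra.trdeg k B = (n + 1 : ℕ) →
  (∀ P : RP k B₁ n, P ∈ S ↔ PrimeSpectrum.comap (algebraMap B B₁) P.1 = p.1) →
  ∀ (x : B₁) (b c : B), x ≠ 0 → b ≠ 0 → c ≠ 0 →
  Algebra.norm F (algebraMap B₁ L x) * algebraMap B F c = algebraMap B F b →
  ∑ P ∈ S, rdeg (algebraMap B B₁) P.1 * len (Ideal.span {x}) P.1 + len (Ideal.span {c}) p.1 =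
    len (Ideal.span {b}) p.1

def M_NPU : Prop := S_DIM1 → S_NORM → S_LSUQ → S_NPU

/-- CNTA. The fibre of `V(π) ⊆ X × A^1` over a point. `π ∈ R[X]` monic, `p` a prime of `R` of dimension `n`, `P = p R[X]`, of dimension `n + 1`. `D = R[X] / (π)` is free over `R` with basis `1, .., X^(deg π - 1)`. S_LSUQ for `R`, `D`, `I = p D`: the localisation of `D / p D` at `p` is `κ(p)[X] / π`, of length `deg π` over `R_p`. The primes of `D` over `p` are the primes `Q ∋ π` of `R[X]` over `p`; `len (p D) Q = len (P ⊔ (π)) Q`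
(S_LENA for `R[X] → D`), and the residue degrees agree (the residue fields of `D` and of `R[X]` at `Q` agree). They have dimension `n` (integral extension). -/
def S_CNTA : Prop := ∀ (k R : Type) [Field k] [CommRing R] [Algebra k R]
  [Algebra.FiniteType k R] (n : ℕ) (p : RP k R n) (P : RP k R[X] (n + 1)) (π : R[X])
  (S : Finset (RP k R[X] n)), π.Monic → P.1.asIdeal = p.1.asIdeal.map (C : R →+* R[X]) →
  (∀ Q : RP k R[X] n, Q ∈ S ↔ PrimeSpectrum.comap (C : R →+* R[X]) Q.1 = p.1 ∧
    π ∈ Q.1.asIdeal) →
  ∑ Q ∈ S, rdeg (C : R →+* R[X]) Q.1 * len (P.1.asIdeal ⊔ Ideal.span {π}) Q.1 = π.natDegree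

def M_CNTA : Prop := S_DIM1 → S_LENA → S_LSUQ → S_CNTA

/-- CNTD. A prime `Q` of `R[X]` of dimension `n` containing `p` (a prime of dimension `n`) and the monic polynomial `π` lies over `p`: `R / (Q ∩ R) → R[X] / Q` is integral, so the dimensions agree, and `p ≤ Q ∩ R`; S_DIM1. More generally a prime containing a monic polynomial has the same dimension as its contraction. -/
def S_CNTD : Prop := ∀ (k R : Type) [Field k] [CommRing R] [Algebra k R]
  [Algebra.FiniteType k R] (π : R[X]), π.Monic →
  (∀ Q : PrimeSpectrum R[X], π ∈ Q.asIdeal →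
    rdim k (PrimeSpectrum.comap (C : R →+* R[X]) Q) = rdim k Q) ∧
  ∀ (n : ℕ) (p : RP k R n) (Q : RP k R[X] n), π ∈ Q.1.asIdeal →
    p.1.asIdeal.map (C : R →+* R[X]) ≤ Q.1.asIdeal →
    PrimeSpectrum.comap (C : R →+* R[X]) Q.1 = p.1

def M_CNTD : Prop := S_DIM1 → S_CNTD

end CUB
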