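import Pool.Agent.CUB2.StmtsH
import Pool.Agent.CUB2.StmtsL

/-!
# CUB2, block K: cycles on varieties (statements)

Module `X` proves `theorem t_X : M_X` (or `t_X : S_X` if there is no `M_X`) in the namespace `CUB`, in the file
`Pool/Agent/CUB2/K_X.lean`, importing this file.  The hypotheses of `M_X` are statements of other modules.
The bridge between schemes and rings: `CUB/Bridge.lean` and `CUB/BR1` - `BR5` (`toPt`, `ofPt`, `ptE`, `cyE`, `isDiv_iff`, `exists_fnA`, `fnA`, `cq`, `exists_aff`, `dim_toPt`),
`Lib_helper66/OneP/Loc` (`resCyc`, `isDiv_res`, `isDiv_unique`, `exists_div`, `exists_isDiv`), `OneP/Ord` (`funMap`, `ord_funMap`), `OneP/Fin` (`finite_ord`, `exists_unit`).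
A chart of `X` is an open immersion `j : OpenIn (aff k A) X`.  The aim of the block is `S_PUSHG` and `S_L4`.
-/

set_option autoImplicit false

open CategoryTheory AlgebraicGeometry Limits Polynomial TopologicalSpace

namespace CUB

open Pool.Agent.Lib_helper55.Beil Pool.Agent.Lib_helper66.OneP

universe v

/-- The restriction of a cycle to a chart, as a cycle on the ring. -/
noncomputable def rc {k : Type} [Field k] {A : Type} [CommRing A] [Algebra k A]
    [Algebra.FiniteType k A] {X : Var k} (E : Type) [Field E] (n : ℕ) (j : OpenIn (aff k A) X)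
    (c : Pts n X →₀ E) : RP k A n →₀ E :=
  (cyE E n).symm (resCyc j c)

/-- The restriction of a global function to a chart. -/
noncomputable def rfn {k : Type} [Field k] {A : Type} [CommRing A] [Algebra k A]
    [Algebra.FiniteType k A] {X : Var k} (j : OpenIn (aff k A) X) (π : Γ(X.X, ⊤)) : A :=
  (Scheme.ΓSpecIso (CommRingCat.of A)).hom (j.g.appTop π)

/-! ## 1. Charts -/

/-- CHA. Charts. (1) every point has small affine neighbourhoods (`exists_aff`, `openVar`). (2) a nonempty chart of an integral variety is `Spec` of a domain. (3) cycles are determined by their restrictions to charts. (4) `W` an integral closed subvariety of `X` with generic point `P`, `j` a chart. If `P` is not in the chart then no point of `W` is (the chart is open). (5) If `P = j p` then `W ∩ Spec A = Spec (A / p)`: there is an open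
immersion `h : Spec (A / p) → W` compatible with `j`, whose image is the preimage of the chart (`pullback a.g j.g` is a reduced closed subscheme of `Spec A`, integral, see `interVar`; a closed subscheme of `Spec A` is `Spec (A / I)`, `IsClosedImmersion.Spec_iff`; `I` is prime with generic point `p`). (6) points and dimensions in a chart. -/
def S_CHA : Prop :=
  (∀ (k : Type) [Field k] (X : Var k) (x : X.X) (O : X.X.Opens), x ∈ O →
    ∃ (A : Type) (_ : CommRing A) (_ : Algebra k A) (_ : Algebra.FiniteType k A)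
      (j : OpenIn (aff k A) X), x ∈ Set.range j.g ∧ Set.range j.g ⊆ O) ∧
  (∀ (k A : Type) [Field k] [CommRing A] [Algebra k A] [Algebra.FiniteType k A] (X : Var k)
    (_ : IsIntegral X.X) (_ : OpenIn (aff k A) X) (_ : (aff k A).X), IsDomain A) ∧
  (∀ (k E : Type) [Field k] [Field E] (n : ℕ) (X : Var k) (c c' : Pts n X →₀ E),
    (∀ (A : Type) [CommRing A] [Algebra k A] [Algebra.FiniteType k A]
      (j : OpenIn (aff k A) X), rc E n j c = rc E n j c') → c = c') ∧
  (∀ (k A : Type) [Field k] [CommRing A] [Algebra k A] [Algebra.FiniteType k A] (X W : Var k)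
    (_ : IsIntegral W.X) (a : ClosedIn W X) (j : OpenIn (aff k A) X),
    a.g (genericPoint W.X) ∉ Set.range j.g → ∀ w : W.X, a.g w ∉ Set.range j.g) ∧
  (∀ (k A : Type) [Field k] [CommRing A] [Algebra k A] [Algebra.FiniteType k A] (X W : Var k)
    (_ : IsIntegral W.X) (a : ClosedIn W X) (j : OpenIn (aff k A) X) (p : PrimeSpectrum A),
    a.g (genericPoint W.X) = j.g (toPt p) →
    ∃ h : (aff k (A ⧸ p.asIdeal)).X ⟶ W.X, IsOpenImmersion h ∧
      h ≫ a.g = (cq p.asIdeal).g ≫ j.g ∧ ∀ w : W.X, a.g w ∈ Set.range j.g → w ∈ Set.range h) ∧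
  (∀ (k A E : Type) [Field k] [CommRing A] [Algebra k A] [Algebra.FiniteType k A] [Field E]
    (n : ℕ) (X : Var k) (j : OpenIn (aff k A) X) (c : Pts n X →₀ E) (p : RP k A n)
    (P : Pts n X), j.g (toPt p.1) = P.1 → rc E n j c p = c P)

/-- DVC. Divisors in charts. `W` integral, `a : W → X`, `φ ≠ 0` a rational function on `W`, `IsDiv a φ c`, `j` a chart. (1) if the generic point `P` of `W` is not in the chart, the restriction of `c` is `0`. (2) if `P = j p`, there are `x, y ∈ A ∖ p` such that `φ` is `x / y` on the chart; for all such `x, y` the restriction of `c` is the difference of the divisors of `x` and `y` on `V(p)` (`isDiv_res` with `h` of S_CHA (5), `exists_fnA`, and `isDiv_iff`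
extended to fractions: `Scheme.ord_mul`). -/
def S_DVC : Prop :=
  (∀ (k A E : Type) [Field k] [CommRing A] [Algebra k A] [Algebra.FiniteType k A] [Field E]
    (n : ℕ) (X W : Var k) (_ : IsIntegral W.X) (a : ClosedIn W X) (φ : W.X.functionField)
    (c : Pts n X →₀ E) (j : OpenIn (aff k A) X), IsDiv a φ c →
    a.g (genericPoint W.X) ∉ Set.range j.g → rc E n j c = 0) ∧
  (∀ (k A E : Type) [Field k] [CommRing A] [Algebra k A] [Algebra.FiniteType k A] [Field E]
    (n : ℕ) (X W : Var k) (_ : IsIntegral W.X) (a : ClosedIn W X) (φ : W.X.functionField)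
    (c : Pts n X →₀ E) (j : OpenIn (aff k A) X) (p : RP k A (n + 1))
    (h : (aff k (A ⧸ p.1.asIdeal)).X ⟶ W.X) (_ : IsOpenImmersion h), φ ≠ 0 → IsDiv a φ c →
    h ≫ a.g = (cq p.1.asIdeal).g ≫ j.g →
    (∀ w : W.X, a.g w ∈ Set.range j.g → w ∈ Set.range h) →
    (∃ x y : A, x ∉ p.1.asIdeal ∧ y ∉ p.1.asIdeal ∧ funMap h φ *
      fnA k (Ideal.Quotient.mk p.1.asIdeal y) = fnA k (Ideal.Quotient.mk p.1.asIdeal x)) ∧
    ∀ x y : A, x ∉ p.1.asIdeal → y ∉ p.1.asIdeal →
      funMap h φ * fnA k (Ideal.Quotient.mk p.1.asIdeal y) =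
        fnA k (Ideal.Quotient.mk p.1.asIdeal x) →
      ∀ dx dy : RP k A n →₀ E, IsDv k E p.1 x dx → IsDv k E p.1 y dy → rc E n j c = dx - dy)

def M_DVC : Prop := S_DST → S_CHA → S_LENC → S_DVC

/-- GYS. The operation `gys π`. `gysPt E n π P` is the divisor of the function `π` on the closure `V` of `P`, if `π` is not zero at `P` (`π` is invertible at `P` iff its restriction to `V` is not zero); it does not depend on the choice of `V` (two integral closed subvarieties with the same generic point are isomorphic over `Y`; or: its value at a point is determined by S_DVC). (1) uniqueness and existence. (2) in a chart: the divisor of `π` on `V(p)`. (3) compatible with closed immersions. (4) the support of `gys π c`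
is contained in the zero set of `π`. -/
def S_GYS : Prop :=
  (∀ (k E : Type) [Field k] [Field E] (n : ℕ) (Y : Var k) (π : Γ(Y.X, ⊤)) (P : Pts (n + 1) Y),
    P.1 ∈ Y.X.basicOpen π → IsFDv π P.1 (gysPt E n π P) ∧
      ∀ c : Pts n Y →₀ E, IsFDv π P.1 c → c = gysPt E n π P) ∧
  (∀ (k A E : Type) [Field k] [CommRing A] [Algebra k A] [Algebra.FiniteType k A] [Field E]
    (n : ℕ) (Y : Var k) (π : Γ(Y.X, ⊤)) (P : Pts (n + 1) Y) (j : OpenIn (aff k A) Y),
    (P.1 ∉ Set.range j.g → rc E n j (gysPt E n π P) = 0) ∧
    ∀ p : RP k A (n + 1), j.g (toPt p.1) = P.1 → rfn j π ∉ p.1.asIdeal →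
      P.1 ∈ Y.X.basicOpen π ∧ IsDv k E p.1 (rfn j π) (rc E n j (gysPt E n π P))) ∧
  (∀ (k A : Type) [Field k] [CommRing A] [Algebra k A] [Algebra.FiniteType k A]
    (Y : Var k) (π : Γ(Y.X, ⊤)) (j : OpenIn (aff k A) Y) (p : PrimeSpectrum A),
    j.g (toPt p) ∈ Y.X.basicOpen π ↔ rfn j π ∉ p.asIdeal) ∧
  (∀ (k E : Type) [Field k] [Field E] (n : ℕ) (W Y : Var k) (a : ClosedIn W Y)
    (π : Γ(Y.X, ⊤)) (c : Pts (n + 1) W →₀ E),
    gys E n π (pushCyc a c) = pushCyc a (gys E n (a.g.appTop π) c)) ∧
  (∀ (k E : Type) [Field k] [Field E] (n : ℕ) (Y : Var k) (π : Γ(Y.X, ⊤))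
    (c : Pts (n + 1) Y →₀ E) (x : Pts n Y), gys E n π c x ≠ 0 → x.1 ∉ Y.X.basicOpen π)

def M_GYS : Prop := S_DST → S_CHA → S_LENC → S_DVC → S_GYS

/-! ## 2. Intersection with the divisor of a function -/

/-- GDV. `W` integral of dimension `n + 2`, `φ ≠ 0`, `f` a unit on the open subset `U` with germ `φ`; `a : D → W` a closed subvariety, `T` a point of `D` of dimension `n + 1` whose image is in `U`. Let `V` be the closure of `T` in `D` (`closedVar`), an integral closed subvariety of `D`, and `φ_T` the rational function on `V` defined by `f`; `ρ` its divisor on `D` (`exists_div`), in `ratZero`. (1) if the image of `T` is not in the chart `j` of `W` then the restriction of `pushCyc a ρ` is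
zero. (2) if it is `j t`, and `φ = x / y` on the chart (`A` is a domain, `funMap j.g φ * fnA y = fnA x`), `x, y ∉ t`: the restriction of `pushCyc a ρ` is `div_t x - div_t y`. Indeed `V → D → W` is a closed immersion with generic point `a T`, `IsDiv (V → W) φ_T (pushCyc a ρ)`, and by S_DVC it is enough that `φ_T = x / y` modulo `t`: this is an identity of sections `f y = x` near `a T`. -/
def S_GDV : Prop := ∀ (k E : Type) [Field k] [Field E] (n : ℕ) (W D : Var k)
  (_ : IsIntegral W.X) (a : ClosedIn D W) (φ : W.X.functionField) (U : W.X.Opens)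
  (hU : genericPoint W.X ∈ U) (f : Γ(W.X, U)), IsUnit f →
  W.X.presheaf.germ U (genericPoint W.X) hU f = φ → ∀ T : Pts (n + 1) D, a.g T.1 ∈ U →
  ∃ ρ ∈ ratZero E n D, ∀ (A : Type) [CommRing A] [Algebra k A] [Algebra.FiniteType k A]
    (j : OpenIn (aff k A) W),
    (a.g T.1 ∉ Set.range j.g → rc E n j (pushCyc a ρ) = 0) ∧
    ∀ (_ : IsDomain A) (_ : IsOpenImmersion j.g) (t : RP k A (n + 1)) (x y : A),
      j.g (toPt t.1) = a.g T.1 → x ∉ t.1.asIdeal → y ∉ t.1.asIdeal →
      funMap j.g φ * fnA k y = fnA k x → ∀ dx dy : RP k A n →₀ E, IsDv k E t.1 x dx →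
      IsDv k E t.1 y dy → rc E n j (pushCyc a ρ) = dx - dy

def M_GDV : Prop := S_DST → S_CHA → S_DVC → S_GDV

/-- SYMW. `W` integral of dimension `n + 2`, `φ ≠ 0` with divisor `c`. There is a finite set `F` of points of `W` such that for all functions `π` which do not vanish at the points of `F`: `gys π c` is rationally equivalent to zero on the zero set `D` of `π`. Proof. Choose `U, f` (`exists_unit`) and finitely many charts `j_s` covering `W` (S_CHA (1), quasi-compactness), rings `A_s`, `φ = x_s / y_s` on `A_s` (`exists_fnA`). `F` consists of the generic point of `W`, the points of the support of `c`, the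
points of dimension `n + 1` of `W ∖ U` (finitely many: maximal points of a Noetherian space, `finite_maximal`), and the points `j_s p`, `dim p = n + 1`, `x_s ∈ p` or `y_s ∈ p` (finitely many, minimal primes). Let `π` be as above and `T` run through the points of `D` of dimension `n + 1` (finitely many: their images are points where `π` has nonzero order, `finite_ord`); `a T ∉ F`, so S_GDV gives `ρ_T`. `m_T = ` order of `π` at `a T` = `len (π_s) t` in a chart. `ρ = ∑ m_T ρ_T`.
To prove `pushCyc a ρ = gys π c` compare in the chart `j_s` (S_CHA (3); it is enough to use the charts `j_s`, evaluate at points, S_CHA (6)): with `q = ⊥` in the domain `A_s`, `π_s = rfn j_s π ∉ ⊥`: `rc c = dx - dy` (S_DVC), `dx, dy` the divisors of `x_s, y_s`; the restriction of `gys π c` is `∑_P (dx P - dy P) div_P π_s` (S_GYS (2)), and by S_SYMA, applied to `x_s, π_s` and to `y_s, π_s`: `∑_P dx(P) div_P π_s = ∑_T len(π_s)(T) div_T x_s`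
(the primes `T` of dimension `n + 1` containing `π_s` do not contain `x_s, y_s`, so also the primes `P` with `dx P ≠ 0` do not contain `π_s`). The right side is the restriction of `pushCyc a ρ`. -/
def S_SYMW : Prop := ∀ (k E : Type) [Field k] [Field E] [CharZero E] (n : ℕ) (W : Var k)
  (_ : IsIntegral W.X) (φ : W.X.functionField) (c : Pts (n + 1) W →₀ E),
  W.dim (genericPoint W.X) = (n + 1 + 1 : ℕ) → φ ≠ 0 → IsDiv (idIn W) φ c →
  ∃ F : Finset W.X, ∀ π : Γ(W.X, ⊤), (∀ y ∈ F, y ∈ W.X.basicOpen π) →
    ∀ (D : Var k) (a : ClosedIn D W), IsZeros a π →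
    ∃ ρ ∈ ratZero E n D, pushCyc a ρ = gys E n π c

def M_SYMW : Prop := S_DST → S_DIM1 → S_LENC → S_DVX → S_SYMA → S_CHA → S_DVC → S_GYS → S_GDV →
  S_SYMW

/-- GYR. The same for all cycles rationally equivalent to zero. Span induction (union of the sets `F`; the zero cycle: `F = ∅`). For a generator: `W, b : W → Y, φ`, `IsDiv b φ d`, `d = pushCyc b c` with `IsDiv (idIn W) φ c`. Take the image under `b` of the set `F` of S_SYMW. For `π` on `Y` apply S_SYMW to `b.g.appTop π` and `D' = ` the reduced zero set (`closedVar`) of it in `W`; `D' → Y` factors through `D`: `D' → D_red → D`, `factorC` or `liftC` (or use for `D` first the reduced case;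
`ratZero` of `D_red` is mapped to `ratZero` of `D`, `ratZero_map`). Push forward (`ratZero_map`, S_GYS (4)). -/
def S_GYR : Prop := ∀ (k E : Type) [Field k] [Field E] [CharZero E] (n : ℕ) (Y : Var k)
  (d : Pts (n + 1) Y →₀ E), d ∈ ratZero E (n + 1) Y →
  ∃ F : Finset Y.X, ∀ π : Γ(Y.X, ⊤), (∀ y ∈ F, y ∈ Y.X.basicOpen π) →
    ∀ (D : Var k) (a : ClosedIn D Y), IsZeros a π →
    ∃ ρ ∈ ratZero E n D, pushCyc a ρ = gys E n π d

def M_GYR : Prop := S_GYS → S_SYMW → S_GYR

/-! ## 3. The divisors `X × V(π)` -/

/-- PICK. `k[t]` has infinitely many monic irreducible polynomials (Euclid), and a point of `Y` maps to a prime of `k[t]`, which contains at most one of them. `y ∈ basicOpen (L.fn π)` iff `π` is not in the prime `L.t y`. -/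
def S_PICK : Prop := (∀ (k : Type) [Field k] (Y X : Var k) (L : Line Y X) (F : Finset Y.X),
    ∃ π : k[X], π.Monic ∧ Irreducible π ∧ ∀ y ∈ F, y ∈ Y.X.basicOpen (L.fn π)) ∧
  ∀ (k : Type) [Field k] (Y X : Var k) (L : Line Y X) (π : k[X]) (y : Y.X),
    y ∈ Y.X.basicOpen (L.fn π) ↔ π ∉ (show PrimeSpectrum k[X] from L.t y).asIdeal

/-- DPI. The closed subvariety `D = X × V(π)`, finite over `X`: the fibre product of `Y → A^1` and `V(π) = Spec k[t] / π → A^1`; `D → X` is the base change of the finite morphism `Spec (k[t] / π) → Spec k`. A finite morphism preserves the dimension of points (the residue field extension is finite). The chart: for a chart `j : Spec A → X` there is a chart `Spec A[X] → Y` over it (pasting of fibre products, `lineX`, uniqueness of `IsPullback`), under which `L.fn π` corresponds to `π`. -/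
def S_DPI : Prop :=
  (∀ (k : Type) [Field k] (Y X : Var k) (L : Line Y X) (π : k[X]), π.Monic →
    ∃ (D : Var k) (a : ClosedIn D Y) (f : PrMor D X), f.g = a.g ≫ L.q ∧ IsZeros a (L.fn π) ∧
      IsFinite f.g) ∧
  (∀ (k : Type) [Field k] (D X : Var k) (f : PrMor D X), IsFinite f.g →
    ∀ z : D.X, X.dim (f.g z) = D.dim z) ∧
  (∀ (k A : Type) [Field k] [CommRing A] [Algebra k A] [Algebra.FiniteType k A] (Y X : Var k)
    (L : Line Y X) (j : OpenIn (aff k A) X), ∃ j' : OpenIn (aff k A[X]) Y,
    j'.g ≫ L.q = spm (CC k A) ≫ j.g ∧ (∀ y : Y.X, L.q y ∈ Set.range j.g → y ∈ Set.range j'.g) ∧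
    ∀ π : k[X], rfn j' (L.fn π) = π.map (algebraMap k A))

/-- RDG. Residue degrees in charts. (1) the degree of a proper morphism which is `spm φ` on charts. (2) invariance: the degree at a point of an open subvariety. -/
def S_RDG : Prop := ∀ (k A B : Type) [Field k] [CommRing A] [CommRing B] [Algebra k A]
  [Algebra k B] [Algebra.FiniteType k A] [Algebra.FiniteType k B] (φ : A →ₐ[k] B)
  (X Y : Var k) (f : PrMor Y X) (j : OpenIn (aff k A) X) (j' : OpenIn (aff k B) Y),
  j'.g ≫ f.g = spm φ ≫ j.g → ∀ P : PrimeSpectrum B, f.deg (j'.g (toPt P)) = rdeg φ.toRingHom P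

/-- RDD. The degree does not change if the source is replaced by a larger variety: `a : D → Y` a closed immersion, `f : D → X` proper, with `D → X` equal to `a` followed by `q : Y → X`; in charts `Spec A` of `X` and `Spec B` of `Y` with `q` given by `φ`, the degree of `f` at a point `z` of `D` with `a z = j' P` is `rdeg φ P` (a closed immersion does not change residue fields). -/
def S_RDD : Prop := ∀ (k A B : Type) [Field k] [CommRing A] [CommRing B] [Algebra k A]
  [Algebra k B] [Algebra.FiniteType k A] [Algebra.FiniteType k B] (φ : A →ₐ[k] B)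
  (X Y D : Var k) (q : Y.X ⟶ X.X) (a : ClosedIn D Y) (f : PrMor D X) (j : OpenIn (aff k A) X)
  (j' : OpenIn (aff k B) Y), f.g = a.g ≫ q → j'.g ≫ q = spm φ ≫ j.g →
  ∀ (P : PrimeSpectrum B) (z : D.X), a.g z = j'.g (toPt P) → f.deg z = rdeg φ.toRingHom P

/-- CNT. The fibre of `D = X × V(π)` over a point `x` of dimension `n`. `P` the point of `Y` of dimension `n + 1` over `x`. `gysPt (L.fn π) P` is supported on `D`, so it is `pushCyc a g'` (`mem_range_ptsMap`). `pfc f g'` at a point `y` of dimension `n`: S_PFC (6), the sum over the points `z` of `D` over `y`. Take a chart `Spec A` of `X` around `y` and the chart `Spec A[X]` of S_DPI (3). If `P` is not in the chart both sides are zero (S_GYS (2); `x ≠ y`). If it is, `x = j p`, and `P` is the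
prime `p A[X]` (`pX` in CUB/BR5, S_LPT (2)); `gysPt` restricts to the divisor of `π` on `V(p A[X])` (S_GYS (2)), whose value at `Q` is `len (p A[X] ⊔ π) Q`; the nonzero values are at primes `Q ∋ π` over `p` (S_CNTD), so for `y ≠ x` the sum is zero, and for `y = x` it is `deg π` by S_CNTA, with S_RDD for the degrees. -/
def S_CNT : Prop := ∀ (k E : Type) [Field k] [Field E] (n : ℕ) (Y X D : Var k) (L : Line Y X)
  (π : k[X]) (a : ClosedIn D Y) (f : PrMor D X) (x : Pts n X) (P : Pts (n + 1) Y), π.Monic →
  f.g = a.g ≫ L.q → IsZeros a (L.fn π) → L.q P.1 = x.1 →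
  ∃ g' : Pts n D →₀ E, pushCyc a g' = gysPt E n (L.fn π) P ∧
    pfc E n f g' = Finsupp.single x (π.natDegree : E)

def M_CNT : Prop := S_PFC.{v} → S_LPT → S_CHA → S_GYS → S_PICK → S_DPI → S_RDD → S_CNTA →
  S_CNTD → S_LENC → S_CNT

/-! ## 4. Push-forward along generically finite morphisms -/

/-- FOV. `f : W → V` proper, `W`, `V` integral of dimension `n + 1`, generic point to generic point, `v` a point of `V` of dimension `n`. The points `w` over `v` satisfy `dim w ≥ n` (S_PFC (1)), and `dim w ≤ n` since `w` is not the generic point; so the fibre over `v`, of finite type over `κ(v)`, has only points algebraic over `κ(v)`: it is a finite set. By `exists_isFinite_morphismRestrict_of_finite_preimage_singleton` (Mathlib, AlgebraicGeometry/ZariskisMainTheorem) `f` is finite over a neighbourhood of `v`. (2) there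
are charts `Spec B` of `V` around `v` and `Spec B₁` of `W`, the preimage of `Spec B`, with `B → B₁` finite and injective. -/
def S_FOV : Prop := ∀ (k : Type) [Field k] (n : ℕ) (W V : Var k) (_ : IsIntegral W.X)
  (_ : IsIntegral V.X) (f : PrMor W V) (v : V.X), W.dim (genericPoint W.X) = (n + 1 : ℕ) →
  V.dim (genericPoint V.X) = (n + 1 : ℕ) → f.g (genericPoint W.X) = genericPoint V.X →
  V.dim v = n → ∃ (B B₁ : Type) (_ : CommRing B) (_ : CommRing B₁) (_ : Algebra k B)
    (_ : Algebra k B₁) (_ : Algebra.FiniteType k B) (_ : Algebra.FiniteType k B₁)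
    (φ : B →ₐ[k] B₁) (j : OpenIn (aff k B) V) (j₁ : OpenIn (aff k B₁) W),
    j₁.g ≫ f.g = spm φ ≫ j.g ∧ φ.toRingHom.Finite ∧ Function.Injective φ ∧ v ∈ Set.range j.g ∧
    ∀ w : W.X, f.g w ∈ Set.range j.g → w ∈ Set.range j₁.g

def M_FOV : Prop := S_PFC.{v} → S_DST → S_CHA → S_FOV

/-- PUSHD. The push-forward of the divisor of `φ` is the divisor of the norm of `φ`. `K(W)` is a finite extension of `K(V)` (in a chart of S_FOV; there is a point `v` of dimension `n`, otherwise there is nothing to prove since cycles on `V` are zero). Let `N` be the norm of `φ` and `d` its divisor on `V` (`exists_div`), in `ratZero`. To prove `pfc f c = d` evaluate at `v` of dimension `n`. Take the charts of S_FOV. `φ = x / y` with `x, y ∈ B₁`, `N(x) = b / c'`, `N(y) = b' / c''` with `b, ...` in `B`; `N = b c'' / (c' b')`. The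
value of `d` at `v = j p` is `len (b c'') p - len (c' b') p` (S_DVC with the prime `⊥`, S_LENC additivity), the value of `pfc f c` is `∑_P rdeg P (len (x) P - len (y) P)` over the primes `P` of `B₁` over `p` (S_PFC (6), S_RDG; all points of `W` over `v` are in the chart `Spec B₁`), and both agree by S_NPU for `x` and for `y`. -/
def S_PUSHD : Prop := ∀ (k E : Type) [Field k] [Field E] (n : ℕ) (W V : Var k)
  (_ : IsIntegral W.X) (_ : IsIntegral V.X) (f : PrMor W V) (φ : W.X.functionField)
  (c : Pts n W →₀ E), W.dim (genericPoint W.X) = (n + 1 : ℕ) →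
  V.dim (genericPoint V.X) = (n + 1 : ℕ) → f.g (genericPoint W.X) = genericPoint V.X →
  φ ≠ 0 → IsDiv (idIn W) φ c → pfc E n f c ∈ ratZero E n V

def M_PUSHD : Prop := S_PFC.{v} → S_DST → S_DIM1 → S_LENC → S_DVX → S_CHA → S_DVC → S_RDG → S_NPU →
  S_FOV → S_PUSHD

/-- PUSHG. Push-forward preserves rational equivalence if the points of dimension `n + 1` have images of dimension `n + 1`. A generator: `W, a, φ`, `d` the divisor on `W`; `V` = closure of the image of `W` in `Y`, `h : W → V` as in S_PUSHR; `dim V = n + 1` by hypothesis; S_PUSHD for `h`; S_PFC (2), (3), `ratZero_map`. -/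
def S_PUSHG : Prop := ∀ (k E : Type) [Field k] [Field E] (n : ℕ) (X Y : Var k) (f : PrMor X Y),
  (∀ x : X.X, X.dim x = (n + 1 : ℕ) → Y.dim (f.g x) = (n + 1 : ℕ)) →
  ∀ c ∈ ratZero E n X, pfc E n f c ∈ ratZero E n Y

def M_PUSHG : Prop := S_PFC.{v} → S_DST → S_PUSHD → S_PUSHG

/-! ## 5. Homotopy invariance -/

/-- L4F. Proof of S_L4. Let `F` be the set of S_GYR for `d`. Choose `π` by S_PICK for `F` and the support of `d`; `D, a, f` by S_DPI. `gys (L.fn π) d = pushCyc a ρ`, `ρ ∈ ratZero E i D`. By linearity `gys (L.fn π) d = ∑_x c(x) gysPt (L.fn π) P_x`, `P_x` the point of dimension `i + 1` over `x` (S_LPT (2), `IsPullC`), so by S_CNT and injectivity of `pushCyc a`: `ρ = ∑ c(x) g'_x`, `pfc f ρ = deg π • c`. `pfc f ρ ∈ ratZero E i X` by S_PUSHG (S_DPI (2)). `deg π ≠ 0` in `E` (irreducible polynomials have positive degree). -/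
def M_L4F : Prop := S_LPT → S_PCY.{v} → S_GYR → S_PICK → S_DPI → S_CNT → S_PUSHG → S_L4

end CUB
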